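import Pool.Agent.Lib.MP_7f581e_Z.Alt2.Spec

/-!
# Taylor coefficients at `1` and the two highest coefficients (`TEStmt`)
-/

namespace MP7Z.A2

open Polynomial MP7Z

section

variable {F : Type} [Field F] {n : ℕ}

/-- The sum over the pairs of elements of `s`. -/
def TE_e2 (s : Finset (Fin n)) (g : Fin n → F) : F :=
  ∑ j ∈ s, ∑ l ∈ s.filter (fun l => j < l), g j * g l

theorem TE_e2_insert (s : Finset (Fin n)) (a : Fin n) (ha : ∀ x ∈ s, x < a) (g : Fin n → F) :
    TE_e2 (insert a s) g = TE_e2 s g + (∑ j ∈ s, g j) * g a := by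
  have has : a ∉ s := fun h => lt_irrefl _ (ha a h)
  rw [TE_e2, Finset.sum_insert has]
  have h1 : (insert a s).filter (fun l => a < l) = ∅ := by
    rw [Finset.filter_eq_empty_iff]
    intro l hl
    rcases Finset.mem_insert.1 hl with rfl | hl
    · exact lt_irrefl _
    · exact not_lt.2 (ha l hl).le
  have h2 : ∀ j ∈ s, ∑ l ∈ (insert a s).filter (fun l => j < l), g j * g l =
      g j * g a + ∑ l ∈ s.filter (fun l => j < l), g j * g l := by
    intro j hj
    rw [Finset.filter_insert, if_pos (ha j hj),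
      Finset.sum_insert (fun h => has (Finset.mem_filter.1 h).1)]
  rw [h1, Finset.sum_empty, zero_add, Finset.sum_congr rfl h2, Finset.sum_add_distrib,
    ← Finset.sum_mul, add_comm]
  rfl

theorem TE_e2_univ (g : Fin n → F) : TE_e2 Finset.univ g = esym2 g := by
  rw [TE_e2, esym2]
  refine Finset.sum_congr rfl fun j _ => Finset.sum_congr ?_ fun _ _ => rfl
  ext l
  simp

theorem TE_coeff (h2 : (2 : F) = 0) (s : Finset (Fin n)) (t : Fin n → F) :
    (∏ j ∈ s, (1 + C (t j) * X)).coeff 0 = 1 ∧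
    (∏ j ∈ s, (1 + C (t j) * X)).coeff 1 = ∑ j ∈ s, t j ∧
    (∏ j ∈ s, (1 + C (t j) * X)).coeff 2 = TE_e2 s t ∧
    (∏ j ∈ s, (1 + C (t j) * X)).coeff 3 =
      ∑ j ∈ s, t j ^ 3 + (∑ j ∈ s, t j) ^ 3 + (∑ j ∈ s, t j) * TE_e2 s t := by
  induction s using Finset.induction_on_max with
  | empty =>
    simp [TE_e2, coeff_one]
  | insert a s ha ih =>
    have has : a ∉ s := fun h => lt_irrefl _ (ha a h)
    obtain ⟨h0, h1, h2', h3⟩ := ih
    rw [Finset.prod_insert has, add_mul, one_mul, mul_assoc, TE_e2_insert s a ha,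
      Finset.sum_insert has, Finset.sum_insert has]
    refine ⟨?_, ?_, ?_, ?_⟩
    · rw [coeff_add, coeff_C_mul, coeff_X_mul_zero, mul_zero, add_zero, h0]
    · rw [coeff_add, coeff_C_mul, coeff_X_mul, h0, h1, mul_one, add_comm]
    · rw [coeff_add, coeff_C_mul, coeff_X_mul, h1, h2', mul_comm (t a)]
    · rw [coeff_add, coeff_C_mul, coeff_X_mul, h2', h3]
      linear_combination (-t a ^ 3 - 2 * (∑ j ∈ s, t j) ^ 2 * t a -
        2 * (∑ j ∈ s, t j) * t a ^ 2) * h2

theorem TE_top (s : Finset (Fin n)) (y : Fin n → F) :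
    (∏ j ∈ s, (X + C (y j))).coeff s.card = 1 ∧
    (∀ a, a + 1 = s.card → (∏ j ∈ s, (X + C (y j))).coeff a = ∑ j ∈ s, y j) ∧
    (∀ a, a + 2 = s.card → (∏ j ∈ s, (X + C (y j))).coeff a = TE_e2 s y) := by
  induction s using Finset.induction_on_max with
  | empty =>
    refine ⟨by simp, fun a ha => ?_, fun a ha => ?_⟩
    · rw [Finset.card_empty] at ha
      omega
    · rw [Finset.card_empty] at ha
      omega
  | insert a s ha ih =>
    have has : a ∉ s := fun h => lt_irrefl _ (ha a h)
    obtain ⟨h0, h1, h2⟩ := ih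
    have hdeg : (∏ j ∈ s, (X + C (y j))).natDegree ≤ s.card := by
      refine (natDegree_prod_le _ _).trans ?_
      simp
    rw [Finset.prod_insert has, add_mul, TE_e2_insert s a ha,
      Finset.sum_insert has, Finset.card_insert_of_notMem has]
    refine ⟨?_, ?_, ?_⟩
    · rw [coeff_add, coeff_X_mul, h0, coeff_C_mul,
        coeff_eq_zero_of_natDegree_lt (Nat.lt_succ_of_le hdeg), mul_zero, add_zero]
    · intro b hb
      have hb' : b = s.card := by omega
      rw [coeff_add, coeff_C_mul, hb', h0, mul_one]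
      rcases Nat.eq_zero_or_pos s.card with h | h
      · rw [h, coeff_X_mul_zero]
        rw [Finset.card_eq_zero] at h
        rw [h, Finset.sum_empty, zero_add, add_zero]
      · obtain ⟨k, hk⟩ : ∃ k, s.card = k + 1 := ⟨s.card - 1, by omega⟩
        rw [hk, coeff_X_mul, h1 k hk.symm, add_comm]
    · intro b hb
      have hb' : b + 1 = s.card := by omega
      rw [coeff_add, coeff_C_mul, h1 b hb', mul_comm (y a)]
      congr 1
      rcases Nat.eq_zero_or_pos b with h | h
      · rw [h, coeff_X_mul_zero]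
        rw [h, zero_add] at hb'
        obtain ⟨x, hx⟩ := Finset.card_eq_one.1 hb'.symm
        rw [hx, TE_e2, Finset.sum_singleton, Finset.filter_singleton, if_neg (lt_irrefl _),
          Finset.sum_empty]
      · obtain ⟨k, hk⟩ : ∃ k, b = k + 1 := ⟨b - 1, by omega⟩
        rw [hk, coeff_X_mul, h2 k (by omega)]

end

theorem tTE : TEStmt := by
  intro n F _ _ P lc y hlc hP
  have := AType2.charP F
  have h20 := AType2.two_eq_zero F
  refine ⟨?_, ?_, ?_⟩
  · intro hP1 t ht
    have hev : P.eval 1 = lc * ∏ i, (y i + 1) := by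
      rw [hP, eval_mul, eval_C, eval_prod]
      congr 1
      refine Finset.prod_congr rfl fun i _ => ?_
      rw [eval_sub, eval_X, eval_C, CharTwo.sub_eq_add, add_comm]
    have hy : ∀ i, y i + 1 ≠ 0 := by
      intro i h
      apply hP1
      rw [hev, Finset.prod_eq_zero (Finset.mem_univ i) h, mul_zero]
    have htay : taylor 1 P = C (P.eval 1) * ∏ i, (1 + C (t i) * X) := by
      rw [hev]
      conv_lhs => rw [hP]
      rw [taylor_apply, mul_comp, C_comp, prod_comp, C_mul, map_prod, mul_assoc,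
        ← Finset.prod_mul_distrib]
      congr 1
      refine Finset.prod_congr rfl fun i _ => ?_
      rw [mul_add, mul_one, ← mul_assoc, ← C_mul, ht i, mul_inv_cancel₀ (hy i), C_1, one_mul,
        C_add, sub_comp, X_comp, C_comp, CharTwo.sub_eq_add, C_1]
      ring
    obtain ⟨q0, q1, q2, q3⟩ := TE_coeff h20 Finset.univ t
    refine ⟨fun i h => hy i ?_, ?_, ?_, ?_⟩
    · rw [h]
      exact CharTwo.add_self_eq_zero 1
    · rw [← taylor_coeff_one, htay, coeff_C_mul, q1, mul_comm]
    · rw [← taylor_coeff, htay, coeff_C_mul, q2, TE_e2_univ, mul_comm]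
    · rw [← taylor_coeff, htay, coeff_C_mul, q3, TE_e2_univ, mul_comm]
  all_goals
    have hP' : P = C lc * ∏ i, (X + C (y i)) := by
      rw [hP]
      congr 1
      refine Finset.prod_congr rfl fun i _ => ?_
      rw [CharTwo.sub_eq_add]
    obtain ⟨h0, h1, h2⟩ := TE_top Finset.univ y
    rw [Finset.card_univ, Fintype.card_fin] at h1 h2
  · intro hn
    rw [hP', coeff_C_mul, h1 (n - 1) (by omega)]
  · intro hn
    rw [hP', coeff_C_mul, h2 (n - 2) (by omega), TE_e2_univ]

end MP7Z.A2
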