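import Pool.Agent.Lib.MP_7f581e_Z.Alt2.Spec
import Pool.Agent.Lib.MP_7f581e_Z.Alt.Par

set_option autoImplicit false

/-!
# Additive Hilbert 90 for the sign cocycle
-/

namespace MP7Z.A2

open Polynomial MP7Z

section

variable {F : Type} [Field F]

theorem Add_chi_one : chi F 1 = 0 := by
  rw [chi, if_pos rfl]

theorem Add_chi_neg : chi F (-1) = 1 := by
  rw [chi, if_neg (by decide)]

theorem Add_chi_mul [Algebra (ZMod 2) F] (a b : ℤˣ) : chi F (a * b) = chi F a + chi F b := by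
  have h2 := AType2.two_eq_zero F
  rcases Int.units_eq_one_or a with rfl | rfl
  · rw [one_mul, Add_chi_one, zero_add]
  · rcases Int.units_eq_one_or b with rfl | rfl
    · rw [mul_one, Add_chi_one, add_zero]
    · have h3 : (-1 : ℤˣ) * -1 = 1 := by decide
      rw [h3, Add_chi_one, Add_chi_neg]
      linear_combination -h2

theorem Add_chi_map [Algebra (ZMod 2) F] (γ : F ≃ₐ[ZMod 2] F) (a : ℤˣ) :
    γ (chi F a) = chi F a := by
  rcases Int.units_eq_one_or a with rfl | rfl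
  · rw [Add_chi_one, map_zero]
  · rw [Add_chi_neg, map_one]

end

theorem tAdd (h1 : FamStmt) (h2 : PresStmt) : AddStmt := by
  classical
  intro Ω _ _ x hst Q _ _ ψ hfin hψ k act ε hε
  have : Fact (Nat.Prime 2) := ⟨Nat.prime_two⟩
  cases nonempty_fintype Q
  have h20 := AType2.two_eq_zero Ω
  obtain ⟨V, hV⟩ := h1 2 Ω x hst 1 one_pos Q ψ hfin 1
  obtain ⟨z₀, -, hz2, hz3, hz4⟩ := h2 2 Ω x hst Q ψ hψ 1 1 V hV (fun _ => 1)
    (fun _ => one_mem _) (fun _ δ _ => map_one δ)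
  choose g hg using hψ
  set T₀ : Q → Ω := fun q => (g q : Ω ≃ₐ[ZMod 2] Ω) z₀ with hT₀
  have hT₀1 : T₀ 1 = z₀ := hz2 _ (hg 1)
  have hγT₀ : ∀ (γ : Gx 2 x) q, (γ : Ω ≃ₐ[ZMod 2] Ω) (T₀ q) = T₀ (ψ γ * q) := by
    intro γ q
    exact ParM.eq_of hz2 (γ := γ * g q) (γ' := g (ψ γ * q)) (by rw [map_mul, hg, hg])
  set S : Ω := ∑ q, T₀ q with hS
  have hS1 : (V 0).valuation (S - 1) < 1 := by
    rw [hS, ← Finset.add_sum_erase _ _ (Finset.mem_univ (1 : Q)), hT₀1, add_sub_right_comm]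
    refine (V 0).valuation.map_add_lt (hz3 0)
      ((V 0).valuation.map_sum_lt one_ne_zero fun q hq => ?_)
    exact hz4 (g q) (by rw [hg]; exact Finset.ne_of_mem_erase hq) 0
  have hS0 : S ≠ 0 := by
    intro h
    rw [h, zero_sub, Valuation.map_neg, map_one] at hS1
    exact lt_irrefl _ hS1
  have hγS : ∀ γ : Gx 2 x, (γ : Ω ≃ₐ[ZMod 2] Ω) S = S := by
    intro γ
    rw [hS, map_sum, ← Equiv.sum_comp (Equiv.mulLeft (ψ γ)) T₀]
    exact Finset.sum_congr rfl fun q _ => hγT₀ γ q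
  let T : Q → Ω := fun q => T₀ q / S
  have hT : ∀ (γ : Gx 2 x) q, (γ : Ω ≃ₐ[ZMod 2] Ω) (T q) = T (ψ γ * q) := by
    intro γ q
    change (γ : Ω ≃ₐ[ZMod 2] Ω) (T₀ q / S) = T₀ (ψ γ * q) / S
    rw [map_div₀, hγS, hγT₀]
  have hTsum : ∑ q, T q = 1 := by
    change ∑ q, T₀ q / S = 1
    rw [← Finset.sum_div, ← hS, div_self hS0]
  refine ⟨fun j => ∑ q, chi Ω (ε q (act q⁻¹ j)) * T q, fun γ j => ?_⟩
  have h3 : ∑ q, chi Ω (ε q (act q⁻¹ (act (ψ γ) j))) * T q =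
      chi Ω (ε (ψ γ) j) + (γ : Ω ≃ₐ[ZMod 2] Ω) (∑ q, chi Ω (ε q (act q⁻¹ j)) * T q) := by
    rw [map_sum, ← Equiv.sum_comp (Equiv.mulLeft (ψ γ))
      (fun q => chi Ω (ε q (act q⁻¹ (act (ψ γ) j))) * T q)]
    have h4 : chi Ω (ε (ψ γ) j) = ∑ q, chi Ω (ε (ψ γ) j) * T (ψ γ * q) := by
      rw [← Finset.mul_sum]
      have h5 : ∑ q, T (ψ γ * q) = ∑ q, T q := Equiv.sum_comp (Equiv.mulLeft (ψ γ)) T
      rw [h5, hTsum, mul_one]
    rw [h4, ← Finset.sum_add_distrib]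
    refine Finset.sum_congr rfl fun q _ => ?_
    rw [Equiv.coe_mulLeft, map_mul, Add_chi_map, hT, ← add_mul]
    congr 1
    have h5 : act (ψ γ * q)⁻¹ (act (ψ γ) j) = act q⁻¹ j := by
      rw [← Equiv.Perm.mul_apply, ← map_mul, mul_inv_rev, inv_mul_cancel_right]
    have h6 : act q (act q⁻¹ j) = j := by
      rw [← Equiv.Perm.mul_apply, ← map_mul, mul_inv_cancel, map_one, Equiv.Perm.one_apply]
    rw [h5, hε, Add_chi_mul, h6]
  change (γ : Ω ≃ₐ[ZMod 2] Ω) (∑ q, chi Ω (ε q (act q⁻¹ j)) * T q) =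
    ∑ q, chi Ω (ε q (act q⁻¹ (act (ψ γ) j))) * T q + chi Ω (ε (ψ γ) j)
  rw [h3]
  linear_combination -(chi Ω (ε (ψ γ) j)) * h20

end MP7Z.A2
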