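import Pool.Agent.Lib.MP_7f581e_Z.Alt2.Spec

/-!
# One more root
-/

namespace MP7Z.A2

open Polynomial MP7Z

theorem tApp : AppStmt := by
  intro n F _ a y
  rw [bsum, Fin.sum_univ_succ, Fin.Ioi_zero_eq_map, Finset.sum_map, bsum]
  congr 1
  refine Finset.sum_congr rfl fun i _ => ?_
  rw [← Fin.map_succEmb_Ioi, Finset.sum_map]
  rfl

end MP7Z.A2
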