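import Pool.Agent.Lib.MP_7f581e_Z.Alt2.E2

/-!
# The basic identity for tournament weights in characteristic two
-/

namespace MP7Z.A2

open Polynomial MP7Z

/-- The identity for matrices with zero diagonal. -/
theorem BB_zero (n : ℕ) : ∃ κ : ZMod 2, ∀ (F : Type) [Field F] [Algebra (ZMod 2) F]
    (a : Fin n → Fin n → F), (∀ i, a i i = 0) → (∀ i j, i ≠ j → a i j + a j i = 1) →
    esym2 (fun i => ∑ j, a i j) = (∑ i, ∑ j ∈ Finset.Ioi i, a i j * a j i) +
      (∑ i, esym2 (a i)) + algebraMap (ZMod 2) F κ := by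
  induction n with
  | zero =>
    refine ⟨0, fun F _ _ a _ _ => ?_⟩
    simp [esym2]
  | succ n ih =>
    obtain ⟨κ, hκ⟩ := ih
    refine ⟨κ + (n + 1) * (n.choose 2), fun F _ _ a h0 h1 => ?_⟩
    have hF : CharP F 2 := AType2.charP F
    have two := AType2.two_eq_zero F
    have hI := hκ F (fun i j => a i.succ j.succ) (fun i => h0 _)
      (fun i j hij => h1 _ _ (fun h => hij (Fin.succ_injective n h)))
    -- the weights of the new vertex
    set b : Fin n → F := fun i => a i.succ 0 with hb
    set z : Fin n → F := fun i => ∑ j : Fin n, a i.succ j.succ with hz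
    have hb0 : ∀ i : Fin n, a 0 i.succ = 1 + b i := by
      intro i
      have h2 := h1 0 i.succ (Fin.succ_ne_zero i).symm
      rw [hb]
      linear_combination h2 - a i.succ 0 * two
    have hZ0 : ∑ j, a 0 j = n + ∑ i, b i := by
      rw [Fin.sum_univ_succ, h0 0, zero_add]
      simp only [hb0]
      rw [Finset.sum_add_distrib, Finset.sum_const, Finset.card_univ, Fintype.card_fin,
        nsmul_eq_mul, mul_one]
    have hZs : ∀ i : Fin n, ∑ j, a i.succ j = b i + z i := by
      intro i
      rw [Fin.sum_univ_succ]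
    have hL : esym2 (fun i => ∑ j, a i j) =
        (n + ∑ i, b i) * (∑ i, (b i + z i)) + esym2 (fun i => b i + z i) := by
      rw [E2_esym2_succ, hZ0]
      simp only [hZs]
    have hβ : ∑ i, ∑ j ∈ Finset.Ioi i, a i j * a j i = ∑ i : Fin n, (1 + b i) * b i +
        ∑ i : Fin n, ∑ j ∈ Finset.Ioi i, a i.succ j.succ * a j.succ i.succ := by
      rw [Fin.sum_univ_succ, Fin.sum_Ioi_zero (fun j => a 0 j * a j 0)]
      congr 1
      · refine Finset.sum_congr rfl fun i _ => ?_
        rw [hb0]
      · refine Finset.sum_congr rfl fun i _ => ?_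
        rw [Fin.sum_Ioi_succ (fun j => a i.succ j * a j i.succ) i]
    have hE : ∑ i, esym2 (a i) = esym2 (fun i => 1 + b i) +
        ∑ i : Fin n, (b i * z i + esym2 (fun j : Fin n => a i.succ j.succ)) := by
      rw [Fin.sum_univ_succ, E2_esym2_succ (a 0), h0 0, zero_mul, zero_add]
      simp only [hb0]
      congr 1
      refine Finset.sum_congr rfl fun i _ => ?_
      rw [E2_esym2_succ (a i.succ)]
    have e1 := (tE2 n F b z 0).1
    have e2 := (tE2 n F (fun _ => 1) b 0).1
    have e3 := E2_const (n := n) (1 : F)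
    rw [e3] at e2
    have hzs : ∑ i, z i = (n.choose 2 : F) := by
      have h3 := E2_offdiag (fun i j : Fin n => a i.succ j.succ)
      rw [hz]
      simp only
      rw [h3]
      have h4 : ∑ i : Fin n, a i.succ i.succ = 0 := Finset.sum_eq_zero fun i _ => h0 _
      rw [h4, zero_add]
      have h5 : ∑ i : Fin n, ∑ j ∈ Finset.Ioi i, (a i.succ j.succ + a j.succ i.succ) =
          esym2 (fun _ : Fin n => (1 : F)) := by
        unfold esym2
        refine Finset.sum_congr rfl fun i _ => Finset.sum_congr rfl fun j hj => ?_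
        rw [mul_one]
        exact h1 _ _ (fun h => (Finset.mem_Ioi.mp hj).ne (Fin.succ_injective n h))
      rw [h5, e3]
      ring
    have hsq : (∑ i, b i) ^ 2 = ∑ i, b i ^ 2 := CharTwo.sum_sq _ _
    have hI' : esym2 z = (∑ i : Fin n, ∑ j ∈ Finset.Ioi i, a i.succ j.succ * a j.succ i.succ) +
      (∑ i : Fin n, esym2 (fun j : Fin n => a i.succ j.succ)) + algebraMap (ZMod 2) F κ := hI
    rw [hL, hβ, hE, e1, e2]
    rw [Finset.sum_add_distrib, Finset.sum_add_distrib, hzs, hI']
    have h6 : ∑ i : Fin n, (1 + b i) * b i = ∑ i, b i + ∑ i, b i ^ 2 := by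
      rw [← Finset.sum_add_distrib]
      refine Finset.sum_congr rfl fun i _ => ?_
      ring
    have h7 : ∑ i : Fin n, (1 : F) * b i = ∑ i, b i := by simp
    have h8 : ∑ i : Fin n, (1 : F) = n := by simp
    rw [h6, h7, h8, ← hsq, map_add, map_mul, map_add, map_natCast, map_natCast, map_one]
    generalize ∑ i, b i = s
    generalize ∑ i, b i * z i = q
    generalize (∑ i : Fin n, ∑ j ∈ Finset.Ioi i, a i.succ j.succ * a j.succ i.succ) = β
    generalize (∑ i : Fin n, esym2 (fun j : Fin n => a i.succ j.succ)) = η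
    generalize esym2 b = eb
    generalize ((n.choose 2 : ℕ) : F) = N
    generalize algebraMap (ZMod 2) F κ = k
    linear_combination (s * N - N - s) * two

theorem tBB : BBStmt := by
  intro n
  obtain ⟨κ, hκ⟩ := BB_zero n
  refine ⟨κ, fun F _ _ a h => ?_⟩
  have h1 := hκ F (fun i j => if j = i then 0 else a i j) (fun i => if_pos rfl)
    (fun i j hij => by
      show (if j = i then (0 : F) else a i j) + (if i = j then (0 : F) else a j i) = 1
      rw [if_neg hij, if_neg hij.symm]
      exact h i j hij)
  have e1 : ∀ i, ∑ j, (if j = i then (0 : F) else a i j) = ∑ j ∈ Finset.univ.erase i, a i j := by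
    intro i
    rw [← Finset.add_sum_erase Finset.univ _ (Finset.mem_univ i), if_pos rfl, zero_add]
    refine Finset.sum_congr rfl fun j hj => ?_
    rw [if_neg (Finset.ne_of_mem_erase hj)]
  have e2 : ∑ i, ∑ j ∈ Finset.Ioi i, (if j = i then (0 : F) else a i j) *
      (if i = j then (0 : F) else a j i) = ∑ i, ∑ j ∈ Finset.Ioi i, a i j * a j i := by
    refine Finset.sum_congr rfl fun i _ => Finset.sum_congr rfl fun j hj => ?_
    have h2 := (Finset.mem_Ioi.mp hj).ne
    rw [if_neg h2, if_neg h2.symm]
  have e3 : ∀ i, esym2 (fun j => if j = i then (0 : F) else a i j) =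
      ∑ j ∈ Finset.univ.erase i, ∑ l ∈ (Finset.Ioi j).erase i, a i j * a i l := by
    intro i
    unfold esym2
    rw [← Finset.add_sum_erase Finset.univ _ (Finset.mem_univ i)]
    have h3 : ∑ j ∈ Finset.Ioi i, (if i = i then (0 : F) else a i i) *
        (if j = i then (0 : F) else a i j) = 0 := by
      refine Finset.sum_eq_zero fun j _ => ?_
      rw [if_pos rfl, zero_mul]
    rw [h3, zero_add]
    refine Finset.sum_congr rfl fun j hj => ?_
    dsimp only
    rw [if_neg (Finset.ne_of_mem_erase hj)]
    by_cases hi : i ∈ Finset.Ioi j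
    · rw [← Finset.add_sum_erase _ _ hi, if_pos rfl, mul_zero, zero_add]
      refine Finset.sum_congr rfl fun l hl => ?_
      rw [if_neg (Finset.ne_of_mem_erase hl)]
    · rw [Finset.erase_eq_of_notMem hi]
      refine Finset.sum_congr rfl fun l hl => ?_
      have hli : l ≠ i := by
        intro h
        rw [h] at hl
        exact hi hl
      rw [if_neg hli]
  rw [e2] at h1
  simp only [e1, e3] at h1
  exact h1

end MP7Z.A2
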