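import Pool.Agent.Lib.MP_7f581e_Z.Alt2.Spec

/-!
# The sign class for the types `0` and `1`
-/

namespace MP7Z.A2

open Polynomial MP7Z

theorem tCls01 (hA : ClsAStmt) (hB : ClsBStmt) : Cls01Stmt := by
  constructor
  · intro m
    obtain ⟨κ, h⟩ := hA (4 * m + 4)
    refine ⟨κ, fun t hm h1 h2 h3 Ω _ _ _ e τ c u y he hu hy hf s hs => ?_⟩
    have hs' : s = (1 + c) ^ 2 / u := by
      rw [hs]
      simp
    obtain ⟨a, ha⟩ : ∃ a, a = u + c * algebraMap (ZMod 2) Ω (t.V₂.eval 1) +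
      algebraMap (ZMod 2) Ω (t.W.eval 1) := ⟨_, rfl⟩
    have hE : expand Ω 4 (C (e ^ 12) * (X + 1) ^ (m + 1) + C τ * (X + 1) ^ m + C a) +
        C c * X ^ 2 + X ^ 3 + X = t.f e τ c u := by
      rw [AType2.f, famF, famB, ← ha, h1, h2, h3, hm]
      simp only [map_add, map_mul, map_pow, expand_C, expand_X, map_one, Polynomial.map_one,
        Polynomial.map_add, Polynomial.map_pow, map_X]
      ring
    have h4 := h Ω _ (e ^ 12) c u y (pow_ne_zero _ he) hu hy (by rw [hE, hf])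
      (by rw [hE, AType2.eval_f])
    rw [h4, hs']
  · intro m hm1
    obtain ⟨κ, h⟩ := hB (m + 1) (by omega)
    refine ⟨κ, fun t hm h1 h2 h3 Ω _ _ _ e τ c u y he hu hy hf s hs => ?_⟩
    have hs' : s = (1 + c) ^ 2 / u := by
      rw [hs]
      simp
    obtain ⟨a, ha⟩ : ∃ a, a = u + c * algebraMap (ZMod 2) Ω (t.V₂.eval 1) +
      algebraMap (ZMod 2) Ω (t.W.eval 1) := ⟨_, rfl⟩
    have hE : X * expand Ω 4 (C (e ^ 12) * (X + 1) ^ (m + 1) + C τ * (X + 1) ^ m + C a) +
        C c * X ^ 3 + X ^ 2 + 1 = t.f e τ c u := by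
      rw [AType2.f, famF, famB, ← ha, h1, h2, h3, hm]
      simp only [map_add, map_mul, map_pow, expand_C, expand_X, map_one, Polynomial.map_one,
        Polynomial.map_add, Polynomial.map_pow, map_X]
      ring
    have h4 := h Ω _ (e ^ 12) c u y (pow_ne_zero _ he) hu hy (hE.trans hf)
      (by rw [hE, AType2.eval_f])
    rw [h4, hs']

end MP7Z.A2
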