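import Pool.Agent.Lib.MP_7f581e_Z.Alt2.Spec

/-!
# Sign class, type two
-/

namespace MP7Z.A2

open Polynomial MP7Z

section aux

variable {F : Type} [Field F] [Algebra (ZMod 2) F]

theorem Cls2_two : (2 : F[X]) = 0 := by
  have h := AType2.two_eq_zero F
  have h2 : C (2 : F) = (2 : F[X]) := map_ofNat C 2
  rw [← h2, h, C_0]

/-- The polynomial of type two, explicitly. -/
theorem Cls2_f (m : ℕ) (e τ c u : F) :
    famF ((X ^ 2 + X + 1) ^ 3) (X ^ 2 * (X + 1) ^ 2 * (X ^ 2 + X + 1))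
      (X ^ 6 + X ^ 5 + X ^ 3 + X ^ 2 + X) m e τ c u =
    (X ^ 2 + X + 1) ^ 3 * (C (e ^ 12) * (X ^ 4 + 1) ^ (m + 1) + (X ^ 4 + 1) ^ m * C τ +
      C (u + 1)) + C c * (X ^ 2 * (X + 1) ^ 2 * (X ^ 2 + X + 1)) +
      (X ^ 6 + X ^ 5 + X ^ 3 + X ^ 2 + X) := by
  have h1 : (X ^ 2 * (X + 1) ^ 2 * (X ^ 2 + X + 1) : (ZMod 2)[X]).eval 1 = 0 := by
    simp only [eval_mul, eval_pow, eval_add, eval_X, eval_one]
    decide
  have h2 : (X ^ 6 + X ^ 5 + X ^ 3 + X ^ 2 + X : (ZMod 2)[X]).eval 1 = 1 := by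
    simp only [eval_pow, eval_add, eval_X]
    decide
  rw [famF, famB, h1, h2, map_zero, map_one, mul_zero, add_zero]
  simp only [Polynomial.map_add, Polynomial.map_mul, Polynomial.map_pow, map_X,
    Polynomial.map_one]
  ring

theorem Cls2_expand (m : ℕ) (e τ c u : F) :
    expand F 4 ((X ^ 2 + X + 1) * (C (e ^ 12) * (X + 1) ^ (m + 1) + (X + 1) ^ m * C τ +
      C (u + 1)) + C (1 + c) * X ^ 2) =
    (X ^ 8 + X ^ 4 + 1) * (C (e ^ 12) * (X ^ 4 + 1) ^ (m + 1) + (X ^ 4 + 1) ^ m * C τ +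
      C (u + 1)) + C (1 + c) * X ^ 8 := by
  simp only [map_add, map_mul, map_pow, expand_X, expand_C, map_one]
  ring

theorem Cls2_prod (m : ℕ) (e τ c u : F) :
    (X ^ 2 + X + 1) * famF ((X ^ 2 + X + 1) ^ 3) (X ^ 2 * (X + 1) ^ 2 * (X ^ 2 + X + 1))
      (X ^ 6 + X ^ 5 + X ^ 3 + X ^ 2 + X) m e τ c u =
    expand F 4 ((X ^ 2 + X + 1) * (C (e ^ 12) * (X + 1) ^ (m + 1) + (X + 1) ^ m * C τ +
      C (u + 1)) + C (1 + c) * X ^ 2) + C c * X ^ 2 + X ^ 3 + X := by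
  rw [Cls2_f, Cls2_expand]
  generalize (C (e ^ 12) * (X ^ 4 + 1) ^ (m + 1) + (X ^ 4 + 1) ^ m * C τ + C (u + 1) : F[X]) = Q
  rw [C_add, C_1]
  linear_combination ((2 * X ^ 7 + 5 * X ^ 6 + 8 * X ^ 5 + 9 * X ^ 4 + 8 * X ^ 3 + 5 * X ^ 2 +
    2 * X) * Q + C c * (2 * X ^ 7 + 4 * X ^ 6 + 5 * X ^ 5 + 4 * X ^ 4 + 2 * X ^ 3) +
    (X ^ 7 + X ^ 6 + X ^ 5 + X ^ 4 + X ^ 3 + X ^ 2)) * Cls2_two (F := F)

/-- The value at a primitive third root of unity is not zero. -/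
theorem Cls2_eval {ω : F} (hω : ω ^ 2 + ω + 1 = 0) (m : ℕ) (e τ c u : F) :
    (famF ((X ^ 2 + X + 1) ^ 3) (X ^ 2 * (X + 1) ^ 2 * (X ^ 2 + X + 1))
      (X ^ 6 + X ^ 5 + X ^ 3 + X ^ 2 + X) m e τ c u).eval ω ≠ 0 := by
  have h2 := AType2.two_eq_zero F
  have h3 : ω ^ 3 = 1 := by linear_combination (ω - 1) * hω
  have h0 : ω ≠ 0 := by
    rintro rfl
    simp at hω
  have h : (famF ((X ^ 2 + X + 1) ^ 3) (X ^ 2 * (X + 1) ^ 2 * (X ^ 2 + X + 1))
      (X ^ 6 + X ^ 5 + X ^ 3 + X ^ 2 + X) m e τ c u).eval ω = ω := by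
    rw [Cls2_f]
    simp only [eval_add, eval_mul, eval_pow, eval_X, eval_one, hω]
    linear_combination (ω ^ 3 + ω ^ 2 + 2) * h3 + (1 + ω ^ 2) * h2
  rw [h]
  exact h0

/-- One more root. -/
theorem Cls2_cons {n : ℕ} (a : F) (y : Fin n → F) :
    (X - C a) * ∏ i, (X - C (y i)) =
      ∏ i, (X - C ((Fin.cons a y : Fin (n + 1) → F) i)) := by
  rw [Fin.prod_univ_succ]
  simp only [Fin.cons_zero, Fin.cons_succ]

theorem Cls2_root [IsSepClosed F] : ∃ ω : F, ω ^ 2 + ω + 1 = 0 := by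
  have h2 := AType2.two_eq_zero F
  have hd : (X ^ 2 + X + 1 : F[X]).natDegree = 2 := by compute_degree!
  have h0 : (X ^ 2 + X + 1 : F[X]).degree ≠ 0 := by
    intro h
    have := natDegree_eq_of_degree_eq_some (n := 0) h
    omega
  have hs : (X ^ 2 + X + 1 : F[X]).Separable := by
    refine ⟨0, 1, ?_⟩
    simp only [derivative_add, derivative_X_pow, derivative_X, derivative_one]
    have : C ((2 : ℕ) : F) = 0 := by
      push_cast
      rw [h2, C_0]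
    rw [this]
    ring
  obtain ⟨ω, hω⟩ := IsSepClosed.exists_root _ h0 hs
  refine ⟨ω, ?_⟩
  simpa [IsRoot] using hω

end aux

theorem tCls2 (hA : ClsAStmt) (hP : AppStmt) : Cls2Stmt := by
  intro m
  obtain ⟨κ, hκ⟩ := hA (4 * m + 10 + 1 + 1)
  refine ⟨κ + 1, ?_⟩
  intro t hm hV₁ hV₂ hW Ω _ _ _ e τ c u y he hu hy hf s hs
  have h2 := AType2.two_eq_zero Ω
  have hev : (t.f e τ c u).eval 1 = u := t.eval_f e τ c u
  rw [AType2.f, hV₁, hV₂, hW, hm] at hf hev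
  obtain ⟨ω, hω⟩ := Cls2_root (F := Ω)
  have hω' : (ω + 1) ^ 2 + (ω + 1) + 1 = 0 := by linear_combination hω + (ω + 1) * h2
  have e1 := Cls2_eval hω m e τ c u
  have e2 := Cls2_eval hω' m e τ c u
  have n1 : ∀ i, y i ≠ ω := by
    rintro i rfl
    apply e1
    rw [hf, eval_mul, eval_prod]
    rw [Finset.prod_eq_zero (Finset.mem_univ i) (by simp), mul_zero]
  have n2 : ∀ i, y i ≠ ω + 1 := by
    intro i hi
    apply e2
    rw [hf, eval_mul, eval_prod]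
    rw [Finset.prod_eq_zero (Finset.mem_univ i) (by simp [hi]), mul_zero]
  have inj : Function.Injective
      (Fin.cons ω (Fin.cons (ω + 1) y : Fin (4 * m + 10 + 1) → Ω) :
        Fin (4 * m + 10 + 1 + 1) → Ω) := by
    rw [Fin.cons_injective_iff, Fin.cons_injective_iff]
    refine ⟨?_, ?_, hy⟩
    · rintro ⟨i, hi⟩
      refine Fin.cases ?_ (fun j => ?_) i hi
      · intro h
        rw [Fin.cons_zero] at h
        exact one_ne_zero (α := Ω) (by linear_combination h)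
      · intro h
        rw [Fin.cons_succ] at h
        exact n1 j h
    · rintro ⟨i, hi⟩
      exact n2 i hi
  have hfac : (X ^ 2 + X + 1 : Polynomial Ω) = (X - C ω) * (X - C (ω + 1)) := by
    have hC : (C ω : Polynomial Ω) ^ 2 + C ω + 1 = 0 := by
      rw [← C_1, ← C_pow, ← C_add, ← C_add, hω, C_0]
    rw [C_add, C_1]
    linear_combination (1 + X * C ω + X) * Cls2_two (F := Ω) - hC
  have key := hκ Ω _ (e ^ 12) c u _ (pow_ne_zero _ he) hu inj (by
    rw [← Cls2_prod m e τ c u, hf, hfac, ← Cls2_cons, ← Cls2_cons]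
    ring) (by
    rw [← Cls2_prod m e τ c u, eval_mul, hev]
    simp only [eval_add, eval_pow, eval_X, eval_one]
    linear_combination u * h2)
  rw [hP, hP, Fin.sum_univ_succ] at key
  simp only [Fin.cons_zero, Fin.cons_succ] at key
  have hsum : ω / (ω + (ω + 1)) + ∑ i, ω / (ω + y i) + (∑ i, (ω + 1) / (ω + 1 + y i) + bsum y) =
      ω + (∑ i, aeval (y i) (X : (ZMod 2)[X]) / aeval (y i) (X ^ 2 + X + 1 : (ZMod 2)[X])) +
        bsum y := by
    have h5 : ω / (ω + (ω + 1)) = ω := by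
      have : ω + (ω + 1) = 1 := by linear_combination ω * h2
      rw [this, div_one]
    have h6 : ∑ i, aeval (y i) (X : (ZMod 2)[X]) / aeval (y i) (X ^ 2 + X + 1 : (ZMod 2)[X]) =
        ∑ i, ω / (ω + y i) + ∑ i, (ω + 1) / (ω + 1 + y i) := by
      rw [← Finset.sum_add_distrib]
      refine Finset.sum_congr rfl fun i _ => ?_
      have d1 : ω + y i ≠ 0 := fun h => n1 i (by linear_combination h - ω * h2)
      have d2 : ω + 1 + y i ≠ 0 := fun h => n2 i (by linear_combination h - (ω + 1) * h2)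
      have d3 : (ω + y i) * (ω + 1 + y i) = y i ^ 2 + y i + 1 := by
        linear_combination hω + (ω * y i - 1) * h2
      simp only [map_add, map_pow, aeval_X, map_one]
      rw [← d3, div_add_div _ _ d1 d2]
      congr 1
      linear_combination -(ω ^ 2 + ω + y i * ω) * h2
    rw [h5, h6]
    ring
  rw [hsum] at key
  rw [hs, map_add, map_one]
  generalize (∑ i, aeval (y i) (X : (ZMod 2)[X]) / aeval (y i) (X ^ 2 + X + 1 : (ZMod 2)[X])) = S
    at key ⊢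
  linear_combination key - hω - (bsum y * S + bsum y * ω + 2 * c * u⁻¹ * S + c ^ 2 * u⁻¹ * S +
    u⁻¹ * S + S + S * ω + S ^ 2) * h2

end MP7Z.A2
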