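import Pool.Agent.Lib.MP_7f581e_Z.Alt2.Spec

/-!
# The sign class for the type `3`
-/

namespace MP7Z.A2

open Polynomial MP7Z

theorem tCls3 (hA : ClsAStmt) (hApp : AppStmt) : Cls3Stmt := by
  intro m
  obtain ⟨κ, h⟩ := hA (4 * m + 8)
  refine ⟨κ, fun t hm h1 h2 h3 Ω _ _ _ e τ c u y he hu hy hf s hs => ?_⟩
  have hs' : s = (1 + c) ^ 2 / u := by
    rw [hs]
    simp
  obtain ⟨a, ha⟩ : ∃ a, a = u + c * algebraMap (ZMod 2) Ω (t.V₂.eval 1) +
    algebraMap (ZMod 2) Ω (t.W.eval 1) := ⟨_, rfl⟩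
  have hE : expand Ω 4 (X * (C (e ^ 12) * (X + 1) ^ (m + 1) + C τ * (X + 1) ^ m + C a)) +
      C c * X ^ 2 + X ^ 3 + X = X * t.f e τ c u := by
    rw [AType2.f, famF, famB, ← ha, h1, h2, h3, hm]
    simp only [map_add, map_mul, map_pow, expand_C, expand_X, map_one, Polynomial.map_one,
      Polynomial.map_add, Polynomial.map_pow, map_X]
    ring
  have hf0 : (t.f e τ c u).eval 0 = 1 := by
    rw [AType2.f, famF, famB, ← ha, h1, h2, h3, hm]
    simp
  have hy0 : ∀ i, y i ≠ 0 := by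
    intro i hi
    rw [hf, eval_mul, eval_C, eval_prod, Finset.prod_eq_zero (Finset.mem_univ i) (by
      rw [eval_sub, eval_X, eval_C, hi, sub_zero]), mul_zero] at hf0
    exact zero_ne_one hf0
  have hinj : Function.Injective (Fin.cons 0 y : Fin (4 * m + 7 + 1) → Ω) := by
    rw [Fin.cons_injective_iff]
    refine ⟨?_, hy⟩
    rintro ⟨i, hi⟩
    exact hy0 i hi
  have hp : C (e ^ 12) * ∏ i, (X - C ((Fin.cons 0 y : Fin (4 * m + 7 + 1) → Ω) i)) =
      X * t.f e τ c u := by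
    rw [hf, Fin.prod_univ_succ]
    simp only [Fin.cons_zero, Fin.cons_succ, C_0, sub_zero]
    ring
  have h4 := h Ω _ (e ^ 12) c u (Fin.cons 0 y : Fin (4 * m + 7 + 1) → Ω) (pow_ne_zero _ he) hu
    hinj (hE.trans hp.symm)
    (by rw [hE, eval_mul, AType2.eval_f, eval_X, one_mul])
  have h5 := hApp (4 * m + 7) Ω 0 y
  have h6 : bsum (Fin.cons 0 y : Fin (4 * m + 7 + 1) → Ω) = bsum y := by
    rw [h5]
    simp
  rw [h6] at h4
  rw [h4, hs']

end MP7Z.A2
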