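import Pool.Agent.Lib.MP_7f581e_Z.Alt2.Spec

/-!
# The sign class for `A(X^4) + c X^2 + X^3 + X` (`ClsAStmt`)
-/

namespace MP7Z.A2

open Polynomial MP7Z

section

variable {F : Type} [Field F] [Algebra (ZMod 2) F]

theorem ClsA_choose_two (j : ℕ) : ((4 * j).choose 2 : F) = 0 := by
  have h2 := AType2.two_eq_zero F
  have h : (4 * j).choose 2 = 2 * (j * (4 * j - 1)) := by
    rw [Nat.choose_two_right, show 4 * j * (4 * j - 1) = 2 * (2 * (j * (4 * j - 1))) by ring]
    exact Nat.mul_div_cancel_left _ (by norm_num)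
  rw [h]
  push_cast
  rw [h2, zero_mul]

theorem ClsA_choose_three (j : ℕ) : ((4 * j).choose 3 : F) = 0 := by
  have h2 := AType2.two_eq_zero F
  rcases Nat.eq_zero_or_pos j with rfl | hj
  · simp
  · have h := Nat.add_one_mul_choose_eq (4 * j - 1) 2
    have h3 : 4 * j - 1 + 1 = 4 * j := by omega
    rw [h3] at h
    have h4 : ((4 * j).choose 3 : F) * 3 = 0 := by
      have h5 := congrArg (fun z : ℕ => (z : F)) h
      push_cast at h5
      have h6 : (4 : F) = 0 := by linear_combination 2 * h2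
      rw [h6, zero_mul, zero_mul] at h5
      exact h5.symm
    have h7 : (3 : F) = 1 := by linear_combination h2
    rwa [h7, mul_one] at h4

theorem ClsA_hasse_expand (A : F[X]) : hasseDeriv 2 (expand F 4 A) = 0 ∧
    hasseDeriv 3 (expand F 4 A) = 0 := by
  constructor
  · ext k
    rw [hasseDeriv_coeff, coeff_expand (by norm_num), coeff_zero]
    split_ifs with h
    · obtain ⟨j, hj⟩ := h
      rw [hj, ClsA_choose_two, zero_mul]
    · rw [mul_zero]
  · ext k
    rw [hasseDeriv_coeff, coeff_expand (by norm_num), coeff_zero]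
    split_ifs with h
    · obtain ⟨j, hj⟩ := h
      rw [hj, ClsA_choose_three, zero_mul]
    · rw [mul_zero]

theorem ClsA_der (A : F[X]) (c : F) :
    derivative (expand F 4 A + C c * X ^ 2 + X ^ 3 + X) = X ^ 2 + 1 := by
  have h2 := AType2.two_eq_zero F
  have h4 : ((4 : ℕ) : F[X]) = 0 := by
    rw [← C_eq_natCast]
    have : ((4 : ℕ) : F) = 0 := by
      push_cast
      linear_combination 2 * h2
    rw [this, C_0]
  have e2 : ((2 : ℕ) : F) = 0 := by
    push_cast
    exact h2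
  have e3 : ((3 : ℕ) : F) = 1 := by
    push_cast
    linear_combination h2
  rw [derivative_add, derivative_add, derivative_add, derivative_expand, h4, zero_mul, mul_zero,
    derivative_C_mul_X_pow, derivative_X_pow, derivative_X, e2, e3, mul_zero, C_0, C_1, zero_mul,
    one_mul, zero_add, zero_add]

theorem ClsA_h2 (A : F[X]) (c : F) :
    hasseDeriv 2 (expand F 4 A + C c * X ^ 2 + X ^ 3 + X) = C c + X := by
  have h2 := AType2.two_eq_zero F
  rw [map_add, map_add, map_add, (ClsA_hasse_expand A).1]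
  have e1 : hasseDeriv 2 (C c * X ^ 2) = C c := by
    rw [C_mul_X_pow_eq_monomial, hasseDeriv_monomial]
    simp
  have e2 : hasseDeriv 2 ((X : F[X]) ^ 3) = X := by
    rw [← monomial_one_right_eq_X_pow, hasseDeriv_monomial]
    have h3 : ((Nat.choose 3 2 : ℕ) : F) = 1 := by
      rw [show Nat.choose 3 2 = 3 from rfl]
      push_cast
      linear_combination h2
    rw [h3, mul_one]
    exact monomial_one_one_eq_X
  have e3 : hasseDeriv 2 (X : F[X]) = 0 := by
    rw [← monomial_one_one_eq_X, hasseDeriv_monomial]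
    simp
  rw [e1, e2, e3, zero_add, add_zero]

theorem ClsA_h3 (A : F[X]) (c : F) :
    hasseDeriv 3 (expand F 4 A + C c * X ^ 2 + X ^ 3 + X) = 1 := by
  rw [map_add, map_add, map_add, (ClsA_hasse_expand A).2]
  have e1 : hasseDeriv 3 (C c * X ^ 2) = 0 := by
    rw [C_mul_X_pow_eq_monomial, hasseDeriv_monomial]
    simp
  have e2 : hasseDeriv 3 ((X : F[X]) ^ 3) = 1 := by
    rw [← monomial_one_right_eq_X_pow, hasseDeriv_monomial]
    simp
  have e3 : hasseDeriv 3 (X : F[X]) = 0 := by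
    rw [← monomial_one_one_eq_X, hasseDeriv_monomial, show Nat.choose 1 3 = 0 from rfl]
    simp
  rw [e1, e2, e3, zero_add, zero_add, add_zero]

end

theorem tClsA (hE2 : E2Stmt) (hBB : BBStmt) (hHD : HDStmt) (hTE : TEStmt) : ClsAStmt := by
  intro N
  obtain ⟨κ, hκ⟩ := hBB N
  refine ⟨(N.choose 2 : ZMod 2) + (N : ZMod 2) + κ, ?_⟩
  intro F _ _ A lc c u y hlc hu hy hP hP1
  have := AType2.charP F
  have h2 := AType2.two_eq_zero F
  obtain ⟨P, hPdef⟩ : ∃ P : F[X], P = expand F 4 A + C c * X ^ 2 + X ^ 3 + X := ⟨_, rfl⟩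
  have hder : derivative P = X ^ 2 + 1 := by rw [hPdef, ClsA_der]
  have hh2 : hasseDeriv 2 P = C c + X := by rw [hPdef, ClsA_h2]
  have hh3 : hasseDeriv 3 P = 1 := by rw [hPdef, ClsA_h3]
  rw [← hPdef] at hP hP1
  obtain ⟨t, ht⟩ : ∃ t : Fin N → F, t = fun i => (y i + 1)⁻¹ := ⟨_, rfl⟩
  have ht' : ∀ i, t i = (y i + 1)⁻¹ := fun i => by rw [ht]
  obtain ⟨hT, -⟩ := hTE N F P lc y hlc hP
  obtain ⟨hy1, hT1, hT2, hT3⟩ := hT (by rw [hP1]; exact hu) t ht'
  rw [hP1] at hT1 hT2 hT3
  rw [hder] at hT1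
  rw [hh2] at hT2
  rw [hh3] at hT3
  simp only [eval_add, eval_pow, eval_X, eval_one, one_pow, eval_C] at hT1 hT2 hT3
  have s1 : ∑ i, t i = 0 := by
    have h : (∑ i, t i) * u = 0 := by
      rw [hT1]
      exact CharTwo.add_self_eq_zero 1
    exact (mul_eq_zero.1 h).resolve_right hu
  have s2 : esym2 t = (1 + c) / u := by
    rw [eq_div_iff hu, hT2, add_comm]
  have s3 : ∑ i, t i ^ 3 = 1 / u := by
    rw [s1] at hT3
    rw [eq_div_iff hu, ← hT3]
    ring
  have sq : ∑ i, t i ^ 2 = 0 := by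
    have h : (∑ i, t i) ^ 2 = ∑ i, t i ^ 2 := sum_pow_char 2 _ _
    rw [← h, s1]
    ring
  have hx : ∀ i, y i + 1 ≠ 0 := fun i h => hy1 i (CharTwo.add_eq_zero.1 h)
  have hD := hHD N F P lc y hy hlc hP
  have hz : ∀ i, ∑ j ∈ Finset.univ.erase i, y i / (y i + y j) =
      1 + ((1 + c) * t i ^ 2 + c * t i) := by
    intro i
    have h1 := (hD i).2.1
    rw [hder, hh2] at h1
    simp only [eval_add, eval_pow, eval_X, eval_one, eval_C] at h1
    have h3 : y i ^ 2 + 1 = (y i + 1) ^ 2 := by linear_combination -(y i) * h2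
    rw [h3] at h1
    have h4 := hx i
    rw [eq_div_iff (pow_ne_zero 2 h4) |>.2 h1, ht' i]
    field_simp
    linear_combination (-(y i + 1 + c)) * h2
  have hw : ∀ i, ∑ j ∈ Finset.univ.erase i, ∑ l ∈ (Finset.Ioi j).erase i,
      y i / (y i + y j) * (y i / (y i + y l)) = 1 + t i ^ 2 := by
    intro i
    have h1 := (hD i).2.2
    rw [hder, hh3] at h1
    simp only [eval_add, eval_pow, eval_X, eval_one] at h1
    have h3 : y i ^ 2 + 1 = (y i + 1) ^ 2 := by linear_combination -(y i) * h2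
    rw [h3] at h1
    have h4 := hx i
    rw [eq_div_iff (pow_ne_zero 2 h4) |>.2 h1, ht' i]
    field_simp
    linear_combination (-(y i + 1)) * h2
  have hne : ∀ i j, i ≠ j → y i + y j ≠ 0 := fun i j hij h => hij (hy (CharTwo.add_eq_zero.1 h))
  have hab : ∀ i j, i ≠ j → y i / (y i + y j) + y j / (y j + y i) = 1 := by
    intro i j hij
    rw [add_comm (y j) (y i), ← add_div, div_self (hne i j hij)]
  have hbb := hκ F (fun i j => y i / (y i + y j)) hab
  have hbeta : bsum y ^ 2 + bsum y =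
      ∑ i, ∑ j ∈ Finset.Ioi i, y i / (y i + y j) * (y j / (y j + y i)) := by
    rw [bsum, sum_pow_char 2, ← Finset.sum_add_distrib]
    refine Finset.sum_congr rfl fun i _ => ?_
    rw [sum_pow_char 2, ← Finset.sum_add_distrib]
    refine Finset.sum_congr rfl fun j hj => ?_
    have hij : i ≠ j := (Finset.mem_Ioi.1 hj).ne
    have h3 : y j / (y j + y i) = 1 - y i / (y i + y j) := by
      rw [← hab i j hij]
      ring
    rw [h3]
    linear_combination (y i / (y i + y j)) ^ 2 * h2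
  simp only [hz, hw] at hbb
  rw [← hbeta] at hbb
  have E1 := (hE2 N F (fun _ => 1) (fun i => (1 + c) * t i ^ 2 + c * t i) 1).1
  have E1c := (hE2 N F (fun _ => 1) t 1).2.2.2
  have E2 := (hE2 N F (fun i => (1 + c) * t i ^ 2) (fun i => c * t i) 0).1
  have E3 := (hE2 N F (fun i => t i ^ 2) t (1 + c)).2.1
  have E4 := (hE2 N F t t 0).2.2.1
  have E5 := (hE2 N F t t c).2.1
  have v0 : ∑ i, ((1 + c) * t i ^ 2 + c * t i) = 0 := by
    rw [Finset.sum_add_distrib, ← Finset.mul_sum, ← Finset.mul_sum, sq, s1]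
    ring
  have v1 : ∑ i, (1 + c) * t i ^ 2 = 0 := by
    rw [← Finset.mul_sum, sq, mul_zero]
  have v2 : ∑ i, (1 + c) * t i ^ 2 * (c * t i) = (1 + c) * c * (1 / u) := by
    rw [← s3, Finset.mul_sum]
    refine Finset.sum_congr rfl fun i _ => ?_
    ring
  have v3 : ∑ i, (1 + t i ^ 2) = (N : F) := by
    rw [Finset.sum_add_distrib, sq, add_zero]
    simp
  simp only [one_mul] at E1
  rw [v0, mul_zero, add_zero, add_zero, E1c, E2, E3, E4, E5, v1, zero_mul, v2, s2] at E1
  rw [E1, v3] at hbb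
  rw [map_add, map_add, map_natCast, map_natCast]
  linear_combination -hbb - ((1 + c) ^ 2 / u + N + algebraMap (ZMod 2) F κ) * h2

end MP7Z.A2
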