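import Pool.Agent.Lib.MP_7f581e_Z.Alt2.Spec

/-!
# The sign class for `X A(X^4) + c X^3 + X^2 + 1`
-/

namespace MP7Z.A2

open Polynomial MP7Z

theorem ClsB_choose2 (j : ℕ) : (4 * j + 1).choose 2 = 2 * (j * (4 * j + 1)) := by
  have h := Nat.choose_succ_right_eq (4 * j + 1) 1
  rw [Nat.choose_one_right] at h
  have h1 : 4 * j + 1 - 1 = 4 * j := by omega
  rw [h1] at h
  have h2 : (4 * j + 1) * (4 * j) = (2 * (j * (4 * j + 1))) * 2 := by ring
  rw [h2] at h
  exact Nat.eq_of_mul_eq_mul_right (by norm_num) h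

theorem ClsB_even3 (j : ℕ) : 2 ∣ (4 * j + 1).choose 3 := by
  have h := Nat.choose_succ_right_eq (4 * j + 1) 2
  rw [ClsB_choose2] at h
  have h1 : 2 ∣ (4 * j + 1).choose 3 * 3 := by
    rw [h, mul_assoc]
    exact Dvd.intro _ rfl
  exact (Nat.Coprime.dvd_mul_right (by norm_num)).mp h1

theorem ClsB_hasse {F : Type*} [Field F] [Algebra (ZMod 2) F] (A : F[X]) :
    hasseDeriv 2 (X * expand F 4 A) = 0 ∧ hasseDeriv 3 (X * expand F 4 A) = 0 := by
  have hF : CharP F 2 := AType2.charP F
  induction A using Polynomial.induction_on' with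
  | add p q hp hq =>
    rw [map_add, mul_add, map_add, map_add, hp.1, hp.2, hq.1, hq.2, add_zero]
    exact ⟨rfl, rfl⟩
  | monomial j a =>
    rw [expand_monomial, X_mul_monomial, hasseDeriv_monomial, hasseDeriv_monomial, mul_comm j 4]
    have h2 : (((4 * j + 1).choose 2 : ℕ) : F) = 0 := by
      rw [CharP.cast_eq_zero_iff F 2, ClsB_choose2]
      exact Dvd.intro _ rfl
    have h3 : (((4 * j + 1).choose 3 : ℕ) : F) = 0 := by
      rw [CharP.cast_eq_zero_iff F 2]
      exact ClsB_even3 j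
    rw [h2, h3, zero_mul, monomial_zero_right, monomial_zero_right]
    exact ⟨rfl, rfl⟩

theorem tClsB (hE2 : E2Stmt) (hBB : BBStmt) (hHD : HDStmt) (hTE : TEStmt) : ClsBStmt := by
  intro k hk
  obtain ⟨κ, hκ⟩ := hBB (4 * k + 1)
  refine ⟨κ, fun F _ _ A lc c u y hlc hu hy hP hPu => ?_⟩
  have hF : CharP F 2 := AType2.charP F
  have two := AType2.two_eq_zero F
  set P : F[X] := X * expand F 4 A + C c * X ^ 3 + X ^ 2 + 1 with hPdef
  -- derivatives
  have hD1 : derivative P = expand F 4 A + C c * X ^ 2 := by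
    have e1 : ((4 : ℕ) : F[X]) = 0 := by
      have h := AType2.two_eq_zero F
      have h' : (2 : F[X]) = 0 := by
        rw [← C_ofNat, h, C_0]
      push_cast
      linear_combination 2 * h'
    have h' : (2 : F[X]) = 0 := by
      rw [← C_ofNat, two, C_0]
    rw [hPdef, derivative_add, derivative_add, derivative_add, derivative_mul, derivative_X,
      derivative_expand, e1, derivative_mul, derivative_C, derivative_X_pow, derivative_X_pow,
      derivative_one]
    simp only [Nat.cast_ofNat, C_ofNat]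
    linear_combination (C c * X ^ 2 + X) * h'
  have hD2 : hasseDeriv 2 P = C c * X + 1 := by
    have e1 : (C c * X ^ 3 : F[X]) = monomial 3 c := C_mul_X_pow_eq_monomial
    have e2 : (X ^ 2 : F[X]) = monomial 2 1 := (monomial_one_right_eq_X_pow 2).symm
    rw [hPdef, map_add, map_add, map_add, (ClsB_hasse A).1, zero_add, e1, e2, hasseDeriv_monomial,
      hasseDeriv_monomial, hasseDeriv_apply_one 2 (by norm_num), add_zero]
    have e3 : ((Nat.choose 3 2 : ℕ) : F) * c = c := by
      have : Nat.choose 3 2 = 3 := by decide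
      rw [this]
      push_cast
      linear_combination c * two
    have e4 : ((Nat.choose 2 2 : ℕ) : F) * 1 = 1 := by simp
    rw [e3, e4]
    have e5 : (3 : ℕ) - 2 = 1 := rfl
    have e6 : (2 : ℕ) - 2 = 0 := rfl
    rw [e5, e6, ← C_mul_X_eq_monomial, monomial_zero_one]
  have hD3 : hasseDeriv 3 P = C c := by
    have e1 : (C c * X ^ 3 : F[X]) = monomial 3 c := C_mul_X_pow_eq_monomial
    have e2 : (X ^ 2 : F[X]) = monomial 2 1 := (monomial_one_right_eq_X_pow 2).symm
    rw [hPdef, map_add, map_add, map_add, (ClsB_hasse A).2, zero_add, e1, e2, hasseDeriv_monomial,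
      hasseDeriv_monomial, hasseDeriv_apply_one 3 (by norm_num), add_zero]
    have e3 : ((Nat.choose 3 3 : ℕ) : F) * c = c := by simp
    have e4 : ((Nat.choose 2 3 : ℕ) : F) * 1 = 0 := by simp
    rw [e3, e4, monomial_zero_right, add_zero]
    have e5 : (3 : ℕ) - 3 = 0 := rfl
    rw [e5, monomial_zero_left]
  -- values
  have hEv : ∀ r : F, P.eval r = r * (expand F 4 A).eval r + c * r ^ 3 + r ^ 2 + 1 := by
    intro r
    rw [hPdef]
    simp only [eval_add, eval_mul, eval_X, eval_C, eval_pow, eval_one]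
  have hEv1 : ∀ r : F, (derivative P).eval r = (expand F 4 A).eval r + c * r ^ 2 := by
    intro r
    rw [hD1]
    simp only [eval_add, eval_mul, eval_X, eval_C, eval_pow]
  have hEv2 : ∀ r : F, (hasseDeriv 2 P).eval r = c * r + 1 := by
    intro r
    rw [hD2]
    simp only [eval_add, eval_mul, eval_X, eval_C, eval_one]
  have hEv3 : ∀ r : F, (hasseDeriv 3 P).eval r = c := by
    intro r
    rw [hD3, eval_C]
  have hroot : ∀ i, P.eval (y i) = 0 := by
    intro i
    rw [hP, eval_mul, eval_prod, Finset.prod_eq_zero (Finset.mem_univ i), mul_zero]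
    rw [eval_sub, eval_X, eval_C, sub_self]
  -- the point one
  obtain ⟨hT, hco1, hco2⟩ := hTE (4 * k + 1) F P lc y hlc hP
  set t : Fin (4 * k + 1) → F := fun i => (y i + 1)⁻¹ with ht
  have hP1 : P.eval 1 ≠ 0 := by rw [hPu]; exact hu
  obtain ⟨hy1, hT1, hT2, hT3⟩ := hT hP1 t (fun i => rfl)
  rw [hPu] at hT1 hT2 hT3
  have hu1 : (derivative P).eval 1 = u := by
    rw [hEv1, ← hPu, hEv]
    linear_combination (-1 : F) * two
  have sT : ∑ i, t i = 1 := by
    rw [hu1] at hT1
    exact mul_right_cancel₀ hu (by rw [hT1, one_mul])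
  have sE : esym2 t = (1 + c) / u := by
    rw [eq_div_iff hu, hT2, hEv2]
    ring
  have sT3 : ∑ i, t i ^ 3 = 1 + 1 / u := by
    rw [sT, sE, hEv3] at hT3
    have h1 : (∑ i, t i ^ 3 + 1 ^ 3 + 1 * ((1 + c) / u)) * u =
        (∑ i, t i ^ 3) * u + u + (1 + c) := by
      field_simp
    rw [h1] at hT3
    apply mul_right_cancel₀ hu
    have h2 : (1 + 1 / u) * u = u + 1 := by
      field_simp
    rw [h2]
    linear_combination hT3 - (u + 1) * two
  -- the high coefficients
  have hc1 : P.coeff (4 * k + 1 - 1) = 0 := by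
    obtain ⟨l, rfl⟩ : ∃ l, k = l + 2 := ⟨k - 2, by omega⟩
    have e1 : 4 * (l + 2) + 1 - 1 = (4 * l + 7) + 1 := by omega
    rw [e1, hPdef, coeff_add, coeff_add, coeff_add, coeff_X_mul, coeff_expand (by norm_num),
      if_neg (by omega), coeff_C_mul, coeff_X_pow, coeff_X_pow, if_neg (by omega),
      if_neg (by omega), coeff_one, if_neg (by omega)]
    ring
  have hc2 : P.coeff (4 * k + 1 - 2) = 0 := by
    obtain ⟨l, rfl⟩ : ∃ l, k = l + 2 := ⟨k - 2, by omega⟩
    have e1 : 4 * (l + 2) + 1 - 2 = (4 * l + 6) + 1 := by omega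
    rw [e1, hPdef, coeff_add, coeff_add, coeff_add, coeff_X_mul, coeff_expand (by norm_num),
      if_neg (by omega), coeff_C_mul, coeff_X_pow, coeff_X_pow, if_neg (by omega),
      if_neg (by omega), coeff_one, if_neg (by omega)]
    ring
  have sY : ∑ i, y i = 0 := by
    have h := hco1 (by omega)
    rw [hc1] at h
    exact (mul_eq_zero.mp h.symm).resolve_left hlc
  have sYE : esym2 y = 0 := by
    have h := hco2 (by omega)
    rw [hc2] at h
    exact (mul_eq_zero.mp h.symm).resolve_left hlc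
  have hN : ((4 * k + 1 : ℕ) : F) = 1 := by
    push_cast
    linear_combination 2 * (k : F) * two
  have hN2 : (((4 * k + 1).choose 2 : ℕ) : F) = 0 := by
    rw [ClsB_choose2]
    push_cast
    rw [two, zero_mul]
  have sOne : ∑ i : Fin (4 * k + 1), (1 : F) = 1 := by
    rw [Finset.sum_const, Finset.card_univ, Fintype.card_fin, nsmul_eq_mul, hN, mul_one]
  -- the numbers `x i = y i + 1`
  have hx0 : ∀ i, y i + 1 ≠ 0 := by
    intro i h
    apply hy1 i
    linear_combination h - two
  have hxt : ∀ i, t i * (y i + 1) = 1 := fun i => inv_mul_cancel₀ (hx0 i)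
  have sX : ∑ i, (y i + 1) = 1 := by
    rw [Finset.sum_add_distrib, sY, sOne, zero_add]
  have sXE : esym2 (fun i => y i + 1) = 0 := by
    have h1 := (hE2 (4 * k + 1) F y (fun _ => 1) 0).1
    have h2 := (hE2 (4 * k + 1) F y y 1).2.2.2
    rw [h1, h2, sYE, hN2, sY]
    have h3 : ∑ i, y i * 1 = 0 := by
      simp only [mul_one]
      exact sY
    rw [h3]
    ring
  -- the weights
  have hya : ∀ i j, i ≠ j → y i + y j ≠ 0 := by
    intro i j hij h
    apply hij
    apply hy
    linear_combination h - y j * two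
  have hB := hκ F (fun i j => y i / (y i + y j)) (by
    intro i j hij
    have h1 := hya i j hij
    show y i / (y i + y j) + y j / (y j + y i) = 1
    rw [add_comm (y j) (y i), ← add_div, div_self h1])
  have hyP : ∀ i, y i * (derivative P).eval (y i) = (y i + 1) ^ 2 := by
    intro i
    have h1 := hroot i
    rw [hEv] at h1
    rw [hEv1]
    linear_combination h1 - (y i ^ 2 + y i + 1) * two
  have hz : ∀ i, ∑ j ∈ Finset.univ.erase i, y i / (y i + y j) =
      (1 + c) + (c * (y i + 1) + ((1 + c) * t i ^ 2 + c * t i)) := by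
    intro i
    obtain ⟨h0, h1, -⟩ := hHD (4 * k + 1) F P lc y hy hlc hP i
    rw [hEv2] at h1
    apply mul_right_cancel₀ (pow_ne_zero 2 (hx0 i))
    have h2 := hyP i
    have h3 := hxt i
    linear_combination y i * h1 - (∑ j ∈ Finset.univ.erase i, y i / (y i + y j)) * h2 -
      ((1 + c) * (t i * (y i + 1) + 1) + c * (y i + 1)) * h3 +
      (-2 * c * (y i + 1) ^ 2 + (c - 1) * (y i + 1) - c) * two
  have hw : ∀ i, ∑ j ∈ Finset.univ.erase i, ∑ l ∈ (Finset.Ioi j).erase i,
      y i / (y i + y j) * (y i / (y i + y l)) = c * ((y i + 1) + 1 + t i + t i ^ 2) := by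
    intro i
    obtain ⟨h0, -, h1⟩ := hHD (4 * k + 1) F P lc y hy hlc hP i
    rw [hEv3] at h1
    apply mul_right_cancel₀ (pow_ne_zero 2 (hx0 i))
    have h2 := hyP i
    have h3 := hxt i
    linear_combination y i * h1 - (∑ j ∈ Finset.univ.erase i, ∑ l ∈ (Finset.Ioi j).erase i,
      y i / (y i + y j) * (y i / (y i + y l))) * h2 -
      (c * (t i * (y i + 1) + 1) + c * (y i + 1)) * h3 +
      c * (-2 * (y i + 1) ^ 2 + (y i + 1) - 1) * two
  have hβ : bsum y ^ 2 + bsum y = ∑ i, ∑ j ∈ Finset.Ioi i,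
      y i / (y i + y j) * (y j / (y j + y i)) := by
    unfold bsum
    rw [CharTwo.sum_sq, ← Finset.sum_add_distrib]
    refine Finset.sum_congr rfl fun i _ => ?_
    rw [CharTwo.sum_sq, ← Finset.sum_add_distrib]
    refine Finset.sum_congr rfl fun j hj => ?_
    have h1 := hya i j (Finset.mem_Ioi.mp hj).ne
    have h2 : y i / (y i + y j) + y j / (y j + y i) = 1 := by
      rw [add_comm (y j) (y i), ← add_div, div_self h1]
    linear_combination (y i / (y i + y j)) ^ 2 * two - y i / (y i + y j) * h2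
  -- the second symmetric function
  have sT2 : ∑ i, t i ^ 2 = 1 := by
    rw [← CharTwo.sum_sq, sT, one_pow]
  have sq : ∑ i, ((1 + c) * t i ^ 2 + c * t i) = 1 := by
    rw [Finset.sum_add_distrib, ← Finset.mul_sum, ← Finset.mul_sum, sT, sT2]
    linear_combination c * two
  have sqE : esym2 (fun i => (1 + c) * t i ^ 2 + c * t i) =
      (1 + c) ^ 2 * ((1 + c) / u) ^ 2 + c ^ 2 * ((1 + c) / u) + (1 + c) * c / u := by
    have h1 := (hE2 (4 * k + 1) F (fun i => (1 + c) * t i ^ 2) (fun i => c * t i) 0).1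
    have h2 := (hE2 (4 * k + 1) F (fun i => t i ^ 2) t (1 + c)).2.1
    have h3 := (hE2 (4 * k + 1) F t t c).2.1
    have h4 := (hE2 (4 * k + 1) F t t 0).2.2.1
    rw [h1, h2, h3, h4, sE, ← Finset.mul_sum, ← Finset.mul_sum, sT, sT2]
    have h5 : ∑ i, (1 + c) * t i ^ 2 * (c * t i) = (1 + c) * c * (1 + 1 / u) := by
      rw [← sT3, Finset.mul_sum]
      refine Finset.sum_congr rfl fun i _ => ?_
      ring
    rw [h5]
    linear_combination (1 + c) * c * two
  have svE : esym2 (fun i => c * (y i + 1) + ((1 + c) * t i ^ 2 + c * t i)) =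
      (1 + c) ^ 2 * ((1 + c) / u) ^ 2 + c ^ 2 * ((1 + c) / u) + (1 + c) * c / u := by
    have h1 := (hE2 (4 * k + 1) F (fun i => c * (y i + 1))
      (fun i => (1 + c) * t i ^ 2 + c * t i) 0).1
    have h2 := (hE2 (4 * k + 1) F (fun i => y i + 1) y c).2.1
    rw [h1, h2, sXE, sqE, sq, ← Finset.mul_sum, sX]
    have h5 : ∑ i, c * (y i + 1) * ((1 + c) * t i ^ 2 + c * t i) = c := by
      have h6 : ∀ i, c * (y i + 1) * ((1 + c) * t i ^ 2 + c * t i) =
          c * (1 + c) * t i + c * c * 1 := by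
        intro i
        linear_combination (c * (1 + c) * t i + c * c) * hxt i
      simp only [h6]
      rw [Finset.sum_add_distrib, ← Finset.mul_sum, ← Finset.mul_sum, sT, sOne]
      linear_combination c * c * two
    rw [h5]
    linear_combination c * two
  have sv : ∑ i, (c * (y i + 1) + ((1 + c) * t i ^ 2 + c * t i)) = c + 1 := by
    rw [Finset.sum_add_distrib, ← Finset.mul_sum, sX, sq, mul_one]
  have szE : esym2 (fun i => (1 + c) + (c * (y i + 1) + ((1 + c) * t i ^ 2 + c * t i))) =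
      (1 + c) ^ 2 * ((1 + c) / u) ^ 2 + c ^ 2 * ((1 + c) / u) + (1 + c) * c / u := by
    have h1 := (hE2 (4 * k + 1) F (fun _ => 1 + c)
      (fun i => c * (y i + 1) + ((1 + c) * t i ^ 2 + c * t i)) 0).1
    have h2 := (hE2 (4 * k + 1) F y y (1 + c)).2.2.2
    have h3 : ∑ i : Fin (4 * k + 1), (1 + c) = (1 + c) * ∑ i : Fin (4 * k + 1), (1 : F) := by
      rw [Finset.mul_sum]
      simp
    rw [h1, h2, svE, hN2, ← Finset.mul_sum, sv, h3, sOne]
    linear_combination (1 + c) * (c + 1) * two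
  have sw : ∑ i, c * ((y i + 1) + 1 + t i + t i ^ 2) = 0 := by
    rw [← Finset.mul_sum, Finset.sum_add_distrib, Finset.sum_add_distrib, Finset.sum_add_distrib,
      sX, sOne, sT, sT2]
    linear_combination 2 * c * two
  simp only [hz, hw] at hB
  rw [szE, sw, add_zero] at hB
  rw [hβ]
  have hfin : (∑ i, ∑ j ∈ Finset.Ioi i, y i / (y i + y j) * (y j / (y j + y i))) =
      (1 + c) ^ 2 * ((1 + c) / u) ^ 2 + c ^ 2 * ((1 + c) / u) + (1 + c) * c / u +
      algebraMap (ZMod 2) F κ := by
    linear_combination -hB - (algebraMap (ZMod 2) F κ) * two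
  rw [hfin]
  have hfin2 : (1 + c) ^ 3 / u + ((1 + c) ^ 2 / u) ^ 2 + (1 + c) ^ 2 / u =
      (1 + c) ^ 2 * ((1 + c) / u) ^ 2 + c ^ 2 * ((1 + c) / u) + (1 + c) * c / u +
        2 * ((1 + c) * (c + 1) / u) := by
    field_simp
    ring
  rw [hfin2, two]
  ring

end MP7Z.A2
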