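import Pool.Agent.Lib.MP_7f581e_Z.Alt2.Spec

/-!
# Counting in a doubly transitive group
-/

namespace MP7Z.A2

open Polynomial MP7Z

theorem Cnt_avg {Γ α : Type*} [Group Γ] [Fintype Γ] [MulAction Γ α] [DecidableEq α]
    (O P Q : Finset α) (hO : ∀ g : Γ, ∀ p ∈ O, g • p ∈ O)
    (htr : ∀ p ∈ O, ∀ q ∈ O, ∃ g : Γ, g • p = q) (hP : P ⊆ O) (hQ : Q ⊆ O) :
    O.card * ∑ g : Γ, (P.filter fun p => g • p ∈ Q).card = P.card * Q.card * Fintype.card Γ := by
  -- the number of the elements with `g • p = q`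
  have h1 : ∀ p ∈ O, ∀ q ∈ O, ∀ q' ∈ O,
      (Finset.univ.filter fun g : Γ => g • p = q).card =
        (Finset.univ.filter fun g : Γ => g • p = q').card := by
    intro p hp q hq q' hq'
    obtain ⟨h, hh⟩ := htr q hq q' hq'
    refine Finset.card_bij (fun g _ => h * g) ?_ ?_ ?_
    · intro g hg
      rw [Finset.mem_filter] at hg ⊢
      refine ⟨Finset.mem_univ _, ?_⟩
      rw [mul_smul, hg.2, hh]
    · intro a _ b _ hab
      exact mul_left_cancel hab
    · intro g hg
      rw [Finset.mem_filter] at hg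
      refine ⟨h⁻¹ * g, ?_, by rw [mul_inv_cancel_left]⟩
      rw [Finset.mem_filter]
      refine ⟨Finset.mem_univ _, ?_⟩
      rw [mul_smul, hg.2, ← hh, inv_smul_smul]
  have h2 : ∀ p ∈ O, ∀ q ∈ O,
      O.card * (Finset.univ.filter fun g : Γ => g • p = q).card = Fintype.card Γ := by
    intro p hp q hq
    have h3 := Finset.card_eq_sum_card_fiberwise (s := (Finset.univ : Finset Γ)) (t := O)
      (f := fun g : Γ => g • p) (fun g _ => hO g p hp)
    rw [Finset.card_univ] at h3
    rw [h3, Finset.sum_congr rfl fun q' hq' => h1 p hp q' hq' q hq, Finset.sum_const,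
      smul_eq_mul]
  have h4 : ∑ g : Γ, (P.filter fun p => g • p ∈ Q).card =
      ∑ p ∈ P, ∑ q ∈ Q, (Finset.univ.filter fun g : Γ => g • p = q).card := by
    have h5 : ∀ g : Γ, (P.filter fun p => g • p ∈ Q).card =
        ∑ p ∈ P, if g • p ∈ Q then 1 else 0 := fun g => by rw [Finset.card_filter]
    rw [Finset.sum_congr rfl fun g _ => h5 g, Finset.sum_comm]
    refine Finset.sum_congr rfl fun p _ => ?_
    rw [← Finset.card_filter]
    rw [Finset.card_eq_sum_card_fiberwise (t := Q) (f := fun g : Γ => g • p)]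
    · refine Finset.sum_congr rfl fun q hq => ?_
      congr 1
      ext g
      simp only [Finset.mem_filter, Finset.mem_univ, true_and]
      constructor
      · exact fun h => h.2
      · intro h
        exact ⟨h ▸ hq, h⟩
    · intro g hg
      exact (Finset.mem_filter.1 hg).2
  rw [h4, Finset.mul_sum]
  have h6 : ∀ p ∈ P, O.card * ∑ q ∈ Q, (Finset.univ.filter fun g : Γ => g • p = q).card =
      Q.card * Fintype.card Γ := by
    intro p hp
    rw [Finset.mul_sum, Finset.sum_congr rfl fun q hq => h2 p (hP hp) q (hQ hq),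
      Finset.sum_const, smul_eq_mul]
  rw [Finset.sum_congr rfl h6, Finset.sum_const, smul_eq_mul, mul_assoc]

theorem tCnt : CntStmt := by
  classical
  intro n G hn htr S hS
  by_contra! hne
  have hfin : Fintype G := Fintype.ofFinite G
  -- transitivity
  have htr1 : ∀ i l : Fin n, ∃ g : G, g • i = l := by
    intro i l
    obtain ⟨i', hi'⟩ : ∃ i' : Fin n, i ≠ i' := by
      by_cases h : i = ⟨0, by omega⟩
      · exact ⟨⟨1, by omega⟩, by rw [h]; intro h'; exact absurd (Fin.mk.inj h') (by omega)⟩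
      · exact ⟨_, h⟩
    obtain ⟨l', hl'⟩ : ∃ l' : Fin n, l ≠ l' := by
      by_cases h : l = ⟨0, by omega⟩
      · exact ⟨⟨1, by omega⟩, by rw [h]; intro h'; exact absurd (Fin.mk.inj h') (by omega)⟩
      · exact ⟨_, h⟩
    obtain ⟨g, hg, h1, -⟩ := htr i i' l l' hi' hl'
    exact ⟨⟨g, hg⟩, h1⟩
  have e1 := Cnt_avg (Γ := G) (Finset.univ : Finset (Fin n)) S S (fun _ _ _ => Finset.mem_univ _)
    (fun i _ l _ => htr1 i l) (Finset.subset_univ _) (Finset.subset_univ _)
  have e2 := Cnt_avg (Γ := G) (Finset.univ : Finset (Fin n)).offDiag S.offDiag S.offDiag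
    (by
      intro g p hp
      rw [Finset.mem_offDiag] at hp ⊢
      refine ⟨Finset.mem_univ _, Finset.mem_univ _, fun h => hp.2.2 ?_⟩
      exact MulAction.injective g h)
    (by
      rintro ⟨i, i'⟩ hp ⟨l, l'⟩ hq
      rw [Finset.mem_offDiag] at hp hq
      obtain ⟨g, hg, h1, h2⟩ := htr i i' l l' hp.2.2 hq.2.2
      exact ⟨⟨g, hg⟩, Prod.ext h1 h2⟩)
    (by
      intro p hp
      rw [Finset.mem_offDiag] at hp ⊢
      exact ⟨Finset.mem_univ _, Finset.mem_univ _, hp.2.2⟩)
    (by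
      intro p hp
      rw [Finset.mem_offDiag] at hp ⊢
      exact ⟨Finset.mem_univ _, Finset.mem_univ _, hp.2.2⟩)
  have hle : ∀ g : G, (S.filter fun p => g • p ∈ S).card ≤
      (S.offDiag.filter fun p => g • p ∈ S.offDiag).card := by
    intro g
    have h1 : (S.offDiag.filter fun p => g • p ∈ S.offDiag) =
        (S.filter fun p => g • p ∈ S).offDiag := by
      ext p
      simp only [Finset.mem_filter, Finset.mem_offDiag]
      constructor
      · rintro ⟨⟨h1, h2, h3⟩, h4, h5, h6⟩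
        exact ⟨⟨h1, h4⟩, ⟨h2, h5⟩, h3⟩
      · rintro ⟨⟨h1, h4⟩, ⟨h2, h5⟩, h3⟩
        exact ⟨⟨h1, h2, h3⟩, h4, h5, fun h => h3 (MulAction.injective g h)⟩
    have h2 : S ∩ S.image (g : Equiv.Perm (Fin n)) =
        (S.filter fun p => g • p ∈ S).image (g : Equiv.Perm (Fin n)) := by
      ext p
      simp only [Finset.mem_inter, Finset.mem_image, Finset.mem_filter]
      constructor
      · rintro ⟨h3, q, h4, rfl⟩
        exact ⟨q, ⟨h4, h3⟩, rfl⟩
      · rintro ⟨q, ⟨h4, h3⟩, rfl⟩
        exact ⟨h3, q, h4, rfl⟩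
    have h3 := hne g g.2
    rw [h2, Finset.card_image_of_injective _ (g : Equiv.Perm (Fin n)).injective] at h3
    rw [h1, Finset.offDiag_card]
    rcases Nat.lt_or_ge (S.filter fun p => g • p ∈ S).card 2 with h4 | h4
    · have h5 : (S.filter fun p => g • p ∈ S).card = 0 := by omega
      rw [h5]
    · have h5 : 2 * (S.filter fun p => g • p ∈ S).card ≤
          (S.filter fun p => g • p ∈ S).card * (S.filter fun p => g • p ∈ S).card :=
        Nat.mul_le_mul_right _ h4
      omega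
  have hsum := Finset.sum_le_sum fun g (_ : g ∈ (Finset.univ : Finset G)) => hle g
  have hG : 0 < Fintype.card G := Fintype.card_pos
  rw [Finset.offDiag_card, Finset.offDiag_card, Finset.card_univ, Fintype.card_fin, hS] at e2
  rw [Finset.card_univ, Fintype.card_fin, hS] at e1
  obtain ⟨a, ha⟩ : ∃ a, a = ∑ g : G, (S.filter fun p => g • p ∈ S).card := ⟨_, rfl⟩
  obtain ⟨b, hb⟩ : ∃ b, b = ∑ g : G, (S.offDiag.filter fun p => g • p ∈ S.offDiag).card :=
    ⟨_, rfl⟩
  rw [← ha] at e1 hsum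
  rw [← hb] at e2 hsum
  obtain ⟨c, hc⟩ : ∃ c, c = Fintype.card G := ⟨_, rfl⟩
  rw [← hc] at e1 e2 hG
  -- `n a = 16 c`, `(n n - n) b = 144 c`, `a ≤ b`
  have h1 : n * n - n = n * (n - 1) := by
    rw [Nat.mul_sub, mul_one]
  rw [h1] at e2
  have h2 : n * (n - 1) * a ≤ n * (n - 1) * b := Nat.mul_le_mul_left _ hsum
  have h3 : n * (n - 1) * a = (n - 1) * (n * a) := by ring
  rw [e2, h3, e1] at h2
  have h4 : 10 * (4 * 4 * c) ≤ (n - 1) * (4 * 4 * c) := Nat.mul_le_mul_right _ (by omega)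
  omega

end MP7Z.A2
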