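import Pool.Agent.Lib.MP_7f581e_Z.Alt2.Spec

/-!
# Com: the commutator of two permutations (the second an involution) whose supports meet in one point
-/

namespace MP7Z.A2

open Polynomial MP7Z Equiv Equiv.Perm

theorem tCom : ComStmt := by
  classical
  intro n σ τ hτ hcard
  obtain ⟨a, ha⟩ := Finset.card_eq_one.mp hcard
  have hmem : ∀ x, x ∈ σ.support → x ∈ τ.support → x = a := by
    intro x h1 h2
    have : x ∈ σ.support ∩ τ.support := Finset.mem_inter.mpr ⟨h1, h2⟩
    rw [ha] at this
    exact Finset.mem_singleton.mp this
  have ha2 : a ∈ σ.support ∩ τ.support := by rw [ha]; exact Finset.mem_singleton_self a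
  have haσ : σ a ≠ a := mem_support.mp (Finset.mem_inter.mp ha2).1
  have haτ : τ a ≠ a := mem_support.mp (Finset.mem_inter.mp ha2).2
  have hττ : ∀ x, τ (τ x) = x := by
    intro x
    have := congrArg (fun f => f x) hτ
    simpa [pow_two] using this
  set e := τ a with he
  have hea : τ e = a := hττ a
  have heτ : e ∈ τ.support := by
    rw [mem_support, hea]
    exact fun h => haτ h.symm
  have hσe : σ e = e := by
    by_contra h
    exact haτ (hmem e (mem_support.mpr h) heτ)
  have hσae : σ a ≠ e := by
    intro h
    have h1 : σ a = σ e := by rw [h, hσe]
    exact haτ (σ.injective h1).symm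
  -- points moved by `τ` other than `a` are fixed by `σ`
  have hfix : ∀ x, τ x ≠ x → x ≠ a → σ x = x := by
    intro x h1 h2
    by_contra h
    exact h2 (hmem x (mem_support.mpr h) (mem_support.mpr h1))
  -- the commutator is the product of the transpositions `(σ a, e)` and `(a, e)`
  have hτi : τ⁻¹ = τ := by
    rw [inv_eq_iff_mul_eq_one, ← pow_two, hτ]
  have key : σ * τ * σ⁻¹ * τ⁻¹ = swap (σ a) e * swap a e := by
    rw [hτi]
    -- equivalently `σ τ σ⁻¹ = swap (σ a) e * swap a e * τ`
    have h2 : σ * τ * σ⁻¹ = swap (σ a) e * swap a e * τ := by
      rw [mul_inv_eq_iff_eq_mul]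
      ext x
      simp only [Perm.mul_apply]
      congr 1
      by_cases hx1 : x = a
      · subst hx1
        -- `τ (σ a)`: `σ a` is fixed by `τ` (else `σ a = a` or `σ a` fixed by `σ`)
        have h3 : τ (σ x) = σ x := by
          by_contra h
          have h4 : σ (σ x) = σ x := hfix (σ x) h haσ
          exact haσ (σ.injective h4)
        rw [h3, ← he, hσe]
        rw [swap_apply_of_ne_of_ne haσ hσae, swap_apply_left]
      · by_cases hx2 : x = e
        · rw [hx2, hσe, hea, swap_apply_left, swap_apply_right]
        · by_cases hx3 : τ x = x
          · rw [hx3]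
            by_cases hx4 : τ (σ x) = σ x
            · rw [hx4]
              have h5 : σ x ≠ e := by
                intro h
                exact hx2 (σ.injective (h.trans hσe.symm))
              have h6 : σ x ≠ a := by
                intro h
                rw [h] at hx4
                exact haτ hx4
              rw [swap_apply_of_ne_of_ne h6 h5]
              rw [swap_apply_of_ne_of_ne _ h5]
              intro h
              exact hx1 (σ.injective h)
            · -- `σ x` moved by `τ`: then `σ x = a`, or `σ (σ x) = σ x`, `σ x = x`
              by_cases h7 : σ x = a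
              · rw [h7, ← he, swap_apply_right]
                rw [swap_apply_of_ne_of_ne (fun h => haσ h.symm) (fun h => haτ h.symm)]
              · have h8 : σ (σ x) = σ x := hfix (σ x) hx4 h7
                have h9 : σ x = x := σ.injective h8
                rw [h9] at hx4
                exact absurd hx3 hx4
          · have h3 : σ x = x := hfix x hx3 hx1
            have h5 : τ x ≠ a := by
              intro h
              apply hx2
              rw [he, ← h, hττ]
            have h6 : τ x ≠ e := by
              intro h
              exact hx1 (τ.injective (h.trans he))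
            have h7 : τ (τ x) ≠ τ x := fun h => hx3 (τ.injective h)
            have h8 : σ (τ x) = τ x := hfix (τ x) h7 h5
            have h9 : τ x ≠ σ a := by
              intro h
              rw [h] at h8
              exact haσ (σ.injective h8)
            rw [h3, h8, swap_apply_of_ne_of_ne h5 h6, swap_apply_of_ne_of_ne h9 h6]
    rw [h2, mul_assoc, ← pow_two, hτ, mul_one]
  rw [key]
  have h10 : swap (σ a) e * swap a e = swap e (σ a) * swap e a := by
    rw [swap_comm (σ a) e, swap_comm a e]
  rw [h10]
  exact isThreeCycle_swap_mul_swap_same (fun h => hσae h.symm) haτ haσ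

end MP7Z.A2
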