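import Pool.Agent.Lib.MP_7f581e_Z.Alt2.Spec

/-!
# Alternating step in characteristic two: parameters with prescribed class (module Cpr)
-/

namespace MP7Z

namespace A2

open Polynomial

theorem Cpr_chi (Ω : Type) [Field Ω] (ε : ℤˣ) : chi Ω ε ^ 2 = chi Ω ε := by
  unfold chi
  split_ifs <;> simp

theorem Cpr_fixes_adjoin {Ω : Type} [Field Ω] [Algebra (ZMod 2) Ω] {x : Ω}
    {γ : Ω ≃ₐ[ZMod 2] Ω} (hγ : γ ∈ Gx 2 x) : ∀ a ∈ Algebra.adjoin (ZMod 2) {x}, γ a = a := by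
  intro a ha
  have h : Algebra.adjoin (ZMod 2) {x} ≤ AlgHom.equalizer (γ : Ω →ₐ[ZMod 2] Ω) (AlgHom.id _ _) := by
    rw [Algebra.adjoin_le_iff]
    intro z hz
    rw [Set.mem_singleton_iff] at hz
    subst hz
    exact mem_Gx.1 hγ
  exact h ha

theorem Cpr_adjoin_sub {Ω : Type} [Field Ω] [Algebra (ZMod 2) Ω] {x : Ω} {V : ValuationSubring Ω}
    (hx : x ∈ V) : ∀ a ∈ Algebra.adjoin (ZMod 2) {x}, a ∈ V := by
  intro a ha
  have hc : ∀ c : ZMod 2, algebraMap (ZMod 2) Ω c ∈ V := by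
    intro c
    obtain ⟨n, rfl⟩ := ZMod.natCast_zmod_surjective c
    rw [map_natCast]
    exact natCast_mem V n
  induction ha using Algebra.adjoin_induction with
  | mem z hz =>
    rw [Set.mem_singleton_iff] at hz
    rwa [hz]
  | algebraMap c => exact hc c
  | add a b _ _ ha hb => exact V.add_mem _ _ ha hb
  | mul a b _ _ ha hb => exact V.mul_mem _ _ ha hb

theorem Cpr_integral_mem {Ω : Type} [Field Ω] [Algebra (ZMod 2) Ω] {x : Ω}
    {V : ValuationSubring Ω} (hx : x ∈ V) {z : Ω}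
    (hz : IsIntegral (Algebra.adjoin (ZMod 2) {x}) z) : z ∈ V := by
  let φ : Algebra.adjoin (ZMod 2) {x} →+* V :=
    { toFun := fun a => ⟨a.1, Cpr_adjoin_sub hx a.1 a.2⟩
      map_one' := rfl
      map_mul' := fun _ _ => rfl
      map_zero' := rfl
      map_add' := fun _ _ => rfl }
  have h1 : IsIntegral V z := hz.map_of_comp_eq φ (RingHom.id Ω) (by ext; rfl)
  obtain ⟨y, hy⟩ := (IsIntegrallyClosed.isIntegral_iff (R := V) (K := Ω)).1 h1
  rw [← hy]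
  exact y.2

theorem tCpr (hA : AddStmt) (hDen : DenStmt) (hNum : NumStmt) (hPar : ParStmt) : CprStmt := by
  intro Ω _ _ x hx Q _ _ ψ hψ hsurj k act ε j₀ κ hcoc htr
  have h2 : (2 : Ω) = 0 := AType2.two_eq_zero Ω
  obtain ⟨d, hd⟩ := hA Ω x hx Q ψ hψ hsurj k act ε hcoc
  set K : Ω := algebraMap (ZMod 2) Ω κ with hK
  let b : Fin k → Ω := fun j => d j ^ 2 + d j + K
  have hb : ∀ (γ : Gx 2 x) j, (γ : Ω ≃ₐ[ZMod 2] Ω) (b j) = b (act (ψ γ) j) := by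
    intro γ j
    change (γ : Ω ≃ₐ[ZMod 2] Ω) (d j ^ 2 + d j + K) =
      d (act (ψ γ) j) ^ 2 + d (act (ψ γ) j) + K
    rw [map_add, map_add, map_pow, hd, hK, AlgEquiv.commutes]
    linear_combination Cpr_chi Ω (ε (ψ γ) j) +
      (d (act (ψ γ) j) * chi Ω (ε (ψ γ) j) + chi Ω (ε (ψ γ) j)) * h2
  obtain ⟨g₀, hg₀, hg₀0, hint⟩ := hDen Ω x hx k b
  obtain ⟨V₀, hV₀, hxV₀, -, x₀, -, -, hlt, ⟨P, hP, hP0, hPv⟩, -⟩ :=
    hPar 2 Ω x hx Q ψ hψ hsurj k act ε j₀ hcoc htr ∅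
  have hPlt : V₀.valuation P < 1 := lt_of_le_of_lt hPv hlt
  have hPi : IsIntegral (Algebra.adjoin (ZMod 2) {x}) P :=
    isIntegral_algebraMap (R := Algebra.adjoin (ZMod 2) {x}) (x := ⟨P, hP⟩)
  obtain ⟨g, hg_def⟩ : ∃ g, g = g₀ * P := ⟨_, rfl⟩
  have hg : g ∈ Algebra.adjoin (ZMod 2) {x} := by
    rw [hg_def]
    exact mul_mem hg₀ hP
  have hg0 : g ≠ 0 := by
    rw [hg_def]
    exact mul_ne_zero hg₀0 hP0
  have hgi : IsIntegral (Algebra.adjoin (ZMod 2) {x}) g :=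
    isIntegral_algebraMap (R := Algebra.adjoin (ZMod 2) {x}) (x := ⟨g, hg⟩)
  have hbg : ∀ j, IsIntegral (Algebra.adjoin (ZMod 2) {x}) (b j * g) := by
    intro j
    have h : b j * g = (g₀ * b j) * P := by
      rw [hg_def]
      ring
    rw [h]
    exact (hint j).mul hPi
  have hγg : ∀ γ : Gx 2 x, (γ : Ω ≃ₐ[ZMod 2] Ω) g = g := fun γ => Cpr_fixes_adjoin γ.2 g hg
  let c : Fin k → Ω := fun j => g + b j * g ^ 2
  let D : Fin k → Ω := fun j => g * (1 + c j + g ^ 2)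
  let G : Fin k → Ω := fun j => 1 + b j * g ^ 2 + b j * g ^ 3
  have hN := fun j => hNum Ω (b j) g (c j) (D j) (G j) rfl rfl rfl
  have hgV : V₀.valuation g < 1 := by
    rw [hg_def, map_mul]
    exact lt_of_le_of_lt
      (mul_le_of_le_one_left' ((V₀.valuation_le_one_iff _).2 (Cpr_adjoin_sub hxV₀ g₀ hg₀))) hPlt
  have hD0 : ∀ j, D j ≠ 0 := fun j =>
    ((hN j).2 V₀ (Cpr_integral_mem hxV₀ hgi) (Cpr_integral_mem hxV₀ (hbg j))).2.2.2 hgV hg0
  have hc : ∀ (γ : Gx 2 x) j, (γ : Ω ≃ₐ[ZMod 2] Ω) (c j) = c (act (ψ γ) j) := by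
    intro γ j
    change (γ : Ω ≃ₐ[ZMod 2] Ω) (g + b j * g ^ 2) = g + b (act (ψ γ) j) * g ^ 2
    rw [map_add, map_mul, map_pow, hγg, hb]
  have hDγ : ∀ (γ : Gx 2 x) j, (γ : Ω ≃ₐ[ZMod 2] Ω) (D j) = D (act (ψ γ) j) := by
    intro γ j
    change (γ : Ω ≃ₐ[ZMod 2] Ω) (g * (1 + c j + g ^ 2)) = g * (1 + c (act (ψ γ) j) + g ^ 2)
    rw [map_mul, map_add, map_add, map_pow, map_one, hγg, hc]
  have hGγ : ∀ (γ : Gx 2 x) j, (γ : Ω ≃ₐ[ZMod 2] Ω) (G j) = G (act (ψ γ) j) := by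
    intro γ j
    change (γ : Ω ≃ₐ[ZMod 2] Ω) (1 + b j * g ^ 2 + b j * g ^ 3) =
      1 + b (act (ψ γ) j) * g ^ 2 + b (act (ψ γ) j) * g ^ 3
    rw [map_add, map_add, map_mul, map_mul, map_pow, map_pow, map_one, hγg, hb]
  have hci : ∀ j, IsIntegral (Algebra.adjoin (ZMod 2) {x}) (c j) := by
    intro j
    have h : c j = g + (b j * g) * g := by
      change g + b j * g ^ 2 = _
      ring
    rw [h]
    exact hgi.add ((hbg j).mul hgi)
  have hDi : ∀ j, IsIntegral (Algebra.adjoin (ZMod 2) {x}) (D j) := fun j =>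
    hgi.mul ((isIntegral_one.add (hci j)).add (hgi.pow 2))
  refine ⟨c, fun j => D j ^ 2, fun j => d j + G j / D j, fun j => pow_ne_zero 2 (hD0 j), ?_, hc,
    ?_, ?_, hci, fun j => (hDi j).pow 2, ?_⟩
  · intro j
    have h := hD0 j
    rw [(hN j).1]
    change ((d j ^ 2 + d j + K) * D j ^ 2 + G j ^ 2 + G j * D j) / D j ^ 2 = _
    field_simp
    linear_combination (-(d j * G j * D j)) * h2
  · intro γ j
    change (γ : Ω ≃ₐ[ZMod 2] Ω) (D j ^ 2) = D (act (ψ γ) j) ^ 2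
    rw [map_pow, hDγ]
  · intro γ j
    change (γ : Ω ≃ₐ[ZMod 2] Ω) (d j + G j / D j) =
      d (act (ψ γ) j) + G (act (ψ γ) j) / D (act (ψ γ) j) + chi Ω (ε (ψ γ) j)
    rw [map_add, map_div₀, hd, hGγ, hDγ]
    ring
  · intro V hxV j
    have h := ((hN j).2 V (Cpr_integral_mem hxV hgi) (Cpr_integral_mem hxV (hbg j))).2.2.1
    rcases h with h | h
    · left
      change V.valuation (D j ^ 2) = 1
      rw [map_pow, h, one_pow]
    · right
      exact h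

end A2

end MP7Z
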