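import Pool.Agent.Lib.MP_7f581e_Z.BR.Spec

/-!
# Alternating step in characteristic two: the family of polynomials

`f(e, τ, c, u) = e^12 V₁ (X^4+1)^(m+1) + B(τ, c, u)`,
`B(τ, c, u) = V₁ ((X^4+1)^m τ + a₁) + c V₂ + W`, `a₁ = u + c V₂(1) + W(1)`, so `f(1) = u`; here
`V₁, V₂, W` have coefficients in `𝔽₂`, and there is `V` with `(V V₁)' = (V V₂)' = 0`,
`(V W)' = (X + 1)^2`, so `(V f)' = (X + 1)^2`: the only possible multiple root is `1`.
-/

namespace MP7Z

open Polynomial

section ring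

variable {F : Type*} [CommRing F] [Algebra (ZMod 2) F]

/-- The polynomial `B(τ, c, u)`. -/
noncomputable def famB (V₁ V₂ W : (ZMod 2)[X]) (m : ℕ) (τ c u : F) : F[X] :=
  V₁.map (algebraMap (ZMod 2) F) * ((X ^ 4 + 1) ^ m * C τ +
    C (u + c * algebraMap (ZMod 2) F (V₂.eval 1) + algebraMap (ZMod 2) F (W.eval 1))) +
    C c * V₂.map (algebraMap (ZMod 2) F) + W.map (algebraMap (ZMod 2) F)

/-- The polynomial `f(e, τ, c, u)`. -/
noncomputable def famF (V₁ V₂ W : (ZMod 2)[X]) (m : ℕ) (e τ c u : F) : F[X] :=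
  C (e ^ 12) * (V₁.map (algebraMap (ZMod 2) F) * (X ^ 4 + 1) ^ (m + 1)) + famB V₁ V₂ W m τ c u

end ring

/-- The data of a family of polynomials of degree `n` in characteristic two. -/
structure AType2 (n : ℕ) where
  V : (ZMod 2)[X]
  V₁ : (ZMod 2)[X]
  V₂ : (ZMod 2)[X]
  W : (ZMod 2)[X]
  D : (ZMod 2)[X]
  η : ZMod 2
  m : ℕ
  r : ℕ
  s : ℕ
  hn : n = V₁.natDegree + 4 * (m + 1)
  hm : 1 ≤ m
  hV : V.Monic
  hV₁ : V₁.Monic
  V_one : V.eval 1 = 1
  V₁_one : V₁.eval 1 = 1
  keyV₁ : derivative (V * V₁) = 0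
  keyV₂ : derivative (V * V₂) = 0
  keyW : derivative (V * W) = (X + 1) ^ 2
  dvd₁ : V ∣ V₁
  dvd₂ : V ∣ V₂
  dvdk : ∃ k : ℕ, V₁ ∣ V ^ k
  cop : IsCoprime V W
  degV₂ : V₂.natDegree + 4 < n
  degW : W.natDegree + 4 < n
  dbl : ∀ (F : Type) [Field F] [Algebra (ZMod 2) F] (e τ c : F),
    (X - C 1) ^ 3 ∣ famF V₁ V₂ W m e τ c 0 → c = 1
  odd_r : Odd r
  le_r : 5 ≤ r
  even_s : Even s
  le_s : 6 ≤ s
  hrs : 2 * (r - 1) < 3 * (s - 2)
  D_zero : D.eval 0 = 1
  inf : ∀ (F : Type) [Field F] [Algebra (ZMod 2) F] (e τ c u ζ : F), ζ ≠ 0 →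
    ζ ^ (n + V.natDegree) * (aeval ζ⁻¹ V * (famF V₁ V₂ W m e τ c u).eval ζ⁻¹) =
      aeval (ζ ^ 4) D * ((1 + ζ ^ 4) ^ m * (e ^ 12 * (1 + ζ ^ 4) + τ * ζ ^ 4) +
        (u + c * algebraMap (ZMod 2) F (V₂.eval 1) + algebraMap (ZMod 2) F (W.eval 1)) *
          ζ ^ (4 * (m + 1))) +
      algebraMap (ZMod 2) F η * (1 + c) * ζ ^ (4 * (m + 1)) + c * ζ ^ s + ζ ^ r * (1 + ζ ^ 2)

namespace AType2

variable {n : ℕ} (t : AType2 n)

section ring

variable {F : Type*} [CommRing F] [Algebra (ZMod 2) F]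

/-- The polynomial `B(τ, c, u)` of the family. -/
noncomputable def B (τ c u : F) : F[X] := famB t.V₁ t.V₂ t.W t.m τ c u

/-- The polynomial `f(e, τ, c, u)` of the family. -/
noncomputable def f (e τ c u : F) : F[X] := famF t.V₁ t.V₂ t.W t.m e τ c u

/-- The polynomial `V` over `F`. -/
noncomputable def VF (F : Type*) [CommRing F] [Algebra (ZMod 2) F] : F[X] :=
  t.V.map (algebraMap (ZMod 2) F)

/-- The polynomial `V₁` over `F`. -/
noncomputable def V₁F (F : Type*) [CommRing F] [Algebra (ZMod 2) F] : F[X] :=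
  t.V₁.map (algebraMap (ZMod 2) F)

theorem f_eq (e τ c u : F) : t.f e τ c u =
    C (e ^ 12) * (t.V₁F F * (X ^ 4 + 1) ^ (t.m + 1)) + t.B τ c u := rfl

theorem f_zero (τ c u : F) : t.f 0 τ c u = t.B τ c u := by
  rw [f_eq]
  simp

theorem map_B {F' : Type*} [CommRing F'] [Algebra (ZMod 2) F'] (φ : F →+* F') (τ c u : F) :
    (t.B τ c u).map φ = t.B (φ τ) (φ c) (φ u) := by
  have h : φ.comp (algebraMap (ZMod 2) F) = algebraMap (ZMod 2) F' := Subsingleton.elim _ _
  have h' : ∀ a, φ (algebraMap (ZMod 2) F a) = algebraMap (ZMod 2) F' a := fun a => by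
    rw [← h]; rfl
  simp only [B, famB, Polynomial.map_add, Polynomial.map_mul, map_C, Polynomial.map_map, h,
    Polynomial.map_pow, map_X, Polynomial.map_one, map_add, map_mul, h']

theorem map_f {F' : Type*} [CommRing F'] [Algebra (ZMod 2) F'] (φ : F →+* F') (e τ c u : F) :
    (t.f e τ c u).map φ = t.f (φ e) (φ τ) (φ c) (φ u) := by
  have h : φ.comp (algebraMap (ZMod 2) F) = algebraMap (ZMod 2) F' := Subsingleton.elim _ _
  rw [f_eq, f_eq, Polynomial.map_add, map_B, Polynomial.map_mul, Polynomial.map_mul, map_C, V₁F,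
    V₁F, Polynomial.map_map, h, Polynomial.map_pow, Polynomial.map_add, Polynomial.map_pow, map_X,
    Polynomial.map_one, map_pow]

end ring

section field

variable {F : Type*} [Field F] [Algebra (ZMod 2) F]

theorem charP (F : Type*) [Field F] [Algebra (ZMod 2) F] : CharP F 2 :=
  charP_of_injective_algebraMap (algebraMap (ZMod 2) F).injective 2

theorem two_eq_zero (F : Type*) [Field F] [Algebra (ZMod 2) F] : (2 : F) = 0 := by
  have := charP F
  exact CharTwo.two_eq_zero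

theorem eval_map_one (P : (ZMod 2)[X]) : (P.map (algebraMap (ZMod 2) F)).eval 1 =
    algebraMap (ZMod 2) F (P.eval 1) := by
  rw [eval_map_algebraMap, ← map_one (algebraMap (ZMod 2) F),
    aeval_algebraMap_apply_eq_algebraMap_eval]

theorem eval_B (τ c u : F) : (t.B τ c u).eval 1 = u := by
  have := charP F
  have h : ((1 : F) ^ 4 + 1) = 0 := by
    rw [one_pow]
    exact CharTwo.add_self_eq_zero 1
  have hm := t.hm
  rw [B, famB, eval_add, eval_add, eval_mul, eval_add, eval_mul, eval_mul, eval_C, eval_C, eval_C,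
    eval_map_one, eval_map_one, eval_map_one, eval_pow, eval_add, eval_pow, eval_X, eval_one, h,
    t.V₁_one, map_one, zero_pow (by omega)]
  linear_combination (c * algebraMap (ZMod 2) F (eval 1 t.V₂) +
    algebraMap (ZMod 2) F (eval 1 t.W)) * two_eq_zero F

/-- `f(1) = u`. -/
theorem eval_f (e τ c u : F) : (t.f e τ c u).eval 1 = u := by
  have := charP F
  have h : ((1 : F) ^ 4 + 1) = 0 := by
    rw [one_pow]
    exact CharTwo.add_self_eq_zero 1
  rw [f_eq, eval_add, eval_B, eval_mul, eval_mul, eval_pow, eval_add, eval_pow, eval_X, eval_one, h,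
    zero_pow (by omega), mul_zero, mul_zero, zero_add]

theorem derivative_X4 : derivative ((X : F[X]) ^ 4 + 1) = 0 := by
  have := charP F
  rw [derivative_add, derivative_X_pow, derivative_one, add_zero]
  have h : ((4 : ℕ) : F) = 0 := by
    have := two_eq_zero F
    push_cast
    linear_combination 2 * this
  rw [h]
  simp

/-- `(V B)' = (X + 1)^2`. -/
theorem derivative_B (τ c u : F) : derivative (t.VF F * t.B τ c u) = (X + 1) ^ 2 := by
  have h1 : derivative (t.V * t.V₁) = 0 := t.keyV₁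
  have h2 : derivative (t.V * t.V₂) = 0 := t.keyV₂
  have h3 : derivative (t.V * t.W) = (X + 1) ^ 2 := t.keyW
  have h1' : derivative (t.VF F * t.V₁.map (algebraMap (ZMod 2) F)) = 0 := by
    rw [VF, ← Polynomial.map_mul, derivative_map, h1, Polynomial.map_zero]
  have h2' : derivative (t.VF F * t.V₂.map (algebraMap (ZMod 2) F)) = 0 := by
    rw [VF, ← Polynomial.map_mul, derivative_map, h2, Polynomial.map_zero]
  have h3' : derivative (t.VF F * t.W.map (algebraMap (ZMod 2) F)) = (X + 1) ^ 2 := by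
    rw [VF, ← Polynomial.map_mul, derivative_map, h3]
    simp
  have h4 : derivative (((X : F[X]) ^ 4 + 1) ^ t.m) = 0 := by
    rw [derivative_pow, derivative_X4, mul_zero]
  rw [B, famB]
  have e1 : t.VF F * (t.V₁.map (algebraMap (ZMod 2) F) * ((X ^ 4 + 1) ^ t.m * C τ +
      C (u + c * algebraMap (ZMod 2) F (t.V₂.eval 1) + algebraMap (ZMod 2) F (t.W.eval 1))) +
      C c * t.V₂.map (algebraMap (ZMod 2) F) + t.W.map (algebraMap (ZMod 2) F)) =
      (t.VF F * t.V₁.map (algebraMap (ZMod 2) F)) * ((X ^ 4 + 1) ^ t.m * C τ +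
      C (u + c * algebraMap (ZMod 2) F (t.V₂.eval 1) + algebraMap (ZMod 2) F (t.W.eval 1))) +
      C c * (t.VF F * t.V₂.map (algebraMap (ZMod 2) F)) +
      t.VF F * t.W.map (algebraMap (ZMod 2) F) := by ring
  rw [e1, derivative_add, derivative_add, derivative_mul, derivative_C_mul, h1', h2', h3',
    derivative_add, derivative_mul, h4, derivative_C, derivative_C]
  ring

/-- `(V f)' = (X + 1)^2`. -/
theorem derivative_f (e τ c u : F) : derivative (t.VF F * t.f e τ c u) = (X + 1) ^ 2 := by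
  have h1 : derivative (t.V * t.V₁) = 0 := t.keyV₁
  have h1' : derivative (t.VF F * t.V₁F F) = 0 := by
    rw [VF, V₁F, ← Polynomial.map_mul, derivative_map, h1, Polynomial.map_zero]
  have h4 : derivative (((X : F[X]) ^ 4 + 1) ^ (t.m + 1)) = 0 := by
    rw [derivative_pow, derivative_X4, mul_zero]
  have e1 : t.VF F * t.f e τ c u =
      C (e ^ 12) * ((t.VF F * t.V₁F F) * (X ^ 4 + 1) ^ (t.m + 1)) + t.VF F * t.B τ c u := by
    rw [f_eq]
    ring
  rw [e1, derivative_add, derivative_B, derivative_C_mul, derivative_mul, h1', h4]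
  ring

theorem monic_X4 : ((X : F[X]) ^ 4 + 1).Monic := by
  have h := monic_X_pow_add_C (1 : F) (n := 4) (by norm_num)
  rwa [C_1] at h

theorem natDegree_X4 : ((X : F[X]) ^ 4 + 1).natDegree = 4 := by
  have h := natDegree_X_pow_add_C (n := 4) (r := (1 : F))
  rwa [C_1] at h

theorem monic_V₁F : (t.V₁F F).Monic := t.hV₁.map _

theorem natDegree_V₁F : (t.V₁F F).natDegree = t.V₁.natDegree := natDegree_map _

theorem monic_A (k : ℕ) : (t.V₁F F * (X ^ 4 + 1) ^ k).Monic := t.monic_V₁F.mul (monic_X4.pow k)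

theorem natDegree_A (k : ℕ) :
    (t.V₁F F * (X ^ 4 + 1) ^ k).natDegree = t.V₁.natDegree + 4 * k := by
  rw [t.monic_V₁F.natDegree_mul (monic_X4.pow k), monic_X4.natDegree_pow, natDegree_X4,
    natDegree_V₁F, mul_comm 4 k]

theorem B_eq (τ c u : F) : t.B τ c u = C τ * (t.V₁F F * (X ^ 4 + 1) ^ t.m) +
    (C (u + c * algebraMap (ZMod 2) F (t.V₂.eval 1) + algebraMap (ZMod 2) F (t.W.eval 1)) *
      t.V₁F F + C c * t.V₂.map (algebraMap (ZMod 2) F) + t.W.map (algebraMap (ZMod 2) F)) := by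
  rw [B, famB, V₁F]
  ring

theorem natDegree_rest (a c : F) : (C a * t.V₁F F + C c * t.V₂.map (algebraMap (ZMod 2) F) +
    t.W.map (algebraMap (ZMod 2) F)).natDegree < n - 4 := by
  have h1 := t.degV₂
  have h2 := t.degW
  have h3 := t.hn
  have h4 := t.hm
  refine lt_of_le_of_lt (natDegree_add_le _ _) (max_lt ?_ (by rw [natDegree_map]; omega))
  refine lt_of_le_of_lt (natDegree_add_le _ _) (max_lt ?_ ?_)
  · refine lt_of_le_of_lt (natDegree_C_mul_le _ _) ?_
    rw [natDegree_V₁F]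
    omega
  · refine lt_of_le_of_lt (natDegree_C_mul_le _ _) ?_
    rw [natDegree_map]
    omega

theorem natDegree_B_le (τ c u : F) : (t.B τ c u).natDegree ≤ n - 4 := by
  rw [B_eq]
  refine (natDegree_add_le _ _).trans (max_le ?_ (t.natDegree_rest _ _).le)
  refine (natDegree_C_mul_le _ _).trans ?_
  rw [natDegree_A]
  have := t.hn
  omega

/-- The coefficient of `X^(n-4)` of `B(τ, c, u)` is `τ`. -/
theorem coeff_B (τ c u : F) : (t.B τ c u).coeff (n - 4) = τ := by
  have h1 : (t.V₁F F * (X ^ 4 + 1) ^ t.m).coeff (n - 4) = 1 := by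
    have h2 := (t.monic_A (F := F) t.m).coeff_natDegree
    rw [natDegree_A] at h2
    have h3 := t.hn
    have h4 : n - 4 = t.V₁.natDegree + 4 * t.m := by omega
    rwa [h4]
  rw [B_eq, coeff_add, coeff_eq_zero_of_natDegree_lt (t.natDegree_rest _ _), coeff_C_mul, h1]
  ring

theorem natDegree_B {τ : F} (hτ : τ ≠ 0) (c u : F) : (t.B τ c u).natDegree = n - 4 := by
  refine le_antisymm (t.natDegree_B_le _ _ _) (le_natDegree_of_ne_zero ?_)
  rwa [coeff_B]

include t in
theorem le_n : 8 ≤ n := by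
  have h3 := t.hn
  have h4 := t.hm
  omega

theorem natDegree_f_le (e τ c u : F) : (t.f e τ c u).natDegree ≤ n := by
  rw [f_eq]
  refine (natDegree_add_le _ _).trans (max_le ?_ ((t.natDegree_B_le _ _ _).trans (Nat.sub_le _ _)))
  refine (natDegree_C_mul_le _ _).trans ?_
  rw [natDegree_A]
  exact t.hn.ge

theorem coeff_f (e τ c u : F) : (t.f e τ c u).coeff n = e ^ 12 := by
  have h0 := t.le_n
  have h1 : (t.V₁F F * (X ^ 4 + 1) ^ (t.m + 1)).coeff n = 1 := by
    have h2 := (t.monic_A (F := F) (t.m + 1)).coeff_natDegree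
    rw [natDegree_A] at h2
    have h3 := t.hn
    rw [← h3] at h2
    exact h2
  rw [f_eq, coeff_add, coeff_C_mul, h1, mul_one, add_eq_left]
  exact coeff_eq_zero_of_natDegree_lt (lt_of_le_of_lt (t.natDegree_B_le _ _ _) (by omega))

theorem natDegree_f {e : F} (he : e ≠ 0) (τ c u : F) : (t.f e τ c u).natDegree = n := by
  refine le_antisymm (t.natDegree_f_le _ _ _ _) (le_natDegree_of_ne_zero ?_)
  rw [coeff_f]
  exact pow_ne_zero _ he

theorem leadingCoeff_f {e : F} (he : e ≠ 0) (τ c u : F) :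
    (t.f e τ c u).leadingCoeff = e ^ 12 := by
  rw [leadingCoeff, t.natDegree_f he, coeff_f]

end field

end AType2

/-! ## The sign class -/

section cls

variable {F : Type*} [Field F]

/-- `Σ_{i<j} y_i / (y_i + y_j)`. -/
noncomputable def bsum {n : ℕ} (y : Fin n → F) : F :=
  ∑ i, ∑ j ∈ Finset.Ioi i, y i / (y i + y j)

/-- The second elementary symmetric function. -/
def esym2 {n : ℕ} (z : Fin n → F) : F := ∑ i, ∑ j ∈ Finset.Ioi i, z i * z j

/-- `0` or `1` according to the sign. -/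
def chi (F : Type*) [Field F] (ε : ℤˣ) : F := if ε = 1 then 0 else 1

end cls

/-- The formula for the sign class of the roots. -/
def HasCls {n : ℕ} (t : AType2 n) (κ : ZMod 2) (ρn ρd : (ZMod 2)[X]) : Prop :=
  ∀ (Ω : Type) [Field Ω] [Algebra (ZMod 2) Ω] [IsSepClosed Ω] (e τ c u : Ω) (y : Fin n → Ω),
    e ≠ 0 → u ≠ 0 → Function.Injective y →
    t.f e τ c u = C (e ^ 12) * ∏ i, (X - C (y i)) →
    ∀ s : Ω, s = (1 + c) ^ 2 / u + ∑ i, aeval (y i) ρn / aeval (y i) ρd →
      bsum y ^ 2 + bsum y = (1 + c) ^ 3 / u + s ^ 2 + s + algebraMap (ZMod 2) Ω κ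

end MP7Z
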