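import Pool.Agent.Lib.MP_7f581e_Z.Alt2.Spec

/-!
# Alternating step in characteristic two: common denominators
-/

set_option autoImplicit false

namespace MP7Z.A2

open Polynomial MP7Z

open scoped IntermediateField.algebraAdjoinAdjoin

theorem Den_alg {Ω : Type} [Field Ω] [Algebra (ZMod 2) Ω] {x : Ω} (hst : IsStage 2 x) (t : Ω) :
    IsAlgebraic (Algebra.adjoin (ZMod 2) {x}) t := by
  have := hst.sep
  have h1 : IsAlgebraic (IntermediateField.adjoin (ZMod 2) {x}) t :=
    Algebra.IsAlgebraic.isAlgebraic t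
  exact h1.restrictScalars (Algebra.adjoin (ZMod 2) {x})

theorem tDen : DenStmt := by
  intro Ω _ _ x hst k b
  have h1 : ∀ j : Fin k, ∃ r : Algebra.adjoin (ZMod 2) {x}, r ≠ 0 ∧
      IsIntegral (Algebra.adjoin (ZMod 2) {x}) ((r : Ω) * b j) := by
    intro j
    obtain ⟨r, hr, hi⟩ := (Den_alg hst (b j)).exists_integral_multiple
    exact ⟨r, hr, hi⟩
  choose r hr hi using h1
  refine ⟨((∏ j, r j : Algebra.adjoin (ZMod 2) {x}) : Ω), (∏ j, r j).2, ?_, ?_⟩
  · intro h
    have h2 : (∏ j, r j : Algebra.adjoin (ZMod 2) {x}) = 0 := Subtype.ext h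
    exact (Finset.prod_ne_zero_iff.mpr fun j _ => hr j) h2
  · intro j
    have h3 : (∏ i, r i) = (∏ i ∈ Finset.univ.erase j, r i) * r j := by
      rw [Finset.prod_erase_mul _ _ (Finset.mem_univ j)]
    rw [h3]
    have h4 : (((∏ i ∈ Finset.univ.erase j, r i) * r j : Algebra.adjoin (ZMod 2) {x}) : Ω) * b j =
        algebraMap (Algebra.adjoin (ZMod 2) {x}) Ω (∏ i ∈ Finset.univ.erase j, r i) *
          ((r j : Ω) * b j) := by
      rw [← mul_assoc]
      rfl
    rw [h4]
    exact isIntegral_algebraMap.mul (hi j)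

end MP7Z.A2
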