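import Pool.Agent.Lib.MP_7f581e_Z.Alt2.Spec

/-!
# Rules for the second elementary symmetric function in characteristic two
-/

namespace MP7Z.A2

open Polynomial MP7Z

theorem E2_offdiag {n : ℕ} {F : Type*} [Field F] (g : Fin n → Fin n → F) :
    ∑ i, ∑ j, g i j = ∑ i, g i i + ∑ i, ∑ j ∈ Finset.Ioi i, (g i j + g j i) := by
  have h1 := Finset.sum_sum_Ioi_add_eq_sum_sum_off_diag (fun i j => g j i)
  rw [h1, ← Finset.sum_add_distrib]
  refine Finset.sum_congr rfl fun i _ => ?_
  rw [← Finset.sum_add_sum_compl {i} (fun j => g i j), Finset.sum_singleton]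

theorem E2_esym2_succ {n : ℕ} {F : Type*} [Field F] (z : Fin (n + 1) → F) :
    esym2 z = z 0 * ∑ i : Fin n, z i.succ + esym2 (fun i : Fin n => z i.succ) := by
  unfold esym2
  rw [Fin.sum_univ_succ]
  congr 1
  · rw [Fin.sum_Ioi_zero (fun j => z 0 * z j), Finset.mul_sum]
  · refine Finset.sum_congr rfl fun i _ => ?_
    rw [Fin.sum_Ioi_succ (fun j => z i.succ * z j) i]

theorem E2_const {n : ℕ} {F : Type*} [Field F] (a : F) :
    esym2 (fun _ : Fin n => a) = (n.choose 2 : F) * a ^ 2 := by
  induction n with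
  | zero => simp [esym2]
  | succ n ih =>
    rw [E2_esym2_succ, ih, Finset.sum_const, Finset.card_univ, Fintype.card_fin, nsmul_eq_mul,
      Nat.choose_succ_succ' n 1, Nat.choose_one_right]
    push_cast
    ring

theorem tE2 : E2Stmt := by
  intro n F _ _ x y a
  have hF : CharP F 2 := AType2.charP F
  have two := AType2.two_eq_zero F
  refine ⟨?_, ?_, ?_, E2_const a⟩
  · have h1 := E2_offdiag (fun i j => x i * y j)
    have h2 : ∑ i, ∑ j, x i * y j = (∑ i, x i) * ∑ i, y i := by
      rw [Finset.sum_mul]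
      refine Finset.sum_congr rfl fun i _ => ?_
      rw [Finset.mul_sum]
    have h3 : esym2 (fun i => x i + y i) = esym2 x + esym2 y +
        ∑ i, ∑ j ∈ Finset.Ioi i, (x i * y j + x j * y i) := by
      unfold esym2
      rw [← Finset.sum_add_distrib, ← Finset.sum_add_distrib]
      refine Finset.sum_congr rfl fun i _ => ?_
      rw [← Finset.sum_add_distrib, ← Finset.sum_add_distrib]
      refine Finset.sum_congr rfl fun j _ => ?_
      ring
    rw [h3]
    rw [h2] at h1
    linear_combination -h1 - (∑ i, x i * y i) * two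
  · unfold esym2
    rw [Finset.mul_sum]
    refine Finset.sum_congr rfl fun i _ => ?_
    rw [Finset.mul_sum]
    refine Finset.sum_congr rfl fun j _ => ?_
    ring
  · unfold esym2
    rw [CharTwo.sum_sq]
    refine Finset.sum_congr rfl fun i _ => ?_
    rw [CharTwo.sum_sq]
    refine Finset.sum_congr rfl fun j _ => ?_
    ring

end MP7Z.A2
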