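import Pool.Agent.Lib.MP_7f581e_Z.Alt2.Spec

/-!
# Alternating step, characteristic two: the polynomials `A`, `B` of the Eisenstein argument
-/

set_option autoImplicit false

namespace MP7Z.A2

open Polynomial MP7Z

theorem Gen1_X4 (F : Type) [Field F] [Algebra (ZMod 2) F] :
    ((X : F[X]) ^ 4 + 1) = (X - C 1) ^ 4 := by
  have h : (2 : F[X]) = 0 := by
    have h1 := congrArg (C : F → F[X]) (AType2.two_eq_zero F)
    rwa [C_0, C_ofNat] at h1
  rw [C_1]
  linear_combination (2 * X ^ 3 - 3 * X ^ 2 + 2 * X) * h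

theorem Gen1_V {n : ℕ} (t : AType2 n) {F : Type} [Field F] [Algebra (ZMod 2) F] (τ c u : F) :
    IsCoprime (t.VF F) (t.B τ c u) := by
  obtain ⟨P, hP⟩ := t.dvd₁
  obtain ⟨Q, hQ⟩ := t.dvd₂
  have h1 : IsCoprime (t.VF F) (t.W.map (algebraMap (ZMod 2) F)) :=
    t.cop.map (mapRingHom (algebraMap (ZMod 2) F))
  have h2 := h1.add_mul_left_right
    (P.map (algebraMap (ZMod 2) F) * ((X ^ 4 + 1) ^ t.m * C τ +
      C (u + c * algebraMap (ZMod 2) F (t.V₂.eval 1) + algebraMap (ZMod 2) F (t.W.eval 1))) +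
      C c * Q.map (algebraMap (ZMod 2) F))
  have h3 : t.B τ c u = t.W.map (algebraMap (ZMod 2) F) + t.VF F *
      (P.map (algebraMap (ZMod 2) F) * ((X ^ 4 + 1) ^ t.m * C τ +
      C (u + c * algebraMap (ZMod 2) F (t.V₂.eval 1) + algebraMap (ZMod 2) F (t.W.eval 1))) +
      C c * Q.map (algebraMap (ZMod 2) F)) := by
    have e1 : t.V₁.map (algebraMap (ZMod 2) F) = t.VF F * P.map (algebraMap (ZMod 2) F) := by
      rw [AType2.VF, ← Polynomial.map_mul, ← hP]
    have e2 : t.V₂.map (algebraMap (ZMod 2) F) = t.VF F * Q.map (algebraMap (ZMod 2) F) := by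
      rw [AType2.VF, ← Polynomial.map_mul, ← hQ]
    rw [AType2.B, famB, e1, e2]
    ring
  rw [h3]
  exact h2

theorem tGen1 (h0 : SepStmt) : Gen1Stmt := by
  intro n t F _ _ τ c u hτ hu
  have hsep : (t.B τ c u).Separable := by
    have := h0 n t F 0 τ c u hu
    rwa [AType2.f_zero] at this
  refine ⟨IsCoprime.mul_left ?_ ?_, hsep.squarefree, ?_⟩
  · obtain ⟨k, hk⟩ := t.dvdk
    have h1 : t.V₁F F ∣ t.VF F ^ k := by
      have h2 := Polynomial.map_dvd (algebraMap (ZMod 2) F) hk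
      rwa [Polynomial.map_pow] at h2
    exact ((Gen1_V t τ c u).pow_left (m := k)).of_isCoprime_of_dvd_left h1
  · rw [Gen1_X4]
    apply IsCoprime.pow_left
    apply IsCoprime.pow_left
    rw [(irreducible_X_sub_C (1 : F)).coprime_iff_not_dvd, dvd_iff_isRoot, IsRoot.def,
      t.eval_B]
    exact hu
  · rw [t.natDegree_B hτ]
    have := t.le_n
    omega

end MP7Z.A2
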