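import Pool.Agent.Lib.MP_7f581e_Z.Alt2.Spec

/-!
# Alternating step, characteristic two: the polynomial with one root removed
-/

set_option autoImplicit false

namespace MP7Z.A2

open Polynomial MP7Z

theorem tGen2 (h0 : SepStmt) (h1 : Gen1Stmt) : Gen2Stmt := by
  intro n t F _ _ c u lam a B₁ hlam hu hB
  obtain ⟨hcop, -, -⟩ := h1 n t F lam c u hlam hu
  have hsep : (t.B lam c u).Separable := by
    have := h0 n t F 0 lam c u hu
    rwa [AType2.f_zero] at this
  have hd := t.natDegree_B hlam c u
  have hn := t.le_n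
  have hB1 : B₁ ≠ 0 := by
    rintro rfl
    rw [mul_zero] at hB
    rw [hB, natDegree_zero] at hd
    omega
  refine ⟨IsCoprime.mul_left ?_ ?_, ?_, ?_⟩
  · rw [pow_succ, ← mul_assoc] at hcop
    have h2 := hcop.of_mul_left_left
    rw [hB] at h2
    exact h2.of_mul_right_right
  · apply IsCoprime.pow_left
    rw [hB] at hsep
    exact hsep.isCoprime
  · exact hsep.squarefree.squarefree_of_dvd ⟨X - C a, by rw [hB, mul_comm]⟩
  · rw [hB, natDegree_mul (X_sub_C_ne_zero a) hB1, natDegree_X_sub_C] at hd
    omega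

end MP7Z.A2
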