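import Pool.Agent.Lib.MP_7f581e_Z.Alt2.Spec

/-!
# Generic double transitivity in characteristic two
-/

namespace MP7Z.A2
namespace GenT_M

open Polynomial MP7Z

section field

variable {L N : Type} [Field L] [Field N] [Algebra L N]

theorem conj (h0 : EisStmt) [IsAlgClosed N]
    (F : IntermediateField L N) (e : N) (he : Transcendental F e) (A B : F[X]) (k : ℕ)
    (hk : 0 < k) (hAB : IsCoprime A B) (hB : Squarefree B) (hd : 0 < B.natDegree)
    (halg : Algebra.IsAlgebraic (IntermediateField.adjoin F {e}) N) (a b : N)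
    (ha : (C (e ^ k) * A.map (algebraMap F N) + B.map (algebraMap F N)).eval a = 0)
    (hb : (C (e ^ k) * A.map (algebraMap F N) + B.map (algebraMap F N)).eval b = 0) :
    ∃ σ : N ≃ₐ[L] N, (∀ z ∈ IntermediateField.adjoin F {e}, σ z = z) ∧ σ a = b := by
  have hirr := h0 F N e he A B k hk hAB hB hd
  set K₁ := IntermediateField.adjoin F {e} with hK₁
  have hQ : (C (IntermediateField.AdjoinSimple.gen F e ^ k) * A.map (algebraMap F K₁) +
      B.map (algebraMap F K₁)).map (algebraMap K₁ N) =
      C (e ^ k) * A.map (algebraMap F N) + B.map (algebraMap F N) := by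
    rw [Polynomial.map_add, Polynomial.map_mul, Polynomial.map_C, Polynomial.map_map,
      Polynomial.map_map, ← IsScalarTower.algebraMap_eq, map_pow,
      IntermediateField.AdjoinSimple.algebraMap_gen]
  have ha' : aeval a (C (IntermediateField.AdjoinSimple.gen F e ^ k) * A.map (algebraMap F K₁) +
      B.map (algebraMap F K₁)) = 0 := by
    rw [aeval_def, ← eval_map, hQ]
    exact ha
  have hb' : aeval b (C (IntermediateField.AdjoinSimple.gen F e ^ k) * A.map (algebraMap F K₁) +
      B.map (algebraMap F K₁)) = 0 := by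
    rw [aeval_def, ← eval_map, hQ]
    exact hb
  have : IsAlgClosure K₁ N := ⟨inferInstance, halg⟩
  have : Normal K₁ N := IsAlgClosure.normal K₁ N
  have hm : IsConjRoot K₁ b a := by
    rw [IsConjRoot, ← minpoly.eq_of_irreducible hirr ha', ← minpoly.eq_of_irreducible hirr hb']
  obtain ⟨σ, hσ⟩ := isConjRoot_iff_exists_algEquiv.mp hm
  have : IsScalarTower L K₁ N := .of_algebraMap_eq fun _ => rfl
  exact ⟨σ.restrictScalars L, fun z hz => σ.commutes ⟨z, hz⟩, hσ⟩

theorem alg_mono {K₁ K₂ : IntermediateField L N}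
    (h : K₁ ≤ K₂) (ha : Algebra.IsAlgebraic K₁ N) : Algebra.IsAlgebraic K₂ N := by
  let _ : Algebra K₁ K₂ := (IntermediateField.inclusion h).toRingHom.toAlgebra
  have : IsScalarTower K₁ K₂ N := .of_algebraMap_eq (fun _ => rfl)
  exact Algebra.IsAlgebraic.tower_top (K := K₁) K₂

/-- The elements algebraic over `L(a)`. -/
noncomputable def cl (L : Type) {N : Type} [Field L] [Field N] [Algebra L N] (a : N) :
    IntermediateField L N :=
  (algebraicClosure (IntermediateField.adjoin L {a}) N).restrictScalars L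

theorem mem_cl {a z : N} : z ∈ cl L a ↔ IsAlgebraic (IntermediateField.adjoin L {a}) z := by
  rw [cl, IntermediateField.mem_restrictScalars, mem_algebraicClosure_iff]

theorem self_mem_cl (a : N) : a ∈ cl L a := by
  rw [mem_cl]
  exact isAlgebraic_algebraMap
    (⟨a, IntermediateField.mem_adjoin_simple_self L a⟩ : IntermediateField.adjoin L {a})

open scoped IntermediateField.algebraAdjoinAdjoin in
theorem no2 {U T : N} (hUT : AlgebraicIndependent L ![U, T])
    (halg : Algebra.IsAlgebraic (IntermediateField.adjoin L {U, T}) N) (a : N)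
    (hU : U ∈ cl L a) (hT : T ∈ cl L a) : False := by
  have h1 : IntermediateField.adjoin L {U, T} ≤ cl L a := by
    rw [IntermediateField.adjoin_le_iff]
    rintro z (rfl | hz)
    · exact hU
    · rw [Set.mem_singleton_iff] at hz
      rw [hz]
      exact hT
  have h2 : Algebra.IsAlgebraic (cl L a) N := alg_mono h1 halg
  have h3 : Algebra.IsAlgebraic (IntermediateField.adjoin L {a}) N := by
    have h2' : Algebra.IsAlgebraic (algebraicClosure (IntermediateField.adjoin L {a}) N) N := h2
    exact Algebra.IsAlgebraic.trans (IntermediateField.adjoin L {a})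
      (algebraicClosure (IntermediateField.adjoin L {a}) N) N
  have h4 : Algebra.IsAlgebraic (Algebra.adjoin L {a}) N :=
    (IsFractionRing.comap_isAlgebraic_iff (A := Algebra.adjoin L {a})
      (K := IntermediateField.adjoin L {a}) (C := N)).mpr h3
  have h5 : Algebra.trdeg L N ≤ 1 := by
    have := Algebra.IsAlgebraic.trdeg_le_cardinalMk (R := L) (A := N) {a}
    simpa using this
  have h6 : 2 ≤ Algebra.trdeg L N := by
    have := hUT.cardinalMk_le_trdeg
    simpa using this
  have h7 := h6.trans h5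
  norm_num at h7

end field

section type

variable {n : ℕ} (t : AType2 n) {L N : Type} [Field L] [Field N]
  [Algebra (ZMod 2) L] [Algebra (ZMod 2) N] [Algebra L N]

omit [Algebra (ZMod 2) L] [Algebra (ZMod 2) N] in
theorem eval_mem (B : IntermediateField L N) {a : N} (ha : a ∈ B) (Q : L[X]) :
    (Q.map (algebraMap L N)).eval a ∈ B := by
  rw [eval_map_algebraMap]
  have h1 := aeval_algebraMap_apply N (⟨a, ha⟩ : B) Q
  have h2 : algebraMap B N ⟨a, ha⟩ = a := rfl
  rw [h2] at h1
  rw [h1]
  exact (aeval (⟨a, ha⟩ : B) Q).2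

theorem map_V₁F {F F' : Type} [Field F] [Field F'] [Algebra (ZMod 2) F] [Algebra (ZMod 2) F']
    (φ : F →+* F') : (t.V₁F F).map φ = t.V₁F F' := by
  have h : φ.comp (algebraMap (ZMod 2) F) = algebraMap (ZMod 2) F' := Subsingleton.elim _ _
  rw [AType2.V₁F, AType2.V₁F, Polynomial.map_map, h]

theorem B_split {F : Type} [Field F] [Algebra (ZMod 2) F] (τ c u : F) :
    t.B τ c u = C τ * (t.V₁F F * (X ^ 4 + 1) ^ t.m) + t.B 0 c u := by
  rw [t.B_eq τ c u, t.B_eq 0 c u, C_0]
  ring

theorem eval_f2 (e τ c u a : N) : (t.f e τ c u).eval a =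
    (t.V₁F N).eval a * (a ^ 4 + 1) ^ t.m * (e ^ 12 * (a ^ 4 + 1) + τ) +
      (t.B 0 c u).eval a := by
  rw [t.f_eq, B_split t τ c u]
  simp only [eval_add, eval_mul, eval_pow, eval_X, eval_C, eval_one]
  ring

theorem rootV (e τ c u a : N) (h : (t.f e τ c u).eval a = 0) : (t.V₁F N).eval a ≠ 0 := by
  intro hv
  obtain ⟨k, hk⟩ := t.dvdk
  have h1 : (t.V.map (algebraMap (ZMod 2) N)).eval a = 0 := by
    have h2 : t.V₁F N ∣ (t.V.map (algebraMap (ZMod 2) N)) ^ k := by
      rw [← Polynomial.map_pow]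
      exact Polynomial.map_dvd _ hk
    have h3 : ((t.V.map (algebraMap (ZMod 2) N)) ^ k).eval a = 0 :=
      eval_eq_zero_of_dvd_of_eval_eq_zero h2 hv
    rw [eval_pow] at h3
    by_contra h4
    exact pow_ne_zero _ h4 h3
  have h2 : (t.V₂.map (algebraMap (ZMod 2) N)).eval a = 0 :=
    eval_eq_zero_of_dvd_of_eval_eq_zero (Polynomial.map_dvd _ t.dvd₂) h1
  have h3 : (t.B 0 c u).eval a = (t.W.map (algebraMap (ZMod 2) N)).eval a := by
    rw [t.B_eq 0 c u]
    simp only [eval_add, eval_mul, eval_C, hv, h2]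
    ring
  rw [eval_f2, hv, h3] at h
  have h4 : (t.W.map (algebraMap (ZMod 2) N)).eval a = 0 := by
    linear_combination h
  obtain ⟨r, s, hrs⟩ := t.cop
  have h5 := congrArg (fun Q => (Q.map (algebraMap (ZMod 2) N)).eval a) hrs
  simp only [Polynomial.map_add, Polynomial.map_mul, eval_add, eval_mul, h1, h4,
    Polynomial.map_one, eval_one, mul_zero, add_zero] at h5
  exact zero_ne_one h5

theorem sub_four (z a : N) : (z - a) ^ 4 = z ^ 4 - a ^ 4 := by
  have h2 := AType2.two_eq_zero N
  linear_combination (-2 * z ^ 3 * a + 3 * z ^ 2 * a ^ 2 - 2 * z * a ^ 3 + a ^ 4) * h2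

theorem rootX (e τ c u a : N) (hu : u ≠ 0) (h : (t.f e τ c u).eval a = 0) : a ^ 4 + 1 ≠ 0 := by
  intro ha
  have h2 := AType2.two_eq_zero N
  have h3 : (a - 1) ^ 4 = 0 := by
    rw [sub_four]
    linear_combination ha - h2
  have h4 : a = 1 := sub_eq_zero.mp (pow_eq_zero_iff (by norm_num) |>.mp h3)
  rw [h4, t.eval_f] at h
  exact hu h

/-- `λ`, with `B(λ, c, u)(a) = 0`. -/
noncomputable def lam (c u a : N) : N :=
  -(t.B 0 c u).eval a / ((t.V₁F N).eval a * (a ^ 4 + 1) ^ t.m)

theorem lam_mem (B : IntermediateField L N) {a : N} (ha : a ∈ B) (c u : L) :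
    lam t (algebraMap L N c) (algebraMap L N u) a ∈ B := by
  have h1 : t.B 0 (algebraMap L N c) (algebraMap L N u) =
      (t.B (0 : L) c u).map (algebraMap L N) := by
    rw [t.map_B, map_zero]
  have h2 : t.V₁F N = (t.V₁F L).map (algebraMap L N) := (map_V₁F t _).symm
  rw [lam, h1, h2]
  exact div_mem (neg_mem (eval_mem B ha _)) (mul_mem (eval_mem B ha _)
    (pow_mem (add_mem (pow_mem ha _) (one_mem B)) _))

theorem tau_eq (e τ c u a : N) (hu : u ≠ 0) (h : (t.f e τ c u).eval a = 0) :
    τ = lam t c u a - e ^ 12 * (a ^ 4 + 1) := by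
  have hv := rootV t e τ c u a h
  have hg := rootX t e τ c u a hu h
  have hg' : (a ^ 4 + 1) ^ t.m ≠ 0 := pow_ne_zero _ hg
  rw [eval_f2 t] at h
  have h2 : (lam t c u a) * ((t.V₁F N).eval a * (a ^ 4 + 1) ^ t.m) = -(t.B 0 c u).eval a := by
    rw [lam, div_mul_cancel₀ _ (mul_ne_zero hv hg')]
  apply mul_right_cancel₀ (mul_ne_zero hv hg')
  linear_combination h - h2

theorem UT_mem (x h c u P : L) (hP : P ≠ 0) (hu : u ≠ 0) (U T τ e : N) (hτ0 : τ ≠ 0)
    (hτ : τ = algebraMap L N x + algebraMap L N P ^ 2 * U)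
    (he : e = 1 + (algebraMap L N h + algebraMap L N P * T) * τ)
    (B : IntermediateField L N) (a : N)
    (hroot : (t.f e τ (algebraMap L N c) (algebraMap L N u)).eval a = 0)
    (heB : e ∈ B) (ha : a ∈ B) : U ∈ B ∧ T ∈ B := by
  have h1 := lam_mem t B ha c u
  have hu' : algebraMap L N u ≠ 0 := by
    rw [Ne, map_eq_zero]
    exact hu
  have h2 : τ ∈ B := by
    rw [tau_eq t e τ _ _ a hu' hroot]
    exact sub_mem h1 (mul_mem (pow_mem heB _) (add_mem (pow_mem ha _) (one_mem B)))
  have hP' : algebraMap L N P ≠ 0 := by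
    rw [Ne, map_eq_zero]
    exact hP
  constructor
  · have h3 : U = (τ - algebraMap L N x) / algebraMap L N P ^ 2 := by
      rw [hτ]
      field_simp
      ring
    rw [h3]
    exact div_mem (sub_mem h2 (B.algebraMap_mem x)) (pow_mem (B.algebraMap_mem P) _)
  · have h3 : T = ((e - 1) / τ - algebraMap L N h) / algebraMap L N P := by
      rw [he]
      field_simp
      ring
    rw [h3]
    exact div_mem (sub_mem (div_mem (sub_mem heB (one_mem B)) h2) (B.algebraMap_mem h))
      (B.algebraMap_mem P)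

omit [Algebra (ZMod 2) L] [Algebra (ZMod 2) N] in
theorem fld_sq {P : L} {U T : N} (hUT : AlgebraicIndependent L ![U, T])
    (halg : Algebra.IsAlgebraic (IntermediateField.adjoin L {U, T}) N) (x : L) (hP : P ≠ 0)
    {τ : N} (hτ : τ = algebraMap L N x + algebraMap L N P ^ 2 * U) : τ ≠ 0 := by
  intro h
  rw [h] at hτ
  have hP' : algebraMap L N P ≠ 0 := by
    rw [Ne, map_eq_zero]
    exact hP
  have h3 : U = algebraMap L N (-x / P ^ 2) := by
    rw [map_div₀, map_neg, map_pow]
    field_simp
    linear_combination -hτ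
  refine no2 hUT halg T ?_ (self_mem_cl T)
  rw [h3]
  exact (cl L T).algebraMap_mem _

theorem first (h0 : EisStmt) (h1 : Gen1Stmt) [IsAlgClosed N] {U T : N}
    (hUT : AlgebraicIndependent L ![U, T])
    (halg : Algebra.IsAlgebraic (IntermediateField.adjoin L {U, T}) N)
    (x h c u P : L) (hP : P ≠ 0) (hu : u ≠ 0)
    (τ e : N) (hτ : τ = algebraMap L N x + algebraMap L N P ^ 2 * U)
    (he : e = 1 + (algebraMap L N h + algebraMap L N P * T) * τ) (a b : N)
    (ha : (t.f e τ (algebraMap L N c) (algebraMap L N u)).eval a = 0)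
    (hb : (t.f e τ (algebraMap L N c) (algebraMap L N u)).eval b = 0) :
      ∃ σ : N ≃ₐ[L] N, σ U = U ∧ σ T = T ∧ σ a = b := by
  have hτ0 := fld_sq hUT halg x hP hτ
  have hP' : algebraMap L N P ≠ 0 := by
    rw [Ne, map_eq_zero]
    exact hP
  have hTeq : T = ((e - 1) / τ - algebraMap L N h) / algebraMap L N P := by
    rw [he]
    field_simp
    ring
  have hTmem : ∀ B : IntermediateField L N, τ ∈ B → e ∈ B → T ∈ B := by
    intro B hτB heB
    rw [hTeq]
    exact div_mem (sub_mem (div_mem (sub_mem heB (one_mem B)) hτB) (B.algebraMap_mem h))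
      (B.algebraMap_mem P)
  have hτmem : ∀ B : IntermediateField L N, U ∈ B → τ ∈ B := by
    intro B hU
    rw [hτ]
    exact add_mem (B.algebraMap_mem x) (mul_mem (pow_mem (B.algebraMap_mem P) _) hU)
  set F := IntermediateField.adjoin L {U} with hF
  have htr : Transcendental F e := by
    intro h2
    have h3 : e ∈ cl L U := mem_cl.mpr h2
    exact no2 hUT halg U (self_mem_cl U)
      (hTmem _ (hτmem _ (self_mem_cl U)) h3)
  have hUF : U ∈ F := IntermediateField.mem_adjoin_simple_self L U
  let _ : Algebra (ZMod 2) F := ((algebraMap L F).comp (algebraMap (ZMod 2) L)).toAlgebra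
  set τ' : F := ⟨τ, hτmem F hUF⟩ with hτ'
  have hu' : algebraMap L F u ≠ 0 := by
    rw [Ne, map_eq_zero]
    exact hu
  obtain ⟨c1, c2, c3⟩ := h1 n t F τ' (algebraMap L F c) (algebraMap L F u)
    (fun h2 => hτ0 (congrArg Subtype.val h2)) hu'
  have hK : Algebra.IsAlgebraic (IntermediateField.adjoin F {e}) N := by
    have h4 : IntermediateField.adjoin L {U, T} ≤
        (IntermediateField.adjoin F {e}).restrictScalars L := by
      have hU1 : U ∈ (IntermediateField.adjoin F {e}).restrictScalars L :=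
        (IntermediateField.adjoin F {e}).algebraMap_mem ⟨U, hUF⟩
      have he1 : e ∈ (IntermediateField.adjoin F {e}).restrictScalars L :=
        IntermediateField.mem_adjoin_simple_self F e
      rw [IntermediateField.adjoin_le_iff]
      rintro z (rfl | hz)
      · exact hU1
      · rw [Set.mem_singleton_iff] at hz
        rw [hz]
        exact hTmem _ (hτmem _ hU1) he1
    have h5 := alg_mono h4 halg
    exact h5
  have hf : C (e ^ 12) * (t.V₁F F * (X ^ 4 + 1) ^ (t.m + 1)).map (algebraMap F N) +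
      (t.B τ' (algebraMap L F c) (algebraMap L F u)).map (algebraMap F N) =
      t.f e τ (algebraMap L N c) (algebraMap L N u) := by
    rw [t.f_eq, t.map_B, Polynomial.map_mul, map_V₁F, Polynomial.map_pow, Polynomial.map_add,
      Polynomial.map_pow, map_X, Polynomial.map_one]
    rfl
  obtain ⟨σ, hσ1, hσ2⟩ := conj h0 F e htr _ _ 12 (by norm_num) c1 c2 c3 hK a b
    (by rw [hf]; exact ha) (by rw [hf]; exact hb)
  have hU1 : U ∈ IntermediateField.adjoin F {e} :=
    (IntermediateField.adjoin F {e}).algebraMap_mem ⟨U, hUF⟩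
  have he1 : e ∈ IntermediateField.adjoin F {e} :=
    IntermediateField.mem_adjoin_simple_self F e
  refine ⟨σ, hσ1 U hU1, hσ1 T ?_, hσ2⟩
  exact hTmem ((IntermediateField.adjoin F {e}).restrictScalars L)
    (hτmem ((IntermediateField.adjoin F {e}).restrictScalars L) hU1) he1

theorem second (h0 : EisStmt) (h2 : Gen2Stmt) [IsAlgClosed N] {U T : N}
    (hUT : AlgebraicIndependent L ![U, T])
    (halg : Algebra.IsAlgebraic (IntermediateField.adjoin L {U, T}) N)
    (x h c u P : L) (hP : P ≠ 0) (hu : u ≠ 0)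
    (τ e : N) (hτ0 : τ ≠ 0) (hτ : τ = algebraMap L N x + algebraMap L N P ^ 2 * U)
    (he : e = 1 + (algebraMap L N h + algebraMap L N P * T) * τ)
    (a b d : N) (ha : (t.f e τ (algebraMap L N c) (algebraMap L N u)).eval a = 0)
    (hb : (t.f e τ (algebraMap L N c) (algebraMap L N u)).eval b = 0)
    (hd : (t.f e τ (algebraMap L N c) (algebraMap L N u)).eval d = 0)
    (hba : b ≠ a) (hda : d ≠ a) :
    ∃ σ : N ≃ₐ[L] N, σ U = U ∧ σ T = T ∧ σ a = a ∧ σ b = d := by
  have huN : algebraMap L N u ≠ 0 := by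
    rw [Ne, map_eq_zero]
    exact hu
  have hmem : ∀ B : IntermediateField L N, e ∈ B → a ∈ B → U ∈ B ∧ T ∈ B := fun B =>
    UT_mem t x h c u P hP hu U T τ e hτ0 hτ he B a ha
  set F := IntermediateField.adjoin L {a} with hF
  have haF : a ∈ F := IntermediateField.mem_adjoin_simple_self L a
  have htr : Transcendental F e := by
    intro h3
    have h4 : e ∈ cl L a := mem_cl.mpr h3
    have h5 := hmem _ h4 (self_mem_cl a)
    exact no2 hUT halg a h5.1 h5.2
  have htra : Transcendental L a := by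
    intro h3
    have h4 : a ∈ cl L e := mem_cl.mpr (h3.tower_top _)
    have h5 := hmem _ (self_mem_cl e) h4
    exact no2 hUT halg e h5.1 h5.2
  let _ : Algebra (ZMod 2) F := ((algebraMap L F).comp (algebraMap (ZMod 2) L)).toAlgebra
  have hV := rootV t e τ _ _ a ha
  have hG := rootX t e τ _ _ a huN ha
  have hG' : (a ^ 4 + 1) ^ t.m ≠ 0 := pow_ne_zero _ hG
  have hτe := tau_eq t e τ _ _ a huN ha
  have hlmem : lam t (algebraMap L N c) (algebraMap L N u) a ∈ F := lam_mem t F haF c u
  set lam' : F := ⟨lam t (algebraMap L N c) (algebraMap L N u) a, hlmem⟩ with hlam'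
  have hl0 : lam' ≠ 0 := by
    intro h3
    have h4 : lam t (algebraMap L N c) (algebraMap L N u) a = 0 := congrArg Subtype.val h3
    have h5 : (t.B 0 (algebraMap L N c) (algebraMap L N u)).eval a = 0 := by
      rw [lam, div_eq_zero_iff] at h4
      rcases h4 with h4 | h4
      · exact neg_eq_zero.mp h4
      · exact absurd h4 (mul_ne_zero hV hG')
    have h6 : aeval a (t.B (0 : L) c u) = 0 := by
      rw [← h5, ← eval_map_algebraMap, t.map_B, map_zero]
    have h7 := (transcendental_iff.mp htra) _ h6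
    have h8 := t.eval_B (0 : L) c u
    rw [h7, eval_zero] at h8
    exact hu h8.symm
  set a' : F := ⟨a, haF⟩ with ha'
  have hu' : algebraMap L F u ≠ 0 := by
    rw [Ne, map_eq_zero]
    exact hu
  have hBtN : (t.B lam' (algebraMap L F c) (algebraMap L F u)).map (algebraMap F N) =
      t.B (lam t (algebraMap L N c) (algebraMap L N u) a) (algebraMap L N c)
        (algebraMap L N u) := by
    rw [t.map_B]
    rfl
  have hroot : (t.B lam' (algebraMap L F c) (algebraMap L F u)).IsRoot a' := by
    rw [IsRoot.def]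
    apply (algebraMap F N).injective
    rw [map_zero, ← eval_map_apply, hBtN]
    change eval a _ = 0
    rw [B_split, lam]
    simp only [eval_add, eval_mul, eval_pow, eval_X, eval_C, eval_one]
    rw [div_mul_cancel₀ _ (mul_ne_zero hV hG')]
    ring
  obtain ⟨B₁, hB₁⟩ := dvd_iff_isRoot.mpr hroot
  obtain ⟨c1, c2, c3⟩ := h2 n t F (algebraMap L F c) (algebraMap L F u) lam' a' B₁ hl0 hu' hB₁
  have ha1 : a ∈ (IntermediateField.adjoin F {e}).restrictScalars L :=
    (IntermediateField.adjoin F {e}).algebraMap_mem ⟨a, haF⟩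
  have he1 : e ∈ (IntermediateField.adjoin F {e}).restrictScalars L :=
    IntermediateField.mem_adjoin_simple_self F e
  have hUT1 := hmem _ he1 ha1
  have hK : Algebra.IsAlgebraic (IntermediateField.adjoin F {e}) N := by
    have h4 : IntermediateField.adjoin L {U, T} ≤
        (IntermediateField.adjoin F {e}).restrictScalars L := by
      rw [IntermediateField.adjoin_le_iff]
      rintro z (rfl | hz)
      · exact hUT1.1
      · rw [Set.mem_singleton_iff] at hz
        rw [hz]
        exact hUT1.2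
    have h5 := alg_mono h4 halg
    exact h5
  have hz : ∀ z : N, z ≠ a → (t.f e τ (algebraMap L N c) (algebraMap L N u)).eval z = 0 →
      (C (e ^ 12) * (t.V₁F F * (X ^ 4 + 1) ^ t.m * (X - C a') ^ 3).map (algebraMap F N) +
        B₁.map (algebraMap F N)).eval z = 0 := by
    intro z hza hz
    have h6 : (z - a) * (B₁.map (algebraMap F N)).eval z =
        ((t.B lam' (algebraMap L F c) (algebraMap L F u)).map (algebraMap F N)).eval z := by
      rw [hB₁, Polynomial.map_mul, Polynomial.map_sub, map_X, map_C, eval_mul, eval_sub, eval_X,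
        eval_C]
      rfl
    rw [hBtN, B_split, eval_add, eval_mul, eval_C, eval_mul, eval_pow, eval_add, eval_pow, eval_X,
      eval_one] at h6
    have h7 := sub_four z a
    rw [eval_f2 t] at hz
    have h8 : ((t.V₁F F * (X ^ 4 + 1) ^ t.m * (X - C a') ^ 3).map (algebraMap F N)).eval z =
        (t.V₁F N).eval z * (z ^ 4 + 1) ^ t.m * (z - a) ^ 3 := by
      rw [Polynomial.map_mul, Polynomial.map_mul, map_V₁F, Polynomial.map_pow, Polynomial.map_pow,
        Polynomial.map_sub, Polynomial.map_add, Polynomial.map_pow, Polynomial.map_one,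
        map_X, map_C, eval_mul, eval_mul, eval_pow, eval_pow, eval_sub, eval_add, eval_pow, eval_X,
        eval_C, eval_one]
      rfl
    rw [eval_add, eval_mul, eval_C, h8]
    have h9 : z - a ≠ 0 := sub_ne_zero.mpr hza
    apply (mul_eq_zero.mp _).resolve_left h9
    linear_combination h6 + e ^ 12 * (t.V₁F N).eval z * (z ^ 4 + 1) ^ t.m * h7 + hz -
      (t.V₁F N).eval z * (z ^ 4 + 1) ^ t.m * hτe
  obtain ⟨σ, hσ1, hσ2⟩ := conj h0 F e htr _ _ 12 (by norm_num) c1 c2 c3 hK b d (hz b hba hb)
    (hz d hda hd)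
  exact ⟨σ, hσ1 U hUT1.1, hσ1 T hUT1.2, hσ1 a ha1, hσ2⟩

end type

end GenT_M

open Polynomial in
theorem tGenT (h0 : EisStmt) (h1 : Gen1Stmt) (h2 : Gen2Stmt) : GenTStmt := by
  intro n t L N _ _ _ _ _ _ _ U T hUT halg x h c u P hP hu τ e hτ he y hy hf i i' l l' hi hl
  have hroot : ∀ i, (t.f e τ (algebraMap L N c) (algebraMap L N u)).eval (y i) = 0 := by
    intro i
    rw [hf, eval_mul, eval_prod, Finset.prod_eq_zero (Finset.mem_univ i) (by simp), mul_zero]
  obtain ⟨σ, hσU, hσT, hσ⟩ := GenT_M.first t h0 h1 hUT halg x h c u P hP hu τ e hτ he _ _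
    (hroot i) (hroot l)
  have hστ : σ τ = τ := by
    rw [hτ, map_add, map_mul, map_pow, σ.commutes, σ.commutes, hσU]
  have hσe : σ e = e := by
    rw [he, map_add, map_one, map_mul, map_add, map_mul, σ.commutes, σ.commutes, hσT, hστ]
  have hr1 : (t.f e τ (algebraMap L N c) (algebraMap L N u)).eval (σ (y i')) = 0 := by
    have h3 := t.map_f (σ : N →+* N) e τ (algebraMap L N c) (algebraMap L N u)
    have h4 : (σ : N →+* N) e = e := hσe
    have h5 : (σ : N →+* N) τ = τ := hστ
    have h6 : (σ : N →+* N) (algebraMap L N c) = algebraMap L N c := σ.commutes c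
    have h6' : (σ : N →+* N) (algebraMap L N u) = algebraMap L N u := σ.commutes u
    rw [h4, h5, h6, h6'] at h3
    rw [← h3]
    have h7 := eval_map_apply (σ : N →+* N)
      (p := t.f e τ (algebraMap L N c) (algebraMap L N u)) (y i')
    rw [hroot, map_zero] at h7
    exact h7
  have hne : σ (y i') ≠ y l := by
    rw [← hσ]
    intro h3
    exact hi (hy (σ.injective h3)).symm
  obtain ⟨σ₂, h3, h4, h5, h6⟩ := GenT_M.second t h0 h2 hUT halg x h c u P hP hu τ e
    (GenT_M.fld_sq hUT halg x hP hτ) hτ he (y l) (σ (y i')) (y l') (hroot l) hr1 (hroot l')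
    hne (fun h7 => hl (hy h7).symm)
  refine ⟨σ.trans σ₂, ?_, ?_, ?_, ?_⟩
  · rw [AlgEquiv.trans_apply, hσU, h3]
  · rw [AlgEquiv.trans_apply, hσT, h4]
  · rw [AlgEquiv.trans_apply, hσ, h5]
  · rw [AlgEquiv.trans_apply, h6]

end MP7Z.A2
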