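import Pool.Agent.Lib.MP_7f581e_Z.Alt2.Spec

/-!
# Taylor coefficients at the roots (`HDStmt`)
-/

namespace MP7Z.A2

open Polynomial MP7Z

section

variable {F : Type} [Field F] {n : ℕ}

/-- The sum over the pairs of elements of `s`. -/
def HD_e2 (s : Finset (Fin n)) (g : Fin n → F) : F :=
  ∑ j ∈ s, ∑ l ∈ s.filter (fun l => j < l), g j * g l

theorem HD_e2_insert (s : Finset (Fin n)) (a : Fin n) (ha : ∀ x ∈ s, x < a) (g : Fin n → F) :
    HD_e2 (insert a s) g = HD_e2 s g + (∑ j ∈ s, g j) * g a := by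
  have has : a ∉ s := fun h => lt_irrefl _ (ha a h)
  rw [HD_e2, Finset.sum_insert has]
  have h1 : (insert a s).filter (fun l => a < l) = ∅ := by
    rw [Finset.filter_eq_empty_iff]
    intro l hl
    rcases Finset.mem_insert.1 hl with rfl | hl
    · exact lt_irrefl _
    · exact not_lt.2 (ha l hl).le
  have h2 : ∀ j ∈ s, ∑ l ∈ (insert a s).filter (fun l => j < l), g j * g l =
      g j * g a + ∑ l ∈ s.filter (fun l => j < l), g j * g l := by
    intro j hj
    rw [Finset.filter_insert, if_pos (ha j hj),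
      Finset.sum_insert (fun h => has (Finset.mem_filter.1 h).1)]
  rw [h1, Finset.sum_empty, zero_add, Finset.sum_congr rfl h2, Finset.sum_add_distrib,
    ← Finset.sum_mul, add_comm]
  rfl

theorem HD_coeff (s : Finset (Fin n)) (t : Fin n → F) :
    (∏ j ∈ s, (1 + C (t j) * X)).coeff 0 = 1 ∧
    (∏ j ∈ s, (1 + C (t j) * X)).coeff 1 = ∑ j ∈ s, t j ∧
    (∏ j ∈ s, (1 + C (t j) * X)).coeff 2 = HD_e2 s t := by
  induction s using Finset.induction_on_max with
  | empty =>
    simp [HD_e2, coeff_one]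
  | insert a s ha ih =>
    have has : a ∉ s := fun h => lt_irrefl _ (ha a h)
    obtain ⟨h0, h1, h2⟩ := ih
    rw [Finset.prod_insert has, add_mul, one_mul, mul_assoc, HD_e2_insert s a ha,
      Finset.sum_insert has]
    refine ⟨?_, ?_, ?_⟩
    · rw [coeff_add, coeff_C_mul, coeff_X_mul_zero, mul_zero, add_zero, h0]
    · rw [coeff_add, coeff_C_mul, coeff_X_mul, h0, h1, mul_one, add_comm]
    · rw [coeff_add, coeff_C_mul, coeff_X_mul, h1, h2, mul_comm (t a)]

end

theorem tHD : HDStmt := by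
  intro n F _ _ P lc y hinj hlc hP i
  have := AType2.charP F
  obtain ⟨d, hd⟩ : ∃ d : Fin n → F, d = fun j => y i + y j := ⟨_, rfl⟩
  have hd' : ∀ j, y i + y j = d j := fun j => by rw [hd]
  have hd0 : ∀ j ∈ Finset.univ.erase i, d j ≠ 0 := by
    intro j hj h
    rw [hd] at h
    have h1 : y i = y j := CharTwo.add_eq_zero.1 h
    exact Finset.ne_of_mem_erase hj (hinj h1).symm
  obtain ⟨K, hK⟩ : ∃ K : F, K = lc * ∏ j ∈ Finset.univ.erase i, d j := ⟨_, rfl⟩
  have hK0 : K ≠ 0 := by
    rw [hK]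
    exact mul_ne_zero hlc (Finset.prod_ne_zero_iff.2 hd0)
  have htay : taylor (y i) P =
      C K * (X * ∏ j ∈ Finset.univ.erase i, (1 + C (d j)⁻¹ * X)) := by
    rw [hP, taylor_apply, mul_comp, C_comp, prod_comp, ← Finset.mul_prod_erase _ _
      (Finset.mem_univ i)]
    have h1 : (X - C (y i)).comp (X + C (y i)) = (X : F[X]) := by simp
    have h2 : ∏ j ∈ Finset.univ.erase i, (X - C (y j)).comp (X + C (y i)) =
        C (∏ j ∈ Finset.univ.erase i, d j) *
          ∏ j ∈ Finset.univ.erase i, (1 + C (d j)⁻¹ * X) := by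
      rw [map_prod, ← Finset.prod_mul_distrib]
      refine Finset.prod_congr rfl fun j hj => ?_
      rw [mul_add, mul_one, ← mul_assoc, ← C_mul, mul_inv_cancel₀ (hd0 j hj), C_1, one_mul,
        ← hd' j, C_add, sub_comp, X_comp, C_comp, CharTwo.sub_eq_add]
      ring
    rw [h1, h2, hK, C_mul]
    ring
  obtain ⟨q0, q1, q2⟩ := HD_coeff (Finset.univ.erase i) (fun j => (d j)⁻¹)
  have c1 : (derivative P).eval (y i) = K := by
    rw [← taylor_coeff_one, htay, coeff_C_mul, coeff_X_mul, q0, mul_one]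
  have c2 : (hasseDeriv 2 P).eval (y i) = K * ∑ j ∈ Finset.univ.erase i, (d j)⁻¹ := by
    rw [← taylor_coeff, htay, coeff_C_mul, coeff_X_mul, q1]
  have c3 : (hasseDeriv 3 P).eval (y i) = K * HD_e2 (Finset.univ.erase i) (fun j => (d j)⁻¹) := by
    rw [← taylor_coeff, htay, coeff_C_mul, coeff_X_mul, q2]
  refine ⟨by rw [c1]; exact hK0, ?_, ?_⟩
  · rw [c1, c2]
    simp only [hd', div_eq_mul_inv]
    rw [← Finset.mul_sum]
    ring
  · rw [c1, c3]
    simp only [hd', div_eq_mul_inv]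
    have h3 : ∀ j : Fin n, (Finset.Ioi j).erase i =
        (Finset.univ.erase i).filter (fun l => j < l) := by
      intro j
      ext l
      simp only [Finset.mem_erase, Finset.mem_Ioi, Finset.mem_filter, Finset.mem_univ, and_true]
    have h4 : ∀ j l : Fin n, y i * (d j)⁻¹ * (y i * (d l)⁻¹) =
        y i ^ 2 * ((d j)⁻¹ * (d l)⁻¹) := fun j l => by ring
    simp only [h3, h4, ← Finset.mul_sum]
    rw [HD_e2]
    simp only [← Finset.mul_sum]
    ring

end MP7Z.A2
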