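import Pool.Agent.Lib.MP_7f581e_Z.Alt2.Spec

/-!
# Alternating step in characteristic two: the homomorphism defined by a system (module Hom)
-/

namespace MP7Z.A2

open Polynomial MP7Z

/-- `γ` permutes the labelled roots. -/
theorem Hom_exists_perm {n : ℕ} (t : AType2 n) {Ω : Type} [Field Ω]
    [Algebra (ZMod 2) Ω] (γ : Ω ≃ₐ[ZMod 2] Ω) {e τ c u e' τ' c' u' : Ω} {y y' : Fin n → Ω}
    (he : γ e = e') (hτ : γ τ = τ') (hc : γ c = c') (hu : γ u = u') (hne : e' ≠ 0)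
    (hy : Function.Injective y)
    (h : t.f e τ c u = C (e ^ 12) * ∏ i, (X - C (y i)))
    (h' : t.f e' τ' c' u' = C (e' ^ 12) * ∏ i, (X - C (y' i))) :
    ∃ ρ : Equiv.Perm (Fin n), ∀ i, γ (y i) = y' (ρ i) := by
  have h1 : ∀ i, ∃ l, γ (y i) = y' l := by
    intro i
    have h2 : (t.f e τ c u).eval (y i) = 0 := by
      rw [h, eval_mul, eval_prod, Finset.prod_eq_zero (Finset.mem_univ i), mul_zero]
      rw [eval_sub, eval_X, eval_C, sub_self]
    have h3 : (t.f e' τ' c' u').eval (γ (y i)) = 0 := by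
      have h4 := t.map_f (F' := Ω) (γ : Ω →+* Ω) e τ c u
      have h5 : ((t.f e τ c u).map (γ : Ω →+* Ω)).eval ((γ : Ω →+* Ω) (y i)) = 0 := by
        rw [eval_map_apply, h2, map_zero]
      rw [h4] at h5
      have h6 : (γ : Ω →+* Ω) e = e' := he
      have h7 : (γ : Ω →+* Ω) τ = τ' := hτ
      have h8 : (γ : Ω →+* Ω) c = c' := hc
      have h9 : (γ : Ω →+* Ω) u = u' := hu
      rw [h6, h7, h8, h9] at h5
      exact h5
    rw [h', eval_mul, eval_C, eval_prod] at h3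
    have h4 := (mul_eq_zero.1 h3).resolve_left (pow_ne_zero _ hne)
    obtain ⟨l, -, hl⟩ := Finset.prod_eq_zero_iff.1 h4
    rw [eval_sub, eval_X, eval_C, sub_eq_zero] at hl
    exact ⟨l, hl⟩
  choose ρ hρ using h1
  have hinj : Function.Injective ρ := by
    intro i i' hii
    apply hy
    apply γ.injective
    rw [hρ, hρ, hii]
  exact ⟨Equiv.ofBijective ρ (Finite.injective_iff_bijective.1 hinj), hρ⟩

theorem tHom : HomStmt := by
  classical
  intro n t Ω _ _ x Q _ ψ k act ε j₀ V₁ e τ c u y hfin sys E _ π T hmul hsgn huniq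
  have hex : ∀ (γ : Gx 2 x) (j : Fin k), ∃ ρ : Equiv.Perm (Fin n),
      ∀ i, (γ : Ω ≃ₐ[ZMod 2] Ω) (y j i) = y (act (ψ γ) j) (ρ i) := fun γ j =>
    Hom_exists_perm t (γ : Ω ≃ₐ[ZMod 2] Ω) (sys.he γ j) (sys.hτ γ j) (sys.hc γ j) (sys.hu γ j)
      (sys.ne _) (sys.inj j) (sys.fac j) (sys.fac _)
  choose P hP using hex
  have hPu : ∀ (γ : Gx 2 x) (j : Fin k) (ρ : Equiv.Perm (Fin n)),
      (∀ i, (γ : Ω ≃ₐ[ZMod 2] Ω) (y j i) = y (act (ψ γ) j) (ρ i)) → P γ j = ρ := by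
    intro γ j ρ h
    ext i
    rw [sys.inj _ ((hP γ j i).symm.trans (h i))]
  have hPsgn : ∀ γ j, Equiv.Perm.sign (P γ j) = ε (ψ γ) j := fun γ j =>
    sys.sgn γ j (P γ j) (hP γ j)
  have hPmul : ∀ γ γ' j, P (γ * γ') j = P γ (act (ψ γ') j) * P γ' j := by
    intro γ γ' j
    apply hPu
    intro i
    change (γ : Ω ≃ₐ[ZMod 2] Ω) ((γ' : Ω ≃ₐ[ZMod 2] Ω) (y j i)) = _
    rw [hP γ' j i, hP γ _ _, map_mul, map_mul]
    rfl
  choose Ψ hΨ hΨu using fun γ => huniq (ψ γ) (P γ) (hPsgn γ)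
  have hT1 : ∀ j, T 1 j = 1 := by
    intro j
    have h1 := hmul 1 1 j
    rw [mul_one, map_one, map_one, Equiv.Perm.one_apply] at h1
    exact (mul_eq_left.1 h1.symm)
  have hΨmul : ∀ γ γ', Ψ (γ * γ') = Ψ γ * Ψ γ' := by
    intro γ γ'
    refine (hΨu (γ * γ') _ ⟨?_, ?_⟩).symm
    · rw [map_mul, map_mul, (hΨ γ).1, (hΨ γ').1]
    · funext j
      rw [hmul, hPmul, (hΨ γ').1, (hΨ γ).2, (hΨ γ').2]
  refine ⟨MonoidHom.mk' Ψ hΨmul, ?_, fun γ => (hΨ γ).1, ?_⟩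
  · obtain ⟨S, hS⟩ := hfin
    refine ⟨S ∪ Finset.univ.image (fun ji : Fin k × Fin n => y ji.1 ji.2), fun γ hγ => ?_⟩
    have h1 : ψ γ = 1 := hS γ fun s hs => hγ s (Finset.mem_union_left _ hs)
    have h2 : ∀ j, P γ j = 1 := by
      intro j
      apply hPu
      intro i
      rw [hγ (y j i) (Finset.mem_union_right _ (Finset.mem_image.2 ⟨(j, i), Finset.mem_univ _, rfl⟩)),
        h1, map_one]
      rfl
    refine (hΨu γ 1 ⟨?_, ?_⟩).symm
    · rw [map_one, h1]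
    · funext j
      rw [hT1, h2]
  · intro γ j i
    rw [hP γ j i]
    change _ = y (act (ψ γ) j) (T (Ψ γ) j i)
    rw [(hΨ γ).2]

end MP7Z.A2
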