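import Pool.Agent.Lib.MP_7f581e_Z.Alt2.Spec

/-!
# Jor: recognition of the alternating group in characteristic two
-/

namespace MP7Z.A2

open Polynomial MP7Z Equiv Equiv.Perm MulAction

theorem tJor (hCom : ComStmt) (hCnt : CntStmt) : JorStmt := by
  classical
  intro n G hn σ hσ hσ1 hσ2 hsgn hsupp htr
  -- the support has exactly four elements
  have hcard : σ.support.card = 4 := by
    have h1 := sign_of_pow_two_eq_one hσ2
    rw [hsgn] at h1
    have h2 : 2 ∣ σ.support.card := two_dvd_card_support hσ2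
    have h3 : σ.support.card ≠ 0 := by
      intro h
      exact hσ1 (support_eq_empty_iff.mp (Finset.card_eq_zero.mp h))
    have h4 : Even ((σ.support.card) / 2) := by
      by_contra h
      have h5 : Odd (σ.support.card / 2) := Nat.not_even_iff_odd.mp h
      have h6 : σ.support.card / 2 = (Fintype.card (Fin n) - Fintype.card (Function.fixedPoints σ)) / 2 := by
        rw [card_fixedPoints, Nat.sub_sub_self σ.sum_cycleType_le, sum_cycleType]
      rw [← h6, h5.neg_one_pow] at h1
      exact absurd h1 (by decide)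
    obtain ⟨k, hk⟩ := h2
    rw [hk, Nat.mul_div_cancel_left k (by norm_num)] at h4
    obtain ⟨l, hl⟩ := h4
    omega
  obtain ⟨g, hg, hgc⟩ := hCnt n G hn htr σ.support hcard
  set τ := g * σ * g⁻¹ with hτ
  have hτG : τ ∈ G := G.mul_mem (G.mul_mem hg hσ) (G.inv_mem hg)
  have hτ2 : τ ^ 2 = 1 := by
    rw [hτ, conj_pow, hσ2, mul_one, mul_inv_cancel]
  have hτs : τ.support = σ.support.image g := by
    rw [hτ, support_conj, Finset.map_eq_image]
    rfl
  have h3c := hCom n σ τ hτ2 (by rw [hτs]; exact hgc)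
  have hmem : σ * τ * σ⁻¹ * τ⁻¹ ∈ G :=
    G.mul_mem (G.mul_mem (G.mul_mem hσ hτG) (G.inv_mem hσ)) (G.inv_mem hτG)
  have h2 : IsMultiplyPretransitive G (Fin n) 2 := by
    rw [is_two_pretransitive_iff]
    intro a b c d hab hcd
    obtain ⟨g, hg, h1, h2⟩ := htr a b c d hab hcd
    exact ⟨⟨g, hg⟩, h1, h2⟩
  have hprim : IsPreprimitive G (Fin n) := isPreprimitive_of_is_two_pretransitive h2
  exact alternatingGroup_le_of_isPreprimitive_of_isThreeCycle_mem hprim h3c hmem

end MP7Z.A2
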