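import Pool.Agent.Lib.MP_7f581e_Z.Alt2.Spec
import Pool.Agent.Lib.MP_7f581e_Z.Alt.Lab

set_option autoImplicit false

/-!
# Labelled roots with prescribed sign class
-/

namespace MP7Z.A2

open Polynomial MP7Z

theorem tLab (h0 : SepStmt) (h1 : PrmStmt) : LabStmt := by
  intro n t κ ρn ρd hcls Ω _ _ _ e τ c u δ he hu hδ
  have h20 := AType2.two_eq_zero Ω
  have hsep := h0 n t Ω e τ c u hu
  obtain ⟨y, hy, hf⟩ := LabM.exists_roots (t.f e τ c u) n hsep (t.natDegree_f he τ c u)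
  rw [t.leadingCoeff_f he] at hf
  obtain ⟨s, hs⟩ : ∃ s : Ω, s = (1 + c) ^ 2 / u + ∑ i, aeval (y i) ρn / aeval (y i) ρd :=
    ⟨_, rfl⟩
  have hb := hcls Ω e τ c u y he hu hy hf s hs
  rw [hδ] at hb
  have hprod : (bsum y + (δ + s)) * (bsum y + (δ + s) + 1) = 0 := by
    linear_combination hb + (bsum y * (δ + s) + δ ^ 2 + δ * s + s ^ 2 + δ + s +
      algebraMap (ZMod 2) Ω κ) * h20
  rcases mul_eq_zero.1 hprod with h | h
  · refine ⟨y, hy, hf, ?_⟩
    rw [← hs]
    linear_combination h - (δ + s) * h20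
  · have hn : 8 ≤ n := t.le_n
    obtain ⟨a, b, hab⟩ : ∃ a b : Fin n, a ≠ b := by
      refine ⟨⟨0, by omega⟩, ⟨1, by omega⟩, ?_⟩
      intro hh
      have := congrArg Fin.val hh
      simp at this
    refine ⟨y ∘ Equiv.swap a b, hy.comp (Equiv.swap a b).injective, ?_, ?_⟩
    · rw [hf]
      congr 1
      exact (Equiv.prod_comp (Equiv.swap a b) (fun i => (X - C (y i) : Polynomial Ω))).symm
    · rw [h1 n Ω y (Equiv.swap a b) hy, Equiv.Perm.sign_swap hab]
      have h3 : ∑ i, aeval ((y ∘ Equiv.swap a b) i) ρn / aeval ((y ∘ Equiv.swap a b) i) ρd =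
          ∑ i, aeval (y i) ρn / aeval (y i) ρd :=
        Equiv.sum_comp (Equiv.swap a b) (fun i => aeval (y i) ρn / aeval (y i) ρd)
      rw [h3, ← hs]
      have h4 : chi Ω (-1) = 1 := by
        rw [chi, if_neg (by decide)]
      rw [h4]
      linear_combination h - (δ + s) * h20

end MP7Z.A2
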