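import Pool.Agent.Lib.MP_7f581e_Z.Alt2.Spec

/-!
# Alternating step, characteristic two: inertia at the bad places
-/

set_option autoImplicit false

namespace MP7Z.A2

open Polynomial MP7Z MP7fS

theorem tLocB (h0 : ResStmt) (h1 : LocNStmt) (h2 : LocVStmt) : LocBStmt := by
  classical
  intro n t Ω _ _ x hst V hV e τ c u y he0 he1 hτ hc hu huc hinj hf δ hδ hδe ρ hρ hsgn
  obtain ⟨hN1, hN2, hN3⟩ := h1 n t Ω V hV e τ c u y he0 he1 hτ hc hu huc hf
  obtain ⟨-, -, hLV⟩ := h2 n t Ω V hV e τ c u he0 he1 hτ hc hu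
  obtain ⟨-, -, -, hRes⟩ := h0 2 Ω x hst V hV
  have hδV : ∀ f, δ f ∈ V ↔ f ∈ V := hδ.2
  have hmod : ∀ v ∈ V, V.valuation (δ v - v) < 1 := by
    intro v hv
    have h3 := hRes 1 δ hδ.2 (fun c hc => by
      rw [pow_one]
      exact hδ.1 c hc) v hv
    rwa [pow_one] at h3
  have hroot : ∀ i, (t.f e τ c u).eval (y i) = 0 := by
    intro i
    rw [hf, eval_mul, eval_prod, Finset.prod_eq_zero (Finset.mem_univ i), mul_zero]
    rw [eval_sub, eval_X, eval_C, sub_self]
  have hmem : ∀ i, y (ρ i) ∈ V ↔ y i ∈ V := by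
    intro i
    rw [← hρ i]
    exact hδV (y i)
  have hve0 : V.valuation e ≠ 0 := by
    rw [Valuation.ne_zero_iff]
    exact he0
  have h20 : (2 : Ω) = 0 := by
    have h3 : ((2 : ℕ) : Ω) = 0 := by
      rw [← map_natCast (algebraMap (ZMod 2) Ω) 2, ZMod.natCast_self, map_zero]
    exact_mod_cast h3
  have hunit : ∀ j l : Fin n, y j ∉ V → y l ∉ V → j ≠ l →
      V.valuation (((y j)⁻¹ - (y l)⁻¹) / e ^ (t.r - 1)) = 1 := by
    intro j l hj hl hjl
    have h3 := hLV (y j) (y l) hj hl (fun h => hjl (hinj h)) (hroot j) (hroot l)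
    rw [map_div₀, h3, map_pow, div_self]
    exact pow_ne_zero _ hve0
  -- the differences are constant modulo the maximal ideal
  have hstep : ∀ j l : Fin n, y j ∉ V → y l ∉ V →
      V.valuation (((y (ρ j))⁻¹ - (y (ρ l))⁻¹) / e ^ (t.r - 1) -
        ((y j)⁻¹ - (y l)⁻¹) / e ^ (t.r - 1)) < 1 := by
    intro j l hj hl
    have hk1 : δ (((y j)⁻¹ - (y l)⁻¹) / e ^ (t.r - 1)) =
        ((y (ρ j))⁻¹ - (y (ρ l))⁻¹) / e ^ (t.r - 1) := by
      rw [map_div₀, map_sub, map_inv₀, map_inv₀, map_pow, hδe, hρ, hρ]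
    have hk2 : ((y j)⁻¹ - (y l)⁻¹) / e ^ (t.r - 1) ∈ V := by
      by_cases h4 : j = l
      · rw [h4, sub_self, zero_div]
        exact V.zero_mem
      · rw [← V.valuation_le_one_iff]
        exact (hunit _ _ hj hl h4).le
    have h5 := hmod _ hk2
    rw [hk1] at h5
    exact h5
  -- infinite roots: the square is the identity
  have hS : ∀ i, y i ∉ V → ρ (ρ i) = i := by
    intro i hi
    by_contra hne
    have hi1 : y (ρ i) ∉ V := fun h => hi ((hmem i).1 h)
    have hi2 : y (ρ (ρ i)) ∉ V := fun h => hi1 ((hmem (ρ i)).1 h)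
    have h3 := hstep (ρ i) i hi1 hi
    have h4 := hunit (ρ (ρ i)) i hi2 hi hne
    have h5 : ((y (ρ (ρ i)))⁻¹ - (y (ρ i))⁻¹) / e ^ (t.r - 1) -
        ((y (ρ i))⁻¹ - (y i)⁻¹) / e ^ (t.r - 1) =
        ((y (ρ (ρ i)))⁻¹ - (y i)⁻¹) / e ^ (t.r - 1) -
          2 * (((y (ρ i))⁻¹ - (y i)⁻¹) / e ^ (t.r - 1)) := by ring
    rw [h5, h20, zero_mul, sub_zero, h4] at h3
    exact lt_irrefl _ h3
  -- infinite roots: all or nothing
  have hall : ∀ i, y i ∉ V → ρ i = i → ∀ j, y j ∉ V → ρ j = j := by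
    intro i hi hfix j hj
    by_contra hne
    have hj1 : y (ρ j) ∉ V := fun h => hj ((hmem j).1 h)
    have h3 := hstep j i hj hi
    have h4 := hunit (ρ j) j hj1 hj hne
    rw [hfix] at h3
    have h5 : ((y (ρ j))⁻¹ - (y i)⁻¹) / e ^ (t.r - 1) -
        ((y j)⁻¹ - (y i)⁻¹) / e ^ (t.r - 1) = ((y (ρ j))⁻¹ - (y j)⁻¹) / e ^ (t.r - 1) := by
      ring
    rw [h5, h4] at h3
    exact lt_irrefl _ h3
  -- finite roots
  have hres : ∀ i, y i ∈ V → ρ i ≠ i →
      V.valuation (y i - 1) < 1 ∧ V.valuation (y (ρ i) - 1) < 1 := by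
    intro i hi hne
    have h3 := hmod _ hi
    rw [hρ] at h3
    have hi' := (hmem i).mpr hi
    refine ⟨hN2 i (ρ i) (Ne.symm hne) hi hi' ?_, hN2 (ρ i) i hne hi' hi h3⟩
    rw [Valuation.map_sub_swap]
    exact h3
  have hfin2 : ∀ i, y i ∈ V → ρ (ρ i) = i := by
    intro i hi
    by_cases hne : ρ i = i
    · rw [hne, hne]
    · have hi' := (hmem i).mpr hi
      have hne' : ρ (ρ i) ≠ ρ i := fun h => hne (ρ.injective h)
      obtain ⟨r1, r2⟩ := hres i hi hne
      obtain ⟨-, r3⟩ := hres (ρ i) hi' hne'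
      by_contra h
      exact hN3 i (ρ i) (ρ (ρ i)) (Ne.symm hne) (Ne.symm hne') (Ne.symm h) r1 r2 r3
  have hsq : ρ ^ 2 = 1 := by
    refine Equiv.ext fun l => ?_
    rw [pow_two, Equiv.Perm.mul_apply, Equiv.Perm.one_apply]
    by_cases hl : y l ∈ V
    · exact hfin2 l hl
    · exact hS l hl
  refine ⟨hsq, ?_⟩
  by_contra hcon
  push Not at hcon
  obtain ⟨i, hi, hne⟩ := hcon
  have hi' := (hmem i).mpr hi
  obtain ⟨r1, r2⟩ := hres i hi hne
  have hoth : ∀ l, y l ∈ V → l ≠ i → l ≠ ρ i → ρ l = l := by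
    intro l hl hl1 hl2
    by_contra h
    exact hN3 i (ρ i) l (Ne.symm hne) (Ne.symm hl2) (Ne.symm hl1) r1 r2 (hres l hl h).1
  have h2i := hfin2 i hi
  have hsupp : ρ.support.card = 2 ∨ ρ.support.card = 6 := by
    by_cases hex : ∃ j, y j ∉ V ∧ ρ j = j
    · obtain ⟨j, hj, hj'⟩ := hex
      left
      have h3 : ρ.support = {i, ρ i} := by
        ext l
        rw [Equiv.Perm.mem_support, Finset.mem_insert, Finset.mem_singleton]
        constructor
        · intro h
          by_contra h4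
          push Not at h4
          by_cases hl : y l ∈ V
          · exact h (hoth l hl h4.1 h4.2)
          · exact h (hall j hj hj' l hl)
        · rintro (rfl | rfl)
          · exact hne
          · rw [h2i]
            exact Ne.symm hne
      rw [h3, Finset.card_pair (Ne.symm hne)]
    · push Not at hex
      right
      have h3 : ρ.support = {i, ρ i} ∪ Finset.univ.filter fun l => y l ∉ V := by
        ext l
        rw [Equiv.Perm.mem_support, Finset.mem_union, Finset.mem_insert, Finset.mem_singleton,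
          Finset.mem_filter]
        constructor
        · intro h
          by_contra h4
          push Not at h4
          by_cases hl : y l ∈ V
          · exact h (hoth l hl h4.1.1 h4.1.2)
          · exact hl (h4.2 (Finset.mem_univ _))
        · rintro ((rfl | rfl) | ⟨-, h5⟩)
          · exact hne
          · rw [h2i]
            exact Ne.symm hne
          · exact hex l h5
      have h4 : (Finset.univ.filter fun l => y l ∉ V).card = 4 := by
        rw [← hN1, Nat.card_eq_fintype_card, Fintype.card_subtype]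
      rw [h3, Finset.card_union_of_disjoint, Finset.card_pair (Ne.symm hne), h4]
      rw [Finset.disjoint_left]
      intro l hl hl'
      have h5 := (Finset.mem_filter.1 hl').2
      rcases Finset.mem_insert.1 hl with rfl | h6
      · exact h5 hi
      · rw [Finset.mem_singleton.1 h6] at h5
        exact h5 hi'
  have hsg := Equiv.Perm.sign_of_pow_two_eq_one hsq
  have hcard : Fintype.card (Fin n) - Fintype.card (Function.fixedPoints ρ) =
      ρ.support.card := by
    have h5 := Equiv.Perm.card_fixedPoints ρ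
    rw [Equiv.Perm.sum_cycleType] at h5
    have h6 := Finset.card_le_univ ρ.support
    omega
  rw [hsgn, hcard] at hsg
  rcases hsupp with h | h
  · rw [h] at hsg
    exact absurd hsg (by decide)
  · rw [h] at hsg
    exact absurd hsg (by decide)

end MP7Z.A2
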