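import Pool.Agent.Lib.MP_7f581e_Z.Alt2.Spec

/-!
# Alternating step in characteristic two: the equation of the infinite roots
-/

set_option autoImplicit false

namespace MP7Z.A2

open Polynomial MP7Z MP7fS

section

variable {Ω : Type} [Field Ω] [Algebra (ZMod 2) Ω] (V : ValuationSubring Ω)

private theorem LocE_c_le (c : ZMod 2) : V.valuation (algebraMap (ZMod 2) Ω c) ≤ 1 := by
  rw [V.valuation_le_one_iff, ← ZMod.natCast_zmod_val c, map_natCast]
  exact natCast_mem V _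

private theorem LocE_mul_le {a b : Ω} {g : V.ValueGroup} (ha : V.valuation a ≤ 1)
    (hb : V.valuation b ≤ g) : V.valuation (a * b) ≤ g := by
  rw [map_mul]
  calc V.valuation a * V.valuation b ≤ 1 * V.valuation b := mul_le_mul_left ha _
    _ = V.valuation b := one_mul _
    _ ≤ g := hb

private theorem LocE_pow_le {a : Ω} (ha : V.valuation a ≤ 1) (n : ℕ) : V.valuation (a ^ n) ≤ 1 := by
  rw [map_pow]
  exact pow_le_one' ha n

private theorem LocE_pow_sub {a b : Ω} (ha : V.valuation a ≤ 1) (hb : V.valuation b ≤ 1) (n : ℕ) :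
    V.valuation (a ^ n - b ^ n) ≤ V.valuation (a - b) := by
  induction n with
  | zero =>
    rw [pow_zero, pow_zero, sub_self, map_zero]
    exact zero_le
  | succ n ih =>
    have h1 : a ^ (n + 1) - b ^ (n + 1) = a * (a ^ n - b ^ n) + b ^ n * (a - b) := by ring
    rw [h1]
    exact Valuation.map_add_le _ (LocE_mul_le V ha ih) (LocE_mul_le V (LocE_pow_le V hb n) le_rfl)

private theorem LocE_aeval_sub (P : (ZMod 2)[X]) {a b : Ω} (ha : V.valuation a ≤ 1)
    (hb : V.valuation b ≤ 1) : V.valuation (aeval a P - aeval b P) ≤ V.valuation (a - b) := by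
  induction P using Polynomial.induction_on' with
  | add f g hf hg =>
    have h1 : aeval a (f + g) - aeval b (f + g) =
        (aeval a f - aeval b f) + (aeval a g - aeval b g) := by
      rw [map_add, map_add]
      ring
    rw [h1]
    exact Valuation.map_add_le _ hf hg
  | monomial n c =>
    have h1 : aeval a (monomial n c) - aeval b (monomial n c) =
        algebraMap (ZMod 2) Ω c * (a ^ n - b ^ n) := by
      rw [aeval_monomial, aeval_monomial]
      ring
    rw [h1]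
    exact LocE_mul_le V (LocE_c_le V c) (LocE_pow_sub V ha hb n)

/-- a polynomial without constant term -/
private theorem LocE_small {R : (ZMod 2)[X]} (hR : aeval (0 : Ω) R = 0) {a : Ω}
    (ha : V.valuation a ≤ 1) : V.valuation (aeval a R) ≤ V.valuation a := by
  have h1 := LocE_aeval_sub V R (a := a) (b := 0) ha (by
    rw [map_zero]
    exact zero_le)
  rwa [hR, sub_zero, sub_zero] at h1

/-- `Z R(Z)` for a polynomial `R` without constant term -/
private theorem LocE_diff {R : (ZMod 2)[X]} (hR : aeval (0 : Ω) R = 0) {a b : Ω}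
    (ha : V.valuation a ≤ 1) (hb : V.valuation b ≤ 1) :
    V.valuation (a * aeval a R - b * aeval b R) ≤
      max (V.valuation a) (V.valuation b) * V.valuation (a - b) := by
  have h1 : a * aeval a R - b * aeval b R =
      aeval a R * (a - b) + b * (aeval a R - aeval b R) := by ring
  rw [h1]
  refine Valuation.map_add_le _ ?_ ?_
  · rw [map_mul]
    exact mul_le_mul_left ((LocE_small V hR ha).trans (le_max_left _ _)) _
  · rw [map_mul]
    exact mul_le_mul' (le_max_right _ _) (LocE_aeval_sub V R ha hb)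

end

theorem tLocE : LocEStmt := by
  intro n t Ω _ _ V _ e τ c u he hτ hc hu
  have hτ' : V.valuation τ ≤ 1 := (V.valuation_le_one_iff τ).mpr hτ
  have hc' : V.valuation c ≤ 1 := (V.valuation_le_one_iff c).mpr hc
  have hu' : V.valuation u ≤ 1 := (V.valuation_le_one_iff u).mpr hu
  have hm := t.hm
  obtain ⟨a₁, ha₁⟩ : ∃ a, a = u + c * algebraMap (ZMod 2) Ω (t.V₂.eval 1) +
    algebraMap (ZMod 2) Ω (t.W.eval 1) := ⟨_, rfl⟩
  obtain ⟨b₁, hb₁⟩ : ∃ b, b = algebraMap (ZMod 2) Ω t.η * (1 + c) := ⟨_, rfl⟩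
  have ha₁' : V.valuation a₁ ≤ 1 := by
    rw [ha₁]
    exact Valuation.map_add_le _ (Valuation.map_add_le _ hu' (LocE_mul_le V hc' (LocE_c_le V _)))
      (LocE_c_le V _)
  have hb₁' : V.valuation b₁ ≤ 1 := by
    rw [hb₁]
    exact LocE_mul_le V (LocE_c_le V _) (Valuation.map_add_le _ (by rw [map_one]) hc')
  have hD0 : aeval (0 : Ω) t.D = 1 := by
    rw [← coeff_zero_eq_aeval_zero', coeff_zero_eq_eval_zero, t.D_zero, map_one]
  -- the polynomials without constant term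
  have hP : ∀ k : ℕ, aeval (0 : Ω) (t.D * (1 + X) ^ k - 1) = 0 := by
    intro k
    rw [map_sub, map_mul, map_pow, map_add, map_one, aeval_X, hD0, add_zero, one_pow, mul_one,
      sub_self]
  have hXD : aeval (0 : Ω) (X ^ t.m * t.D) = 0 := by
    rw [map_mul, map_pow, aeval_X, zero_pow (by omega), zero_mul]
  have hX : aeval (0 : Ω) ((X : (ZMod 2)[X]) ^ t.m) = 0 := by
    rw [map_pow, aeval_X, zero_pow (by omega)]
  have eP : ∀ (k : ℕ) (Z : Ω), aeval Z (t.D * (1 + X) ^ k - 1) =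
      aeval Z t.D * (1 + Z) ^ k - 1 := by
    intro k Z
    rw [map_sub, map_mul, map_pow, map_add, map_one, aeval_X]
  have eXD : ∀ Z : Ω, aeval Z (X ^ t.m * t.D) = Z ^ t.m * aeval Z t.D := by
    intro Z
    rw [map_mul, map_pow, aeval_X]
  have eX : ∀ Z : Ω, aeval Z ((X : (ZMod 2)[X]) ^ t.m) = Z ^ t.m := by
    intro Z
    rw [map_pow, aeval_X]
  have he12 : V.valuation (e ^ 12) = V.valuation e ^ 12 := map_pow _ _ _
  -- the function
  have hH : ∀ Z : Ω, aeval Z t.D * ((1 + Z) ^ t.m * (e ^ 12 * (1 + Z) + τ * Z) +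
      a₁ * Z ^ (t.m + 1)) + b₁ * Z ^ (t.m + 1) = e ^ 12 + τ * Z +
      (e ^ 12 * aeval Z (t.D * (1 + X) ^ (t.m + 1) - 1) +
      (τ * (Z * aeval Z (t.D * (1 + X) ^ t.m - 1)) +
      (a₁ * (Z * aeval Z (X ^ t.m * t.D)) + b₁ * (Z * aeval Z ((X : (ZMod 2)[X]) ^ t.m))))) := by
    intro Z
    rw [eP, eP, eXD, eX]
    ring
  refine ⟨fun Z => aeval Z t.D * ((1 + Z) ^ t.m * (e ^ 12 * (1 + Z) + τ * Z) +
      a₁ * Z ^ (t.m + 1)) + b₁ * Z ^ (t.m + 1), ?_, ?_, ?_⟩
  · intro ζ hζ0 hfζ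
    have h1 := t.inf Ω e τ c u ζ hζ0
    have h2 : (famF t.V₁ t.V₂ t.W t.m e τ c u).eval ζ⁻¹ = 0 := hfζ
    rw [h2, mul_zero, mul_zero, ← ha₁, ← hb₁, pow_mul ζ 4 (t.m + 1)] at h1
    exact h1.symm
  · intro Z hZ
    beta_reduce
    have h1 : ∀ R : (ZMod 2)[X], aeval (0 : Ω) R = 0 →
        V.valuation (Z * aeval Z R) ≤ V.valuation Z ^ 2 := by
      intro R hR
      rw [map_mul, pow_two]
      exact mul_le_mul_right (LocE_small V hR hZ.le) _
    rw [hH, add_sub_cancel_left]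
    refine Valuation.map_add_le _ ?_ (Valuation.map_add_le _ ?_ (Valuation.map_add_le _ ?_ ?_))
    · rw [map_mul, he12]
      exact (mul_le_mul_right (LocE_small V (hP _) hZ.le) _).trans (le_max_left _ _)
    · exact (LocE_mul_le V hτ' (h1 _ (hP _))).trans (le_max_right _ _)
    · exact (LocE_mul_le V ha₁' (h1 _ hXD)).trans (le_max_right _ _)
    · exact (LocE_mul_le V hb₁' (h1 _ hX)).trans (le_max_right _ _)
  · intro Z₁ Z₂ hZ₁ hZ₂
    beta_reduce
    rw [hH, hH]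
    have h3 : e ^ 12 + τ * Z₁ +
        (e ^ 12 * aeval Z₁ (t.D * (1 + X) ^ (t.m + 1) - 1) +
        (τ * (Z₁ * aeval Z₁ (t.D * (1 + X) ^ t.m - 1)) +
        (a₁ * (Z₁ * aeval Z₁ (X ^ t.m * t.D)) + b₁ * (Z₁ * aeval Z₁ ((X : (ZMod 2)[X]) ^ t.m))))) -
        (e ^ 12 + τ * Z₂ +
        (e ^ 12 * aeval Z₂ (t.D * (1 + X) ^ (t.m + 1) - 1) +
        (τ * (Z₂ * aeval Z₂ (t.D * (1 + X) ^ t.m - 1)) +
        (a₁ * (Z₂ * aeval Z₂ (X ^ t.m * t.D)) + b₁ * (Z₂ * aeval Z₂ ((X : (ZMod 2)[X]) ^ t.m)))))) -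
        τ * (Z₁ - Z₂) =
        e ^ 12 * (aeval Z₁ (t.D * (1 + X) ^ (t.m + 1) - 1) -
          aeval Z₂ (t.D * (1 + X) ^ (t.m + 1) - 1)) +
        (τ * (Z₁ * aeval Z₁ (t.D * (1 + X) ^ t.m - 1) -
          Z₂ * aeval Z₂ (t.D * (1 + X) ^ t.m - 1)) +
        (a₁ * (Z₁ * aeval Z₁ (X ^ t.m * t.D) - Z₂ * aeval Z₂ (X ^ t.m * t.D)) +
          b₁ * (Z₁ * aeval Z₁ ((X : (ZMod 2)[X]) ^ t.m) -
            Z₂ * aeval Z₂ ((X : (ZMod 2)[X]) ^ t.m)))) := by
      ring
    rw [h3]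
    have h4 : ∀ R : (ZMod 2)[X], aeval (0 : Ω) R = 0 →
        V.valuation (Z₁ * aeval Z₁ R - Z₂ * aeval Z₂ R) ≤
          max (V.valuation e ^ 12) (max (V.valuation Z₁) (V.valuation Z₂)) *
            V.valuation (Z₁ - Z₂) := fun R hR =>
      (LocE_diff V hR hZ₁.le hZ₂.le).trans (mul_le_mul_left (le_max_right _ _) _)
    refine Valuation.map_add_le _ ?_ (Valuation.map_add_le _ ?_ (Valuation.map_add_le _ ?_ ?_))
    · rw [map_mul, he12]
      exact mul_le_mul' (le_max_left _ _) (LocE_aeval_sub V _ hZ₁.le hZ₂.le)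
    · exact LocE_mul_le V hτ' (h4 _ (hP _))
    · exact LocE_mul_le V ha₁' (h4 _ hXD)
    · exact LocE_mul_le V hb₁' (h4 _ hX)

end MP7Z.A2
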