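import Pool.Agent.Lib.MP_7f581e_Z.Alt2.Spec

/-!
# Alternating step in characteristic two: the roots at a bad place (module LocN)
-/

namespace MP7Z

namespace A2

open Polynomial

namespace LocNM

variable {Ω : Type} [Field Ω] (V : ValuationSubring Ω)

/-- `X - y` up to a constant: a polynomial over `V`. -/
noncomputable def G (y : Ω) : V[X] :=
  open Classical in
  if h : y ∈ V then X - C (⟨y, h⟩ : V) else
    1 - C (⟨y⁻¹, (V.mem_or_inv_mem y).resolve_left h⟩ : V) * X

noncomputable def cst (y : Ω) : Ω :=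
  open Classical in
  if y ∈ V then 1 else -y

theorem G_map (y : Ω) : X - C y = C (cst V y) * (G V y).map (algebraMap V Ω) := by
  by_cases h : y ∈ V
  · rw [G, cst, dif_pos h, if_pos h, Polynomial.map_sub, map_X, map_C, C_1, one_mul]
    rfl
  · have hy : y ≠ 0 := fun h0 => h (h0 ▸ V.zero_mem)
    rw [G, cst, dif_neg h, if_neg h, Polynomial.map_sub, Polynomial.map_mul, map_X, map_C,
      Polynomial.map_one, mul_sub, mul_one, ← mul_assoc, ← C_mul]
    have h1 : -y * algebraMap V Ω ⟨y⁻¹, (V.mem_or_inv_mem y).resolve_left h⟩ = -1 := by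
      change -y * y⁻¹ = -1
      rw [neg_mul, mul_inv_cancel₀ hy]
    rw [h1, C_neg, C_neg, C_1]
    ring

theorem cst_ne {y : Ω} : cst V y ≠ 0 := by
  by_cases h : y ∈ V
  · rw [cst, if_pos h]
    exact one_ne_zero
  · rw [cst, if_neg h]
    exact neg_ne_zero.2 fun h0 => h (h0 ▸ V.zero_mem)

/-- The reduction of `G`. -/
noncomputable def Gr (y : Ω) : (IsLocalRing.ResidueField V)[X] :=
  open Classical in
  if h : y ∈ V then X - C (IsLocalRing.residue V ⟨y, h⟩) else 1

theorem G_res (y : Ω) : (G V y).map (IsLocalRing.residue V) = Gr V y := by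
  by_cases h : y ∈ V
  · rw [G, Gr, dif_pos h, dif_pos h, Polynomial.map_sub, map_X, map_C]
  · rw [G, Gr, dif_neg h, dif_neg h, Polynomial.map_sub, Polynomial.map_mul, map_X, map_C,
      Polynomial.map_one]
    have h1 : IsLocalRing.residue V ⟨y⁻¹, (V.mem_or_inv_mem y).resolve_left h⟩ = 0 := by
      rw [IsLocalRing.residue_eq_zero_iff, ValuationSubring.valuation_lt_one_iff]
      change V.valuation y⁻¹ < 1
      rw [map_inv₀]
      apply inv_lt_one_of_one_lt₀
      rw [← not_le, V.valuation_le_one_iff]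
      exact h
    rw [h1, C_0, zero_mul, sub_zero]

theorem Gr_monic (y : Ω) : (Gr V y).Monic := by
  by_cases h : y ∈ V
  · rw [Gr, dif_pos h]
    exact monic_X_sub_C _
  · rw [Gr, dif_neg h]
    exact monic_one

theorem Gr_natDegree (y : Ω) : (Gr V y).natDegree = open Classical in if y ∈ V then 1 else 0 := by
  by_cases h : y ∈ V
  · rw [Gr, dif_pos h, if_pos h, natDegree_X_sub_C]
  · rw [Gr, dif_neg h, if_neg h, natDegree_one]

/-- The factorization over `V`. -/
theorem fac_V {n : ℕ} (y : Fin n → Ω) (f : V[X]) (c₀ : Ω)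
    (h : f.map (algebraMap V Ω) = C c₀ * ∏ i, (X - C (y i))) :
    ∃ c : V, f = C c * ∏ i, G V (y i) := by
  set c := c₀ * ∏ i, cst V (y i) with hc
  set g := ∏ i, G V (y i) with hg
  have h1 : f.map (algebraMap V Ω) = C c * g.map (algebraMap V Ω) := by
    rw [h, hc, C_mul, map_prod, mul_assoc, hg, Polynomial.map_prod, ← Finset.prod_mul_distrib]
    congr 1
    exact Finset.prod_congr rfl fun i _ => G_map V (y i)
  have hgr : (g.map (IsLocalRing.residue V)).Monic := by
    rw [hg, Polynomial.map_prod]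
    exact monic_prod_of_monic _ _ fun i _ => by rw [G_res]; exact Gr_monic V _
  set d := (g.map (IsLocalRing.residue V)).natDegree with hd
  have h2 : IsLocalRing.residue V (g.coeff d) = 1 := by
    rw [← coeff_map]
    exact hgr.coeff_natDegree
  have h3 : IsUnit (g.coeff d) := by
    by_contra h4
    have h5 : g.coeff d ∈ IsLocalRing.maximalIdeal V := h4
    rw [← IsLocalRing.residue_eq_zero_iff, h2] at h5
    exact one_ne_zero h5
  obtain ⟨u, hu⟩ := h3
  have h4 : algebraMap V Ω (f.coeff d) = c * algebraMap V Ω (g.coeff d) := by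
    rw [← coeff_map, h1, coeff_C_mul, coeff_map]
  have h5 : algebraMap V Ω (f.coeff d * (↑u⁻¹ : V)) = c := by
    rw [map_mul, h4, mul_assoc, ← map_mul, ← hu, Units.mul_inv, map_one, mul_one]
  refine ⟨f.coeff d * (↑u⁻¹ : V), ?_⟩
  apply Polynomial.map_injective (algebraMap V Ω) Subtype.val_injective
  rw [Polynomial.map_mul, map_C, h5, h1]

end LocNM

open LocNM in
theorem tLocN (h0 : MulStmt) : LocNStmt := by
  classical
  intro n t Ω _ _ V hV e τ κ u y he he1 hτ hκ hu hcu hfac
  let : Algebra (ZMod 2) V := by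
    have hchar : CharP Ω 2 := AType2.charP Ω
    have hcharV : CharP V 2 := RingHom.charP V.subtype Subtype.val_injective 2
    exact ZMod.algebra V 2
  have hτV : τ ∈ V := (V.valuation_le_one_iff τ).1 hτ.le
  have heV : e ∈ V := (V.valuation_le_one_iff e).1 he1.le
  set f : V[X] := t.f (⟨e, heV⟩ : V) ⟨τ, hτV⟩ ⟨κ, hκ⟩ ⟨u, hu⟩ with hf
  have hfΩ : f.map (algebraMap V Ω) = t.f e τ κ u := t.map_f (algebraMap V Ω) _ _ _ _
  obtain ⟨c, hc⟩ := fac_V V y f (e ^ 12) (by rw [hfΩ, hfac])
  set k := IsLocalRing.ResidueField V with hk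
  set τ' : k := IsLocalRing.residue V ⟨τ, hτV⟩ with hτ'
  set κ' : k := IsLocalRing.residue V ⟨κ, hκ⟩ with hκ'
  set u' : k := IsLocalRing.residue V ⟨u, hu⟩ with hu'
  have he0 : IsLocalRing.residue V ⟨e, heV⟩ = 0 := by
    rw [IsLocalRing.residue_eq_zero_iff, ValuationSubring.valuation_lt_one_iff]
    exact he1
  have hfk : f.map (IsLocalRing.residue V) = t.f (0 : k) τ' κ' u' := by
    have h1 := t.map_f (IsLocalRing.residue V) (⟨e, heV⟩ : V) ⟨τ, hτV⟩ ⟨κ, hκ⟩ ⟨u, hu⟩
    rw [he0] at h1
    exact h1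
  have hfk2 : t.f (0 : k) τ' κ' u' = C (IsLocalRing.residue V c) * ∏ i, Gr V (y i) := by
    rw [← hfk, hc, Polynomial.map_mul, map_C, Polynomial.map_prod]
    congr 1
    exact Finset.prod_congr rfl fun i _ => G_res V (y i)
  have hτ'0 : τ' ≠ 0 := by
    rw [hτ', Ne, IsLocalRing.residue_eq_zero_iff, ValuationSubring.valuation_lt_one_iff]
    intro h1
    exact absurd hτ h1.ne
  have hB := t.coeff_B τ' κ' u'
  have hdeg := t.natDegree_B hτ'0 κ' u'
  have hfB := t.f_zero τ' κ' u'
  rw [← hfB] at hB hdeg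
  have hc0 : IsLocalRing.residue V c ≠ 0 := by
    intro h1
    rw [hfk2, h1, C_0, zero_mul, coeff_zero] at hB
    exact hτ'0 hB.symm
  have hmon : (∏ i, Gr V (y i)).Monic := monic_prod_of_monic _ _ fun i _ => Gr_monic V _
  have hdeg2 : (t.f (0 : k) τ' κ' u').natDegree =
      ∑ i : Fin n, (if y i ∈ V then 1 else 0) := by
    rw [hfk2, natDegree_C_mul hc0, natDegree_prod_of_monic _ _ fun i _ => Gr_monic V _]
    refine Finset.sum_congr rfl fun i _ => ?_
    rw [Gr_natDegree]
  have hdvd : ∏ i, Gr V (y i) ∣ t.f (0 : k) τ' κ' u' := by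
    rw [hfk2]
    exact dvd_mul_left _ _
  have hMul := h0 n t k (0 : k) τ' κ' u'
  have hres : ∀ a : Ω, ∀ ha : a ∈ V, (V.valuation (a - 1) < 1 ↔
      IsLocalRing.residue V ⟨a, ha⟩ = 1) := by
    intro a ha
    rw [← map_one (IsLocalRing.residue V), ← sub_eq_zero, ← map_sub,
      IsLocalRing.residue_eq_zero_iff, ValuationSubring.valuation_lt_one_iff]
    rfl
  have hGr : ∀ i, ∀ hi : y i ∈ V, Gr V (y i) = X - C (IsLocalRing.residue V ⟨y i, hi⟩) :=
    fun i hi => by rw [Gr, dif_pos hi]
  refine ⟨?_, ?_, ?_⟩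
  · have h1 : Fintype.card {i // y i ∉ V} + Fintype.card {i // y i ∈ V} = n := by
      rw [Fintype.card_subtype_compl, Fintype.card_fin]
      have : Fintype.card {i // y i ∈ V} ≤ n := by
        conv_rhs => rw [← Fintype.card_fin n]
        exact Fintype.card_subtype_le _
      omega
    have h2 : ∑ i : Fin n, (if y i ∈ V then 1 else 0) = Fintype.card {i // y i ∈ V} := by
      rw [Finset.sum_boole, Fintype.card_subtype]
      rfl
    have h3 : 8 ≤ n := t.le_n
    rw [Nat.card_eq_fintype_card]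
    omega
  · intro i j hij hi hj hlt
    rw [hres _ hi]
    apply hMul.1
    refine dvd_trans ?_ hdvd
    have h1 : IsLocalRing.residue V ⟨y j, hj⟩ = IsLocalRing.residue V ⟨y i, hi⟩ := by
      rw [eq_comm, ← sub_eq_zero, ← map_sub, IsLocalRing.residue_eq_zero_iff,
        ValuationSubring.valuation_lt_one_iff]
      exact hlt
    have h2 := Finset.prod_dvd_prod_of_subset {i, j} Finset.univ (fun i => Gr V (y i))
      (Finset.subset_univ _)
    rwa [Finset.prod_pair hij, hGr i hi, hGr j hj, h1, ← sq] at h2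
  · intro i j l hij hjl hil hi hj hl
    have hmem : ∀ a : Ω, V.valuation (a - 1) < 1 → a ∈ V := by
      intro a ha
      have h1 : a - 1 ∈ V := (V.valuation_le_one_iff _).1 ha.le
      have h2 := V.add_mem _ _ h1 V.one_mem
      rwa [sub_add_cancel] at h2
    have h3 : u' = 0 ∧ κ' = 1 := by
      apply hMul.2
      refine dvd_trans ?_ hdvd
      have h2 := Finset.prod_dvd_prod_of_subset {i, j, l} Finset.univ (fun i => Gr V (y i))
        (Finset.subset_univ _)
      rw [Finset.prod_insert (by simp [hij, hil]), Finset.prod_pair hjl, hGr i (hmem _ hi),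
        hGr j (hmem _ hj), hGr l (hmem _ hl), (hres _ (hmem _ hi)).1 hi, (hres _ (hmem _ hj)).1 hj,
        (hres _ (hmem _ hl)).1 hl] at h2
      rwa [pow_succ', sq]
    rcases hcu with h4 | h4
    · have h5 := h3.1
      rw [hu', IsLocalRing.residue_eq_zero_iff, ValuationSubring.valuation_lt_one_iff] at h5
      exact absurd h4 h5.ne
    · have h5 : IsLocalRing.residue V (1 + ⟨κ, hκ⟩) = 0 := by
        have h6 : CharP k 2 := by
          have : Algebra (ZMod 2) k := inferInstance
          exact AType2.charP k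
        rw [map_add, map_one, ← hκ', h3.2]
        exact CharTwo.add_self_eq_zero 1
      rw [IsLocalRing.residue_eq_zero_iff, ValuationSubring.valuation_lt_one_iff] at h5
      exact absurd h4 h5.ne

end A2

end MP7Z
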