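import Pool.Agent.Lib.MP_7f581e_Z.Alt2.Spec

/-!
# Alternating step, characteristic two: valuations of the infinite roots (module LocV)
-/

set_option autoImplicit false

namespace MP7Z.A2

open Polynomial MP7Z

namespace LocVN

variable {Ω : Type} [Field Ω] (V : ValuationSubring Ω)

theorem pow_one_add {μ : Ω} (hμ : μ ∈ V) (c : ℕ) :
    ∃ s ∈ V, (1 + μ) ^ c = 1 + c * μ + μ ^ 2 * s := by
  induction c with
  | zero => exact ⟨0, V.zero_mem, by simp⟩
  | succ c ih =>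
    obtain ⟨s, hs, h⟩ := ih
    refine ⟨c + s + μ * s, V.add_mem _ _ (V.add_mem _ _ (natCast_mem V c) hs)
      (V.mul_mem _ _ hμ hs), ?_⟩
    rw [pow_succ, h]
    push_cast
    ring

theorem val_natCast (p : ℕ) [Fact p.Prime] [Algebra (ZMod p) Ω] {c : ℕ} (hc : ¬ p ∣ c) :
    V.valuation (c : Ω) = 1 := by
  have h0 : (c : ZMod p) ≠ 0 := by
    rw [Ne, ZMod.natCast_eq_zero_iff]
    exact hc
  have h1 : (c : Ω) ^ (p - 1) = 1 := by
    have h2 := congrArg (algebraMap (ZMod p) Ω) (ZMod.pow_card_sub_one_eq_one h0)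
    rwa [map_pow, map_natCast, map_one] at h2
  have h2 : V.valuation (c : Ω) ^ (p - 1) = 1 := by rw [← map_pow, h1, map_one]
  have hp := (Fact.out : p.Prime).two_le
  exact (pow_eq_one_iff.1 h2).resolve_right (by omega)

/-- The difference of two `c`-th powers. -/
theorem val_pow_sub (p : ℕ) [Fact p.Prime] [Algebra (ZMod p) Ω] {c : ℕ} (hc : ¬ p ∣ c)
    (hc0 : 0 < c) {a b : Ω} (hb : b ≠ 0) (h : V.valuation (a - b) < V.valuation b) :
    V.valuation (a ^ c - b ^ c) = V.valuation (a - b) * V.valuation b ^ (c - 1) := by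
  have hvb : V.valuation b ≠ 0 := (Valuation.ne_zero_iff _).2 hb
  have hvb' : 0 < V.valuation b := zero_lt_iff.2 hvb
  set μ := (a - b) / b with hμ
  have hab : a = b * (1 + μ) := by
    rw [hμ]
    field_simp
    ring
  have hμ1 : V.valuation μ < 1 := by
    rw [hμ, map_div₀, div_lt_one₀ hvb']
    exact h
  have hμV : μ ∈ V := (V.valuation_le_one_iff μ).1 hμ1.le
  obtain ⟨s, hs, hs'⟩ := pow_one_add V hμV c
  have h1 : a ^ c - b ^ c = (a - b) * (b ^ (c - 1) * (c + μ * s)) := by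
    have h2 : a - b = b * μ := by rw [hab]; ring
    have h3 : b ^ c = b ^ (c - 1) * b := by
      rw [← pow_succ, Nat.sub_add_cancel hc0]
    rw [h2, hab, mul_pow, hs', h3]
    ring
  have h2 : V.valuation (c + μ * s) = 1 := by
    have h3 : V.valuation (μ * s) < V.valuation (c : Ω) := by
      rw [val_natCast V p hc, map_mul]
      have h4 : V.valuation s ≤ 1 := (V.valuation_le_one_iff s).2 hs
      calc V.valuation μ * V.valuation s ≤ V.valuation μ * 1 := by gcongr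
        _ < 1 := by rw [mul_one]; exact hμ1
    rw [Valuation.map_add_eq_of_lt_left _ h3, val_natCast V p hc]
  rw [h1, map_mul, map_mul, map_pow, h2, mul_one]

theorem pow_le_pow_right_of_le_one₀ {q : V.ValueGroup} (hq1 : q ≤ 1) {m k : ℕ} (h : m ≤ k) :
    q ^ k ≤ q ^ m := by
  obtain ⟨j, rfl⟩ := Nat.exists_eq_add_of_le h
  rw [pow_add]
  calc q ^ m * q ^ j ≤ q ^ m * 1 := by
        gcongr
        exact pow_le_one₀ zero_le hq1
    _ = q ^ m := mul_one _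

/-- Upper bound for the difference of two powers. -/
theorem val_pow_sub_le {a b : Ω} {q : V.ValueGroup} (ha : V.valuation a = q)
    (hb : V.valuation b = q) (k : ℕ) :
    V.valuation (a ^ (k + 1) - b ^ (k + 1)) ≤ V.valuation (a - b) * q ^ k := by
  induction k with
  | zero => simp
  | succ k ih =>
    have h1 : a ^ (k + 1 + 1) - b ^ (k + 1 + 1) =
        (a ^ (k + 1) - b ^ (k + 1)) * a + (a - b) * b ^ (k + 1) := by ring
    rw [h1]
    refine (Valuation.map_add _ _ _).trans (max_le ?_ ?_)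
    · rw [map_mul, ha, pow_succ q k, ← mul_assoc]
      gcongr
    · rw [map_mul, map_pow, hb]

end LocVN

open LocVN in
theorem tLocV (h0 : LocEStmt) : LocVStmt := by
  intro n t Ω _ _ V hV e τ c u he he1 hτ hcV huV
  have : CharP Ω 2 := charP_of_injective_algebraMap (algebraMap (ZMod 2) Ω).injective 2
  have hτV : τ ∈ V := (V.valuation_le_one_iff τ).1 hτ.le
  have hc1 : V.valuation c ≤ 1 := (V.valuation_le_one_iff c).2 hcV
  obtain ⟨H, hE, hA, hL⟩ := h0 n t Ω V hV e τ c u he1 hτV hcV huV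
  have hve : V.valuation e ≠ 0 := (Valuation.ne_zero_iff _).2 he
  have hve' : 0 < V.valuation e := zero_lt_iff.2 hve
  have hr := t.le_r
  have hs := t.le_s
  -- facts on one root
  have hone : ∀ y : Ω, y ∉ V → (t.f e τ c u).eval y = 0 →
      y⁻¹ ≠ 0 ∧ V.valuation y⁻¹ < 1 ∧ V.valuation y⁻¹ = V.valuation e ^ 3 ∧
      H (y⁻¹ ^ 4) + c * y⁻¹ ^ t.s + y⁻¹ ^ t.r * (1 + y⁻¹ ^ 2) = 0 ∧
      V.valuation (e ^ 12 + τ * y⁻¹ ^ 4) ≤ V.valuation e ^ 15 := by
    intro y hy hfy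
    have hy0 : y ≠ 0 := by
      rintro rfl
      exact hy V.zero_mem
    have hvy : 1 < V.valuation y := by
      rw [← not_le, V.valuation_le_one_iff]
      exact hy
    have hζ0 : y⁻¹ ≠ 0 := inv_ne_zero hy0
    have hζ1 : V.valuation y⁻¹ < 1 := by
      rw [map_inv₀]
      exact inv_lt_one_of_one_lt₀ hvy
    have h1 := hE y⁻¹ hζ0 (by rw [inv_inv]; exact hfy)
    set ζ := y⁻¹ with hζ
    obtain ⟨q, hq⟩ : ∃ q, q = V.valuation ζ := ⟨_, rfl⟩
    have hq0 : 0 < q := by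
      rw [hq]
      exact zero_lt_iff.2 ((Valuation.ne_zero_iff _).2 hζ0)
    have hq1 : q < 1 := by
      rw [hq]
      exact hζ1
    have hZ1 : V.valuation (ζ ^ 4) < 1 := by
      rw [map_pow, ← hq]
      exact pow_lt_one₀ zero_le hq1 (by omega)
    have h2 := hA (ζ ^ 4) hZ1
    rw [map_pow, ← hq] at h2
    have h3 : e ^ 12 + τ * ζ ^ 4 = -(c * ζ ^ t.s) + (-(ζ ^ t.r * (1 + ζ ^ 2)) +
        -(H (ζ ^ 4) - (e ^ 12 + τ * ζ ^ 4))) := by
      linear_combination h1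
    have hs' : V.valuation (c * ζ ^ t.s) ≤ q ^ 5 := by
      rw [map_mul, map_pow, ← hq]
      calc V.valuation c * q ^ t.s ≤ 1 * q ^ t.s := by gcongr
        _ = q ^ t.s := one_mul _
        _ ≤ q ^ 5 := pow_le_pow_right_of_le_one₀ V hq1.le (by omega)
    have hr' : V.valuation (ζ ^ t.r * (1 + ζ ^ 2)) ≤ q ^ 5 := by
      have h4 : V.valuation (1 + ζ ^ 2) ≤ 1 := by
        refine (Valuation.map_add _ _ _).trans (max_le ?_ ?_)
        · rw [map_one]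
        · rw [map_pow, ← hq]
          exact pow_le_one₀ zero_le hq1.le
      rw [map_mul, map_pow, ← hq]
      calc q ^ t.r * V.valuation (1 + ζ ^ 2) ≤ q ^ t.r * 1 := by gcongr
        _ = q ^ t.r := mul_one _
        _ ≤ q ^ 5 := pow_le_pow_right_of_le_one₀ V hq1.le hr
    have h45 : q ^ 5 < q ^ 4 := pow_lt_pow_right_of_lt_one₀ hq0 hq1 (by omega)
    have h48 : (q ^ 4) ^ 2 < q ^ 4 := by
      rw [← pow_mul]
      exact pow_lt_pow_right_of_lt_one₀ hq0 hq1 (by omega)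
    have he12 : V.valuation e ^ 12 < 1 := pow_lt_one₀ zero_le he1 (by omega)
    have h412 : V.valuation e ^ 12 * q ^ 4 < q ^ 4 := by
      calc V.valuation e ^ 12 * q ^ 4 < 1 * q ^ 4 := mul_lt_mul_of_pos_right he12 (pow_pos hq0 _)
        _ = q ^ 4 := one_mul _
    have hsmall : V.valuation (e ^ 12 + τ * ζ ^ 4) < q ^ 4 := by
      rw [h3]
      refine lt_of_le_of_lt (Valuation.map_add _ _ _) (max_lt ?_ (lt_of_le_of_lt
        (Valuation.map_add _ _ _) (max_lt ?_ ?_)))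
      · rw [Valuation.map_neg]
        exact lt_of_le_of_lt hs' h45
      · rw [Valuation.map_neg]
        exact lt_of_le_of_lt hr' h45
      · rw [Valuation.map_neg]
        exact lt_of_le_of_lt h2 (max_lt h412 h48)
    have hτζ : V.valuation (τ * ζ ^ 4) = q ^ 4 := by
      rw [map_mul, hτ, one_mul, map_pow, ← hq]
    have he4 : V.valuation e ^ 12 = q ^ 4 := by
      have h4 : e ^ 12 = -(τ * ζ ^ 4) + (e ^ 12 + τ * ζ ^ 4) := by ring
      have h5 : V.valuation (e ^ 12) = V.valuation (-(τ * ζ ^ 4)) := by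
        conv_lhs => rw [h4]
        refine Valuation.map_add_eq_of_lt_left _ ?_
        rw [Valuation.map_neg, hτζ]
        exact hsmall
      rwa [Valuation.map_neg, hτζ, map_pow] at h5
    have hq3 : q = V.valuation e ^ 3 := by
      have h4 : (V.valuation e ^ 3) ^ 4 = q ^ 4 := by
        rw [← pow_mul]
        exact he4
      exact ((pow_left_inj₀ zero_le zero_le (by omega : 4 ≠ 0)).1 h4).symm
    refine ⟨hζ0, hζ1, by rw [← hq]; exact hq3, h1, ?_⟩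
    have h15 : V.valuation e ^ 15 = q ^ 5 := by
      rw [hq3, ← pow_mul]
    rw [h3, h15]
    refine (Valuation.map_add _ _ _).trans (max_le ?_ ((Valuation.map_add _ _ _).trans
      (max_le ?_ ?_)))
    · rw [Valuation.map_neg]
      exact hs'
    · rw [Valuation.map_neg]
      exact hr'
    · rw [Valuation.map_neg]
      refine h2.trans (max_le ?_ ?_)
      · rw [he4, ← pow_add]
        exact pow_le_pow_right_of_le_one₀ V hq1.le (by omega)
      · rw [← pow_mul]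
        exact pow_le_pow_right_of_le_one₀ V hq1.le (by omega)
  refine ⟨fun y hy hfy => (hone y hy hfy).2.2.1, fun y hy hfy => (hone y hy hfy).2.2.2.2, ?_⟩
  intro y y' hy hy' hne hfy hfy'
  obtain ⟨hz0, hz1, hzq, h1, hu1⟩ := hone y hy hfy
  obtain ⟨hz0', hz1', hzq', h2, hu2⟩ := hone y' hy' hfy'
  have hne' : y⁻¹ ≠ y'⁻¹ := fun h => hne (inv_injective h)
  set ζ₁ := y⁻¹
  set ζ₂ := y'⁻¹
  obtain ⟨q, hq⟩ : ∃ q, q = V.valuation e ^ 3 := ⟨_, rfl⟩
  rw [← hq] at hzq hzq'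
  have hq0 : 0 < q := by
    rw [hq]
    exact pow_pos hve' _
  have hq1 : q < 1 := by
    rw [hq]
    exact pow_lt_one₀ zero_le he1 (by omega)
  have h15 : V.valuation e ^ 15 = q ^ 5 := by
    rw [hq, ← pow_mul]
  have h12 : V.valuation e ^ 12 = q ^ 4 := by
    rw [hq, ← pow_mul]
  rw [h15] at hu1 hu2
  have hchar : ζ₁ ^ 4 - ζ₂ ^ 4 = (ζ₁ - ζ₂) ^ 4 := by
    have h3 := sub_pow_char_pow (R := Ω) (p := 2) (n := 2) (x := ζ₁) (y := ζ₂)
    have h4 : (2 ^ 2 : ℕ) = 4 := by norm_num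
    rw [h4] at h3
    exact h3.symm
  obtain ⟨D, hD⟩ : ∃ D, D = V.valuation (ζ₁ - ζ₂) := ⟨_, rfl⟩
  have hD0 : 0 < D := by
    rw [hD]
    exact zero_lt_iff.2 ((Valuation.ne_zero_iff _).2 (sub_ne_zero.2 hne'))
  have hDle : D ≤ q := by
    rw [hD]
    refine (Valuation.map_sub _ _ _).trans (max_le ?_ ?_)
    · rw [hzq]
    · rw [hzq']
  have hlt : D < q := by
    have h3 : V.valuation (τ * (ζ₁ ^ 4 - ζ₂ ^ 4)) ≤ q ^ 5 := by
      have h4 : τ * (ζ₁ ^ 4 - ζ₂ ^ 4) = (e ^ 12 + τ * ζ₁ ^ 4) - (e ^ 12 + τ * ζ₂ ^ 4) := by ring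
      rw [h4]
      exact (Valuation.map_sub _ _ _).trans (max_le hu1 hu2)
    rw [map_mul, hτ, one_mul, hchar, map_pow, ← hD] at h3
    have h45 : q ^ 5 < q ^ 4 := pow_lt_pow_right_of_lt_one₀ hq0 hq1 (by omega)
    exact lt_of_pow_lt_pow_left₀ 4 zero_le (lt_of_le_of_lt h3 h45)
  -- the left side
  have hZ1 : V.valuation (ζ₁ ^ 4) = q ^ 4 := by rw [map_pow, hzq]
  have hZ2 : V.valuation (ζ₂ ^ 4) = q ^ 4 := by rw [map_pow, hzq']
  have hq4 : q ^ 4 < 1 := pow_lt_one₀ zero_le hq1 (by omega)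
  have hH : V.valuation (H (ζ₁ ^ 4) - H (ζ₂ ^ 4)) = D ^ 4 := by
    have h3 := hL (ζ₁ ^ 4) (ζ₂ ^ 4) (by rw [hZ1]; exact hq4) (by rw [hZ2]; exact hq4)
    rw [hZ1, hZ2, h12, max_self, max_self, hchar, map_pow, ← hD] at h3
    have h4 : V.valuation (τ * (ζ₁ - ζ₂) ^ 4) = D ^ 4 := by
      rw [map_mul, hτ, one_mul, map_pow, ← hD]
    have h5 : H (ζ₁ ^ 4) - H (ζ₂ ^ 4) = τ * (ζ₁ - ζ₂) ^ 4 +
        (H (ζ₁ ^ 4) - H (ζ₂ ^ 4) - τ * (ζ₁ - ζ₂) ^ 4) := by ring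
    have h6 : V.valuation (H (ζ₁ ^ 4) - H (ζ₂ ^ 4) - τ * (ζ₁ - ζ₂) ^ 4) <
        V.valuation (τ * (ζ₁ - ζ₂) ^ 4) := by
      rw [h4]
      refine lt_of_le_of_lt h3 ?_
      calc q ^ 4 * D ^ 4 < 1 * D ^ 4 := mul_lt_mul_of_pos_right hq4 (pow_pos hD0 _)
        _ = D ^ 4 := one_mul _
    rw [h5, Valuation.map_add_eq_of_lt_left _ h6, h4]
  -- the term with `ζ ^ s`
  have hS : V.valuation (c * (ζ₁ ^ t.s - ζ₂ ^ t.s)) ≤ D ^ 2 * q ^ (t.s - 2) := by
    obtain ⟨s', hs'⟩ := t.even_s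
    obtain ⟨k, hk⟩ : ∃ k, s' = k + 1 := ⟨s' - 1, by omega⟩
    have h3 : ζ₁ ^ t.s - ζ₂ ^ t.s = (ζ₁ ^ (k + 1) - ζ₂ ^ (k + 1)) ^ 2 := by
      have h4 := sub_pow_char (R := Ω) (p := 2) (ζ₁ ^ (k + 1)) (ζ₂ ^ (k + 1))
      rw [h4, ← pow_mul, ← pow_mul]
      have h5 : t.s = (k + 1) * 2 := by omega
      rw [h5]
    have h4 := val_pow_sub_le V hzq hzq' k
    rw [← hD] at h4
    rw [map_mul, h3, map_pow]
    have h5 : t.s - 2 = k * 2 := by omega
    calc V.valuation c * V.valuation (ζ₁ ^ (k + 1) - ζ₂ ^ (k + 1)) ^ 2 ≤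
        1 * (D * q ^ k) ^ 2 := by gcongr
      _ = D ^ 2 * q ^ (t.s - 2) := by
        rw [one_mul, mul_pow, h5, pow_mul]
  -- the term with `ζ ^ r`
  have hR : V.valuation (ζ₁ ^ t.r * (1 + ζ₁ ^ 2) - ζ₂ ^ t.r * (1 + ζ₂ ^ 2)) =
      D * q ^ (t.r - 1) := by
    have h3 : ζ₁ ^ t.r * (1 + ζ₁ ^ 2) - ζ₂ ^ t.r * (1 + ζ₂ ^ 2) =
        (ζ₁ ^ t.r - ζ₂ ^ t.r) + (ζ₁ ^ (t.r + 1 + 1) - ζ₂ ^ (t.r + 1 + 1)) := by ring
    have hodd : ¬ 2 ∣ t.r := by
      have := Nat.odd_iff.1 t.odd_r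
      omega
    have h4 : V.valuation (ζ₁ ^ t.r - ζ₂ ^ t.r) = D * q ^ (t.r - 1) := by
      rw [val_pow_sub V 2 hodd (by omega) hz0' (by rw [hzq', ← hD]; exact hlt), hzq', ← hD]
    have h5 : V.valuation (ζ₁ ^ (t.r + 1 + 1) - ζ₂ ^ (t.r + 1 + 1)) < D * q ^ (t.r - 1) := by
      refine lt_of_le_of_lt (val_pow_sub_le V hzq hzq' (t.r + 1)) ?_
      rw [← hD]
      refine mul_lt_mul_of_pos_left ?_ hD0
      exact pow_lt_pow_right_of_lt_one₀ hq0 hq1 (by omega)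
    rw [h3, Valuation.map_add_eq_of_lt_left _ (by rw [h4]; exact h5), h4]
  have hsub : H (ζ₁ ^ 4) - H (ζ₂ ^ 4) = -((ζ₁ ^ t.r * (1 + ζ₁ ^ 2) - ζ₂ ^ t.r * (1 + ζ₂ ^ 2)) +
      c * (ζ₁ ^ t.s - ζ₂ ^ t.s)) := by
    linear_combination h1 - h2
  have hr1 : t.r - 1 ≠ 0 := by omega
  rcases lt_or_ge (D ^ 2 * q ^ (t.s - 2)) (D * q ^ (t.r - 1)) with hcase | hcase
  · have h3 : V.valuation (H (ζ₁ ^ 4) - H (ζ₂ ^ 4)) = D * q ^ (t.r - 1) := by
      rw [hsub, Valuation.map_neg, Valuation.map_add_eq_of_lt_left _ (by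
        rw [hR]; exact lt_of_le_of_lt hS hcase), hR]
    rw [hH] at h3
    have h4 : D * D ^ 3 = D * q ^ (t.r - 1) := by
      rw [← pow_succ']
      exact h3
    have h5 := mul_left_cancel₀ hD0.ne' h4
    have h6 : D ^ 3 = (V.valuation e ^ (t.r - 1)) ^ 3 := by
      rw [h5, hq, ← pow_mul, ← pow_mul, mul_comm]
    rw [← hD]
    exact (pow_left_inj₀ zero_le zero_le (by omega : 3 ≠ 0)).1 h6
  · exfalso
    have h3 : D ^ 4 ≤ D ^ 2 * q ^ (t.s - 2) := by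
      rw [← hH, hsub, Valuation.map_neg]
      refine (Valuation.map_add _ _ _).trans (max_le ?_ hS)
      rw [hR]
      exact hcase
    have h4 : D ^ 2 ≤ q ^ (t.s - 2) := by
      have h5 : D ^ 2 * D ^ 2 ≤ D ^ 2 * q ^ (t.s - 2) := by
        rw [← pow_add]
        exact h3
      exact le_of_mul_le_mul_left h5 (pow_pos hD0 _)
    have h5 : q ^ (t.r - 1) ≤ D * q ^ (t.s - 2) := by
      have h6 : D * q ^ (t.r - 1) ≤ D * (D * q ^ (t.s - 2)) := by
        rw [← mul_assoc, ← pow_two]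
        exact hcase
      exact le_of_mul_le_mul_left h6 hD0
    have h6 : (q ^ (t.r - 1)) ^ 2 ≤ q ^ (3 * (t.s - 2)) := by
      calc (q ^ (t.r - 1)) ^ 2 ≤ (D * q ^ (t.s - 2)) ^ 2 := by gcongr
        _ = D ^ 2 * (q ^ (t.s - 2)) ^ 2 := mul_pow _ _ _
        _ ≤ q ^ (t.s - 2) * (q ^ (t.s - 2)) ^ 2 := by gcongr
        _ = q ^ (3 * (t.s - 2)) := by
          rw [← pow_succ', ← pow_mul, mul_comm]
    have h7 : q ^ (3 * (t.s - 2)) < (q ^ (t.r - 1)) ^ 2 := by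
      rw [← pow_mul]
      refine pow_lt_pow_right_of_lt_one₀ hq0 hq1 ?_
      have := t.hrs
      omega
    exact lt_irrefl _ (lt_of_le_of_lt h6 h7)

end MP7Z.A2
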