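import Pool.Agent.Lib.MP_7f581e_Z.Alt2.Spec

/-!
# Alternating step in characteristic two: multiple roots
-/

namespace MP7Z.A2

open Polynomial MP7Z

/-- **Mul.** Multiple roots: only `1`, and of multiplicity at most two if not `u = 0`, `c = 1`. -/
theorem tMul : MulStmt := by
  intro n t F _ _ e τ c u
  have h2 := AType2.two_eq_zero F
  refine ⟨fun r hr => ?_, fun h3 => ?_⟩
  · have h1 : X - C r ∣ derivative (t.VF F * t.f e τ c u) := by
      have h := pow_sub_one_dvd_derivative_of_pow_dvd (hr.mul_left (t.VF F))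
      rwa [show 2 - 1 = 1 from rfl, pow_one] at h
    rw [t.derivative_f, dvd_iff_isRoot, IsRoot, eval_pow, eval_add, eval_X, eval_one] at h1
    linear_combination eq_zero_of_pow_eq_zero h1 - h2
  · have h4 : X - C 1 ∣ t.f e τ c u := (dvd_pow_self _ three_ne_zero).trans h3
    rw [dvd_iff_isRoot, IsRoot, t.eval_f] at h4
    subst h4
    exact ⟨rfl, t.dbl F e τ c h3⟩

end MP7Z.A2
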