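import Pool.Agent.Lib.MP_7f581e_Z.Alt2.Spec

/-!
# Alternating step in characteristic two: the parameters with prescribed class (module Num)
-/

namespace MP7Z.A2

open Polynomial MP7Z

theorem Num_two (Ω : Type) [Field Ω] [Algebra (ZMod 2) Ω] : (2 : Ω) = 0 := by
  have h := map_ofNat (algebraMap (ZMod 2) Ω) 2
  have h2 : (OfNat.ofNat 2 : ZMod 2) = 0 := by decide
  rw [h2, map_zero] at h
  exact h.symm

theorem Num_mul {Ω : Type} [Field Ω] (V : ValuationSubring Ω) {a b : Ω}
    (ha : V.valuation a ≤ 1) (hb : V.valuation b < 1) : V.valuation (a * b) < 1 := by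
  rw [map_mul]
  exact lt_of_le_of_lt ((mul_le_mul' ha le_rfl).trans_eq (one_mul _)) hb

theorem tNum : NumStmt := by
  intro Ω _ _ b g c D G hc hD hG
  have h2 : (2 : Ω) = 0 := Num_two Ω
  refine ⟨?_, ?_⟩
  · subst hc
    subst hD
    subst hG
    linear_combination ((-1) * b^1 * g^4 + (1) * b^0 * g^2 + (-1) * b^2 * g^5 + (1) * b^0 * g^1
      + (-2) * b^1 * g^5 + (-2) * b^2 * g^6 + (-1) * b^1 * g^6) * h2
  · intro V hg hbg
    have hc' : c ∈ V := by
      rw [hc]
      have : g + b * g ^ 2 = g + b * g * g := by ring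
      rw [this]
      exact V.add_mem _ _ hg (V.mul_mem _ _ hbg hg)
    have h1c : 1 + c ∈ V := V.add_mem _ _ V.one_mem hc'
    have hD' : D ∈ V := by
      rw [hD]
      exact V.mul_mem _ _ hg (V.add_mem _ _ h1c (V.pow_mem hg 2))
    have lt_of : ∀ z ∈ V, V.valuation z ≠ 1 → V.valuation z < 1 := fun z hz h =>
      lt_of_le_of_ne ((V.valuation_le_one_iff z).2 hz) h
    refine ⟨hc', hD', ?_, ?_⟩
    · by_contra hcon
      rw [not_or] at hcon
      have hDl := lt_of D hD' hcon.1
      have hCl := lt_of (1 + c) h1c hcon.2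
      have hgle : V.valuation g ≤ 1 := (V.valuation_le_one_iff g).2 hg
      have hgC : V.valuation (g * (1 + c)) < 1 := Num_mul V hgle hCl
      have hg3 : V.valuation (g ^ 3) < 1 := by
        have e : g ^ 3 = D - g * (1 + c) := by rw [hD]; ring
        rw [e]
        exact V.valuation.map_sub_lt hDl hgC
      have hgl : V.valuation g < 1 := by
        by_contra hge
        rw [not_lt] at hge
        rw [map_pow] at hg3
        exact absurd (one_le_pow₀ hge) (not_le.2 hg3)
      have hcl : V.valuation c < 1 := by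
        have e : c = g + b * g * g := by rw [hc]; ring
        rw [e]
        exact V.valuation.map_add_lt hgl (Num_mul V ((V.valuation_le_one_iff _).2 hbg) hgl)
      have h1 : V.valuation (1 + c) = 1 := by
        rw [V.valuation.map_add_eq_of_lt_left (by rwa [map_one]), map_one]
      exact hcon.2 h1
    · intro hgl hg0 hD0
      rw [hD] at hD0
      have h3 := (mul_eq_zero.1 hD0).resolve_left hg0
      have hcl : V.valuation (c + g ^ 2) < 1 := by
        have e : c + g ^ 2 = g + (b * g * g + g * g) := by rw [hc]; ring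
        rw [e]
        exact V.valuation.map_add_lt hgl (V.valuation.map_add_lt
          (Num_mul V ((V.valuation_le_one_iff _).2 hbg) hgl) (Num_mul V hgl.le hgl))
      have h4 : c + g ^ 2 = -1 := by linear_combination h3
      rw [h4, Valuation.map_neg, map_one] at hcl
      exact lt_irrefl _ hcl

end MP7Z.A2
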