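import Pool.Agent.Lib.MP_7f581e_Z.Alt2.Spec

set_option autoImplicit false

/-!
# The sum `bsum` and permutations
-/

namespace MP7Z.A2

open Polynomial MP7Z

theorem Prm_sym {M : Type*} [AddCommMonoid M] {n : ℕ} (g : Fin n → Fin n → M)
    (hg : ∀ i j, g i j = g j i) (ρ : Equiv.Perm (Fin n)) :
    ∑ i, ∑ j, (if i < j then g i j else 0) = ∑ i, ∑ j, (if ρ i < ρ j then g i j else 0) := by
  have h1 : ∀ i j : Fin n, (if i < j then g i j else 0) =
      (if i < j ∧ ρ i < ρ j then g i j else 0) + (if i < j ∧ ρ j < ρ i then g i j else 0) := by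
    intro i j
    by_cases h : i < j
    · have hne : ρ i ≠ ρ j := fun e => h.ne (ρ.injective e)
      rcases lt_or_gt_of_ne hne with h2 | h2
      · simp [h, h2, not_lt_of_gt h2]
      · simp [h, h2, not_lt_of_gt h2]
    · simp [h]
  have h2 : ∀ i j : Fin n, (if ρ i < ρ j then g i j else 0) =
      (if i < j ∧ ρ i < ρ j then g i j else 0) + (if j < i ∧ ρ i < ρ j then g i j else 0) := by
    intro i j
    by_cases h : ρ i < ρ j
    · have hne : i ≠ j := fun e => h.ne (by rw [e])
      rcases lt_or_gt_of_ne hne with h2 | h2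
      · simp [h, h2, not_lt_of_gt h2]
      · simp [h, h2, not_lt_of_gt h2]
    · simp [h]
  simp only [h1, h2, Finset.sum_add_distrib]
  congr 1
  rw [Finset.sum_comm]
  refine Finset.sum_congr rfl fun i _ => Finset.sum_congr rfl fun j _ => ?_
  rw [hg j i]

theorem Prm_Ioi {M : Type*} [AddCommMonoid M] {n : ℕ} (g : Fin n → Fin n → M) :
    ∑ i, ∑ j ∈ Finset.Ioi i, g i j = ∑ i, ∑ j, (if i < j then g i j else 0) := by
  refine Finset.sum_congr rfl fun i _ => ?_
  rw [← Finset.sum_filter]
  congr 1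
  ext j
  simp

section

variable {F : Type} [Field F]

theorem Prm_chi_one : chi F 1 = 0 := by
  rw [chi, if_pos rfl]

theorem Prm_chi_neg : chi F (-1) = 1 := by
  rw [chi, if_neg (by decide)]

theorem Prm_chi_mul [Algebra (ZMod 2) F] (a b : ℤˣ) : chi F (a * b) = chi F a + chi F b := by
  have h2 := AType2.two_eq_zero F
  rcases Int.units_eq_one_or a with rfl | rfl
  · rw [one_mul, Prm_chi_one, zero_add]
  · rcases Int.units_eq_one_or b with rfl | rfl
    · rw [mul_one, Prm_chi_one, add_zero]
    · have h3 : (-1 : ℤˣ) * -1 = 1 := by decide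
      rw [h3, Prm_chi_one, Prm_chi_neg]
      linear_combination -h2

theorem Prm_chi_prod [Algebra (ZMod 2) F] {ι : Type*} (s : Finset ι) (f : ι → ℤˣ) :
    chi F (∏ i ∈ s, f i) = ∑ i ∈ s, chi F (f i) := by
  classical
  induction s using Finset.induction_on with
  | empty => rw [Finset.prod_empty, Finset.sum_empty, Prm_chi_one]
  | insert a s ha ih => rw [Finset.prod_insert ha, Finset.sum_insert ha, Prm_chi_mul, ih]

end

theorem tPrm : PrmStmt := by
  intro n F _ _ y ρ hy
  have h20 := AType2.two_eq_zero F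
  let A : Fin n → Fin n → F := fun a b => y a / (y a + y b)
  let B : Fin n → Fin n → F := fun a b => if a < b then A a b else A b a
  have hAB : ∀ a b, a ≠ b → A a b = B a b + if b < a then 1 else 0 := by
    intro a b hab
    rcases lt_or_gt_of_ne hab with h | h
    · have e1 : B a b = A a b := if_pos h
      rw [e1, if_neg (not_lt_of_gt h), add_zero]
    · have e1 : B a b = A b a := if_neg (not_lt_of_gt h)
      rw [e1, if_pos h]
      have h3 : y a + y b ≠ 0 := by
        intro h4
        refine hab (hy ?_)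
        linear_combination h4 - y b * h20
      have h4 : y b + y a ≠ 0 := by rwa [add_comm]
      change y a / (y a + y b) = y b / (y b + y a) + 1
      rw [add_comm (y b) (y a)]
      field_simp
      linear_combination -(y b) * h20
  have hBs : ∀ a b, B a b = B b a := by
    intro a b
    rcases lt_trichotomy a b with h | h | h
    · have e1 : B a b = A a b := if_pos h
      have e2 : B b a = A a b := if_neg (not_lt_of_gt h)
      rw [e1, e2]
    · rw [h]
    · have e1 : B a b = A b a := if_neg (not_lt_of_gt h)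
      have e2 : B b a = A b a := if_pos h
      rw [e1, e2]
  have hy0 : bsum y = ∑ i, ∑ j, (if i < j then B i j else 0) := by
    have h1 : bsum y = ∑ i, ∑ j ∈ Finset.Ioi i, A i j := rfl
    rw [h1, Prm_Ioi]
    refine Finset.sum_congr rfl fun i _ => Finset.sum_congr rfl fun j _ => ?_
    by_cases h : i < j
    · have e1 : B i j = A i j := if_pos h
      rw [if_pos h, if_pos h, e1]
    · rw [if_neg h, if_neg h]
  have h1 : bsum (y ∘ ρ) = ∑ i, ∑ j, (if i < j then B (ρ i) (ρ j) else 0) +
      ∑ i, ∑ j ∈ Finset.Ioi i, (if ρ i < ρ j then 0 else 1) := by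
    have h2 : bsum (y ∘ ρ) = ∑ i, ∑ j ∈ Finset.Ioi i, A (ρ i) (ρ j) := rfl
    rw [h2, ← Prm_Ioi (fun i j => B (ρ i) (ρ j)), ← Finset.sum_add_distrib]
    refine Finset.sum_congr rfl fun i _ => ?_
    rw [← Finset.sum_add_distrib]
    refine Finset.sum_congr rfl fun j hj => ?_
    have hij : i < j := Finset.mem_Ioi.1 hj
    have hne : ρ i ≠ ρ j := fun e => hij.ne (ρ.injective e)
    rw [hAB _ _ hne]
    congr 1
    rcases lt_or_gt_of_ne hne with h | h
    · rw [if_neg (not_lt_of_gt h), if_pos h]
    · rw [if_pos h, if_neg (not_lt_of_gt h)]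
  have h2 : ∑ i, ∑ j, (if ρ i < ρ j then B (ρ i) (ρ j) else 0) =
      ∑ i, ∑ j, (if i < j then B i j else 0) := by
    rw [← Equiv.sum_comp ρ (fun i => ∑ j, if i < j then B i j else 0)]
    refine Finset.sum_congr rfl fun i _ => ?_
    exact Equiv.sum_comp ρ (fun j => if ρ i < j then B (ρ i) j else 0)
  have h3 : chi F (Equiv.Perm.sign ρ) =
      ∑ i, ∑ j ∈ Finset.Ioi i, (if ρ i < ρ j then 0 else 1) := by
    rw [Equiv.Perm.sign_eq_prod_prod_Ioi, Prm_chi_prod]
    refine Finset.sum_congr rfl fun i _ => ?_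
    rw [Prm_chi_prod]
    refine Finset.sum_congr rfl fun j _ => ?_
    by_cases h : ρ i < ρ j
    · rw [if_pos h, if_pos h, Prm_chi_one]
    · rw [if_neg h, if_neg h, Prm_chi_neg]
  rw [h1, Prm_sym (fun i j => B (ρ i) (ρ j)) (fun i j => hBs _ _) ρ, h2, ← hy0, h3]

end MP7Z.A2
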