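import Pool.Agent.Lib.MP_7f581e_Z.Alt2.Spec

/-!
# Alternating step in characteristic two: separability
-/

set_option autoImplicit false

namespace MP7Z.A2

open Polynomial MP7Z

theorem tSep : SepStmt := by
  intro n t F _ _ e τ c u hu
  have hch := AType2.charP F
  have key := t.derivative_f (F := F) e τ c u
  have h1 : (X : F[X]) + 1 = X - C 1 := by
    rw [C_1, sub_eq_add_neg]
    congr 1
    rw [CharTwo.neg_eq]
  have h2 : IsCoprime (t.f e τ c u) (X - C 1 : F[X]) := by
    rw [isCoprime_comm, (irreducible_X_sub_C (1 : F)).coprime_iff_not_dvd, dvd_iff_isRoot,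
      IsRoot.def, t.eval_f]
    exact hu
  have h3 : IsCoprime (t.f e τ c u) ((X + 1 : F[X]) ^ 2) := by
    rw [h1]
    exact h2.pow_right
  rw [← key, derivative_mul] at h3
  have h4 : derivative (t.VF F) * t.f e τ c u + t.VF F * derivative (t.f e τ c u) =
      t.VF F * derivative (t.f e τ c u) + t.f e τ c u * derivative (t.VF F) := by ring
  rw [h4] at h3
  exact (h3.of_add_mul_left_right).of_mul_right_right

end MP7Z.A2
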