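import Pool.Agent.Lib.MP_7f581e_Z.Alt2.Spec
import Pool.Agent.Lib.MP_7f581e_Z.Lie.Int
import Pool.Agent.Lib.MP_7f581e_Z.BR.ResT

/-!
# Alternating step in characteristic two: existence of the system of polynomials
-/

namespace MP7Z.A2

open Polynomial MP7Z MP7fS

section

variable {Ω : Type} [Field Ω] [Algebra (ZMod 2) Ω]

theorem Sys_map_cst (δ : Ω ≃ₐ[ZMod 2] Ω) {c : Ω} (hc : c ∈ Cst 2 Ω) : δ c ∈ Cst 2 Ω :=
  (cstAut δ ⟨c, hc⟩).2

theorem Sys_int_adj {x a : Ω} (ha : a ∈ Algebra.adjoin (ZMod 2) {x}) :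
    IsIntegral (Algebra.adjoin (ZMod 2) {x}) a :=
  isIntegral_algebraMap (x := (⟨a, ha⟩ : Algebra.adjoin (ZMod 2) {x}))

theorem Sys_x_mem (x : Ω) : x ∈ Algebra.adjoin (ZMod 2) {x} :=
  Algebra.subset_adjoin (Set.mem_singleton x)

omit [Algebra (ZMod 2) Ω] in
theorem Sys_chi {a b : ℤˣ} (h : chi Ω a = chi Ω b) : a = b := by
  rcases Int.units_eq_one_or a with rfl | rfl <;> rcases Int.units_eq_one_or b with rfl | rfl
  · rfl
  · have h1 : ((-1 : ℤˣ) = 1) = False := by simp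
    simp [chi, h1] at h
  · have h1 : ((-1 : ℤˣ) = 1) = False := by simp
    simp [chi, h1] at h
  · rfl

theorem Sys_bsum {n : ℕ} (γ : Ω ≃ₐ[ZMod 2] Ω) (y y' : Fin n → Ω) (ρ : Equiv.Perm (Fin n))
    (h : ∀ i, γ (y i) = y' (ρ i)) : γ (bsum y) = bsum (y' ∘ ρ) := by
  unfold bsum
  rw [map_sum]
  refine Finset.sum_congr rfl fun i _ => ?_
  rw [map_sum]
  refine Finset.sum_congr rfl fun j _ => ?_
  rw [map_div₀, map_add, h, h]
  rfl

end

theorem tSys (_h0 : ResStmt) (h1 : PrmStmt) (h2 : LabStmt) (h3 : CprStmt) (h4 : TransStmt)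
    (h5 : ParStmt) : SysStmt := by
  classical
  intro n t κ ρn ρd hcls Ω _ _ x hst Q _ _ ψ hfin hsurj k act ε j₀ hε htr
  have hsc : IsSepClosed Ω := hst.sepClosed
  have h20 : (2 : Ω) = 0 := AType2.two_eq_zero Ω
  obtain ⟨c, u, δ, hu0, hcδ, hcact, huact, hδact, hcint, huint, hcpr⟩ :=
    h3 Ω x hst Q ψ hfin hsurj k act ε j₀ κ hε htr
  obtain ⟨V₁, hV₁, hxV, hdec, x₀, hx₀, hx₀B, hxx₀, ⟨P, hP, hP0, hPv⟩, -, hh⟩ :=
    h5 2 Ω x hst Q ψ hfin hsurj k act ε j₀ hε htr {0}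
  have hx₀0 : x₀ ≠ 0 := fun h6 => hx₀B (Finset.mem_singleton.2 h6)
  have hxne : x - x₀ ≠ 0 := by
    intro h6
    have h7 : x = x₀ := sub_eq_zero.mp h6
    apply hst.transc
    rw [h7]
    exact mem_algebraicClosure_iff.1 hx₀
  have hq0 : V₁.valuation (x - x₀) ≠ 0 := (Valuation.ne_zero_iff _).2 hxne
  have hγP : ∀ (γ : Gx 2 x), ∀ a ∈ Algebra.adjoin (ZMod 2) {x}, (γ : Ω ≃ₐ[ZMod 2] Ω) a = a :=
    fun γ => Int_.fixes_adjoin γ.2
  have hδx₀ : ∀ δ ∈ Gx 2 x ⊓ Dec 2 V₁, δ x₀ = x₀ := by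
    intro δ hδ
    by_contra h6
    have h7 := ResAux.val_const (sub_mem (Sys_map_cst δ hx₀) hx₀) (sub_ne_zero.2 h6) V₁
    have h8 : V₁.valuation (δ (x - x₀)) < 1 := ResAux.dec_val hδ.2 hxx₀
    rw [map_sub, mem_Gx.1 hδ.1] at h8
    have h9 : δ x₀ - x₀ = (x - x₀) - (x - δ x₀) := by ring
    rw [h9] at h7
    have h10 := lt_of_le_of_lt (V₁.valuation.map_sub (x - x₀) (x - δ x₀)) (max_lt hxx₀ h8)
    rw [h7] at h10
    exact lt_irrefl _ h10
  obtain ⟨h, hhi, hhact, hhv, hhv'⟩ := hh x₀⁻¹ (inv_mem hx₀) (fun δ hδ => by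
    rw [map_inv₀, hδx₀ δ hδ])
  have hψ1 : ∀ (f : Fin k → Ω), (∀ (γ : Gx 2 x) (j : Fin k),
      (γ : Ω ≃ₐ[ZMod 2] Ω) (f j) = f (act (ψ γ) j)) → ∀ γ : Gx 2 x, ψ γ = 1 →
      (γ : Ω ≃ₐ[ZMod 2] Ω) (f j₀) = f j₀ := by
    intro f hf γ hγ
    rw [hf, hγ, map_one]
    rfl
  obtain ⟨U, hU, T, hT, hUT⟩ := h4 n t Ω x hst Q ψ hfin hsurj (h j₀) (c j₀) (u j₀) P
    (hψ1 h hhact) (hψ1 c hcact) (hψ1 u huact) hP hP0 (hu0 j₀)
  set τ : Ω := x + P ^ 2 * U with hτ
  set e : Fin k → Ω := fun j => 1 + (h j + P * T) * τ with he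
  obtain ⟨hτj0, hej0, hy₀⟩ := hUT τ (e j₀) rfl rfl
  have hPU : τ ∈ Algebra.adjoin (ZMod 2) {x} :=
    add_mem (Sys_x_mem x) (mul_mem (pow_mem hP 2) hU)
  have hPT : P * T ∈ Algebra.adjoin (ZMod 2) {x} := mul_mem hP hT
  have hτint : IsIntegral (Algebra.adjoin (ZMod 2) {x}) τ := Sys_int_adj hPU
  have heact : ∀ (γ : Gx 2 x) (j : Fin k), (γ : Ω ≃ₐ[ZMod 2] Ω) (e j) = e (act (ψ γ) j) := by
    intro γ j
    simp only [he]
    rw [map_add, map_one, map_mul, map_add, hhact, hγP γ _ hPT, hγP γ _ hPU]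
  have heint : ∀ j, IsIntegral (Algebra.adjoin (ZMod 2) {x}) (e j) := by
    intro j
    simp only [he]
    exact isIntegral_one.add (((hhi j).add (Sys_int_adj hPT)).mul hτint)
  have hene : ∀ j, e j ≠ 0 := by
    intro j
    obtain ⟨q, hq⟩ := htr j
    obtain ⟨γ, hγ⟩ := hsurj q
    rw [← hq, ← hγ, ← heact, Ne, map_eq_zero]
    exact hej0
  choose y hyinj hyfac hyb using fun j => h2 n t κ ρn ρd hcls Ω (e j) τ (c j) (u j) (δ j)
    (hene j) (hu0 j) (hcδ j)
  have hP1 : V₁.valuation P < 1 := lt_of_le_of_lt hPv hxx₀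
  have hadj : ∀ a ∈ Algebra.adjoin (ZMod 2) {x}, V₁.valuation a ≤ 1 := fun a ha =>
    (V₁.valuation_le_one_iff a).2 (Int_.adjoin_sub hxV a ha)
  have hPTv : V₁.valuation (P * T) < 1 := by
    rw [map_mul]
    exact mul_lt_one_of_lt_of_le hP1 (hadj T hT)
  have hτv : V₁.valuation (τ - x₀) = V₁.valuation (x - x₀) := by
    have h6 : τ - x₀ = (x - x₀) + P ^ 2 * U := by
      rw [hτ]
      ring
    rw [h6]
    apply Valuation.map_add_eq_of_lt_left
    rw [map_mul, map_pow, pow_two]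
    calc V₁.valuation P * V₁.valuation P * V₁.valuation U
        ≤ V₁.valuation P * V₁.valuation P := mul_le_of_le_one_right zero_le (hadj U hU)
      _ ≤ V₁.valuation (x - x₀) * V₁.valuation P := mul_le_mul_left hPv _
      _ < V₁.valuation (x - x₀) := mul_lt_of_lt_one_right (zero_lt_iff.2 hq0) hP1
  have hτV : V₁.valuation τ ≤ 1 := hadj τ hPU
  refine ⟨V₁, e, fun _ => τ, c, u, y, ?_⟩
  exact
    { he := heact
      hτ := fun γ _ => hγP γ _ hPU
      hc := hcact
      hu := huact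
      ne := hene
      inte := heint
      intτ := fun _ => hτint
      intc := hcint
      intu := huint
      unit := by
        intro V hV j hj
        have h6 : V.valuation τ ≤ 1 :=
          (V.valuation_le_one_iff _).2 (Int_.integral_mem hV hτint)
        have h7 : V.valuation (h j + P * T) ≤ 1 :=
          (V.valuation_le_one_iff _).2 (Int_.integral_mem hV ((hhi j).add (Sys_int_adj hPT)))
        by_contra h8
        have h9 : V.valuation ((h j + P * T) * τ) < 1 := by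
          rw [map_mul, mul_comm]
          exact mul_lt_one_of_lt_of_le (lt_of_le_of_ne h6 h8) h7
        have h10 : V.valuation (e j) = 1 := by
          simp only [he]
          rw [Valuation.map_add_eq_of_lt_left, map_one]
          rw [map_one]
          exact h9
        exact absurd h10 hj.ne
      cpr := hcpr
      inj := hyinj
      fac := hyfac
      sgn := by
        intro γ j ρ hρ
        have e1 : (γ : Ω ≃ₐ[ZMod 2] Ω) (bsum (y j)) =
            bsum (y (act (ψ γ) j)) + chi Ω (Equiv.Perm.sign ρ) := by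
          rw [Sys_bsum _ (y j) (y (act (ψ γ) j)) ρ hρ]
          exact h1 n Ω (y (act (ψ γ) j)) ρ (hyinj _)
        have e2 : (γ : Ω ≃ₐ[ZMod 2] Ω) (bsum (y j)) =
            bsum (y (act (ψ γ) j)) + chi Ω (ε (ψ γ) j) := by
          rw [hyb j, hyb (act (ψ γ) j), map_add, map_add, map_div₀, map_pow, map_add, map_one,
            hcact, huact, hδact, map_sum]
          have e3 : ∀ i, (γ : Ω ≃ₐ[ZMod 2] Ω) (aeval (y j i) ρn / aeval (y j i) ρd) =
              aeval (y (act (ψ γ) j) (ρ i)) ρn / aeval (y (act (ψ γ) j) (ρ i)) ρd := by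
            intro i
            rw [map_div₀, ← hρ i, Polynomial.aeval_algHom_apply, Polynomial.aeval_algHom_apply]
          rw [Finset.sum_congr rfl fun i _ => e3 i,
            Equiv.sum_comp ρ (fun i => aeval (y (act (ψ γ) j) i) ρn /
              aeval (y (act (ψ γ) j) i) ρd)]
          ring
        rw [e1] at e2
        exact Sys_chi (add_left_cancel e2)
      top := hV₁
      mem := hxV
      dec := hdec
      e₀ := by
        have h6 : e j₀ = (h j₀ - x₀⁻¹) * τ + P * T * τ + (τ - x₀) * x₀⁻¹ := by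
          simp only [he]
          have h7 : (τ - x₀) * x₀⁻¹ = τ * x₀⁻¹ + 1 := by
            have h8 : x₀ * x₀⁻¹ = 1 := mul_inv_cancel₀ hx₀0
            linear_combination -h8 - h20
          rw [h7]
          ring
        rw [h6]
        have h7 : V₁.valuation ((h j₀ - x₀⁻¹) * τ) < 1 := by
          rw [map_mul]
          exact mul_lt_one_of_lt_of_le hhv hτV
        have h8 : V₁.valuation (P * T * τ) < 1 := by
          rw [map_mul]
          exact mul_lt_one_of_lt_of_le hPTv hτV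
        have h9 : V₁.valuation ((τ - x₀) * x₀⁻¹) < 1 := by
          rw [map_mul, map_inv₀, ResAux.val_const hx₀ hx₀0, inv_one, mul_one, hτv]
          exact hxx₀
        exact lt_of_le_of_lt (V₁.valuation.map_add _ _)
          (max_lt (lt_of_le_of_lt (V₁.valuation.map_add _ _) (max_lt h7 h8)) h9)
      e₁ := by
        intro j hj
        have h6 : V₁.valuation ((h j + P * T) * τ) < 1 := by
          rw [map_mul]
          exact mul_lt_one_of_lt_of_le
            (lt_of_le_of_lt (V₁.valuation.map_add _ _) (max_lt (hhv' j hj) hPTv)) hτV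
        simp only [he]
        rw [Valuation.map_add_eq_of_lt_left, map_one]
        rw [map_one]
        exact h6
      res := ⟨x₀, hx₀, hxx₀, x₀, hx₀, hτv⟩
      tr2 := hy₀ (y j₀) (hyfac j₀) }

end MP7Z.A2
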