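import Pool.Agent.Lib.MP_7f581e_Z.Alt2.Spec

/-!
# Alternating step in characteristic two, module Trans
-/

namespace MP7Z.A2

open Polynomial MP7Z MP7fS

namespace TransM

/-- The elements fixed by the kernel of `ψ`. -/
def fixL {p : ℕ} [Fact p.Prime] {Ω : Type} [Field Ω] [Algebra (ZMod p) Ω] {x : Ω}
    {Q : Type} [Group Q] (ψ : Gx p x →* Q) : IntermediateField (ZMod p) Ω where
  carrier := {a | ∀ γ : Gx p x, ψ γ = 1 → (γ : Ω ≃ₐ[ZMod p] Ω) a = a}
  mul_mem' := by
    intro a b ha hb γ hγ
    rw [map_mul, ha γ hγ, hb γ hγ]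
  add_mem' := by
    intro a b ha hb γ hγ
    rw [map_add, ha γ hγ, hb γ hγ]
  algebraMap_mem' := by
    intro r γ _
    exact AlgEquiv.commutes _ r
  inv_mem' := by
    intro a ha γ hγ
    rw [map_inv₀, ha γ hγ]

theorem mem_fixL {p : ℕ} [Fact p.Prime] {Ω : Type} [Field Ω] [Algebra (ZMod p) Ω] {x : Ω}
    {Q : Type} [Group Q] (ψ : Gx p x →* Q) (a : Ω) :
    a ∈ fixL ψ ↔ ∀ γ : Gx p x, ψ γ = 1 → (γ : Ω ≃ₐ[ZMod p] Ω) a = a := Iff.rfl

/-- An algebraically closed field with two algebraically independent elements. -/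
theorem exists_N (Ω : Type) [Field Ω] : ∃ (N : Type) (_ : Field N) (_ : Algebra Ω N)
    (_ : IsAlgClosed N) (U T : N), AlgebraicIndependent Ω ![U, T] ∧
      Algebra.IsAlgebraic (IntermediateField.adjoin Ω {U, T}) N := by
  let R := MvPolynomial (Fin 2) Ω
  let F := FractionRing R
  let N := AlgebraicClosure F
  let φ : R →ₐ[Ω] N := (IsScalarTower.toAlgHom Ω F N).comp (IsScalarTower.toAlgHom Ω R F)
  have hφ : Function.Injective φ := by
    have h1 : Function.Injective (algebraMap F N) := (algebraMap F N).injective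
    have h2 : Function.Injective (algebraMap R F) := IsFractionRing.injective R F
    exact h1.comp h2
  let U : N := φ (MvPolynomial.X 0)
  let T : N := φ (MvPolynomial.X 1)
  have hUT : (φ ∘ MvPolynomial.X : Fin 2 → N) = ![U, T] := by
    funext i
    fin_cases i <;> rfl
  refine ⟨N, inferInstance, inferInstance, inferInstance, U, T, ?_, ?_⟩
  · rw [← hUT]
    exact (MvPolynomial.algebraicIndependent_X (Fin 2) Ω).map' hφ
  · let K : IntermediateField Ω N := IntermediateField.adjoin Ω {U, T}
    have hR : ∀ a : R, φ a ∈ K := by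
      intro a
      induction a using MvPolynomial.induction_on with
      | C r =>
        have h : φ (MvPolynomial.C r) = algebraMap Ω N r := φ.commutes r
        rw [h]
        exact K.algebraMap_mem r
      | add a b ha hb =>
        rw [map_add]
        exact K.add_mem ha hb
      | mul_X a i ha =>
        rw [map_mul]
        refine K.mul_mem ha ?_
        fin_cases i
        · exact IntermediateField.subset_adjoin Ω _ (Set.mem_insert _ _)
        · exact IntermediateField.subset_adjoin Ω _ (Set.mem_insert_of_mem _ rfl)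
    have hF : ∀ a : F, algebraMap F N a ∈ K := by
      intro a
      obtain ⟨r, s, hs⟩ := IsFractionRing.div_surjective (A := R) a
      rw [← hs.2, map_div₀]
      exact K.div_mem (hR r) (hR s)
    let i : F →+* K := (algebraMap F N).codRestrict K hF
    let _ : Algebra F K := i.toAlgebra
    have : IsScalarTower F K N := IsScalarTower.of_algebraMap_eq (fun _ => rfl)
    have h0 : Algebra.IsAlgebraic F N := inferInstance
    exact Algebra.IsAlgebraic.tower_top (K := F) K

/-- Algebraicity over the smaller field. -/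
theorem alg_N {p : ℕ} [Fact p.Prime] {Ω : Type} [Field Ω] [Algebra (ZMod p) Ω]
    (L : IntermediateField (ZMod p) Ω) [Algebra.IsAlgebraic L Ω]
    (N : Type) [Field N] [Algebra Ω N] (U T : N)
    (h : Algebra.IsAlgebraic (IntermediateField.adjoin Ω {U, T}) N) :
    Algebra.IsAlgebraic (IntermediateField.adjoin L {U, T}) N := by
  let K₁ : IntermediateField L N := IntermediateField.adjoin L {U, T}
  let K₂ : IntermediateField K₁ N := algebraicClosure K₁ N
  have hΩ : ∀ a : Ω, algebraMap Ω N a ∈ K₂ := by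
    intro a
    have h1 : IsAlgebraic L a := Algebra.IsAlgebraic.isAlgebraic a
    have h2 : IsAlgebraic L (algebraMap Ω N a) := h1.algebraMap
    exact mem_algebraicClosure_iff.2 (h2.tower_top K₁)
  have hK₁ : ∀ a : K₁, (a : N) ∈ K₂ := fun a => K₂.algebraMap_mem a
  have hU : U ∈ K₂ := hK₁ ⟨U, IntermediateField.subset_adjoin L _ (Set.mem_insert _ _)⟩
  have hT : T ∈ K₂ := hK₁ ⟨T, IntermediateField.subset_adjoin L _ (Set.mem_insert_of_mem _ rfl)⟩
  let K₃ : IntermediateField Ω N :=
    { K₂.toSubfield with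
      algebraMap_mem' := hΩ }
  have hle : IntermediateField.adjoin Ω {U, T} ≤ K₃ := by
    rw [IntermediateField.adjoin_le_iff]
    rintro z (rfl | hz)
    · exact hU
    · rw [Set.mem_singleton_iff] at hz
      rw [hz]
      exact hT
  let i : (IntermediateField.adjoin Ω {U, T}) →+* K₂ :=
    (algebraMap (IntermediateField.adjoin Ω {U, T}) N).codRestrict K₂ (fun a => hle a.2)
  let _ : Algebra (IntermediateField.adjoin Ω {U, T}) K₂ := i.toAlgebra
  have : IsScalarTower (IntermediateField.adjoin Ω {U, T}) K₂ N :=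
    IsScalarTower.of_algebraMap_eq (fun _ => rfl)
  have h1 : Algebra.IsAlgebraic K₂ N :=
    Algebra.IsAlgebraic.tower_top (K := IntermediateField.adjoin Ω {U, T}) K₂
  exact Algebra.IsAlgebraic.trans K₁ K₂ N

/-- `Ω` is algebraic over every intermediate field containing `x`. -/
theorem alg_L {p : ℕ} [Fact p.Prime] {Ω : Type} [Field Ω] [Algebra (ZMod p) Ω] {x : Ω}
    (hst : IsStage p x) (L : IntermediateField (ZMod p) Ω) (hx : x ∈ L) :
    Algebra.IsAlgebraic L Ω := by
  have hsep := hst.sep
  have hle : IntermediateField.adjoin (ZMod p) {x} ≤ L := by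
    rw [IntermediateField.adjoin_simple_le_iff]
    exact hx
  let _ : Algebra (IntermediateField.adjoin (ZMod p) {x}) L :=
    (IntermediateField.inclusion hle).toAlgebra
  have : IsScalarTower (IntermediateField.adjoin (ZMod p) {x}) L Ω :=
    IsScalarTower.of_algebraMap_eq (fun _ => rfl)
  have h0 : Algebra.IsAlgebraic (IntermediateField.adjoin (ZMod p) {x}) Ω := inferInstance
  exact Algebra.IsAlgebraic.tower_top (K := IntermediateField.adjoin (ZMod p) {x}) L

/-- Labelled roots of a separable polynomial over an algebraically closed field. -/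
theorem exists_roots {N : Type} [Field N] [IsAlgClosed N] {f : N[X]} {n : ℕ}
    (hn : f.natDegree = n) : ∃ η : Fin n → N, f = C f.leadingCoeff * ∏ i, (X - C (η i)) := by
  subst hn
  have hsp : f.Splits := IsAlgClosed.splits f
  have hcard : Multiset.card f.roots = f.natDegree := by
    exact hsp.natDegree_eq_card_roots.symm
  obtain ⟨l, hl⟩ := Quotient.exists_rep f.roots
  have hl' : (l : Multiset N) = f.roots := hl
  have hlen : l.length = f.natDegree := by
    rw [← hcard, ← hl']
    rfl
  refine ⟨fun i => l.get (Fin.cast hlen.symm i), ?_⟩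
  have h1 : f = C f.leadingCoeff * (f.roots.map (fun a => X - C a)).prod := by
    exact (C_leadingCoeff_mul_prod_multiset_X_sub_C hcard).symm
  have h2 : (f.roots.map (fun a => X - C a)).prod =
      ∏ i : Fin f.natDegree, (X - C (l.get (Fin.cast hlen.symm i))) := by
    rw [← hl', Multiset.map_coe, Multiset.prod_coe]
    rw [← Equiv.prod_comp (finCongr hlen) (fun i : Fin f.natDegree =>
      (X - C (l.get (Fin.cast hlen.symm i))))]
    have h3 : (l.map (fun a => (X - C a : N[X]))) =
        List.ofFn (fun i : Fin l.length => (X - C (l.get i) : N[X])) := by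
      apply List.ext_getElem
      · simp
      · intro i h4 h5
        simp
    rw [h3, List.prod_ofFn]
    rfl
  rw [← h2]
  exact h1

theorem inj_of_sep {F : Type} [Field F] {f : F[X]} (hf : f.Separable) {n : ℕ} {c : F}
    {η : Fin n → F} (h : f = C c * ∏ i, (X - C (η i))) : Function.Injective η := by
  rw [h] at hf
  exact (separable_prod_X_sub_C_iff).1 hf.of_mul_right

theorem exists_root {F : Type} [Field F] {n : ℕ} {c : F} (hc : c ≠ 0) {η : Fin n → F} {a : F}
    (h : (C c * ∏ i, (X - C (η i))).eval a = 0) : ∃ i, a = η i := by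
  rw [eval_mul, eval_C, mul_eq_zero, eval_prod] at h
  rcases h with h | h
  · exact absurd h hc
  · obtain ⟨i, _, hi⟩ := Finset.prod_eq_zero_iff.1 h
    refine ⟨i, ?_⟩
    rw [eval_sub, eval_X, eval_C, sub_eq_zero] at hi
    exact hi

theorem root_self {F : Type} [Field F] {n : ℕ} {c : F} {η : Fin n → F} (i : Fin n) :
    (C c * ∏ i, (X - C (η i))).eval (η i) = 0 := by
  rw [eval_mul, eval_prod]
  have h : ∏ j, (X - C (η j)).eval (η i) = 0 := by
    apply Finset.prod_eq_zero (Finset.mem_univ i)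
    rw [eval_sub, eval_X, eval_C, sub_self]
  rw [h, mul_zero]

/-- An automorphism fixing the polynomial permutes the labelled roots. -/
theorem exists_perm {F : Type} [Field F] {n : ℕ} {c : F} (hc : c ≠ 0) {η : Fin n → F}
    (hη : Function.Injective η) (f : F[X]) (hf : f = C c * ∏ i, (X - C (η i))) (σ : F →+* F)
    (hσ : f.map σ = f) : ∃ π : Equiv.Perm (Fin n), ∀ i, σ (η i) = η (π i) := by
  have h : ∀ i, ∃ j, σ (η i) = η j := by
    intro i
    have h1 : f.eval (η i) = 0 := by
      rw [hf]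
      exact root_self i
    have h2 : f.eval (σ (η i)) = 0 := by
      have h3 : (f.map σ).eval (σ (η i)) = σ (f.eval (η i)) := by
        rw [eval_map, eval₂_hom]
      rw [← hσ, h3, h1, map_zero]
    rw [hf] at h2
    exact exists_root hc h2
  choose g hg using h
  have hinj : Function.Injective g := by
    intro a b hab
    apply hη
    apply σ.injective
    rw [hg a, hg b, hab]
  exact ⟨Equiv.ofBijective g (Finite.injective_iff_bijective.1 hinj), fun i => by
    rw [hg i]
    rfl⟩

end TransM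

open TransM in
theorem tTrans (h0 : SepStmt) (h1 : GenTStmt) (h2 : MP7Z.HilbStmt) : TransStmt := by
  intro n t Ω _ _ x hst Q _ _ ψ hψ hsur h c u P hh hc hu hP hP0 hu0
  let L : IntermediateField (ZMod 2) Ω := fixL ψ
  have hxL : x ∈ L := fun γ _ => mem_Gx.1 γ.2
  have halg : Algebra.IsAlgebraic L Ω := alg_L hst L hxL
  have hPL : P ∈ L := by
    have hle : Algebra.adjoin (ZMod 2) {x} ≤ L.toSubalgebra := by
      rw [Algebra.adjoin_le_iff, Set.singleton_subset_iff]
      exact hxL
    exact hle hP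
  obtain ⟨N, _, _, _, U, T, hUT, hN⟩ := exists_N Ω
  let _ : Algebra (ZMod 2) N := ((algebraMap Ω N).comp (algebraMap (ZMod 2) Ω)).toAlgebra
  have : IsScalarTower (ZMod 2) Ω N := IsScalarTower.of_algebraMap_eq (fun _ => rfl)
  have htow : IsScalarTower (ZMod 2) L N := IsScalarTower.of_algebraMap_eq (fun _ => rfl)
  have hUTL : AlgebraicIndependent L ![U, T] :=
    AlgebraicIndependent.restrictScalars (R := L) (K := Ω) (algebraMap L Ω).injective hUT
  have hNL : Algebra.IsAlgebraic (IntermediateField.adjoin L {U, T}) N := alg_N L N U T hN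
  let xL : L := ⟨x, hxL⟩
  let hL : L := ⟨h, hh⟩
  let cL : L := ⟨c, hc⟩
  let uL : L := ⟨u, hu⟩
  let PL : L := ⟨P, hPL⟩
  have hPL0 : PL ≠ 0 := fun h3 => hP0 (congrArg Subtype.val h3)
  have huL0 : uL ≠ 0 := fun h3 => hu0 (congrArg Subtype.val h3)
  let τA : MvPolynomial (Fin 2) L :=
    MvPolynomial.C xL + MvPolynomial.C PL ^ 2 * MvPolynomial.X 0
  let eA : MvPolynomial (Fin 2) L :=
    1 + (MvPolynomial.C hL + MvPolynomial.C PL * MvPolynomial.X 1) * τA
  have hτA : τA ≠ 0 := by
    intro h3
    have h5 := congrArg (MvPolynomial.eval ![(1 - xL) / PL ^ 2, 0]) h3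
    simp only [τA, map_add, map_mul, map_pow, MvPolynomial.eval_C, MvPolynomial.eval_X,
      Matrix.cons_val_zero, map_zero] at h5
    have h6 : xL + PL ^ 2 * ((1 - xL) / PL ^ 2) = 1 := by
      field_simp
      ring
    rw [h6] at h5
    exact one_ne_zero h5
  have heA : eA ≠ 0 := by
    intro h3
    have h5 := congrArg (MvPolynomial.eval ![0, -hL / PL]) h3
    simp only [eA, map_add, map_mul, map_one, MvPolynomial.eval_C, MvPolynomial.eval_X,
      Matrix.cons_val_one, map_zero] at h5
    have h6 : hL + PL * (-hL / PL) = 0 := by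
      field_simp
      ring
    rw [Matrix.cons_val_zero, h6, zero_mul, add_zero] at h5
    exact one_ne_zero h5
  let evN : MvPolynomial (Fin 2) L →+* N :=
    MvPolynomial.eval₂Hom ((algebraMap Ω N).comp (algebraMap L Ω)) ![U, T]
  have hevN : Function.Injective evN := by
    have h3 : Function.Injective (MvPolynomial.aeval ![U, T] : MvPolynomial (Fin 2) L →ₐ[L] N) :=
      hUTL
    exact h3
  have hevC : ∀ a : L, evN (MvPolynomial.C a) = algebraMap Ω N a := fun a =>
    MvPolynomial.eval₂Hom_C _ _ _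
  have hev0 : evN (MvPolynomial.X 0) = U := MvPolynomial.eval₂Hom_X' _ _ _
  have hev1 : evN (MvPolynomial.X 1) = T := MvPolynomial.eval₂Hom_X' _ _ _
  -- the parameters over `N`
  let τN : N := evN τA
  let eN : N := evN eA
  let cN : N := algebraMap L N cL
  let uN : N := algebraMap L N uL
  have hτN0 : τN ≠ 0 := fun h3 => hτA (hevN (by rw [map_zero]; exact h3))
  have heN0 : eN ≠ 0 := fun h3 => heA (hevN (by rw [map_zero]; exact h3))
  have huN0 : uN ≠ 0 := fun h3 => huL0 ((algebraMap L N).injective (by rw [map_zero]; exact h3))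
  have hτN : τN = algebraMap L N xL + algebraMap L N PL ^ 2 * U := by
    change evN (MvPolynomial.C xL + MvPolynomial.C PL ^ 2 * MvPolynomial.X 0) = _
    rw [map_add, map_mul, map_pow, hevC, hevC, hev0]
    rfl
  have heN : eN = 1 + (algebraMap L N hL + algebraMap L N PL * T) * τN := by
    change evN eA = _
    simp only [eA, map_add, map_mul, map_one]
    rw [hevC, hevC, hev1]
    rfl
  let fN : N[X] := t.f eN τN cN uN
  have hsepN : fN.Separable := h0 n t N eN τN cN uN huN0
  have hdegN : fN.natDegree = n := t.natDegree_f heN0 τN cN uN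
  obtain ⟨η, hη⟩ := exists_roots hdegN
  have hlead : fN.leadingCoeff = eN ^ 12 := t.leadingCoeff_f heN0 τN cN uN
  rw [hlead] at hη
  have hηinj : Function.Injective η := inj_of_sep hsepN hη
  have hcN : eN ^ 12 ≠ 0 := pow_ne_zero _ heN0
  -- Hilbert
  let g : (MvPolynomial (Fin 2) L)[X] := t.f eA τA (MvPolynomial.C cL) (MvPolynomial.C uL)
  have hgN : g.map evN = fN := by
    change (t.f eA τA (MvPolynomial.C cL) (MvPolynomial.C uL)).map evN = _
    rw [t.map_f, hevC, hevC]
    rfl
  obtain ⟨a₁, ha₁, a₂, ha₂, hH⟩ := h2 2 Ω x hst Q ψ hψ hsur L (fun a => mem_fixL ψ a) N U T hUT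
    hN n g (eA ^ 12) τA η evN rfl hηinj (pow_ne_zero _ heA) hτA (by
      rw [hgN, map_pow]
      exact hη)
  refine ⟨a₁, ha₁, a₂, ha₂, ?_⟩
  intro τ e hτ he
  let ev : MvPolynomial (Fin 2) L →+* Ω := MvPolynomial.eval₂Hom (algebraMap L Ω) ![a₁, a₂]
  obtain ⟨hℓ, hcc, y', hy', hσ⟩ := hH ev rfl
  have hC : ∀ a : L, ev (MvPolynomial.C a) = (a : Ω) := fun a => MvPolynomial.eval₂Hom_C _ _ _
  have hX0 : ev (MvPolynomial.X 0) = a₁ := MvPolynomial.eval₂Hom_X' _ _ _
  have hX1 : ev (MvPolynomial.X 1) = a₂ := MvPolynomial.eval₂Hom_X' _ _ _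
  have hevτ : ev τA = τ := by
    change ev (MvPolynomial.C xL + MvPolynomial.C PL ^ 2 * MvPolynomial.X 0) = _
    rw [map_add, map_mul, map_pow, hC, hC, hX0, hτ]
  have heve : ev eA = e := by
    simp only [eA, map_add, map_mul, map_one]
    rw [hC, hC, hX1, hevτ, he]
  have hτ0 : τ ≠ 0 := by
    rw [← hevτ]
    exact hcc
  have he0 : e ≠ 0 := by
    intro h3
    apply hℓ
    rw [map_pow, heve, h3, zero_pow (by norm_num)]
  refine ⟨hτ0, he0, ?_⟩
  intro y hy
  have hcΩ : e ^ 12 ≠ 0 := pow_ne_zero _ he0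
  have hsep : (t.f e τ c u).Separable := h0 n t Ω e τ c u hu0
  have hyinj : Function.Injective y := inj_of_sep hsep hy
  have hfy' : t.f e τ c u = C (e ^ 12) * ∏ i, (X - C (y' i)) := by
    have h4 : g.map ev = t.f e τ c u := by
      change (t.f eA τA (MvPolynomial.C cL) (MvPolynomial.C uL)).map ev = _
      rw [t.map_f, hC, hC, hevτ, heve]
    rw [← h4, hy', map_pow, heve]
  have hy'ex : ∀ i, ∃ a, y i = y' a := by
    intro i
    have h4 : (t.f e τ c u).eval (y i) = 0 := by
      rw [hy]
      exact root_self i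
    rw [hfy'] at h4
    exact exists_root hcΩ h4
  choose a ha using hy'ex
  have hainj : Function.Injective a := by
    intro i j hij
    apply hyinj
    rw [ha i, ha j, hij]
  -- every automorphism of `N` over `L` fixing `U`, `T` descends
  have key : ∀ σ : N ≃ₐ[L] N, σ U = U → σ T = T →
      ∃ (π : Equiv.Perm (Fin n)) (γ : Gx 2 x), (∀ i, σ (η i) = η (π i)) ∧ ψ γ = 1 ∧
        ∀ i, (γ : Ω ≃ₐ[ZMod 2] Ω) (y' i) = y' (π i) := by
    intro σ hσU hσT
    have hτσ : σ τN = τN := by
      rw [hτN, map_add, map_mul, map_pow, σ.commutes, σ.commutes, hσU]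
    have heσ : σ eN = eN := by
      rw [heN, map_add, map_mul, map_add, map_mul, map_one, σ.commutes, σ.commutes, hσT, hτσ]
    have hcσ : σ cN = cN := σ.commutes cL
    have huσ : σ uN = uN := σ.commutes uL
    have hfσ : fN.map (σ : N →+* N) = fN := by
      change (t.f eN τN cN uN).map (σ : N →+* N) = _
      rw [t.map_f]
      change t.f (σ eN) (σ τN) (σ cN) (σ uN) = _
      rw [hτσ, heσ, hcσ, huσ]
    obtain ⟨π, hπ⟩ := exists_perm hcN hηinj fN hη (σ : N →+* N) hfσ
    obtain ⟨γ, hγ1, hγ2⟩ := hσ (σ : N ≃+* N) (fun b => σ.commutes b) hσU hσT π hπ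
    exact ⟨π, γ, hπ, hγ1, hγ2⟩
  intro i i' l l' hi hl
  obtain ⟨σ, hσU, hσT, hσi, hσi'⟩ := h1 n t L N U T hUTL hNL xL hL cL uL PL hPL0 huL0 τN eN
    hτN heN η hηinj hη (a i) (a i') (a l) (a l')
    (fun h4 => hi (hainj h4)) (fun h4 => hl (hainj h4))
  obtain ⟨π, γ, hπ, hγ1, hγ2⟩ := key σ hσU hσT
  refine ⟨γ, hγ1, ?_, ?_⟩
  · have h4 : π (a i) = a l := hηinj (by rw [← hπ, hσi])
    rw [ha i, hγ2, h4, ha l]
  · have h4 : π (a i') = a l' := hηinj (by rw [← hπ, hσi'])
    rw [ha i', hγ2, h4, ha l']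

end MP7Z.A2
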