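import Pool.Agent.Lib.MP_7f581e_Z.Alt2.Spec

/-!
# Alternating step in characteristic two: degrees `1` modulo four
-/

namespace MP7Z.A2

open Polynomial MP7Z

theorem Ty1_two : (2 : (ZMod 2)[X]) = 0 := by
  have h : ((2 : ℕ) : (ZMod 2)[X]) = 0 := CharP.cast_eq_zero _ 2
  exact_mod_cast h

theorem Ty1_key {F : Type} [Field F] (m : ℕ) {ζ : F} (hζ : ζ ≠ 0) :
    (ζ ^ 4) ^ m * (ζ⁻¹ ^ 4 + 1) ^ m = (1 + ζ ^ 4) ^ m := by
  rw [← mul_pow]
  congr 1
  field_simp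

theorem Ty1_fam {F : Type} [Field F] [Algebra (ZMod 2) F] (m : ℕ) (e τ c u : F) :
    famF X (X ^ 3) (X ^ 2 + 1) m e τ c u = C (e ^ 12) * (X * (X ^ 4 + 1) ^ (m + 1)) +
      X * ((X ^ 4 + 1) ^ m * C τ + C (u + c)) + C c * X ^ 3 + (X ^ 2 + 1) := by
  have h2 : (1 + 1 : F) = 0 := by
    have := AType2.two_eq_zero F
    linear_combination this
  rw [famF, famB]
  have e1 : (eval 1 (X ^ 3 : (ZMod 2)[X])) = 1 := by simp
  have e2 : (eval 1 (X ^ 2 + 1 : (ZMod 2)[X])) = 1 + 1 := by simp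
  rw [e1, e2]
  simp only [Polynomial.map_one, Polynomial.map_pow, map_X, Polynomial.map_add, map_one, map_add,
    h2, mul_one, add_zero]
  ring

theorem tTy1 : Ty1Stmt := by
  intro m hm
  refine ⟨{
    V := X
    V₁ := X
    V₂ := X ^ 3
    W := X ^ 2 + 1
    D := 1
    η := 0
    m := m
    r := 4 * m + 3
    s := 4 * m + 2
    hn := by
      rw [natDegree_X]
      ring
    hm := by omega
    hV := monic_X
    hV₁ := monic_X
    V_one := eval_X
    V₁_one := eval_X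
    keyV₁ := by
      rw [derivative_mul, derivative_X]
      linear_combination X * Ty1_two
    keyV₂ := by
      rw [← pow_succ', derivative_X_pow, show ((3 + 1 : ℕ) : ZMod 2) = 0 from rfl, C_0, zero_mul]
    keyW := by
      rw [derivative_mul, derivative_add, derivative_X_pow, derivative_X, derivative_one,
        show ((2 : ℕ) : ZMod 2) = 0 from rfl, C_0]
      linear_combination (-X) * Ty1_two
    dvd₁ := dvd_rfl
    dvd₂ := dvd_pow_self _ (by norm_num)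
    dvdk := ⟨1, by rw [pow_one]⟩
    cop := ⟨-X, 1, by ring⟩
    degV₂ := by
      rw [natDegree_X_pow]
      omega
    degW := by
      have h : (X ^ 2 + 1 : (ZMod 2)[X]).natDegree ≤ 2 := by compute_degree
      omega
    dbl := ?_
    odd_r := ⟨2 * m + 1, by ring⟩
    le_r := by omega
    even_s := ⟨2 * m + 1, by ring⟩
    le_s := by omega
    hrs := by omega
    D_zero := eval_one
    inf := ?_ }, rfl, rfl, rfl, rfl⟩
  · intro F _ _ e τ c h
    rw [Ty1_fam] at h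
    have h2 : (2 : F[X]) = 0 := by
      rw [← C_ofNat, AType2.two_eq_zero, C_0]
    have hX : (X - C 1 : F[X]) ^ 4 = X ^ 4 + 1 := by
      rw [C_1]
      linear_combination (3 * X ^ 2 - 2 * X ^ 3 - 2 * X) * h2
    have h2F := AType2.two_eq_zero F
    have h3 : (X - C 1 : F[X]) ^ 3 ∣ X ^ 4 + 1 := by
      rw [← hX]
      exact pow_dvd_pow _ (by norm_num)
    have h4 : (X - C 1 : F[X]) ^ 3 ∣ (X ^ 4 + 1) ^ m := h3.trans (dvd_pow_self _ (by omega))
    have h5 : (X - C 1 : F[X]) ^ 3 ∣ (X ^ 4 + 1) ^ (m + 1) := h3.trans (dvd_pow_self _ (by omega))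
    have h6 : (X - C 1 : F[X]) ^ 3 ∣ (X - C 1) ^ 2 * (C c * X + 1) := by
      have h7 := dvd_sub h (dvd_add ((h5.mul_left X).mul_left (C (e ^ 12)))
        ((h4.mul_right (C τ)).mul_left X))
      refine h7.trans (dvd_of_eq ?_)
      rw [C_1, C_add, C_0]
      linear_combination (C c * (X : F[X]) ^ 2 + X) * h2
    obtain ⟨Q, hQ⟩ := h6
    have h8 : C c * X + 1 = (X - C 1) * Q := by
      apply mul_left_cancel₀ (pow_ne_zero 2 (X_sub_C_ne_zero (1 : F)))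
      rw [hQ]
      ring
    have h9 := congrArg (eval (1 : F)) h8
    rw [eval_add, eval_mul, eval_C, eval_X, eval_one, eval_mul, eval_sub, eval_X, eval_C,
      sub_self, zero_mul] at h9
    linear_combination h9 - h2F
  · intro F _ _ e τ c u ζ hζ
    rw [Ty1_fam]
    have hk := Ty1_key m hζ
    have hi : ζ * ζ⁻¹ = 1 := mul_inv_cancel₀ hζ
    have h1 : algebraMap (ZMod 2) F (1 ^ 3) = 1 := by rw [one_pow, map_one]
    have h2 : algebraMap (ZMod 2) F (1 ^ 2 + 1) = 0 := by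
      rw [show (1 ^ 2 + 1 : ZMod 2) = 0 from rfl, map_zero]
    simp only [eval_add, eval_mul, eval_C, eval_pow, eval_X, eval_one, map_one, natDegree_X,
      map_zero, zero_mul, add_zero, one_mul, h1, h2, aeval_X]
    have e1 : ζ ^ (4 * m + 5 + 1) = (ζ ^ 4) ^ m * ζ ^ 6 := by ring
    have e2 : ζ ^ (4 * (m + 1)) = (ζ ^ 4) ^ m * ζ ^ 4 := by ring
    have e3 : ζ ^ (4 * m + 2) = (ζ ^ 4) ^ m * ζ ^ 2 := by ring
    have e4 : ζ ^ (4 * m + 3) = (ζ ^ 4) ^ m * ζ ^ 3 := by ring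
    rw [e1, e2, e3, e4, pow_succ (ζ⁻¹ ^ 4 + 1) m]
    generalize (ζ ^ 4) ^ m = Z at *
    generalize (ζ⁻¹ ^ 4 + 1) ^ m = A at *
    generalize (1 + ζ ^ 4) ^ m = G at *
    generalize ζ⁻¹ = i at *
    linear_combination (e ^ 12 * (1 + ζ ^ 4) + τ * ζ ^ 4) * hk +
      (e ^ 12 * Z * A * ((ζ * i) ^ 5 + (ζ * i) ^ 4 + (ζ * i) ^ 3 + (ζ * i) ^ 2 + ζ * i + 1 +
          ζ ^ 4 * (ζ * i + 1)) +
        (Z * A * τ + (u + c) * Z) * ζ ^ 4 * (ζ * i + 1) +
        c * Z * ζ ^ 2 * ((ζ * i) ^ 3 + (ζ * i) ^ 2 + ζ * i + 1) +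
        Z * ζ ^ 3 * ((ζ * i) ^ 2 + ζ * i + 1) + Z * ζ ^ 5) * hi

end MP7Z.A2
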