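import Pool.Agent.Lib.MP_7f581e_Z.Alt2.Spec

/-!
# Type `2` of the family: degrees `4 m + 10`
-/

namespace MP7Z.A2

open Polynomial MP7Z

theorem X4_eq2 {F : Type} [Field F] [Algebra (ZMod 2) F] :
    ((X : F[X]) ^ 4 + 1) = (X - C 1) ^ 4 := by
  have h2 : (2 : F[X]) = 0 := by
    have := AType2.two_eq_zero F
    rw [← C_ofNat, this, C_0]
  rw [C_1]
  linear_combination (2 * (X : F[X]) ^ 3 - 3 * X ^ 2 + 2 * X) * h2

theorem dbl2 {F : Type} [Field F] [Algebra (ZMod 2) F] (V₁ V₂ W V : (ZMod 2)[X]) {m : ℕ}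
    (hm : 1 ≤ m) (e τ c : F) (h : (X - C 1) ^ 3 ∣ famF V₁ V₂ W m e τ c 0) (H : F[X])
    (hH : V.map (algebraMap (ZMod 2) F) * (V₁.map (algebraMap (ZMod 2) F) *
      C (c * algebraMap (ZMod 2) F (V₂.eval 1) + algebraMap (ZMod 2) F (W.eval 1)) +
      C c * V₂.map (algebraMap (ZMod 2) F) + W.map (algebraMap (ZMod 2) F)) =
      (X - C 1) ^ 2 * H) : H.eval 1 = 0 := by
  have h4 : (X - C (1 : F)) ^ 3 ∣ (X ^ 4 + 1) ^ m := by
    rw [X4_eq2, ← pow_mul]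
    exact pow_dvd_pow _ (by omega)
  have h5 : (X - C (1 : F)) ^ 3 ∣ (X ^ 4 + 1) ^ (m + 1) := h4.trans (pow_dvd_pow _ (by omega))
  have h6 : (X - C (1 : F)) ^ 3 ∣ V₁.map (algebraMap (ZMod 2) F) *
      C (c * algebraMap (ZMod 2) F (V₂.eval 1) + algebraMap (ZMod 2) F (W.eval 1)) +
      C c * V₂.map (algebraMap (ZMod 2) F) + W.map (algebraMap (ZMod 2) F) := by
    have e1 : V₁.map (algebraMap (ZMod 2) F) *
      C (c * algebraMap (ZMod 2) F (V₂.eval 1) + algebraMap (ZMod 2) F (W.eval 1)) +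
      C c * V₂.map (algebraMap (ZMod 2) F) + W.map (algebraMap (ZMod 2) F) =
      famF V₁ V₂ W m e τ c 0 - (C (e ^ 12) * V₁.map (algebraMap (ZMod 2) F)) *
        (X ^ 4 + 1) ^ (m + 1) - (V₁.map (algebraMap (ZMod 2) F) * C τ) * (X ^ 4 + 1) ^ m := by
      rw [famF, famB, zero_add]
      ring
    rw [e1]
    exact dvd_sub (dvd_sub h (h5.mul_left _)) (h4.mul_left _)
  have h7 : (X - C (1 : F)) ^ 2 * (X - C 1) ∣ (X - C 1) ^ 2 * H := by
    rw [← hH, ← pow_succ]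
    exact h6.mul_left _
  have h8 : (X - C (1 : F)) ∣ H :=
    (mul_dvd_mul_iff_left (pow_ne_zero 2 (X_sub_C_ne_zero 1))).1 h7
  rwa [dvd_iff_isRoot] at h8

theorem tTy2 : Ty2Stmt := by
  intro m hm
  have h2 : (2 : (ZMod 2)[X]) = 0 := by
    rw [← C_ofNat, show (OfNat.ofNat 2 : ZMod 2) = 0 from by decide, C_0]
  have hmon : (X ^ 2 + X + 1 : (ZMod 2)[X]).Monic := by monicity!
  have hdeg : (X ^ 2 + X + 1 : (ZMod 2)[X]).natDegree = 2 := by compute_degree!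
  have d2 : ∀ P : (ZMod 2)[X], derivative (P ^ 2) = 0 := by
    intro P
    rw [derivative_pow]
    have : ((2 : ℕ) : ZMod 2) = 0 := by decide
    rw [this]
    simp
  refine ⟨{ V := X ^ 2 + X + 1, V₁ := (X ^ 2 + X + 1) ^ 3,
            V₂ := X ^ 2 * (X + 1) ^ 2 * (X ^ 2 + X + 1), W := X ^ 6 + X ^ 5 + X ^ 3 + X ^ 2 + X,
            D := X ^ 2 + X + 1, η := 1, m := m, r := 4 * m + 9,
            s := 4 * m + 10, hn := ?_, hm := hm, hV := hmon, hV₁ := hmon.pow 3,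
            V_one := ?_, V₁_one := ?_, keyV₁ := ?_, keyV₂ := ?_, keyW := ?_,
            dvd₁ := dvd_pow_self _ (by norm_num), dvd₂ := dvd_mul_left _ _, dvdk := ⟨3, dvd_rfl⟩,
            cop := ?_, degV₂ := ?_, degW := ?_, dbl := ?_, odd_r := ⟨2 * m + 4, by ring⟩,
            le_r := by omega, even_s := ⟨2 * m + 5, by ring⟩, le_s := by omega, hrs := by omega,
            D_zero := by simp, inf := ?_ }, rfl, rfl, rfl, rfl⟩
  · rw [hmon.natDegree_pow, hdeg]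
    ring
  · simp only [eval_add, eval_pow, eval_X, eval_one]
    decide
  · simp only [eval_add, eval_pow, eval_X, eval_one]
    decide
  · have e1 : (X ^ 2 + X + 1 : (ZMod 2)[X]) * (X ^ 2 + X + 1) ^ 3 = ((X ^ 2 + X + 1) ^ 2) ^ 2 := by
      ring
    rw [e1, d2]
  · have e1 : (X ^ 2 + X + 1 : (ZMod 2)[X]) * (X ^ 2 * (X + 1) ^ 2 * (X ^ 2 + X + 1)) =
        (X * (X + 1) * (X ^ 2 + X + 1)) ^ 2 := by
      ring
    rw [e1, d2]
  · have e1 : (X ^ 2 + X + 1 : (ZMod 2)[X]) * (X ^ 6 + X ^ 5 + X ^ 3 + X ^ 2 + X) =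
        (X ^ 4) ^ 2 + (X ^ 2 * X + X) := by
      linear_combination ((X : (ZMod 2)[X]) ^ 7 + X ^ 6 + X ^ 5 + X ^ 4 + X ^ 3 + X ^ 2) * h2
    rw [e1, derivative_add, d2, derivative_add, derivative_mul, d2, derivative_X]
    linear_combination (-(X : (ZMod 2)[X])) * h2
  · refine ⟨1 + (X + 1) * (X ^ 4 + X ^ 2), X + 1, ?_⟩
    linear_combination ((X : (ZMod 2)[X]) + 2 * X ^ 2 + 2 * X ^ 3 + 2 * X ^ 4 + 2 * X ^ 5 + 2 * X ^ 6 +
      X ^ 7) * h2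
  · have : (X ^ 2 * (X + 1) ^ 2 * (X ^ 2 + X + 1) : (ZMod 2)[X]).natDegree ≤ 6 := by
      compute_degree
    omega
  · have : (X ^ 6 + X ^ 5 + X ^ 3 + X ^ 2 + X : (ZMod 2)[X]).natDegree ≤ 6 := by
      compute_degree
    omega
  · intro F _ _ e τ c h
    have h2 : (2 : F) = 0 := AType2.two_eq_zero F
    have h2' : (2 : F[X]) = 0 := by rw [← C_ofNat, h2, C_0]
    have h1 := dbl2 _ _ _ (X ^ 2 + X + 1) hm e τ c h
      ((X ^ 2 + X + 1) + C c * X ^ 2 * (X ^ 2 + X + 1) ^ 2) ?_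
    · simp only [eval_add, eval_mul, eval_C, eval_X, eval_one, eval_pow] at h1
      linear_combination h1 - (2 + 4 * c) * h2
    · have e1 : (X ^ 6 + X ^ 5 + X ^ 3 + X ^ 2 + X : (ZMod 2)[X]).eval 1 = 1 := by
        simp only [eval_add, eval_pow, eval_X]
        decide
      have e2 : (X ^ 2 * (X + 1) ^ 2 * (X ^ 2 + X + 1) : (ZMod 2)[X]).eval 1 = 0 := by
        simp only [eval_add, eval_mul, eval_pow, eval_X, eval_one]
        decide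
      rw [e1, e2]
      simp only [Polynomial.map_add, Polynomial.map_mul, Polynomial.map_pow, map_X,
        Polynomial.map_one, map_one, map_zero, mul_zero, zero_add, mul_one]
      linear_combination (3 * X + 6 * X ^ 2 + 10 * X ^ 3 + 2 * X ^ 3 * C c + 10 * X ^ 4 +
        4 * X ^ 4 * C c + 9 * X ^ 5 + 6 * X ^ 5 * C c + 6 * X ^ 6 + 4 * X ^ 6 * C c + 3 * X ^ 7 +
        2 * X ^ 7 * C c + X ^ 8) * h2'
  · intro F _ _ e τ c u ζ hζ
    have h2 : (2 : F) = 0 := AType2.two_eq_zero F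
    have h0 : ζ⁻¹ * ζ = 1 := inv_mul_cancel₀ hζ
    generalize ζ⁻¹ = E at h0
    have k4 : ζ ^ 4 * E ^ 4 = 1 := by rw [← mul_pow, mul_comm, h0, one_pow]
    have hR : (1 + ζ ^ 4) ^ m = (E ^ 4 + 1) ^ m * ζ ^ (4 * m) := by
      rw [pow_mul, ← mul_pow]
      congr 1
      linear_combination -k4
    have z1 : ζ ^ (4 * m + 10 + (X ^ 2 + X + 1 : (ZMod 2)[X]).natDegree) =
        ζ ^ (4 * m) * ζ ^ 12 := by
      rw [hdeg]
      ring
    have z2 : ζ ^ (4 * (m + 1)) = ζ ^ (4 * m) * ζ ^ 4 := by ring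
    have z3 : ζ ^ (4 * m + 9) = ζ ^ (4 * m) * ζ ^ 9 := by ring
    have z4 : ζ ^ (4 * m + 10) = ζ ^ (4 * m) * ζ ^ 10 := by ring
    rw [z1, z2, z3, z4, hR, famF, famB]
    generalize u + c * algebraMap (ZMod 2) F
      (eval 1 (X ^ 2 * (X + 1) ^ 2 * (X ^ 2 + X + 1) : (ZMod 2)[X])) + algebraMap (ZMod 2) F
      (eval 1 (X ^ 6 + X ^ 5 + X ^ 3 + X ^ 2 + X : (ZMod 2)[X])) = a
    simp only [eval_add, eval_mul, eval_C, eval_pow, eval_X, eval_one, aeval_X,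
      map_one, Polynomial.map_pow, map_X, Polynomial.map_add, Polynomial.map_one,
      one_mul, map_add, Polynomial.map_mul, map_pow]
    rw [pow_succ (E ^ 4 + 1) m]
    generalize (E ^ 4 + 1) ^ m = Q
    generalize ζ ^ (4 * m) = Z
    have v4 : (E ^ 2 + E + 1) ^ 4 = E ^ 8 + E ^ 4 + 1 := by
      linear_combination (2 * E ^ 7 + 5 * E ^ 6 + 8 * E ^ 5 + 9 * E ^ 4 + 8 * E ^ 3 + 5 * E ^ 2 +
        2 * E) * h2
    have v2 : E ^ 2 * (E + 1) ^ 2 * (E ^ 2 + E + 1) ^ 2 = E ^ 8 + E ^ 2 := by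
      linear_combination (2 * E ^ 7 + 4 * E ^ 6 + 5 * E ^ 5 + 4 * E ^ 4 + 2 * E ^ 3) * h2
    have vw : (E ^ 2 + E + 1) * (E ^ 6 + E ^ 5 + E ^ 3 + E ^ 2 + E) = E ^ 8 + E ^ 3 + E := by
      linear_combination (E ^ 7 + E ^ 6 + E ^ 5 + E ^ 4 + E ^ 3 + E ^ 2) * h2
    have i1 : ζ ^ 12 * E = ζ ^ 11 := by linear_combination ζ ^ 11 * h0
    have i2 : ζ ^ 12 * E ^ 2 = ζ ^ 10 := by linear_combination E * i1 + ζ ^ 10 * h0
    have i3 : ζ ^ 12 * E ^ 3 = ζ ^ 9 := by linear_combination E * i2 + ζ ^ 9 * h0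
    have i4 : ζ ^ 12 * E ^ 4 = ζ ^ 8 := by linear_combination ζ ^ 8 * k4
    have i8 : ζ ^ 12 * E ^ 8 = ζ ^ 4 := by linear_combination E ^ 4 * i4 + ζ ^ 4 * k4
    have i12 : ζ ^ 12 * E ^ 12 = 1 := by linear_combination E ^ 4 * i8 + k4
    linear_combination (Z * ζ ^ 12 * (e ^ 12 * Q * (E ^ 4 + 1) + Q * τ + a)) * v4 +
      Z * ζ ^ 12 * c * v2 + Z * ζ ^ 12 * vw + e ^ 12 * Q * Z * (i12 + 2 * i8 + 2 * i4) +
      Z * (Q * τ + a) * (i8 + i4) + c * Z * (i8 + i2) + Z * (i8 + i3 + i1)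

end MP7Z.A2
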