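import Pool.Agent.Lib.MP_7f581e_Z.Alt2.Spec

/-!
# Type `3` of the family: degrees `4 m + 7`
-/

namespace MP7Z.A2

open Polynomial MP7Z

theorem X4_eq3 {F : Type} [Field F] [Algebra (ZMod 2) F] :
    ((X : F[X]) ^ 4 + 1) = (X - C 1) ^ 4 := by
  have h2 : (2 : F[X]) = 0 := by
    have := AType2.two_eq_zero F
    rw [← C_ofNat, this, C_0]
  rw [C_1]
  linear_combination (2 * (X : F[X]) ^ 3 - 3 * X ^ 2 + 2 * X) * h2

theorem dbl3 {F : Type} [Field F] [Algebra (ZMod 2) F] (V₁ V₂ W V : (ZMod 2)[X]) {m : ℕ}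
    (hm : 1 ≤ m) (e τ c : F) (h : (X - C 1) ^ 3 ∣ famF V₁ V₂ W m e τ c 0) (H : F[X])
    (hH : V.map (algebraMap (ZMod 2) F) * (V₁.map (algebraMap (ZMod 2) F) *
      C (c * algebraMap (ZMod 2) F (V₂.eval 1) + algebraMap (ZMod 2) F (W.eval 1)) +
      C c * V₂.map (algebraMap (ZMod 2) F) + W.map (algebraMap (ZMod 2) F)) =
      (X - C 1) ^ 2 * H) : H.eval 1 = 0 := by
  have h4 : (X - C (1 : F)) ^ 3 ∣ (X ^ 4 + 1) ^ m := by
    rw [X4_eq3, ← pow_mul]
    exact pow_dvd_pow _ (by omega)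
  have h5 : (X - C (1 : F)) ^ 3 ∣ (X ^ 4 + 1) ^ (m + 1) := h4.trans (pow_dvd_pow _ (by omega))
  have h6 : (X - C (1 : F)) ^ 3 ∣ V₁.map (algebraMap (ZMod 2) F) *
      C (c * algebraMap (ZMod 2) F (V₂.eval 1) + algebraMap (ZMod 2) F (W.eval 1)) +
      C c * V₂.map (algebraMap (ZMod 2) F) + W.map (algebraMap (ZMod 2) F) := by
    have e1 : V₁.map (algebraMap (ZMod 2) F) *
      C (c * algebraMap (ZMod 2) F (V₂.eval 1) + algebraMap (ZMod 2) F (W.eval 1)) +
      C c * V₂.map (algebraMap (ZMod 2) F) + W.map (algebraMap (ZMod 2) F) =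
      famF V₁ V₂ W m e τ c 0 - (C (e ^ 12) * V₁.map (algebraMap (ZMod 2) F)) *
        (X ^ 4 + 1) ^ (m + 1) - (V₁.map (algebraMap (ZMod 2) F) * C τ) * (X ^ 4 + 1) ^ m := by
      rw [famF, famB, zero_add]
      ring
    rw [e1]
    exact dvd_sub (dvd_sub h (h5.mul_left _)) (h4.mul_left _)
  have h7 : (X - C (1 : F)) ^ 2 * (X - C 1) ∣ (X - C 1) ^ 2 * H := by
    rw [← hH, ← pow_succ]
    exact h6.mul_left _
  have h8 : (X - C (1 : F)) ∣ H :=
    (mul_dvd_mul_iff_left (pow_ne_zero 2 (X_sub_C_ne_zero 1))).1 h7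
  rwa [dvd_iff_isRoot] at h8

theorem tTy3 : Ty3Stmt := by
  intro m hm
  refine ⟨{ V := X, V₁ := X ^ 3, V₂ := X, W := X ^ 2 + 1, D := 1, η := 0, m := m, r := 4 * m + 5,
            s := 4 * m + 6, hn := ?_, hm := hm, hV := monic_X, hV₁ := monic_X_pow 3,
            V_one := eval_X, V₁_one := by simp, keyV₁ := ?_, keyV₂ := ?_, keyW := ?_,
            dvd₁ := dvd_pow_self _ (by norm_num), dvd₂ := dvd_rfl, dvdk := ⟨3, dvd_rfl⟩,
            cop := ?_, degV₂ := ?_, degW := ?_, dbl := ?_, odd_r := ⟨2 * m + 2, by ring⟩,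
            le_r := by omega, even_s := ⟨2 * m + 3, by ring⟩, le_s := by omega, hrs := by omega,
            D_zero := by simp, inf := ?_ }, rfl, rfl, rfl, rfl⟩
  · rw [natDegree_X_pow]
    ring
  · rw [← pow_succ', derivative_X_pow]
    have : ((3 + 1 : ℕ) : ZMod 2) = 0 := by decide
    rw [this]
    simp
  · rw [← sq, derivative_X_pow]
    have : ((2 : ℕ) : ZMod 2) = 0 := by decide
    rw [this]
    simp
  · have h2 : (2 : (ZMod 2)[X]) = 0 := by
      rw [← C_ofNat, show (OfNat.ofNat 2 : ZMod 2) = 0 from by decide, C_0]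
    have e1 : (X : (ZMod 2)[X]) * (X ^ 2 + 1) = X ^ 3 + X := by ring
    rw [e1, derivative_add, derivative_X, derivative_X_pow]
    push_cast
    have e2 : (C (3 : ZMod 2)) = 1 := by
      rw [show (3 : ZMod 2) = 1 from by decide, C_1]
    rw [e2]
    norm_num
    linear_combination (-(X : (ZMod 2)[X])) * h2
  · refine ⟨-X, 1, ?_⟩
    ring
  · rw [natDegree_X]
    omega
  · have : ((X : (ZMod 2)[X]) ^ 2 + 1).natDegree ≤ 2 := by compute_degree
    omega
  · intro F _ _ e τ c h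
    have h2 : (2 : F) = 0 := AType2.two_eq_zero F
    have h2' : (2 : F[X]) = 0 := by rw [← C_ofNat, h2, C_0]
    have h1 := dbl3 _ _ _ 1 hm e τ c h (C c * X + 1) ?_
    · rw [eval_add, eval_mul, eval_C, eval_X, eval_one] at h1
      linear_combination h1 - h2
    · have e1 : ((X : (ZMod 2)[X]) ^ 2 + 1).eval 1 = 0 := by
        rw [eval_add, eval_pow, eval_X, eval_one]
        decide
      rw [e1, eval_X, map_one, map_zero, Polynomial.map_add, Polynomial.map_pow, map_X,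
        Polynomial.map_one, Polynomial.map_pow, map_X, mul_one, add_zero, C_1]
      linear_combination (C c * X ^ 2 + X) * h2'
  · intro F _ _ e τ c u ζ hζ
    have h0 : ζ⁻¹ * ζ = 1 := inv_mul_cancel₀ hζ
    generalize ζ⁻¹ = E at h0
    have k1 : ζ ^ 8 * E = ζ ^ 7 := by linear_combination ζ ^ 7 * h0
    have k2 : ζ ^ 8 * E ^ 2 = ζ ^ 6 := by linear_combination E * k1 + ζ ^ 6 * h0
    have k3 : ζ ^ 8 * E ^ 3 = ζ ^ 5 := by linear_combination E * k2 + ζ ^ 5 * h0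
    have k4 : ζ ^ 8 * E ^ 4 = ζ ^ 4 := by linear_combination E * k3 + ζ ^ 4 * h0
    have k5 : ζ ^ 4 * E ^ 4 = 1 := by rw [← mul_pow, mul_comm, h0, one_pow]
    have k8 : ζ ^ 8 * E ^ 8 = 1 := by linear_combination E ^ 4 * k4 + k5
    have hR : (1 + ζ ^ 4) ^ m = (E ^ 4 + 1) ^ m * ζ ^ (4 * m) := by
      rw [pow_mul, ← mul_pow]
      congr 1
      linear_combination -k5
    have z1 : ζ ^ (4 * m + 7 + (X : (ZMod 2)[X]).natDegree) = ζ ^ (4 * m) * ζ ^ 8 := by
      rw [natDegree_X]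
      ring
    have z2 : ζ ^ (4 * (m + 1)) = ζ ^ (4 * m) * ζ ^ 4 := by ring
    have z3 : ζ ^ (4 * m + 5) = ζ ^ (4 * m) * ζ ^ 5 := by ring
    have z4 : ζ ^ (4 * m + 6) = ζ ^ (4 * m) * ζ ^ 6 := by ring
    rw [z1, z2, z3, z4, hR]
    simp only [famF, famB, eval_add, eval_mul, eval_C, eval_pow, eval_X, eval_one, aeval_X,
      map_one, Polynomial.map_pow, map_X, Polynomial.map_add, Polynomial.map_one, map_zero,
      zero_mul, add_zero, one_mul, map_add]
    rw [pow_succ (E ^ 4 + 1) m]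
    generalize (E ^ 4 + 1) ^ m = Q
    generalize ζ ^ (4 * m) = Z
    generalize (algebraMap (ZMod 2) F) (1 ^ 2) = a
    linear_combination e ^ 12 * Q * Z * (k8 + k4) + Z * Q * τ * k4 + Z * (1 + u + c + a) * k4 +
      Z * c * k2 + Z * k3 + Z * k1

end MP7Z.A2
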