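import Pool.Agent.Lib.MP_7f581e_Z.Alt2.Spec

/-!
# All degrees
-/

namespace MP7Z.A2

open Polynomial MP7Z

theorem tTyp (h0 : Ty0Stmt) (h1 : Ty1Stmt) (h2 : Ty2Stmt) (h3 : Ty3Stmt) (c01 : Cls01Stmt)
    (c2 : Cls2Stmt) (c3 : Cls3Stmt) : TypStmt := by
  intro n hn
  have h : n % 4 = 0 ∨ n % 4 = 1 ∨ n % 4 = 2 ∨ n % 4 = 3 := by omega
  rcases h with h | h | h | h
  · obtain ⟨m, rfl⟩ : ∃ m, n = 4 * m + 4 := ⟨n / 4 - 1, by omega⟩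
    obtain ⟨t, ht⟩ := h0 m (by omega)
    obtain ⟨κ, hκ⟩ := c01.1 m
    exact ⟨t, κ, 0, 1, hκ t ht.1 ht.2.1 ht.2.2.1 ht.2.2.2⟩
  · obtain ⟨m, rfl⟩ : ∃ m, n = 4 * m + 5 := ⟨n / 4 - 1, by omega⟩
    obtain ⟨t, ht⟩ := h1 m (by omega)
    obtain ⟨κ, hκ⟩ := c01.2 m (by omega)
    exact ⟨t, κ, 0, 1, hκ t ht.1 ht.2.1 ht.2.2.1 ht.2.2.2⟩
  · obtain ⟨m, rfl⟩ : ∃ m, n = 4 * m + 10 := ⟨n / 4 - 2, by omega⟩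
    obtain ⟨t, ht⟩ := h2 m (by omega)
    obtain ⟨κ, hκ⟩ := c2 m
    exact ⟨t, κ, X, X ^ 2 + X + 1, hκ t ht.1 ht.2.1 ht.2.2.1 ht.2.2.2⟩
  · obtain ⟨m, rfl⟩ : ∃ m, n = 4 * m + 7 := ⟨n / 4 - 1, by omega⟩
    obtain ⟨t, ht⟩ := h3 m (by omega)
    obtain ⟨κ, hκ⟩ := c3 m
    exact ⟨t, κ, 0, 1, hκ t ht.1 ht.2.1 ht.2.2.1 ht.2.2.2⟩

end MP7Z.A2
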