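import Pool.Agent.Lib.MP_7f581e_Z.Alt2.Spec

/-!
# Alternating step in characteristic two: the totally split place, inertia moves a root
-/

namespace MP7Z.A2

open Polynomial MP7Z

theorem tWild (h0 : ResStmt) (h1 : LocNStmt) (h3 : LocVStmt) (h4 : UnrStmt) :
    WildStmt := by
  intro n t Ω _ _ x hst V hV e τ c u x₀ τ₀ y he hev hτ hc hu hcu hx₀ hx hτ₀ hq hfix hf
  by_contra hcon
  push Not at hcon
  have hprime : Fact (Nat.Prime 2) := ⟨Nat.prime_two⟩
  have : CharP Ω 2 := charP_of_injective_algebraMap (algebraMap (ZMod 2) Ω).injective 2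
  have htwo : (2 : Ω) = 0 := CharTwo.two_eq_zero
  obtain ⟨hc0, hc1, hres, -⟩ := h0 2 Ω x hst V hV
  obtain ⟨hcard, -, -⟩ := h1 n t Ω V hV e τ c u y he hev hτ hc hu hcu hf
  obtain ⟨i, hi⟩ : ∃ i, y i ∉ V := by
    have h5 : Nat.card {i // y i ∉ V} ≠ 0 := by
      rw [hcard]
      norm_num
    obtain ⟨⟨⟨i, hi⟩⟩, -⟩ := Nat.card_ne_zero.1 h5
    exact ⟨i, hi⟩
  have hroot : (t.f e τ c u).eval (y i) = 0 := by
    rw [hf, eval_mul, eval_prod, Finset.prod_eq_zero (Finset.mem_univ i), mul_zero]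
    simp
  obtain ⟨hV1, hV2, -⟩ := h3 n t Ω V hV e τ c u he hev hτ hc hu
  have hζv := hV1 (y i) hi hroot
  have hζ2 := hV2 (y i) hi hroot
  have he0 : V.valuation e ≠ 0 := by rwa [Valuation.ne_zero_iff]
  have hepos : 0 < V.valuation e := zero_lt_iff.2 he0
  obtain ⟨z, hz⟩ : ∃ z : Ω, z = (y i)⁻¹ / e ^ 3 := ⟨_, rfl⟩
  have hz1 : (y i)⁻¹ = z * e ^ 3 := by
    rw [hz, div_mul_cancel₀ _ (pow_ne_zero _ he)]
  have hzv : V.valuation z = 1 := by
    rw [hz, map_div₀, hζv, map_pow, div_self (pow_ne_zero _ he0)]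
  -- valuations
  have hq0 : V.valuation (x - x₀) ≠ 0 := by
    rw [Valuation.ne_zero_iff]
    intro h
    apply hst.transc
    rw [sub_eq_zero.1 h]
    exact (mem_algebraicClosure_iff.1 hx₀)
  have hqpos : 0 < V.valuation (x - x₀) := zero_lt_iff.2 hq0
  have heq3 : V.valuation e ≤ V.valuation (x - x₀) := h4 2 Ω x hst V hV x₀ hx₀ hx e hfix hev
  have he3 : V.valuation e ^ 3 < V.valuation (x - x₀) := by
    calc V.valuation e ^ 3 ≤ V.valuation e ^ 2 :=
          pow_le_pow_of_le_one hepos.le hev.le (by norm_num)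
      _ = V.valuation e * V.valuation e := pow_two _
      _ < V.valuation (x - x₀) := lt_of_lt_of_le (mul_lt_of_lt_one_left hepos hev) heq3
  have hmain : V.valuation (1 + τ * z ^ 4) ≤ V.valuation e ^ 3 := by
    have h5 : e ^ 12 + τ * (y i)⁻¹ ^ 4 = e ^ 12 * (1 + τ * z ^ 4) := by
      rw [hz1]
      ring
    rw [h5, map_mul, map_pow] at hζ2
    have h6 : V.valuation e ^ 15 = V.valuation e ^ 12 * V.valuation e ^ 3 := by
      rw [← pow_add]
    rw [h6] at hζ2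
    exact le_of_mul_le_mul_left hζ2 (zero_lt_iff.2 (pow_ne_zero _ he0))
  -- the residue
  obtain ⟨z₀, hz₀, hzz, -⟩ := hres z (by rw [← V.valuation_le_one_iff, hzv])
  have hb : V.valuation (z - z₀) ≤ V.valuation (x - x₀) := by
    apply h4 2 Ω x hst V hV x₀ hx₀ hx _ _ hzz
    intro δ hδ
    have h5 : δ z₀ = z₀ := hδ.2.1 z₀ hz₀
    rw [map_sub, h5, hz, map_div₀, map_inv₀, map_pow, hcon δ hδ i, hfix δ hδ]
  have hbp : V.valuation (z - z₀) ^ 4 < V.valuation (x - x₀) := by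
    calc V.valuation (z - z₀) ^ 4 ≤ V.valuation (x - x₀) ^ 4 := by gcongr
      _ ≤ V.valuation (x - x₀) ^ 2 := pow_le_pow_of_le_one hqpos.le hx.le (by norm_num)
      _ < V.valuation (x - x₀) := by
        rw [pow_two]
        exact mul_lt_of_lt_one_left hqpos hx
  have hid : 1 + τ * z ^ 4 = (1 + τ₀ * z₀ ^ 4) + τ * (z - z₀) ^ 4 + (τ - τ₀) * z₀ ^ 4 := by
    linear_combination
      (2 * τ * z ^ 3 * z₀ - 3 * τ * z ^ 2 * z₀ ^ 2 + 2 * τ * z * z₀ ^ 3 - τ * z₀ ^ 4) * htwo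
  have hz₀v : V.valuation z₀ ≤ 1 := (V.valuation_le_one_iff _).2 (hc0 z₀ hz₀)
  have hconst : 1 + τ₀ * z₀ ^ 4 = 0 := by
    by_contra h5
    have h6 : 1 + τ₀ * z₀ ^ 4 ∈ Cst 2 Ω :=
      add_mem (one_mem _) (mul_mem hτ₀ (pow_mem hz₀ 4))
    have h7 := hc1 _ h6 h5
    have h8 : 1 + τ₀ * z₀ ^ 4 = (1 + τ * z ^ 4) - (τ * (z - z₀) ^ 4 + (τ - τ₀) * z₀ ^ 4) := by
      rw [hid]
      ring
    have h9 : V.valuation (1 + τ₀ * z₀ ^ 4) < 1 := by
      rw [h8]
      refine lt_of_le_of_lt (V.valuation.map_sub _ _) (max_lt ?_ ?_)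
      · exact lt_of_le_of_lt hmain (he3.trans hx)
      · refine lt_of_le_of_lt (V.valuation.map_add _ _) (max_lt ?_ ?_)
        · rw [map_mul, hτ, one_mul, map_pow]
          exact hbp.trans hx
        · rw [map_mul, map_pow, hq]
          calc V.valuation (x - x₀) * V.valuation z₀ ^ 4 ≤ V.valuation (x - x₀) * 1 := by
                gcongr
                exact pow_le_one₀ zero_le hz₀v
            _ < 1 := by rw [mul_one]; exact hx
    rw [h7] at h9
    exact lt_irrefl _ h9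
  have hz₀0 : z₀ ≠ 0 := by
    rintro rfl
    rw [zero_pow (by norm_num), mul_zero, add_zero] at hconst
    exact one_ne_zero hconst
  have hz₀1 := hc1 z₀ hz₀ hz₀0
  have hfin : (τ - τ₀) * z₀ ^ 4 = (1 + τ * z ^ 4) - τ * (z - z₀) ^ 4 := by
    rw [hid, hconst]
    ring
  have hlast : V.valuation (x - x₀) < V.valuation (x - x₀) := by
    calc V.valuation (x - x₀) = V.valuation ((τ - τ₀) * z₀ ^ 4) := by
          rw [map_mul, map_pow, hz₀1, one_pow, mul_one, hq]
      _ = V.valuation ((1 + τ * z ^ 4) - τ * (z - z₀) ^ 4) := by rw [hfin]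
      _ ≤ max (V.valuation (1 + τ * z ^ 4)) (V.valuation (τ * (z - z₀) ^ 4)) :=
          V.valuation.map_sub _ _
      _ < V.valuation (x - x₀) := by
          apply max_lt (lt_of_le_of_lt hmain he3)
          rw [map_mul, hτ, one_mul, map_pow]
          exact hbp
  exact lt_irrefl _ hlast

end MP7Z.A2
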