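import Pool.Agent.Lib.MP_7f581e_Z.Alt.Main
import Pool.Agent.Lib.MP_7f581e_Z.Alt2.AStep
import Pool.Agent.Lib.MP_7f581e_Z.Alt2.Add
import Pool.Agent.Lib.MP_7f581e_Z.Alt2.App
import Pool.Agent.Lib.MP_7f581e_Z.Alt2.BB
import Pool.Agent.Lib.MP_7f581e_Z.Alt2.Cls01
import Pool.Agent.Lib.MP_7f581e_Z.Alt2.Cls2
import Pool.Agent.Lib.MP_7f581e_Z.Alt2.Cls3
import Pool.Agent.Lib.MP_7f581e_Z.Alt2.ClsA
import Pool.Agent.Lib.MP_7f581e_Z.Alt2.ClsB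
import Pool.Agent.Lib.MP_7f581e_Z.Alt2.Cnt
import Pool.Agent.Lib.MP_7f581e_Z.Alt2.Com
import Pool.Agent.Lib.MP_7f581e_Z.Alt2.Cpr
import Pool.Agent.Lib.MP_7f581e_Z.Alt2.Den
import Pool.Agent.Lib.MP_7f581e_Z.Alt2.E2
import Pool.Agent.Lib.MP_7f581e_Z.Alt2.Gen1
import Pool.Agent.Lib.MP_7f581e_Z.Alt2.Gen2
import Pool.Agent.Lib.MP_7f581e_Z.Alt2.GenT
import Pool.Agent.Lib.MP_7f581e_Z.Alt2.HD
import Pool.Agent.Lib.MP_7f581e_Z.Alt2.Hom
import Pool.Agent.Lib.MP_7f581e_Z.Alt2.Jor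
import Pool.Agent.Lib.MP_7f581e_Z.Alt2.Lab
import Pool.Agent.Lib.MP_7f581e_Z.Alt2.LocA
import Pool.Agent.Lib.MP_7f581e_Z.Alt2.LocB
import Pool.Agent.Lib.MP_7f581e_Z.Alt2.LocE
import Pool.Agent.Lib.MP_7f581e_Z.Alt2.LocN
import Pool.Agent.Lib.MP_7f581e_Z.Alt2.LocV
import Pool.Agent.Lib.MP_7f581e_Z.Alt2.Mul
import Pool.Agent.Lib.MP_7f581e_Z.Alt2.Num
import Pool.Agent.Lib.MP_7f581e_Z.Alt2.Prm
import Pool.Agent.Lib.MP_7f581e_Z.Alt2.SOf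
import Pool.Agent.Lib.MP_7f581e_Z.Alt2.Sep
import Pool.Agent.Lib.MP_7f581e_Z.Alt2.Sys
import Pool.Agent.Lib.MP_7f581e_Z.Alt2.TE
import Pool.Agent.Lib.MP_7f581e_Z.Alt2.Trans
import Pool.Agent.Lib.MP_7f581e_Z.Alt2.Ty0
import Pool.Agent.Lib.MP_7f581e_Z.Alt2.Ty1
import Pool.Agent.Lib.MP_7f581e_Z.Alt2.Ty2
import Pool.Agent.Lib.MP_7f581e_Z.Alt2.Ty3
import Pool.Agent.Lib.MP_7f581e_Z.Alt2.Typ
import Pool.Agent.Lib.MP_7f581e_Z.Alt2.Wild

/-! # The alternating step in characteristic two, complete -/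

namespace MP7Z.A2

open MP7Z

theorem clsA : ClsAStmt := tClsA tE2 tBB tHD tTE
theorem clsB : ClsBStmt := tClsB tE2 tBB tHD tTE
theorem typ : TypStmt :=
  tTyp tTy0 tTy1 tTy2 tTy3 (tCls01 clsA clsB) (tCls2 clsA tApp) (tCls3 clsA tApp)
theorem lab : LabStmt := tLab tSep tPrm
theorem cpr : CprStmt := tCpr (tAdd lie_fam lie_pres) tDen tNum alt_par
theorem locA : LocAStmt := tLocA br_res tMul
theorem locN : LocNStmt := tLocN tMul
theorem locV : LocVStmt := tLocV tLocE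
theorem locB : LocBStmt := tLocB br_res locN locV
theorem wild : WildStmt := tWild br_res locN locV alt_unr
theorem genT : GenTStmt := tGenT tEis (tGen1 tSep) (tGen2 tSep (tGen1 tSep))
theorem trans : TransStmt := tTrans tSep genT alt_hilb
theorem sys : SysStmt := tSys br_res tPrm lab cpr trans alt_par
theorem sOf : SOfStmt := tSOf locA locB locN wild
theorem jor : JorStmt := tJor tCom tCnt

/-- **The alternating step for `p = 2`.** -/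
theorem a2_step : AStepStmt := tAStep typ tAct sys tHom sOf jor tGrp

end MP7Z.A2
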