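import Pool.Agent.Lib.MP_7f581e_Z.Alt2.Spec
import Pool.Agent.Lib.MP_7f581e_Z.Lie.RQ
import Pool.Agent.Lib.MP_7f581e_Z.Lie.TorS

/-!
# Alternating step in characteristic two: the invariant (S), and an involution of small support
-/

set_option autoImplicit false

namespace MP7Z.A2

open Polynomial MP7Z

theorem tSOf (hA : LocAStmt) (hB : LocBStmt) (hN : LocNStmt) (hW : WildStmt) : SOfStmt := by
  intro n t Ω _ _ x hst Q _ _ ψ k act ε j₀ V₁ e τ c u y hS hsys E _ π T k1 k2 k3 Ψ hπ hΨ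
  -- `T 1 = 1`
  have hT1 : ∀ j, T 1 j = 1 := by
    intro j
    have h1 := k1 1 1 j
    rw [mul_one, map_one, map_one, Equiv.Perm.one_apply] at h1
    exact (mul_eq_left.mp h1.symm)
  have hε : ∀ j, ε 1 j = 1 := by
    intro j
    have h1 := k2 1 j
    rwa [hT1, Equiv.Perm.sign_one, map_one, eq_comm] at h1
  -- powers
  have hpow : ∀ (g : E), π g = 1 → ∀ (N : ℕ) j, T (g ^ N) j = T g j ^ N := by
    intro g hg N
    induction N with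
    | zero =>
      intro j
      rw [pow_zero, pow_zero, hT1]
    | succ N ih =>
      intro j
      rw [pow_succ, k1, hg, map_one, Equiv.Perm.one_apply, ih, pow_succ]
  -- the action
  have hact : ∀ γ : Gx 2 x, ψ γ = 1 → ∀ j i,
      (γ : Ω ≃ₐ[ZMod 2] Ω) (y j i) = y j (T (Ψ γ) j i) := by
    intro γ hγ j i
    rw [hΨ, hγ, map_one, Equiv.Perm.one_apply]
  have hsgn : ∀ γ : Gx 2 x, ψ γ = 1 → ∀ j, Equiv.Perm.sign (T (Ψ γ) j) = 1 := by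
    intro γ hγ j
    rw [k2, hπ, hγ, hε]
  have hfix : ∀ γ : Gx 2 x, ψ γ = 1 → ∀ j, (γ : Ω ≃ₐ[ZMod 2] Ω) (e j) = e j := by
    intro γ hγ j
    rw [hsys.he, hγ, map_one, Equiv.Perm.one_apply]
  -- good places
  have hgood : ∀ V : ValuationSubring Ω, V ≠ ⊤ → x ∈ V → ∀ γ : Gx 2 x,
      (γ : Ω ≃ₐ[ZMod 2] Ω) ∈ Inert 2 V → ψ γ = 1 → ∀ j, V.valuation (e j) = 1 →
      T (Ψ γ) j = 1 := by
    intro V hV hxV γ hγ hγ1 j hej
    exact (hA n t Ω x hst V hV (e j) (τ j) (c j) (u j) (y j) (RQ_mem V hxV (hsys.inte j))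
      (RQ_mem V hxV (hsys.intτ j)) (RQ_mem V hxV (hsys.intc j)) (RQ_mem V hxV (hsys.intu j))
      (hsys.cpr V hxV j) hej (hsys.inj j)
      (hsys.fac j)).2 γ hγ (T (Ψ γ) j) (hact γ hγ1 j) (hsgn γ hγ1 j)
  -- bad places
  have hbad : ∀ V : ValuationSubring Ω, V ≠ ⊤ → x ∈ V → ∀ γ : Gx 2 x,
      (γ : Ω ≃ₐ[ZMod 2] Ω) ∈ Inert 2 V → ψ γ = 1 → ∀ j, V.valuation (e j) < 1 →
      T (Ψ γ) j ^ 2 = 1 ∧ ∀ i, y j i ∈ V → T (Ψ γ) j i = i := by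
    intro V hV hxV γ hγ hγ1 j hej
    exact hB n t Ω x hst V hV (e j) (τ j) (c j) (u j) (y j) (hsys.ne j) hej
      (hsys.unit V hxV j hej) (RQ_mem V hxV (hsys.intc j)) (RQ_mem V hxV (hsys.intu j))
      (hsys.cpr V hxV j) (hsys.inj j)
      (hsys.fac j) γ hγ (hfix γ hγ1 j) (T (Ψ γ) j) (hact γ hγ1 j) (hsgn γ hγ1 j)
  -- elements of inertia in the kernel of `ψ`
  have hker : ∀ V : ValuationSubring Ω, V ≠ ⊤ → x ∈ V → ∀ γ : Gx 2 x,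
      (γ : Ω ≃ₐ[ZMod 2] Ω) ∈ Inert 2 V → ψ γ = 1 → Ψ γ ^ 2 = 1 := by
    intro V hV hxV γ hγ hγ1
    have hTp : ∀ j, T (Ψ γ ^ 2) j = 1 := by
      intro j
      rw [hpow _ (by rw [hπ, hγ1])]
      have h1 : V.valuation (e j) ≤ 1 :=
        (V.valuation_le_one_iff _).2 (RQ_mem V hxV (hsys.inte j))
      rcases h1.lt_or_eq with h2 | h2
      · exact (hbad V hV hxV γ hγ hγ1 j h2).1
      · rw [hgood V hV hxV γ hγ hγ1 j h2, one_pow]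
    obtain ⟨g, -, hg⟩ := k3 1 (fun _ => 1) (fun j => by rw [hε, Equiv.Perm.sign_one])
    have h1 : Ψ γ ^ 2 = g := hg _ ⟨by rw [map_pow, hπ, hγ1, one_pow], funext hTp⟩
    have h2 : (1 : E) = g := hg _ ⟨map_one _, funext hT1⟩
    rw [h1, ← h2]
  refine ⟨?_, ?_⟩
  · -- the invariant (S)
    intro ℓ hℓ hℓp V hV hbadV γ hγ hdvd
    have hxV : x ∈ V := TorS_mem hbadV
    set m := orderOf (ψ γ) with hm
    have h1 : ¬ ℓ ∣ m := hS ℓ hℓ hℓp V hV hbadV γ hγ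
    have h2 : ψ (γ ^ m) = 1 := by rw [map_pow, hm, pow_orderOf_eq_one]
    have h3 : ((γ ^ m : Gx 2 x) : Ω ≃ₐ[ZMod 2] Ω) ∈ Inert 2 V := by
      rw [SubgroupClass.coe_pow]
      exact pow_mem hγ m
    have h4 := hker V hV hxV (γ ^ m) h3 h2
    rw [map_pow, ← pow_mul] at h4
    have h5 : ℓ ∣ m * 2 := hdvd.trans (orderOf_dvd_of_pow_eq_one h4)
    rcases hℓ.dvd_mul.mp h5 with h6 | h6
    · exact h1 h6
    · exact hℓp ((Nat.prime_dvd_prime_iff_eq hℓ Nat.prime_two).mp h6)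
  · -- the involution
    obtain ⟨x₀, hx₀, hxx₀, τ₀, hτ₀, hττ₀⟩ := hsys.res
    have hunit := hsys.unit V₁ hsys.mem j₀ hsys.e₀
    have hc : c j₀ ∈ V₁ := RQ_mem V₁ hsys.mem (hsys.intc j₀)
    have hu : u j₀ ∈ V₁ := RQ_mem V₁ hsys.mem (hsys.intu j₀)
    obtain ⟨δ, hδ, i, hi⟩ := hW n t Ω x hst V₁ hsys.top (e j₀) (τ j₀) (c j₀) (u j₀) x₀ τ₀ (y j₀)
      (hsys.ne j₀) hsys.e₀ hunit hc hu (hsys.cpr V₁ hsys.mem j₀) hx₀ hxx₀ hτ₀ hττ₀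
      (fun δ hδ => hfix ⟨δ, hδ.1⟩ (hsys.dec ⟨δ, hδ.1⟩ hδ.2.2) j₀) (hsys.fac j₀)
    have hδ1 : ψ ⟨δ, hδ.1⟩ = 1 := hsys.dec ⟨δ, hδ.1⟩ hδ.2.2
    obtain ⟨h1, h2⟩ := hbad V₁ hsys.top hsys.mem ⟨δ, hδ.1⟩ hδ.2 hδ1 j₀ hsys.e₀
    refine ⟨⟨δ, hδ.1⟩, hδ.2.1, hδ1, ?_, h1, hsgn _ hδ1 j₀, ?_, ?_⟩
    · intro h3
      apply hi
      have h4 := hact ⟨δ, hδ.1⟩ hδ1 j₀ i
      rw [h3, Equiv.Perm.one_apply] at h4
      exact h4
    · have h3 := (hN n t Ω V₁ hsys.top (e j₀) (τ j₀) (c j₀) (u j₀) (y j₀) (hsys.ne j₀) hsys.e₀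
        hunit hc hu (hsys.cpr V₁ hsys.mem j₀) (hsys.fac j₀)).1
      classical
      refine le_of_le_of_eq ?_ h3
      rw [Nat.card_eq_fintype_card, Fintype.card_subtype]
      refine Finset.card_le_card fun i hi => ?_
      rw [Finset.mem_filter]
      refine ⟨Finset.mem_univ _, fun hyi => ?_⟩
      exact (Equiv.Perm.mem_support.mp hi) (h2 i hyi)
    · intro j hj
      exact hgood V₁ hsys.top hsys.mem ⟨δ, hδ.1⟩ hδ.2 hδ1 j (hsys.e₁ j hj)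

end MP7Z.A2
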