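import Pool.Agent.Lib.MP_7f581e_Z.Alt2.Defs
import Pool.Agent.Lib.MP_7f581e_Z.Alt.Spec

/-!
# Alternating step in characteristic two: statements with complete proofs in the docstrings

Goal: `LieStep 2 𝒮` for `𝒮` = the alternating groups `A_n`, `n ≥ 11`.  Each `def XStmt : Prop` (in the
namespace `MP7Z.A2`) is one Lean task: file `Alt2/X.lean`, import only this file (and files named in the
task), `theorem MP7Z.A2.tX : XStmt`; statements listed under *Uses* are hypotheses.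
`Alt2/Defs.lean` has the family `f(e, τ, c, u)` (`t.f`, `t.B = t.f 0`), `f(1) = u`, `(V f)' = (X + 1)^2`,
degrees, leading coefficient `e^12`.

Many statements are the versions for `p = 2` of the statements of `Alt/Spec.lean`, whose proofs are in
`Alt/*.lean` (*Model*): copy and adapt.

Notation of the docstrings: characteristic two, so signs do not matter; `C = 1 + c`;
`|a| = V.valuation a`; `a₁ = u + c V₂(1) + W(1)`; `℘(s) = s^2 + s`.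
-/

namespace MP7Z.A2

open Polynomial MP7Z

/-! ## Part 1.  The four types -/

/-- **Ty0.** Degrees divisible by four.

*Proof.*  `V = V₁ = 1`, `V₂ = X^2`, `W = X^3 + X`, `D = 1`, `η = 0`, `r = 4m + 1`, `s = 4m + 2`.
`(V W)' = 3 X^2 + 1 = (X+1)^2`.  `dbl`: `a₁ = c` for `u = 0`; `(X-1)^3` divides `X^4 + 1 = (X+1)^4`, so it
divides `c + c X^2 + X^3 + X = (X+1)^2 (X + c)`, so `X + 1 ∣ X + c`, `c = 1`.  `inf`: `field_simp`, `ring`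
(use `2 = 0`, `(4m+4)`: write `ζ^(4m+4) = (ζ^4)^(m+1)`, `(ζ⁻¹^4 + 1)^m (ζ^4)^m = (1 + ζ^4)^m`). -/
def Ty0Stmt : Prop :=
  ∀ m : ℕ, 2 ≤ m → ∃ t : AType2 (4 * m + 4), t.m = m ∧ t.V₁ = 1 ∧ t.V₂ = X ^ 2 ∧ t.W = X ^ 3 + X

/-- **Ty1.** Degrees `1` modulo four.

*Proof.*  `V = V₁ = X`, `V₂ = X^3`, `W = X^2 + 1`, `D = 1`, `η = 0`, `r = 4m + 3`, `s = 4m + 2`, `k = 1`.
`V W = X^3 + X`.  `dbl`: `a₁ = c`, `c X + c X^3 + X^2 + 1 = (X+1)^2 (c X + 1)`, so `c + 1 = 0`.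
`inf`: `ζ^(4m+6) ζ⁻¹ f(ζ⁻¹) = (1+ζ^4)^m (e^12 (1+ζ^4) + τ ζ^4) + a₁ ζ^(4m+4) + c ζ^(4m+2) + ζ^(4m+3) + ζ^(4m+5)`.
`hrs`: `2 (4m+2) < 3 (4m)` because `m ≥ 2`. -/
def Ty1Stmt : Prop :=
  ∀ m : ℕ, 2 ≤ m → ∃ t : AType2 (4 * m + 5), t.m = m ∧ t.V₁ = X ∧ t.V₂ = X ^ 3 ∧ t.W = X ^ 2 + 1

/-- **Ty3.** Degrees `3` modulo four.

*Proof.*  `V = X`, `V₁ = X^3`, `V₂ = X`, `W = X^2 + 1`, `D = 1`, `η = 0`, `r = 4m + 5`, `s = 4m + 6`, `k = 3`.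
`V V₁ = X^4`, `V V₂ = X^2`, `V W = X^3 + X`.  `dbl`: `a₁ = c`, `c X^3 + c X + X^2 + 1 = (X+1)^2 (c X + 1)`.
`inf`: `ζ^(4m+8) ζ⁻¹ f(ζ⁻¹) = (1+ζ^4)^m (e^12 (1+ζ^4) + τ ζ^4) + a₁ ζ^(4m+4) + c ζ^(4m+6) + ζ^(4m+5) +
ζ^(4m+7)`. -/
def Ty3Stmt : Prop :=
  ∀ m : ℕ, 1 ≤ m → ∃ t : AType2 (4 * m + 7), t.m = m ∧ t.V₁ = X ^ 3 ∧ t.V₂ = X ∧ t.W = X ^ 2 + 1

/-- **Ty2.** Degrees `2` modulo four.

*Proof.*  `V = X^2 + X + 1`, `V₁ = V^3`, `V₂ = X^2 (X+1)^2 V`, `W = X^6 + X^5 + X^3 + X^2 + X`,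
`D = X^2 + X + 1`, `η = 1`, `r = 4m + 9`, `s = 4m + 10`, `k = 3`.  `V V₁ = V^4 = X^8 + X^4 + 1`,
`V V₂ = (X^4 + X)^2 = X^8 + X^2`, `V W = X^8 + X^3 + X`; `V₂(1) = 0`, `W(1) = 1`.  `cop`: `W ≡ X` modulo `V`
(`X^3 ≡ 1`).  `dbl`: `a₁ = 1` for `u = 0`, `V (V₁ + c V₂ + W) = (X+1)^2 (V + c X^2 V^2)`, `V(1) = 1`, so
`1 + c = 0`.  `inf`: `n + 2 = 4m + 12`, `ζ^8 (V V₁)(ζ⁻¹) = D(ζ)^4 = D(ζ^4)`. -/
def Ty2Stmt : Prop :=
  ∀ m : ℕ, 1 ≤ m → ∃ t : AType2 (4 * m + 10), t.m = m ∧ t.V₁ = (X ^ 2 + X + 1) ^ 3 ∧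
    t.V₂ = X ^ 2 * (X + 1) ^ 2 * (X ^ 2 + X + 1) ∧ t.W = X ^ 6 + X ^ 5 + X ^ 3 + X ^ 2 + X

/-- **Sep.** Separability.  *Model*: `Alt/Sep.lean`.

*Proof.*  `f = t.f e τ c u` (`e = 0` allowed).  `V' f + V f' = (X+1)^2` (`derivative_f`), and `f` is coprime
to `X + 1` because `f(1) = u ≠ 0` (`eval_f`).  So `a f + b (V' f + V f') = 1` for some `a, b`. -/
def SepStmt : Prop :=
  ∀ (n : ℕ) (t : AType2 n) (F : Type) [Field F] [Algebra (ZMod 2) F] (e τ c u : F), u ≠ 0 →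
    (t.f e τ c u).Separable

/-- **Mul.** Multiple roots: only `1`, and of multiplicity at most two if not `u = 0`, `c = 1`.

*Proof.*  If `(X - r)^2 ∣ f` then `X - r` divides `(V f)' = (X+1)^2`, so `r = 1`.  If `(X - 1)^3 ∣ f` then
`u = f(1) = 0`, and `c = 1` by `dbl`. -/
def MulStmt : Prop :=
  ∀ (n : ℕ) (t : AType2 n) (F : Type) [Field F] [Algebra (ZMod 2) F] (e τ c u : F),
    (∀ r : F, (X - C r) ^ 2 ∣ t.f e τ c u → r = 1) ∧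
      ((X - C 1) ^ 3 ∣ t.f e τ c u → u = 0 ∧ c = 1)

/-! ## Part 2.  The sign class -/

/-- **E2.** Rules for the second elementary symmetric function. -/
def E2Stmt : Prop :=
  ∀ (n : ℕ) (F : Type) [Field F] [Algebra (ZMod 2) F] (x y : Fin n → F) (a : F),
    esym2 (fun i => x i + y i) = esym2 x + esym2 y + (∑ i, x i) * (∑ i, y i) + ∑ i, x i * y i ∧
    esym2 (fun i => a * x i) = a ^ 2 * esym2 x ∧ esym2 (fun i => x i ^ 2) = esym2 x ^ 2 ∧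
    esym2 (fun _ : Fin n => a) = (n.choose 2 : F) * a ^ 2

/-- **BB.** The basic identity for tournament weights `a_ij + a_ji = 1` in characteristic two:
`e₂(z) = Σ_{i<j} a_ij a_ji + Σ_i e₂(a_i*) + const`, `z_i = Σ_{j≠i} a_ij`.

*Proof.*  Induction on `n` with `κ_{n+1} = κ_n + (n+1) C(n,2)`.  Let the new index be `∗` (`Fin.last` or `0`),
`b_i = a_{i∗}`, `a_{∗i} = 1 + b_i`, sums over the `n` old indices.  `z_i` becomes `z_i + b_i`, and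
`z_∗ = n + Σb`.
`e₂(z)` becomes `e₂(z + b) + z_∗ Σ(z + b) = e₂(z) + e₂(b) + Σz Σb + Σ z b + (n + Σb)(Σz + Σb)`.
`β` becomes `β + Σ b (1 + b)`.  `Σ_v e₂(a_v*)` becomes `Σ_v e₂(a_v*) + Σ b_v z_v + e₂(1 + b)`, and
`e₂(1 + b) = C(n,2) + n Σb + Σb + e₂(b)`.  The sum of the three changes is
`Σz Σb + (n + Σb)(Σz + Σb) + Σb + Σb² + C(n,2) + n Σb + Σb = n Σz + C(n,2)` (characteristic two,
`(Σb)^2 = Σb²`), and `Σz = Σ_{i≠j} a_ij = C(n,2)`. -/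
def BBStmt : Prop :=
  ∀ n : ℕ, ∃ κ : ZMod 2, ∀ (F : Type) [Field F] [Algebra (ZMod 2) F] (a : Fin n → Fin n → F),
    (∀ i j, i ≠ j → a i j + a j i = 1) →
    esym2 (fun i => ∑ j ∈ Finset.univ.erase i, a i j) =
      (∑ i, ∑ j ∈ Finset.Ioi i, a i j * a j i) +
      (∑ i, ∑ j ∈ Finset.univ.erase i, ∑ l ∈ (Finset.Ioi j).erase i, a i j * a i l) +
      algebraMap (ZMod 2) F κ

/-- **HD.** Taylor coefficients at the roots.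

*Proof.*  `P(X + y_i) = lc X ∏_{j≠i} (X + d_j)`, `d_j = y_i + y_j ≠ 0`; the coefficients of `X, X^2, X^3` of
`P(X + y_i)` (`Polynomial.taylor`, `taylor_coeff`: Hasse derivatives at `y_i`) are `lc Π`, `lc Π Σ 1/d_j`,
`lc Π Σ_{j<l} 1/(d_j d_l)` with `Π = ∏_{j≠i} d_j`.  (For a finite set `s` the first three coefficients of
`∏_{j∈s} (X + d_j)` are `Π`, `Π Σ 1/d_j`, `Π e₂(1/d)`: induction on `s`; the sum over pairs of `s ⊆ Fin n` as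
`Σ_{j∈s} Σ_{l∈s, l>j}`.) -/
def HDStmt : Prop :=
  ∀ (n : ℕ) (F : Type) [Field F] [Algebra (ZMod 2) F] (P : F[X]) (lc : F) (y : Fin n → F),
    Function.Injective y → lc ≠ 0 → P = C lc * ∏ i, (X - C (y i)) → ∀ i,
    (derivative P).eval (y i) ≠ 0 ∧
    (∑ j ∈ Finset.univ.erase i, y i / (y i + y j)) * (derivative P).eval (y i) =
      y i * (hasseDeriv 2 P).eval (y i) ∧
    (∑ j ∈ Finset.univ.erase i, ∑ l ∈ (Finset.Ioi j).erase i,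
      y i / (y i + y j) * (y i / (y i + y l))) * (derivative P).eval (y i) =
      y i ^ 2 * (hasseDeriv 3 P).eval (y i)

/-- **TE.** Taylor coefficients at `1`, and the two highest coefficients.

*Proof.*  `P(X + 1) = lc ∏ (X + (y_i + 1)) = P(1) ∏ (1 + t_i X)`.  The coefficients `E₁, E₂, E₃` of
`∏ (1 + t_i X)` are `Σ t`, `e₂(t)`, and `E₃ = Σ t³ + (Σ t)^3 + Σ t e₂(t)`: induction on `n` (a new factor
`1 + t X`: `E₁ + t`, `E₂ + t E₁`, `E₃ + t E₂`).  The last two claims: induction on `n` for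
`∏ (X + y_i)`. -/
def TEStmt : Prop :=
  ∀ (n : ℕ) (F : Type) [Field F] [Algebra (ZMod 2) F] (P : F[X]) (lc : F) (y : Fin n → F),
    lc ≠ 0 → P = C lc * ∏ i, (X - C (y i)) →
    (P.eval 1 ≠ 0 → ∀ t : Fin n → F, (∀ i, t i = (y i + 1)⁻¹) →
      (∀ i, y i ≠ 1) ∧
      (∑ i, t i) * P.eval 1 = (derivative P).eval 1 ∧
      esym2 t * P.eval 1 = (hasseDeriv 2 P).eval 1 ∧
      (∑ i, t i ^ 3 + (∑ i, t i) ^ 3 + (∑ i, t i) * esym2 t) * P.eval 1 =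
        (hasseDeriv 3 P).eval 1) ∧
    (1 ≤ n → P.coeff (n - 1) = lc * ∑ i, y i) ∧ (2 ≤ n → P.coeff (n - 2) = lc * esym2 y)

/-- **ClsA.** The sign class for `P = A(X^4) + c X^2 + X^3 + X`.

*Proof.*  `β := bsum^2 + bsum = Σ_{i<j} a_ij a_ji` with `a_ij = y_i/(y_i + y_j)`, `a_ij + a_ji = 1`
(`a² + a = a (1 + a)`).  `P' = (X+1)^2`, Hasse derivatives `P[2] = c + X`, `P[3] = 1` (`A((X+h)^4) =
A(X^4 + h^4)` contributes nothing; `C(4j,2)` and `C(4j,3)` are even).  `t_i = 1/(y_i + 1)`, `C = 1 + c`.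
*HD*: `z_i = y_i (c + y_i)/(y_i+1)^2 = 1 + C t_i^2 + c t_i` and `w_i := e₂(a_i*) = y_i^2/(y_i+1)^2 = 1 + t_i^2`.
*TE*: `Σ t = 0`, `Σ t² = (Σ t)² = 0`, `e₂(t) = C/u`, `Σ t³ = 1/u`.  *E2*: `e₂(C t² + c t) = C² e₂(t)² + c² e₂(t) +
C c (Σ t² Σ t + Σ t³) = C⁴/u² + c² C/u + C c/u = C⁴/u² + C² c/u` and `e₂(1 + x) = C(N,2) + (N+1) Σ x + e₂(x)`, here
`Σ x = 0`.  *BB*: `β = e₂(z) + Σ w + κ₁ = C⁴/u² + C² c/u + C(N,2) + N + κ₁`, and `C² c/u = C³/u + C²/u`.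
*Uses*: E2, BB, HD, TE. -/
def ClsAStmt : Prop :=
  ∀ N : ℕ, ∃ κ : ZMod 2, ∀ (F : Type) [Field F] [Algebra (ZMod 2) F] (A : F[X]) (lc c u : F)
    (y : Fin N → F), lc ≠ 0 → u ≠ 0 → Function.Injective y →
    expand F 4 A + C c * X ^ 2 + X ^ 3 + X = C lc * ∏ i, (X - C (y i)) →
    (expand F 4 A + C c * X ^ 2 + X ^ 3 + X).eval 1 = u →
    bsum y ^ 2 + bsum y = (1 + c) ^ 3 / u + ((1 + c) ^ 2 / u) ^ 2 + (1 + c) ^ 2 / u +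
      algebraMap (ZMod 2) F κ

/-- **ClsB.** The sign class for `P = X A(X^4) + c X^3 + X^2 + 1` of degree `N = 4k + 1 ≥ 9`.

*Proof.*  As in *ClsA*.  `X P' + P = (X+1)^2` (`X P = X^2 A(X^4) + c X^4 + X^3 + X`), so `P'(y_i) =
(y_i+1)^2/y_i` (`y_i ≠ 0`: `P(0) = 1`); `P[2] = c X + 1`, `P[3] = c`.  With `x_i = y_i + 1 = 1/t_i`:
`z_i = y_i^2 (c y_i + 1)/(y_i+1)^2 = C + c x_i + C t_i^2 + c t_i`,
`w_i = c y_i^3/(y_i+1)^2 = c (1 + t_i^2 + x_i + t_i)`.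
`P'(1) = A(1) + c = P(1) = u` (`P(1) = A(1) + c + 1 + 1`), so *TE*: `Σ t = 1`, `Σ t² = 1`, `e₂(t) = C/u`,
`Σ t³ = 1 + C/u + c/u = 1 + 1/u`; the coefficients of `X^(N-1)` and `X^(N-2)` of `P` vanish (`k ≥ 2`), so
`Σ y = 0`, `e₂(y) = 0`, `Σ x = N = 1`, `e₂(x) = C(N,2) + (N+1) Σ y + e₂(y) = 0` (`C(4k+1,2) = 2k(4k+1)`).
`e₂(z) = C(N,2) C² + (N+1)(…) + e₂(c x + C t² + c t) = e₂(c x + C t² + c t)` (`N + 1` is even)
`= c² e₂(x) + e₂(C t² + c t) + (Σ c x)(Σ (C t² + c t)) + Σ c x (C t² + c t)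
= 0 + [C⁴/u² + c² C/u + C c (1 + 1 + 1/u)] + c (C + c) + c (C Σ t + c N) = C⁴/u² + c² C/u + C c/u + c + c (C + c)`
`= C⁴/u² + C² c/u` (`C + c = 1`).  `Σ w = c (N + 1 + 1 + 1) = 0`.  So `β = C⁴/u² + C² c/u + κ₁`.
*Uses*: E2, BB, HD, TE. -/
def ClsBStmt : Prop :=
  ∀ k : ℕ, 2 ≤ k → ∃ κ : ZMod 2, ∀ (F : Type) [Field F] [Algebra (ZMod 2) F] (A : F[X])
    (lc c u : F) (y : Fin (4 * k + 1) → F), lc ≠ 0 → u ≠ 0 → Function.Injective y →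
    X * expand F 4 A + C c * X ^ 3 + X ^ 2 + 1 = C lc * ∏ i, (X - C (y i)) →
    (X * expand F 4 A + C c * X ^ 3 + X ^ 2 + 1).eval 1 = u →
    bsum y ^ 2 + bsum y = (1 + c) ^ 3 / u + ((1 + c) ^ 2 / u) ^ 2 + (1 + c) ^ 2 / u +
      algebraMap (ZMod 2) F κ

/-- **App.** One more root.  *Proof.*  `Fin.sum_univ_succ`, `Finset.Ioi` of `0` and of a successor. -/
def AppStmt : Prop :=
  ∀ (n : ℕ) (F : Type) [Field F] (a : F) (y : Fin n → F),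
    bsum (Fin.cons a y : Fin (n + 1) → F) = ∑ j, a / (a + y j) + bsum y

/-- **Cls01.** Types `0` and `1`.

*Proof.*  Type 0: `f = A(X^4) + c X^2 + X^3 + X` with `A = e^12 (X+1)^(m+1) + τ (X+1)^m + a₁`, `f(1) = u`
(`eval_f`): *ClsA*, with `s = C²/u` (`ρn = 0`, `ρd = 1`).  Type 1: `f = X A(X^4) + c X^3 + X^2 + 1`, `n = 4(m+1) + 1`:
*ClsB* (`k = m + 1`).
*Uses*: ClsA, ClsB. -/
def Cls01Stmt : Prop :=
  (∀ m : ℕ, ∃ κ : ZMod 2, ∀ t : AType2 (4 * m + 4), t.m = m → t.V₁ = 1 → t.V₂ = X ^ 2 →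
    t.W = X ^ 3 + X → HasCls t κ 0 1) ∧
  (∀ m : ℕ, 1 ≤ m → ∃ κ : ZMod 2, ∀ t : AType2 (4 * m + 5), t.m = m → t.V₁ = X → t.V₂ = X ^ 3 →
    t.W = X ^ 2 + 1 → HasCls t κ 0 1)

/-- **Cls3.** Type `3`: the polynomial of *ClsA* without the root `0`.

*Proof.*  `f = X^3 A₁(X^4) + c X + X^2 + 1`, `A₁ = e^12 (X+1)^(m+1) + τ (X+1)^m + a₁`.  `X f = A(X^4) + c X^2 +
X^3 + X` with `A = X A₁`, value `u` at `1`; its roots are `0` and the `y_i` (`f(0) = 1`, so `y_i ≠ 0`):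
`X f = e^12 ∏ (X - y'_i)`, `y' = Fin.cons 0 y` injective.  *App*: `bsum y' = bsum y` (`0/(0 + y_j) = 0`).  *ClsA*.
*Uses*: ClsA, App. -/
def Cls3Stmt : Prop :=
  ∀ m : ℕ, ∃ κ : ZMod 2, ∀ t : AType2 (4 * m + 7), t.m = m → t.V₁ = X ^ 3 → t.V₂ = X →
    t.W = X ^ 2 + 1 → HasCls t κ 0 1

/-- **Cls2.** Type `2`: the polynomial of *ClsA* without the roots `ω, ω²`.

*Proof.*  `V = X^2 + X + 1`, `f = V^3 A₁(X^4) + c X^2 (X+1)^2 V + W`, `A₁ = e^12 (X+1)^(m+1) + τ (X+1)^m + a₁`.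
`V f = (X^8 + X^4 + 1) A₁(X^4) + c (X^8 + X^2) + X^8 + X^3 + X = A(X^4) + c X^2 + X^3 + X` with
`A = (X^2 + X + 1) A₁ + (1 + c) X^2`; value `V(1) u = u` at `1`.  `Ω` is separably closed: let `ω ∈ Ω`,
`ω^2 + ω + 1 = 0` (separable polynomial), `ω' = ω + 1 = ω^2` the other root.  `f(ω) = W(ω) = ω ≠ 0`
(`V(ω) = 0`, `ω^3 = 1`), also `f(ω') = ω' ≠ 0`.  `V f = e^12 ∏ (X - y'_i)` with `y' = Fin.cons ω (Fin.cons ω' y)`
injective, of length `4m + 12`.  *App* twice: `bsum y' = ω/(ω + ω') + Σ_j (ω/(ω + y_j) + ω'/(ω' + y_j)) + bsum y =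
ω + Σ_j y_j/(y_j^2 + y_j + 1) + bsum y` (`ω + ω' = 1`, `ω ω' = 1`).  With `S = Σ_j y_j/(y_j^2 + y_j + 1)`:
`℘(bsum y) = ℘(bsum y') + ℘(S) + ω^2 + ω = C³/u + ℘(C²/u) + κ + ℘(S) + 1 = C³/u + ℘(C²/u + S) + κ + 1`.
*Uses*: ClsA, App. -/
def Cls2Stmt : Prop :=
  ∀ m : ℕ, ∃ κ : ZMod 2, ∀ t : AType2 (4 * m + 10), t.m = m → t.V₁ = (X ^ 2 + X + 1) ^ 3 →
    t.V₂ = X ^ 2 * (X + 1) ^ 2 * (X ^ 2 + X + 1) → t.W = X ^ 6 + X ^ 5 + X ^ 3 + X ^ 2 + X →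
    HasCls t κ X (X ^ 2 + X + 1)

/-- **Typ.** All degrees.

*Proof.*  `n ≡ 0`: `n = 4m + 4`, `m ≥ 2` (`n ≥ 12`); `n ≡ 1`: `n = 4m + 5`, `m ≥ 2` (`n ≥ 13`); `n ≡ 3`:
`n = 4m + 7`, `m ≥ 1`; `n ≡ 2`: `n = 4m + 10`, `m ≥ 1` (`n ≥ 14`).
*Uses*: Ty0, Ty1, Ty2, Ty3, Cls01, Cls2, Cls3. -/
def TypStmt : Prop :=
  ∀ n : ℕ, 11 ≤ n → ∃ (t : AType2 n) (κ : ZMod 2) (ρn ρd : (ZMod 2)[X]), HasCls t κ ρn ρd

/-- **Prm.** The sum `bsum` and permutations.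

*Proof.*  Let `a i j = y_i/(y_i + y_j)`, `a i j + a j i = 1` for `i ≠ j`.  `bsum (y ∘ ρ) = Σ_{i<j} a (ρ i) (ρ j)`.
Compare with `Σ_{k<l} a k l`: the unordered pair `{ρ i, ρ j}`, `i < j`, contributes `a (ρ i) (ρ j)`, which is
the term of the second sum if `ρ i < ρ j`, and differs from it by `1` otherwise.  So the difference is the
number of inversions modulo two.  `Equiv.Perm.sign_eq_prod_prod_Ioi` (or `..._Iio`, or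
`Equiv.Perm.signAux`) gives the sign as `(-1)` to the number of inversions.  Alternatively: it is enough to
prove the claim for adjacent transpositions (`Equiv.Perm.mclosure_swap_castSucc_succ`), by induction. -/
def PrmStmt : Prop :=
  ∀ (n : ℕ) (F : Type) [Field F] [Algebra (ZMod 2) F] (y : Fin n → F) (ρ : Equiv.Perm (Fin n)),
    Function.Injective y → bsum (y ∘ ρ) = bsum y + chi F (Equiv.Perm.sign ρ)

/-- **Lab.** Labelled roots with prescribed `bsum`.  *Model*: `Alt/Lab.lean`.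

*Proof.*  `u ≠ 0`, so `f = t.f e τ c u` is separable (*Sep*), of degree `n` with leading coefficient `e^12`,
and it splits over the separably closed field `Ω`: `f = e^12 ∏ (X - y_i)`, `y` injective.  With
`s = C²/u + Σ ρ(y_i)`: `℘(bsum y) = C³/u + ℘(s) + κ = ℘(δ + s)` (`HasCls`; `2κ = 0`), so `bsum y = δ + s` or
`δ + s + 1`.  In the second case replace `y` by `y ∘ swap 0 1` (`n ≥ 8`): `bsum` changes by `1` (*Prm*), the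
polynomial and `s` do not change.
*Uses*: Sep, Prm. -/
def LabStmt : Prop :=
  ∀ (n : ℕ) (t : AType2 n) (κ : ZMod 2) (ρn ρd : (ZMod 2)[X]), HasCls t κ ρn ρd →
    ∀ (Ω : Type) [Field Ω] [Algebra (ZMod 2) Ω] [IsSepClosed Ω] (e τ c u δ : Ω),
      e ≠ 0 → u ≠ 0 → (1 + c) ^ 3 / u = δ ^ 2 + δ + algebraMap (ZMod 2) Ω κ →
      ∃ y : Fin n → Ω, Function.Injective y ∧
        t.f e τ c u = C (e ^ 12) * ∏ i, (X - C (y i)) ∧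
        bsum y = δ + ((1 + c) ^ 2 / u + ∑ i, aeval (y i) ρn / aeval (y i) ρd)

/-! ## Part 3.  The parameters -/

/-- **Num.** The parameters with prescribed class `b`.

*Proof.*  `C = 1 + c = 1 + g + b g²`.  The identity: expand, `2 = 0` (both sides are
`1 + g + g² + g³ + b g² + b g⁴ + b² g⁴ + b² g⁵ + b³ g⁶`).  `g, b g ∈ V`: `c = g + (b g) g`, `D ∈ V`.  If `|C| < 1` and
`|D| < 1`: `D = g (C + g²)`, so `|g|^3 < 1` or: `|g (C + g²)| < 1` and `|g C| < 1` give `|g³| < 1`, `|g| < 1`, so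
`|C| = |1 + (g + (b g) g)| = 1`, contradiction.  Last claim: `|1 + c + g²| = 1`, so `≠ 0`. -/
def NumStmt : Prop :=
  ∀ (Ω : Type) [Field Ω] [Algebra (ZMod 2) Ω] (b g c D G : Ω), c = g + b * g ^ 2 →
    D = g * (1 + c + g ^ 2) → G = 1 + b * g ^ 2 + b * g ^ 3 →
    (1 + c) ^ 3 = b * D ^ 2 + G ^ 2 + G * D ∧
    ∀ V : ValuationSubring Ω, g ∈ V → b * g ∈ V →
      c ∈ V ∧ D ∈ V ∧ (V.valuation D = 1 ∨ V.valuation (1 + c) = 1) ∧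
      (V.valuation g < 1 → g ≠ 0 → D ≠ 0)

/-- **Add.** Additive Hilbert 90 for the sign cocycle.

*Proof.*  *Fam* (`m₀ = 1`, `r = 1`) gives a place `V`; *Pres* with `a = 1` gives `z₀ ∈ Ω` fixed by `ker ψ` with
`|z₀ - 1| < 1` and `|γ z₀| < 1` for `ψ γ ≠ 1`.  Let `γ_q ∈ Gx`, `ψ γ_q = q`; `q z₀ := γ_q z₀` is independent of the
choice; `S = Σ_q q z₀`, `|S - 1| < 1`, so `S ≠ 0`, and `γ S = S` for `γ ∈ Gx`.  `z = z₀/S`: fixed by `ker ψ`,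
`Σ_q q z = 1`.  For `χ_q(j) = chi (ε q j) ∈ {0, 1}`: `χ_{ab}(j) = χ_a(b j) + χ_b(j)` in characteristic two.
`d_j = Σ_q χ_q(q⁻¹ j) q z`.  For `γ ∈ Gx`, `g = ψ γ`: `γ d_j = Σ_q χ_q(q⁻¹ j) (g q) z = Σ_{q'} χ_{g⁻¹ q'}(q'⁻¹ g j) q' z`
(`q' = g q`), and `χ_{q'}(q'⁻¹ g j) = χ_g(j) + χ_{g⁻¹ q'}(q'⁻¹ g j)`, so `γ d_j = d_{g j} + χ_g(j) Σ q' z`.
*Uses*: Fam, Pres (of Lie). -/
def AddStmt : Prop :=
  ∀ (Ω : Type) [Field Ω] [Algebra (ZMod 2) Ω] (x : Ω), IsStage 2 x →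
    ∀ (Q : Type) [Group Q] [Finite Q] (ψ : Gx 2 x →* Q), FinLevel ψ → Function.Surjective ψ →
    ∀ (k : ℕ) (act : Q →* Equiv.Perm (Fin k)) (ε : Q → Fin k → ℤˣ),
    (∀ a b j, ε (a * b) j = ε a (act b j) * ε b j) →
    ∃ d : Fin k → Ω, ∀ (γ : Gx 2 x) (j : Fin k),
      (γ : Ω ≃ₐ[ZMod 2] Ω) (d j) = d (act (ψ γ) j) + chi Ω (ε (ψ γ) j)

/-- **Den.** Common denominators.

*Proof.*  `Ω` is algebraic over `𝔽₂(x)`, so over `R = Algebra.adjoin (ZMod 2) {x}`; every `b_j` has a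
nonzero multiple `r_j b_j` integral over `R`, `r_j ∈ R` (`exists_integral_multiple`); take the product. -/
def DenStmt : Prop :=
  ∀ (Ω : Type) [Field Ω] [Algebra (ZMod 2) Ω] (x : Ω), IsStage 2 x → ∀ (k : ℕ) (b : Fin k → Ω),
    ∃ g ∈ Algebra.adjoin (ZMod 2) {x}, g ≠ 0 ∧
      ∀ j, IsIntegral (Algebra.adjoin (ZMod 2) {x}) (g * b j)

/-- **Cpr.** The parameters `c_j`, `u_j` with class `b_j = d_j² + d_j + κ`.

*Proof.*  `d` from *Add*; `b_j = d_j² + d_j + κ`, `γ b_j = b_{act j}` (`(d+1)² + (d+1) = d² + d`).  `g₀` from *Den*.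
*Par* with `B = ∅` gives a place `V₀` and `P ∈ R = 𝔽₂[x]`, `P ≠ 0`, `|P| < 1`, `x ∈ V₀`.  `g = g₀ P`.  `c_j = g + b_j g²`,
`D_j = g (1 + c_j + g²)`, `G_j = 1 + b_j g² + b_j g³`, `u_j = D_j²`, `δ_j = d_j + G_j/D_j`.  `g` and `b_j g = (g₀ b_j) P` are
integral over `R`, so in `V₀` (integrally closed, contains `R`), and `|g| < 1`, so `D_j ≠ 0` (*Num*).
`(1 + c_j)³/u_j = b_j + (G_j/D_j)² + G_j/D_j = δ_j² + δ_j + κ` (*Num*; `2 = 0`).  `c_j`, `u_j` are integral (sums and products).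
All are equivariant: `γ g = g` (`γ` fixes `R`).  The last property: for `x ∈ V` the elements `g`, `b_j g` are
integral, so in `V`; *Num*, `|u_j| = |D_j|²`.
*Uses*: Add, Den, Num, Par (of Alt, `p = 2`). -/
def CprStmt : Prop :=
  ∀ (Ω : Type) [Field Ω] [Algebra (ZMod 2) Ω] (x : Ω), IsStage 2 x →
    ∀ (Q : Type) [Group Q] [Finite Q] (ψ : Gx 2 x →* Q), FinLevel ψ → Function.Surjective ψ →
    ∀ (k : ℕ) (act : Q →* Equiv.Perm (Fin k)) (ε : Q → Fin k → ℤˣ) (j₀ : Fin k) (κ : ZMod 2),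
    (∀ a b j, ε (a * b) j = ε a (act b j) * ε b j) → (∀ j, ∃ q, act q j₀ = j) →
    ∃ c u δ : Fin k → Ω, (∀ j, u j ≠ 0) ∧
      (∀ j, (1 + c j) ^ 3 / u j = δ j ^ 2 + δ j + algebraMap (ZMod 2) Ω κ) ∧
      (∀ (γ : Gx 2 x) j, (γ : Ω ≃ₐ[ZMod 2] Ω) (c j) = c (act (ψ γ) j)) ∧
      (∀ (γ : Gx 2 x) j, (γ : Ω ≃ₐ[ZMod 2] Ω) (u j) = u (act (ψ γ) j)) ∧
      (∀ (γ : Gx 2 x) j, (γ : Ω ≃ₐ[ZMod 2] Ω) (δ j) =
        δ (act (ψ γ) j) + chi Ω (ε (ψ γ) j)) ∧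
      (∀ j, IsIntegral (Algebra.adjoin (ZMod 2) {x}) (c j)) ∧
      (∀ j, IsIntegral (Algebra.adjoin (ZMod 2) {x}) (u j)) ∧
      ∀ V : ValuationSubring Ω, x ∈ V → ∀ j, V.valuation (u j) = 1 ∨ V.valuation (1 + c j) = 1

/-! ## Part 4.  Local analysis -/

/-- **LocA.** Good places: inertia acts trivially if its sign is `1`.  *Model*: `Alt/LocA.lean`.

*Proof.*  Let `k = IsLocalRing.ResidueField V`.  All coefficients of `f = t.f e τ c u` are in `V` and the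
leading coefficient `e^12` is a unit of `V`, so the `y_i` are integral over `V`, so in `V`.  Reduction:
`f̄ = t.f ē τ̄ c̄ ū = ē^12 ∏ (X - ȳ_i)` in `k[X]` (`map_f`).  `δ` preserves `V` and acts trivially on `k` (*Res*,
`Q = 1`), so `ȳ_{ρ i} = ȳ_i`.  If `ρ i ≠ i` then `(X - ȳ_i)^2 ∣ f̄`, so `ȳ_i = 1` (*Mul* for `k`), and at most two
indices `i` have `ȳ_i = 1`: otherwise `(X - 1)^3 ∣ f̄`, so `ū = 0` and `c̄ = 1` (*Mul*), `|u| < 1`, `|1 + c| < 1`.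
So `ρ` is the identity or a transposition, and a transposition has sign `-1`.
*Uses*: Res (of BR), Mul. -/
def LocAStmt : Prop :=
  ∀ (n : ℕ) (t : AType2 n) (Ω : Type) [Field Ω] [Algebra (ZMod 2) Ω] (x : Ω),
    IsStage 2 x → ∀ V : ValuationSubring Ω, V ≠ ⊤ → ∀ (e τ c u : Ω) (y : Fin n → Ω),
    e ∈ V → τ ∈ V → c ∈ V → u ∈ V → (V.valuation u = 1 ∨ V.valuation (1 + c) = 1) →
    V.valuation e = 1 → Function.Injective y →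
    t.f e τ c u = C (e ^ 12) * ∏ i, (X - C (y i)) →
    (∀ i, y i ∈ V) ∧
    ∀ δ ∈ Inert 2 V, ∀ ρ : Equiv.Perm (Fin n), (∀ i, δ (y i) = y (ρ i)) →
      Equiv.Perm.sign ρ = 1 → ρ = 1

/-- **LocN.** Bad places: exactly four roots are not in `V`, and two finite roots with the same residue
have the residue `1`, which at most two finite roots have.  *Model*: `Alt/LocN.lean`.

*Proof.*  Let `S` be the set of the `i` with `y_i ∉ V`, `ζ_i = 1/y_i` for `i ∈ S` (`|ζ_i| < 1`).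
`f = a g`, `a = e^12 ∏_{i ∈ S} (-y_i)`, `g = ∏_{i ∈ S} (1 - ζ_i X) ∏_{i ∉ S} (X - y_i) ∈ V[X]`.  The reduction
`ḡ = ∏_{i ∉ S} (X - ȳ_i)` is monic of degree `n - |S|`.  `f ∈ V[X]` and its reduction `f̄ = t.f 0 τ̄ c̄ ū = t.B τ̄ c̄ ū` has
degree `n - 4` with leading coefficient `τ̄ ≠ 0` (`natDegree_B`, `coeff_B`, `ē = 0`).  As `g` has a
coefficient which is a unit and `f = a g` has coefficients in `V`: `a ∈ V`; so `f̄ = ā ḡ`, `ā ≠ 0`, and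
`n - 4 = n - |S|`.  The claims on residues: `f̄ = ā ∏_{i ∉ S} (X - ȳ_i)` and *Mul* for `k = IsLocalRing.ResidueField V`
(`e = 0`): if `|y_i - y_j| < 1`, `i ≠ j`, then `(X - ȳ_i)^2 ∣ f̄`, so `ȳ_i = 1`; if `|y_i - 1| < 1` for three
different `i` then `(X - 1)^3 ∣ f̄`, so `|u| < 1` and `|1 + c| < 1`, contradiction.
*Uses*: Mul. -/
def LocNStmt : Prop :=
  ∀ (n : ℕ) (t : AType2 n) (Ω : Type) [Field Ω] [Algebra (ZMod 2) Ω]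
    (V : ValuationSubring Ω), V ≠ ⊤ → ∀ (e τ c u : Ω) (y : Fin n → Ω),
    e ≠ 0 → V.valuation e < 1 → V.valuation τ = 1 → c ∈ V → u ∈ V →
    (V.valuation u = 1 ∨ V.valuation (1 + c) = 1) →
    t.f e τ c u = C (e ^ 12) * ∏ i, (X - C (y i)) →
    Nat.card {i // y i ∉ V} = 4 ∧
    (∀ i j, i ≠ j → y i ∈ V → y j ∈ V → V.valuation (y i - y j) < 1 →
      V.valuation (y i - 1) < 1) ∧
    ∀ i j l, i ≠ j → j ≠ l → i ≠ l → V.valuation (y i - 1) < 1 →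
      V.valuation (y j - 1) < 1 → ¬ V.valuation (y l - 1) < 1

/-- **LocE.** The equation of the infinite roots.

*Proof.*  `H(Z) = D(Z) ((1+Z)^m (e^12 (1+Z) + τ Z) + a₁ Z^(m+1)) + η (1+c) Z^(m+1)` (`inf`; the left side of `inf`
is `0` at a root; `D(Z) = aeval Z t.D`).  `D(0) = 1`, so `D(Z) (1+Z)^(m+1) = 1 + Z A(Z)` and `D(Z) (1+Z)^m = 1 + Z A'(Z)`
with `A, A' ∈ 𝔽₂[Z]`, and `m ≥ 1`: `H(Z) = e^12 + τ Z + e^12 Z A(Z) + Z² Q(Z)`, `Q = τ A' + Z^(m-1) (a₁ D + η (1+c))`, a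
polynomial with coefficients in `V` (`a₁ ∈ V`).  Second claim: `|A(Z)|, |Q(Z)| ≤ 1`.  Third claim: for a
polynomial `Q` over `V`: `|Q(Z₁) - Q(Z₂)| ≤ |Z₁ - Z₂|`, so `|Z₁ A(Z₁) - Z₂ A(Z₂)| ≤ |Z₁ - Z₂|` and
`|Z₁² Q(Z₁) - Z₂² Q(Z₂)| ≤ max(|Z₁|, |Z₂|) |Z₁ - Z₂|`. -/
def LocEStmt : Prop :=
  ∀ (n : ℕ) (t : AType2 n) (Ω : Type) [Field Ω] [Algebra (ZMod 2) Ω]
    (V : ValuationSubring Ω), V ≠ ⊤ → ∀ (e τ c u : Ω),
    V.valuation e < 1 → τ ∈ V → c ∈ V → u ∈ V →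
    ∃ H : Ω → Ω, (∀ ζ, ζ ≠ 0 → (t.f e τ c u).eval ζ⁻¹ = 0 →
      H (ζ ^ 4) + c * ζ ^ t.s + ζ ^ t.r * (1 + ζ ^ 2) = 0) ∧
    (∀ Z, V.valuation Z < 1 → V.valuation (H Z - (e ^ 12 + τ * Z)) ≤
      max (V.valuation e ^ 12 * V.valuation Z) (V.valuation Z ^ 2)) ∧
    ∀ Z₁ Z₂, V.valuation Z₁ < 1 → V.valuation Z₂ < 1 →
      V.valuation (H Z₁ - H Z₂ - τ * (Z₁ - Z₂)) ≤
        max (V.valuation e ^ 12) (max (V.valuation Z₁) (V.valuation Z₂)) *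
          V.valuation (Z₁ - Z₂)

/-- **LocV.** Valuations of the infinite roots and of their differences.  *Model*: `Alt/LocV.lean`.

*Proof.*  `ζ = 1/y`, `|ζ| < 1`, `q = |ζ|`.  *LocE*: `|e^12 + τ ζ^4| ≤ max(|e|^12 q^4, q^8, q^s, q^r)`, `s, r ≥ 5`, `|τ| = 1`, so
`|e|^12 = q^4`, `q = |e|^3` (`x ↦ x^4` is injective), and then `|e^12 + τ ζ^4| ≤ q^5` (first and third claims).
Two roots `ζ₁ ≠ ζ₂`, both of value `q = |e|^3 < 1`; `Δ = |ζ₁ - ζ₂|`.  `|ζ₁^4 - ζ₂^4| = Δ^4` (`(ζ₁ - ζ₂)^4 = ζ₁^4 - ζ₂^4`), and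
`|τ (ζ₁^4 - ζ₂^4)| ≤ q^5 < q^4`, so `Δ < q`.  Subtract the two equations:
`H(ζ₁^4) - H(ζ₂^4) = c (ζ₁^s - ζ₂^s) + (ζ₁^r - ζ₂^r) + (ζ₁^(r+2) - ζ₂^(r+2))` (up to signs).  The left side has the value
`Δ^4` (*LocE*, third claim of the statement).  `s = 2 s'`: `|ζ₁^s - ζ₂^s| = |ζ₁^s' - ζ₂^s'|^2 ≤ (Δ q^(s'-1))^2 = Δ^2 q^(s-2)`.
`ζ₁^r - ζ₂^r = (ζ₁ - ζ₂) Σ_{a<r} ζ₁^a ζ₂^(r-1-a)`, and the sum is `ζ₂^(r-1) (r + m)`, `|m| < 1` (`|ζ₁/ζ₂ - 1| < 1`), `r` odd, so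
`|ζ₁^r - ζ₂^r| = Δ q^(r-1)`; `|ζ₁^(r+2) - ζ₂^(r+2)| ≤ Δ q^(r+1) < Δ q^(r-1)`.  So the last two terms together have the value
`Δ q^(r-1)`.  If `Δ^2 q^(s-2) < Δ q^(r-1)` then `Δ^4 = Δ q^(r-1)`, `Δ^3 = q^(r-1) = |e|^(3(r-1))`, `Δ = |e|^(r-1)`.  Otherwise
`q^(r-1) ≤ Δ q^(s-2)`, `Δ^4 ≤ Δ^2 q^(s-2)`, `Δ^2 ≤ q^(s-2)`, `q^(2(r-1)) ≤ Δ^2 q^(2(s-2)) ≤ q^(3(s-2))`, contradiction to `hrs`
(`q < 1`, `q ≠ 0`).
*Uses*: LocE. -/
def LocVStmt : Prop :=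
  ∀ (n : ℕ) (t : AType2 n) (Ω : Type) [Field Ω] [Algebra (ZMod 2) Ω]
    (V : ValuationSubring Ω), V ≠ ⊤ → ∀ (e τ c u : Ω),
    e ≠ 0 → V.valuation e < 1 → V.valuation τ = 1 → c ∈ V → u ∈ V →
    (∀ y : Ω, y ∉ V → (t.f e τ c u).eval y = 0 → V.valuation y⁻¹ = V.valuation e ^ 3) ∧
    (∀ y : Ω, y ∉ V → (t.f e τ c u).eval y = 0 →
      V.valuation (e ^ 12 + τ * y⁻¹ ^ 4) ≤ V.valuation e ^ 15) ∧
    ∀ y y' : Ω, y ∉ V → y' ∉ V → y ≠ y' → (t.f e τ c u).eval y = 0 → (t.f e τ c u).eval y' = 0 →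
      V.valuation (y⁻¹ - y'⁻¹) = V.valuation e ^ (t.r - 1)

/-- **LocB.** Bad places: inertia of sign `1` has order dividing `2` and fixes the finite roots.
*Model*: `Alt/LocB.lean`.

*Proof.*  `S = {i : y_i ∉ V}`, stable under `ρ` (`δ` preserves `V`), four elements (*LocN*).  `θ_{ij} =
(ζ_i - ζ_j)/e^(r-1)`, `ζ_i = 1/y_i`: for `i ≠ j` in `S` it is a unit (*LocV*).  `δ` fixes `e`, so `δ θ_{ij} =
θ_{ρ i, ρ j}` has the same residue as `θ_{ij}` (*Res*, `Q = 1`).  Fix `i₀ ∈ S` and let `θ_i` be the residue of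
`θ_{i i₀}` in `k = IsLocalRing.ResidueField V`: `θ_i ≠ θ_j` for `i ≠ j` in `S`, and `θ_{ρ i} = θ_i + a` with
`a = θ_{ρ i₀}`.  So `ρ² i = i` for `i ∈ S` (`2a = 0`), and `ρ` fixes all elements of `S` (`a = 0`) or none (`a ≠ 0`).  On the
complement of `S` residues of the `y_i` are preserved; by *LocN* a point `i ∉ S` with `ρ i ≠ i` has residue
`1`, and at most two points have residue `1`; so `ρ` is the identity or a transposition on the complement.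
So `ρ² = 1`.  If it is a transposition there, then the support of `ρ` has two or six elements, and
`sign ρ = (-1)^(|support|/2) = -1` (`Equiv.Perm.sign_of_pow_two_eq_one`), contradiction.
*Uses*: Res (of BR), LocN, LocV. -/
def LocBStmt : Prop :=
  ∀ (n : ℕ) (t : AType2 n) (Ω : Type) [Field Ω] [Algebra (ZMod 2) Ω] (x : Ω),
    IsStage 2 x → ∀ V : ValuationSubring Ω, V ≠ ⊤ → ∀ (e τ c u : Ω) (y : Fin n → Ω),
    e ≠ 0 → V.valuation e < 1 → V.valuation τ = 1 → c ∈ V → u ∈ V →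
    (V.valuation u = 1 ∨ V.valuation (1 + c) = 1) →
    Function.Injective y → t.f e τ c u = C (e ^ 12) * ∏ i, (X - C (y i)) →
    ∀ δ ∈ Inert 2 V, δ e = e → ∀ ρ : Equiv.Perm (Fin n), (∀ i, δ (y i) = y (ρ i)) →
      Equiv.Perm.sign ρ = 1 → ρ ^ 2 = 1 ∧ ∀ i, y i ∈ V → ρ i = i

/-- **Wild.** At a zero of `e` where `τ` is not constant to the first order, inertia moves a root.
*Model*: `Alt/Wild.lean`.

*Proof.*  By *LocN* some `y_i ∉ V`; suppose that all `δ ∈ Gx ⊓ Inert V` fix `y_i`, `ζ = 1/y_i`.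
`|ζ| = |e|^3` (*LocV*), `ζ' = ζ / e^3`, `|ζ'| = 1`, fixed by `Gx ⊓ Inert V`, also `e`.  *Unr*:
`|e| ≤ |x - x₀| =: q`, so `|e|^3 < |e| ≤ q` (`e ≠ 0`, `|e| < 1`).  *LocV*, second claim, divided by `e^12`:
`|1 + τ ζ'^4| ≤ |e|^3 < q`.  Let `ζ₀ ∈ 𝔽` be the residue of `ζ'` (*Res*); `1 + τ₀ ζ₀^4` is a constant with
`|1 + τ₀ ζ₀^4| < 1` (`|τ - τ₀| = q < 1`), so `τ₀ ζ₀^4 = 1` (nonzero constants have value `1`).
`1 + τ ζ'^4 = τ (ζ'^4 - ζ₀^4) + (τ - τ₀) ζ₀^4`; `|(τ - τ₀) ζ₀^4| = q`, so `|ζ'^4 - ζ₀^4| = q`, `b = ζ' - ζ₀`, `|b|^4 = q`.  But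
`b` is fixed by `Gx ⊓ Inert V` (inertia fixes constants) and `|b| < 1`, so `|b| ≤ q` (*Unr*), `|b|^4 ≤ q^4 < q`,
contradiction.
*Uses*: Res (of BR), LocN, LocV, Unr (of Alt, `p = 2`). -/
def WildStmt : Prop :=
  ∀ (n : ℕ) (t : AType2 n) (Ω : Type) [Field Ω] [Algebra (ZMod 2) Ω] (x : Ω),
    IsStage 2 x → ∀ V : ValuationSubring Ω, V ≠ ⊤ → ∀ (e τ c u x₀ τ₀ : Ω) (y : Fin n → Ω),
    e ≠ 0 → V.valuation e < 1 → V.valuation τ = 1 → c ∈ V → u ∈ V →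
    (V.valuation u = 1 ∨ V.valuation (1 + c) = 1) →
    x₀ ∈ Cst 2 Ω → V.valuation (x - x₀) < 1 → τ₀ ∈ Cst 2 Ω →
    V.valuation (τ - τ₀) = V.valuation (x - x₀) →
    (∀ δ ∈ Gx 2 x ⊓ Inert 2 V, δ e = e) →
    t.f e τ c u = C (e ^ 12) * ∏ i, (X - C (y i)) →
    ∃ δ ∈ Gx 2 x ⊓ Inert 2 V, ∃ i, δ (y i) ≠ y i

/-! ## Part 5.  Generic double transitivity -/

/-- **Gen1.** The polynomials `A = V₁ (X^4+1)^(m+1)` and `B = t.B τ c u` satisfy the conditions of *Eis*.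
*Model*: `Alt/Gen1.lean`.

*Proof.*  `B = t.f 0 τ c u` (`f_zero`) is separable (*Sep*), so squarefree; degree `n - 4 > 0` (`natDegree_B`).
Coprime to `X^4 + 1 = (X+1)^4` because `B(1) = u ≠ 0` (`eval_B`).  Coprime to `V₁`: `V₁ ∣ V^k` (`dvdk`), and `V`
divides `V₁` and `V₂`, so `B ≡ W` modulo `V`, coprime to `V` (`cop`).
*Uses*: Sep. -/
def Gen1Stmt : Prop :=
  ∀ (n : ℕ) (t : AType2 n) (F : Type) [Field F] [Algebra (ZMod 2) F] (τ c u : F), τ ≠ 0 → u ≠ 0 →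
    IsCoprime (t.V₁F F * (X ^ 4 + 1) ^ (t.m + 1)) (t.B τ c u) ∧ Squarefree (t.B τ c u) ∧
      0 < (t.B τ c u).natDegree

/-- **Gen2.** The same for the polynomial with one root removed.  *Model*: `Alt/Gen2.lean`.

*Proof.*  `B = t.B lam c u = (X - a) B₁` is separable (*Sep*), of degree `n - 4` (`natDegree_B`), so `B₁` is squarefree
of degree `n - 5 ≥ 1` (`n ≥ 8`), and `B₁(a) ≠ 0`.  `B₁` divides `B`, which is coprime to `V₁ (X^4+1)^(m+1)` (*Gen1*).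
*Uses*: Sep, Gen1. -/
def Gen2Stmt : Prop :=
  ∀ (n : ℕ) (t : AType2 n) (F : Type) [Field F] [Algebra (ZMod 2) F]
    (c u lam a : F) (B₁ : F[X]), lam ≠ 0 → u ≠ 0 → t.B lam c u = (X - C a) * B₁ →
    IsCoprime (t.V₁F F * (X ^ 4 + 1) ^ t.m * (X - C a) ^ 3) B₁ ∧ Squarefree B₁ ∧
      0 < B₁.natDegree

/-- **GenT.** Double transitivity of the generic Galois group.  *Model*: `Alt/GenT.lean` (case `m ≥ 2`).

*Proof.*  `N` is algebraically closed and algebraic over `L₁ = L(U, T)`.  General fact (G): if `L ≤ K₁ ≤ N` are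
fields, `N` algebraic over `K₁`, `Q ∈ K₁[X]` irreducible, `a, b ∈ N` roots of `Q`, then there is an
automorphism of `N` over `K₁` with `a ↦ b` (`N` is a normal extension of `K₁`, equal minimal polynomials).
FIRST: `F = L(U) ⊂ N`, `τ ∈ F`, `τ ≠ 0` (`U` is transcendental over `L`, `P ≠ 0`).  `e = (1 + h τ) + P τ T` is
transcendental over `F` because `T` is, and `P τ ≠ 0`; `F(e) = L(U, T)`.  `f = e^12 V₁ (X^4+1)^(m+1) + B(τ, c, u)`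
(`f_eq`), irreducible over `F(e)` by *Gen1* and *Eis*.  By (G) for `K₁ = F(e)` and any `i, l` there is `σ` over
`F(e) ∋ U, T` with `σ y_i = y_l`.
SECOND: fix `l` and let `a = y_l`, `f(a) = 0`.  `V₁(a) ≠ 0`: otherwise `V(a) = 0` (`V₁ ∣ V^k`), `V₁(a) = V₂(a) = 0` (`dvd₁`,
`dvd₂`), `f(a) = W(a) ≠ 0` (`cop`); `a ≠ 1` because `f(1) = u ≠ 0`, so `a^4 + 1 = (a+1)^4 ≠ 0`.  `f(a) = 0` gives
`τ = e^12 (a^4 + 1) + λ` with `λ = B₀(a)/(V₁(a) (a^4+1)^m) ∈ F₁ = L(a)`, `B₀ = a₁ V₁ + c V₂ + W ∈ L[X]`.  Then, with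
`X^4 + 1 + (a^4 + 1) = (X + a)^4`: `f = e^12 V₁ (X^4+1)^m (X - a)^4 + B(λ, c, u)`; the second summand vanishes at
`a`, `= (X - a) B₁`, `B₁ ∈ F₁[X]`, `f = (X - a) (e^12 V₁ (X^4+1)^m (X - a)^3 + B₁)`.  `e` is transcendental over `F₁`:
otherwise `e`, so `τ`, so `U = (τ - x)/P²` and `T = ((e-1)/τ - h)/P` are algebraic over `L(a)`, impossible for two
algebraically independent elements (transcendence degree of `L(a)` over `L` is at most `1`).  `a` is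
transcendental over `L` (else `τ` and then `U, T` would be algebraic over `L(e)`), so `B₀(a) ≠ 0` (`B₀ ≠ 0`:
`B₀(1) = u`), `λ ≠ 0`.  *Gen2* and *Eis*: `e^12 V₁ (X^4+1)^m (X - a)^3 + B₁` is irreducible over `F₁(e)`, and
`U, T ∈ F₁(e)`.  The `y_i`, `i ≠ l`, are its roots (`y` is injective), so by (G) for all `i'', l' ≠ l` there is `σ₂`
with `σ₂ a = a`, `σ₂ y_{i''} = y_{l'}`, `σ₂ U = U`, `σ₂ T = T`.  Given `i ≠ i'`, `l ≠ l'`: `σ₁ y_i = y_l` (first part),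
`σ₁ y_{i'} = y_{i''}`, `i'' ≠ l`; `σ = σ₂ σ₁`.
*Uses*: Eis (of Alt), Gen1, Gen2. -/
def GenTStmt : Prop :=
  ∀ (n : ℕ) (t : AType2 n) (L N : Type) [Field L] [Field N]
    [Algebra (ZMod 2) L] [Algebra (ZMod 2) N] [Algebra L N] [IsScalarTower (ZMod 2) L N]
    [IsAlgClosed N] (U T : N), AlgebraicIndependent L ![U, T] →
    Algebra.IsAlgebraic (IntermediateField.adjoin L {U, T}) N →
    ∀ (x h c u P : L), P ≠ 0 → u ≠ 0 →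
    ∀ (τ e : N), τ = algebraMap L N x + algebraMap L N P ^ 2 * U →
    e = 1 + (algebraMap L N h + algebraMap L N P * T) * τ →
    ∀ y : Fin n → N, Function.Injective y →
    t.f e τ (algebraMap L N c) (algebraMap L N u) = C (e ^ 12) * ∏ i, (X - C (y i)) →
    ∀ i i' l l', i ≠ i' → l ≠ l' →
      ∃ σ : N ≃ₐ[L] N, σ U = U ∧ σ T = T ∧ σ (y i) = y l ∧ σ (y i') = y l'

/-- **Trans.** Choice of the parameters: double transitivity.  *Model*: `Alt/Trans.lean`.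

*Proof.*  Let `L` be the intermediate field of the elements of `Ω` fixed by `ker ψ`;
`N = AlgebraicClosure (FractionRing (MvPolynomial (Fin 2) Ω))`, `U`, `T` the images of the variables `0`, `1`.
In `A_L = MvPolynomial (Fin 2) L`: `τ_L = C x + C P^2 X_0`, `e_L = 1 + (C h + C P X_1) τ_L`, `g = t.f e_L τ_L (C c) (C u)`,
`ℓ = e_L^12`, the nonvanishing condition `τ_L` (`τ_L ≠ 0`, `e_L ≠ 0`: `P ≠ 0`).  Over `N`: `g_N = t.f e τ c u` (`map_f`)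
is separable (*Sep*: `u ≠ 0`) of degree `n`, so `g_N = e^12 ∏ (X - η_i)` with `η` injective.  *Hilb* (of Alt, `p = 2`)
gives `u = U`, `v = T` in `𝔽₂[x]`: `e ≠ 0`, `τ ≠ 0`, and `y'`.  For `y` as in the statement: `y = y' ∘ π₀` for a
permutation `π₀` (`t.f e τ c u` over `Ω` is separable).  Given `i ≠ i'`, `l ≠ l'`: *GenT* gives `σ`; `σ` permutes the
roots of `g_N`: `σ η_a = η_{π a}`; *Hilb*: `γ`, `ψ γ = 1`, `γ y'_a = y'_{π a}`.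
*Uses*: Sep, GenT, Hilb (of Alt). -/
def TransStmt : Prop :=
  ∀ (n : ℕ) (t : AType2 n) (Ω : Type) [Field Ω] [Algebra (ZMod 2) Ω] (x : Ω),
    IsStage 2 x → ∀ (Q : Type) [Group Q] [Finite Q] (ψ : Gx 2 x →* Q), FinLevel ψ →
    Function.Surjective ψ → ∀ (h c u P : Ω),
    (∀ γ : Gx 2 x, ψ γ = 1 → (γ : Ω ≃ₐ[ZMod 2] Ω) h = h) →
    (∀ γ : Gx 2 x, ψ γ = 1 → (γ : Ω ≃ₐ[ZMod 2] Ω) c = c) →
    (∀ γ : Gx 2 x, ψ γ = 1 → (γ : Ω ≃ₐ[ZMod 2] Ω) u = u) →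
    P ∈ Algebra.adjoin (ZMod 2) {x} → P ≠ 0 → u ≠ 0 →
    ∃ U ∈ Algebra.adjoin (ZMod 2) {x}, ∃ T ∈ Algebra.adjoin (ZMod 2) {x}, ∀ τ e : Ω,
      τ = x + P ^ 2 * U → e = 1 + (h + P * T) * τ →
      τ ≠ 0 ∧ e ≠ 0 ∧ ∀ y : Fin n → Ω,
        t.f e τ c u = C (e ^ 12) * ∏ i, (X - C (y i)) →
        ∀ i i' l l', i ≠ i' → l ≠ l' → ∃ γ : Gx 2 x, ψ γ = 1 ∧
          (γ : Ω ≃ₐ[ZMod 2] Ω) (y i) = y l ∧ (γ : Ω ≃ₐ[ZMod 2] Ω) (y i') = y l'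

/-! ## Part 6.  Global assembly -/

/-- The system of polynomials with labelled roots. -/
structure AltSys2 {n : ℕ} (t : AType2 n) {Ω : Type} [Field Ω]
    [Algebra (ZMod 2) Ω] {x : Ω} {Q : Type} [Group Q] (ψ : Gx 2 x →* Q) {k : ℕ}
    (act : Q →* Equiv.Perm (Fin k)) (ε : Q → Fin k → ℤˣ) (j₀ : Fin k)
    (V₁ : ValuationSubring Ω) (e τ c u : Fin k → Ω) (y : Fin k → Fin n → Ω) : Prop where
  he : ∀ (γ : Gx 2 x) j, (γ : Ω ≃ₐ[ZMod 2] Ω) (e j) = e (act (ψ γ) j)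
  hτ : ∀ (γ : Gx 2 x) j, (γ : Ω ≃ₐ[ZMod 2] Ω) (τ j) = τ (act (ψ γ) j)
  hc : ∀ (γ : Gx 2 x) j, (γ : Ω ≃ₐ[ZMod 2] Ω) (c j) = c (act (ψ γ) j)
  hu : ∀ (γ : Gx 2 x) j, (γ : Ω ≃ₐ[ZMod 2] Ω) (u j) = u (act (ψ γ) j)
  ne : ∀ j, e j ≠ 0
  inte : ∀ j, IsIntegral (Algebra.adjoin (ZMod 2) {x}) (e j)
  intτ : ∀ j, IsIntegral (Algebra.adjoin (ZMod 2) {x}) (τ j)
  intc : ∀ j, IsIntegral (Algebra.adjoin (ZMod 2) {x}) (c j)
  intu : ∀ j, IsIntegral (Algebra.adjoin (ZMod 2) {x}) (u j)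
  unit : ∀ V : ValuationSubring Ω, x ∈ V → ∀ j, V.valuation (e j) < 1 → V.valuation (τ j) = 1
  cpr : ∀ V : ValuationSubring Ω, x ∈ V → ∀ j,
    V.valuation (u j) = 1 ∨ V.valuation (1 + c j) = 1
  inj : ∀ j, Function.Injective (y j)
  fac : ∀ j, t.f (e j) (τ j) (c j) (u j) = C (e j ^ 12) * ∏ i, (X - C (y j i))
  sgn : ∀ (γ : Gx 2 x) j (ρ : Equiv.Perm (Fin n)),
    (∀ i, (γ : Ω ≃ₐ[ZMod 2] Ω) (y j i) = y (act (ψ γ) j) (ρ i)) →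
      Equiv.Perm.sign ρ = ε (ψ γ) j
  top : V₁ ≠ ⊤
  mem : x ∈ V₁
  dec : ∀ γ : Gx 2 x, (γ : Ω ≃ₐ[ZMod 2] Ω) ∈ Dec 2 V₁ → ψ γ = 1
  e₀ : V₁.valuation (e j₀) < 1
  e₁ : ∀ j, j ≠ j₀ → V₁.valuation (e j) = 1
  res : ∃ x₀ ∈ Cst 2 Ω, V₁.valuation (x - x₀) < 1 ∧ ∃ τ₀ ∈ Cst 2 Ω,
    V₁.valuation (τ j₀ - τ₀) = V₁.valuation (x - x₀)
  tr2 : ∀ i i' l l', i ≠ i' → l ≠ l' → ∃ γ : Gx 2 x, ψ γ = 1 ∧
    (γ : Ω ≃ₐ[ZMod 2] Ω) (y j₀ i) = y j₀ l ∧ (γ : Ω ≃ₐ[ZMod 2] Ω) (y j₀ i') = y j₀ l'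

/-- **Sys.** Existence of the system.  *Model*: `Alt/Sys.lean`.

*Proof.*  `c, u, δ` from *Cpr* (for the `κ` of `HasCls`).  `V₁, x₀, P` from *Par* (of Alt, `p = 2`) with `B = {0}`;
`x₀ ≠ 0` is fixed by `Gx ⊓ Dec V₁` (`γ x = x` implies `|x - γ x₀| < 1`, so `γ x₀ = x₀`, uniqueness in *Res*), so is
`a = x₀⁻¹`; `h` from *Par* for this `a`.  *Trans* for `h_{j₀}, c_{j₀}, u_{j₀}, P` (fixed by `ker ψ`, `act 1 = 1`): `U, T`.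
`τ_j = τ = x + P² U` (the same for all `j`, fixed by `Gx`), `e_j = 1 + (h_j + P T) τ`; equivariant and integral.
`e_{j₀} ≠ 0`, so all `e_j ≠ 0` (transitivity).  `unit`: `x ∈ V`: all integral elements are in `V`; `|e_j| < 1` implies
`|(h_j + P T) τ| = 1`, both factors are in `V`, so `|τ| = 1`.  *Lab* for each `j` with `δ_j`: `y_j` with
`bsum y_j = δ_j + C_j²/u_j + Σ_i ρ(y_{j,i})`.  `sgn`: `γ y_{j,i} = y_{j',ρ i}`, `j' = act (ψ γ) j`: `γ (bsum y_j) = bsum (y_{j'} ∘ ρ) =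
bsum y_{j'} + chi (sign ρ)` (*Prm*), and `γ (bsum y_j) = γ δ_j + C_{j'}²/u_{j'} + Σ_i ρ(y_{j',ρ i}) = δ_{j'} + chi (ε) + C_{j'}²/u_{j'} +
Σ_i ρ(y_{j',i})`; so `chi (sign ρ) = chi (ε (ψ γ) j)` in `Ω`, the signs agree (`0 ≠ 1`).  At `V₁`: `|P| ≤ |x - x₀| < 1`, so
`|τ - x₀| = |x - x₀ + P² U| = |x - x₀|`: `τ₀ = x₀`.  `e₀`: `e_{j₀} = 1 + (h + P T) τ`, `h ≡ x₀⁻¹`, `τ ≡ x₀`, `1 + 1 = 0`.
`e₁`: `h_j + P T ≡ 0`, `τ ∈ V₁`.  `tr2`: *Trans*.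
*Uses*: Res (of BR), Prm, Lab, Cpr, Trans, Par (of Alt). -/
def SysStmt : Prop :=
  ∀ (n : ℕ) (t : AType2 n) (κ : ZMod 2) (ρn ρd : (ZMod 2)[X]), HasCls t κ ρn ρd →
    ∀ (Ω : Type) [Field Ω] [Algebra (ZMod 2) Ω] (x : Ω),
    IsStage 2 x → ∀ (Q : Type) [Group Q] [Finite Q] (ψ : Gx 2 x →* Q), FinLevel ψ →
    Function.Surjective ψ →
    ∀ (k : ℕ) (act : Q →* Equiv.Perm (Fin k)) (ε : Q → Fin k → ℤˣ) (j₀ : Fin k),
    (∀ a b j, ε (a * b) j = ε a (act b j) * ε b j) → (∀ j, ∃ q, act q j₀ = j) →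
    ∃ (V₁ : ValuationSubring Ω) (e τ c u : Fin k → Ω) (y : Fin k → Fin n → Ω),
      AltSys2 t ψ act ε j₀ V₁ e τ c u y

/-- **Hom.** The homomorphism defined by a system.  *Model*: `Alt/Hom.lean` (same proof). -/
def HomStmt : Prop :=
  ∀ (n : ℕ) (t : AType2 n) (Ω : Type) [Field Ω] [Algebra (ZMod 2) Ω] (x : Ω)
    (Q : Type) [Group Q] (ψ : Gx 2 x →* Q) (k : ℕ) (act : Q →* Equiv.Perm (Fin k))
    (ε : Q → Fin k → ℤˣ) (j₀ : Fin k) (V₁ : ValuationSubring Ω) (e τ c u : Fin k → Ω)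
    (y : Fin k → Fin n → Ω), FinLevel ψ → AltSys2 t ψ act ε j₀ V₁ e τ c u y →
    ∀ (E : Type) [Group E] (π : E →* Q) (T : E → Fin k → Equiv.Perm (Fin n)),
    (∀ g g' j, T (g * g') j = T g (act (π g') j) * T g' j) →
    (∀ g j, Equiv.Perm.sign (T g j) = ε (π g) j) →
    (∀ (q : Q) (τ : Fin k → Equiv.Perm (Fin n)), (∀ j, Equiv.Perm.sign (τ j) = ε q j) →
      ∃! g : E, π g = q ∧ T g = τ) →
    ∃ Ψ : Gx 2 x →* E, FinLevel Ψ ∧ (∀ γ, π (Ψ γ) = ψ γ) ∧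
      ∀ (γ : Gx 2 x) j i, (γ : Ω ≃ₐ[ZMod 2] Ω) (y j i) = y (act (ψ γ) j) (T (Ψ γ) j i)

/-- **SOf.** The invariant (S), and a product of two transpositions.  *Model*: `Alt/SOf.lean`.

*Proof.*  (1) Let `V` be a valuation ring of `Ω`, `V ≠ ⊤`, `x ∈ V`, `γ ∈ Gx ⊓ Inert V`, `ψ γ = 1`.  For each `j` the
permutation `ρ = T (Ψ γ) j` satisfies `γ y_{j,i} = y_{j, ρ i}` and has sign `ε(1)_j = 1`; `e_j, τ_j, c_j, u_j ∈ V` (integral)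
are fixed by `γ`.  If `|e_j| = 1`: `ρ = 1` (*LocA*, `cpr`); if `|e_j| < 1`: `|τ_j| = 1` (`unit`) and `ρ² = 1` (*LocB*).
So `T ((Ψ γ)²) j = ρ² = 1` (multiplication rule, `act 1 = 1`), and `(Ψ γ)² = 1` (uniqueness).
(S): let `V` be `ℓ`-bad, `ℓ ≠ 2`; `x ∈ V`; `γ ∈ Gx ⊓ Inert V`, `m` the order of `ψ γ`, prime to `ℓ` (`SInv` for `ψ`).
`γ^m ∈ ker ψ`, so `(Ψ γ)^(2m) = 1`; the order of `Ψ γ` divides `2m` and is prime to `ℓ`.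
(2) `V = V₁`: *Wild* for `j₀`: `δ ∈ Gx ⊓ Inert V₁` with `δ y_{j₀,i} ≠ y_{j₀,i}` for some `i`.  `ρ = T (Ψ δ) j₀ ≠ 1`,
`ρ² = 1`, `ρ i = i` if `y_{j₀,i} ∈ V₁` (*LocB*), so the support has at most four elements (*LocN*).  For `j ≠ j₀`
`|e_j| = 1` and `T (Ψ δ) j = 1` (*LocA*).
*Uses*: LocA, LocB, LocN, Wild. -/
def SOfStmt : Prop :=
  ∀ (n : ℕ) (t : AType2 n) (Ω : Type) [Field Ω] [Algebra (ZMod 2) Ω] (x : Ω),
    IsStage 2 x → ∀ (Q : Type) [Group Q] [Finite Q] (ψ : Gx 2 x →* Q) (k : ℕ)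
    (act : Q →* Equiv.Perm (Fin k)) (ε : Q → Fin k → ℤˣ) (j₀ : Fin k)
    (V₁ : ValuationSubring Ω) (e τ c u : Fin k → Ω)
    (y : Fin k → Fin n → Ω), SInv 2 x ψ → AltSys2 t ψ act ε j₀ V₁ e τ c u y →
    ∀ (E : Type) [Group E] (π : E →* Q) (T : E → Fin k → Equiv.Perm (Fin n)),
    (∀ g g' j, T (g * g') j = T g (act (π g') j) * T g' j) →
    (∀ g j, Equiv.Perm.sign (T g j) = ε (π g) j) →
    (∀ (q : Q) (τ : Fin k → Equiv.Perm (Fin n)), (∀ j, Equiv.Perm.sign (τ j) = ε q j) →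
      ∃! g : E, π g = q ∧ T g = τ) →
    ∀ Ψ : Gx 2 x →* E, (∀ γ, π (Ψ γ) = ψ γ) →
      (∀ (γ : Gx 2 x) j i, (γ : Ω ≃ₐ[ZMod 2] Ω) (y j i) = y (act (ψ γ) j) (T (Ψ γ) j i)) →
      SInv 2 x Ψ ∧ ∃ δ : Gx 2 x, (δ : Ω ≃ₐ[ZMod 2] Ω) ∈ Fx 2 (Cst 2 Ω : Set Ω) ∧ ψ δ = 1 ∧
        T (Ψ δ) j₀ ≠ 1 ∧ T (Ψ δ) j₀ ^ 2 = 1 ∧ Equiv.Perm.sign (T (Ψ δ) j₀) = 1 ∧
        (T (Ψ δ) j₀).support.card ≤ 4 ∧ ∀ j, j ≠ j₀ → T (Ψ δ) j = 1

/-! ## Part 7.  Group theory -/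

/-- **Com.** Two involutions whose supports have exactly one common point: the commutator is a
`3`-cycle.

*Proof.*  Let `a` be the common point, `e = τ a ≠ a`, `τ' = swap a e * τ` (so `τ = swap a e * τ'`; `τ' a = a`,
`τ' e = e`).  `σ` fixes `e` and all points moved by `τ'` (they are in the support of `τ` and different from
`a`), so `σ` commutes with `τ'`, and `σ τ σ⁻¹ = swap (σ a) e * τ'`.  `σ τ σ⁻¹ τ⁻¹ = swap (σ a) e * τ' * τ'⁻¹ * swap a e =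
swap (σ a) e * swap a e`, a `3`-cycle (`Equiv.Perm.isThreeCycle_swap_mul_swap_same`; `a`, `e`, `σ a` are
distinct: `σ a ≠ a`; `σ a = e` would imply `e ∈ support σ`). -/
def ComStmt : Prop :=
  ∀ (n : ℕ) (σ τ : Equiv.Perm (Fin n)), τ ^ 2 = 1 → (σ.support ∩ τ.support).card = 1 →
    (σ * τ * σ⁻¹ * τ⁻¹).IsThreeCycle

/-- **Cnt.** In a doubly transitive group of degree `n ≥ 11` every set of four points has a translate which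
meets it in exactly one point.

*Proof.*  Let `X_g = |S ∩ g S|`, `S` the set, `|S| = 4`.  Transitivity: for all `s, s'` the number of the `g ∈ G` with
`g s = s'` is `|G|/n`, so `Σ_g X_g = 16 |G|/n`.  Double transitivity: for pairs `s₁ ≠ s₂`, `s₁' ≠ s₂'` the number of the
`g` with `g s_i = s_i'` is `|G|/(n(n-1))`, so `Σ_g X_g (X_g - 1) = 144 |G|/(n(n-1))` (ordered pairs of different points of
`S ∩ g S`).  If `X_g ≠ 1` for all `g` then `X_g (X_g - 1) ≥ X_g` for all `g`, so `144/(n(n-1)) ≥ 16/n`, `n - 1 ≤ 9`,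
contradiction.  (The numbers of `g`: cosets of the stabilizers; or double counting: the number `N(s, s')` of
the `g ∈ G` with `g s = s'` does not depend on `s'` by transitivity (multiply by an element of `G`) and
`Σ_{s'} N(s, s') = |G|`.) -/
def CntStmt : Prop :=
  ∀ (n : ℕ) (G : Subgroup (Equiv.Perm (Fin n))), 11 ≤ n →
    (∀ i i' l l' : Fin n, i ≠ i' → l ≠ l' → ∃ g ∈ G, g i = l ∧ g i' = l') →
    ∀ S : Finset (Fin n), S.card = 4 → ∃ g ∈ G, (S ∩ S.image g).card = 1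

/-- **Jor.** Recognition of the alternating group.

*Proof.*  `σ² = 1`, `σ ≠ 1`, so the support has an even number of elements, and `sign σ = (-1)^(|support|/2) = 1`
(`Equiv.Perm.sign_of_pow_two_eq_one`) gives `|support| = 4`.  *Cnt* for `S = support σ`: `g ∈ G`, `τ = g σ g⁻¹`, support
`g S`, meets `S` in one point; *Com*: `σ τ σ⁻¹ τ⁻¹ ∈ G` is a `3`-cycle.  `G` is `2`-transitive, so primitive
(`MulAction.isPreprimitive_of_is_two_pretransitive`), and contains the alternating group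
(`Equiv.Perm.alternatingGroup_le_of_isPreprimitive_of_isThreeCycle_mem`).  *Model*: `Alt/Jor.lean`.
*Uses*: Com, Cnt. -/
def JorStmt : Prop :=
  ∀ (n : ℕ) (G : Subgroup (Equiv.Perm (Fin n))), 11 ≤ n →
    ∀ σ ∈ G, σ ≠ 1 → σ ^ 2 = 1 → Equiv.Perm.sign σ = 1 → σ.support.card ≤ 4 →
    (∀ i i' l l' : Fin n, i ≠ i' → l ≠ l' → ∃ g ∈ G, g i = l ∧ g i' = l') →
    alternatingGroup (Fin n) ≤ G

/-- The alternating groups of the theorem for `p = 2`. -/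
def IsAlt2 (S : Type) [Group S] : Prop :=
  ∃ n : ℕ, 11 ≤ n ∧ Nonempty (S ≃* alternatingGroup (Fin n))

/-- **AStep.** The alternating step for `p = 2`.  *Model*: `Alt/AStep.lean`.

*Proof.*  Let `S ≃ A_n`, `κ` finite with `k` elements: `φ : f.ker ≃* (Fin k → A_n)`.  If `k = 0` the kernel is
trivial, `f` is an isomorphism, `ψ' = f⁻¹ ∘ ψ`, `x' = x`.  Otherwise `t : AType2 n` with `HasCls` from *Typ*, `j₀ : Fin k`,
the data from *Act* (of Alt); `ψ` is onto (`GoodR.reg`); *Sys*, *Hom* (with `π = f`), *SOf* give `Ψ`, `δ`.  Let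
`G₀ ≤ Perm (Fin n)` be the set of the `T (Ψ γ) j₀`, `ψ γ = 1` (a subgroup by the multiplication rule, `act 1 = 1`);
it satisfies the conditions of *Jor*: `tr2` of the system, `σ = T (Ψ δ) j₀`.  So `A_n ≤ G₀`.  *Grp* (of Alt) with
`Γ = Gx`, `Γ₀` = the elements of `Gx` which fix `𝔽`; the hypothesis on `Γ₀` is `GoodR.reg` of `ψ`.  So `Ψ` satisfies
`reg`; `fin` by *Hom*, `inv` by *SOf*.
*Uses*: Typ, Act (of Alt), Sys, Hom, SOf, Jor, Grp (of Alt). -/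
def AStepStmt : Prop := LieStep 2 (fun S [Group S] => IsAlt2 S)

end MP7Z.A2
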